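import Pool.Agent.Lib.MP_369ee2_lc.RDefs

/-!
# Conditional expectation and measure preserving maps (module CE)
-/

namespace MSch

open Function MeasureTheory

private theorem condExp_comp_mp_aux {Ω Ω' : Type*} {m : MeasurableSpace Ω'}
    {mΩ : MeasurableSpace Ω} {mΩ' : MeasurableSpace Ω'}
    {μ : Measure Ω} {ν : Measure Ω'} [IsProbabilityMeasure μ] [IsProbabilityMeasure ν]
    {φ : Ω → Ω'} (hφ : MeasurePreserving φ μ ν) (hm : m ≤ mΩ')
    {f : Ω' → ℝ} (hf : Integrable f ν) :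
    μ[f ∘ φ | m.comap φ] =ᵐ[μ] (ν[f | m]) ∘ φ := by
  have hle : m.comap φ ≤ mΩ := (MeasurableSpace.comap_mono hm).trans hφ.measurable.comap_le
  have hfi : Integrable (f ∘ φ) μ := hφ.integrable_comp_of_integrable hf
  have hci : Integrable ((ν[f | m]) ∘ φ) μ :=
    hφ.integrable_comp_of_integrable integrable_condExp
  refine (ae_eq_condExp_of_forall_setIntegral_eq hle hfi (fun s _ _ => hci.integrableOn) ?_ ?_).symm
  · rintro _ ⟨F, hF, rfl⟩ _
    have hF' : MeasurableSet F := hm F hF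
    have h1 : ∫ x in φ ⁻¹' F, ((ν[f | m]) ∘ φ) x ∂μ = ∫ y in F, (ν[f | m]) y ∂ν := by
      conv_rhs => rw [← hφ.map_eq]
      rw [setIntegral_map hF' (by rw [hφ.map_eq]; exact integrable_condExp.aestronglyMeasurable)
        hφ.aemeasurable, hφ.map_eq]
      rfl
    have h2 : ∫ x in φ ⁻¹' F, (f ∘ φ) x ∂μ = ∫ y in F, f y ∂ν := by
      conv_rhs => rw [← hφ.map_eq]
      rw [setIntegral_map hF' (by rw [hφ.map_eq]; exact hf.aestronglyMeasurable) hφ.aemeasurable]
      rfl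
    rw [h1, h2]
    exact setIntegral_condExp hm hf hF
  · exact (stronglyMeasurable_condExp.comp_measurable
      (comap_measurable φ)).aestronglyMeasurable

theorem condExp_comp_mp {Ω Ω' : Type*} {mΩ : MeasurableSpace Ω} {mΩ' : MeasurableSpace Ω'}
    {μ : Measure Ω} {ν : Measure Ω'} [IsProbabilityMeasure μ] [IsProbabilityMeasure ν]
    {φ : Ω → Ω'} (hφ : MeasurePreserving φ μ ν) {m : MeasurableSpace Ω'} (hm : m ≤ mΩ')
    {f : Ω' → ℝ} (hf : Integrable f ν) :
    μ[f ∘ φ | m.comap φ] =ᵐ[μ] (ν[f | m]) ∘ φ :=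
  condExp_comp_mp_aux hφ hm hf

end MSch
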