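import Pool.Agent.Lib.MP_369ee2_lc.SigmaAPI
import Pool.Agent.Lib.MP_369ee2_lc.CondExpMP

/-!
# Absorption (module AL)
-/

namespace MSch

open Function MeasureTheory

namespace Absorb

theorem bdd_condExp {Ω : Type*} {m m₀ : MeasurableSpace Ω} {μ : Measure Ω} {g : Ω → ℝ} {C : ℝ}
    (hC : ∀ ω, |g ω| ≤ C) : ∀ᵐ ω ∂μ, |(μ[g | m]) ω| ≤ C := by
  exact ae_bdd_abs_condExp_of_ae_bdd_abs (Filter.Eventually.of_forall hC)

/-- Two conditional expectations on nested σ-algebras with the same second moment agree. -/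
theorem eq_of_sq {Ω : Type*} {m₁ m₂ m₀ : MeasurableSpace Ω} {μ : Measure Ω}
    [IsProbabilityMeasure μ] (h12 : m₁ ≤ m₂) (h20 : m₂ ≤ m₀) {g : Ω → ℝ}
    {C : ℝ} (hC : ∀ ω, |g ω| ≤ C)
    (hsq : ∫ ω, (μ[g | m₂]) ω ^ 2 ∂μ = ∫ ω, (μ[g | m₁]) ω ^ 2 ∂μ) :
    μ[g | m₂] =ᵐ[μ] μ[g | m₁] := by
  set M := μ[g | m₁] with hM
  set M' := μ[g | m₂] with hM'
  have hMi : Integrable M μ := integrable_condExp
  have hM'i : Integrable M' μ := integrable_condExp
  have hMb : ∀ᵐ ω ∂μ, |M ω| ≤ C := bdd_condExp hC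
  have hM'b : ∀ᵐ ω ∂μ, |M' ω| ≤ C := bdd_condExp hC
  have hMm : StronglyMeasurable[m₁] M := stronglyMeasurable_condExp
  have hMM' : Integrable (M * M') μ :=
    hM'i.bdd_mul (c := C) (hMi.aestronglyMeasurable) (by
      filter_upwards [hMb] with ω h
      rw [Real.norm_eq_abs]; exact h)
  have hMM : Integrable (fun ω => M ω ^ 2) μ := by
    have := hMi.bdd_mul (c := C) (hMi.aestronglyMeasurable) (by
      filter_upwards [hMb] with ω h
      rw [Real.norm_eq_abs]; exact h)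
    refine this.congr (Filter.Eventually.of_forall fun ω => ?_)
    simp only [sq]
  have hM'M' : Integrable (fun ω => M' ω ^ 2) μ := by
    have := hM'i.bdd_mul (c := C) (hM'i.aestronglyMeasurable) (by
      filter_upwards [hM'b] with ω h
      rw [Real.norm_eq_abs]; exact h)
    refine this.congr (Filter.Eventually.of_forall fun ω => ?_)
    simp only [sq]
  -- the cross term
  have htower : μ[M' | m₁] =ᵐ[μ] M := condExp_condExp_of_le h12 h20
  have hpull : μ[M * M' | m₁] =ᵐ[μ] M * μ[M' | m₁] :=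
    condExp_mul_of_stronglyMeasurable_left hMm hMM' hM'i
  have hcross : ∫ ω, M ω * M' ω ∂μ = ∫ ω, M ω ^ 2 ∂μ := by
    calc ∫ ω, M ω * M' ω ∂μ = ∫ ω, (μ[M * M' | m₁]) ω ∂μ :=
          (integral_condExp (h12.trans h20)).symm
      _ = ∫ ω, M ω ^ 2 ∂μ := by
          refine integral_congr_ae ?_
          filter_upwards [htower, hpull] with ω h1 h2
          rw [h2, Pi.mul_apply, h1, sq]
  have hzero : ∫ ω, (M' ω - M ω) ^ 2 ∂μ = 0 := by
    have e : ∀ ω, (M' ω - M ω) ^ 2 = (M' ω ^ 2 - 2 * (M ω * M' ω)) + M ω ^ 2 := fun ω => by ring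
    simp only [e]
    have hi2 : Integrable (fun ω => 2 * (M ω * M' ω)) μ := hMM'.const_mul 2
    have hi3 : Integrable (fun ω => M' ω ^ 2 - 2 * (M ω * M' ω)) μ := hM'M'.sub hi2
    rw [integral_add hi3 hMM, integral_sub hM'M' hi2, integral_const_mul, hcross, hsq]
    ring
  have hdi : Integrable (fun ω => (M' ω - M ω) ^ 2) μ := by
    have hi2 : Integrable (fun ω => 2 * (M ω * M' ω)) μ := hMM'.const_mul 2
    refine ((hM'M'.sub hi2).add hMM).congr (Filter.Eventually.of_forall fun ω => ?_)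
    simp only [Pi.add_apply, Pi.sub_apply]
    ring
  have hae := (integral_eq_zero_iff_of_nonneg (fun ω => sq_nonneg (M' ω - M ω)) hdi).1 hzero
  filter_upwards [hae] with ω h
  have h' : (M' ω - M ω) ^ 2 = 0 := h
  have := pow_eq_zero_iff (two_ne_zero) |>.1 h'
  linarith

/-- The relabelling which collapses `S'` to `S` and fixes a finite part of `S` and everything
outside `S'`. -/
theorem exists_relabel (S S' F : Set ℕ) (hSS : S ⊆ S') (hS : S.Infinite) (hF : F ⊆ S)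
    (hFf : F.Finite) : ∃ φ : ℕ ↪ ℕ, φ '' S' = S ∧ (∀ n ∈ F, φ n = n) ∧ ∀ n, n ∉ S' → φ n = n := by
  classical
  have i1 : Infinite (S' \ F : Set ℕ) := ((hS.mono hSS).sdiff hFf).to_subtype
  have i2 : Infinite (S \ F : Set ℕ) := (hS.sdiff hFf).to_subtype
  obtain ⟨e⟩ := nonempty_equiv_of_countable (α := (S' \ F : Set ℕ)) (β := (S \ F : Set ℕ))
  let φ : ℕ → ℕ := fun n => if h : n ∈ S' \ F then (e ⟨n, h⟩ : ℕ) else n
  have hφ1 : ∀ (n : ℕ) (h : n ∈ S' \ F), φ n = e ⟨n, h⟩ := fun n h => dif_pos h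
  have hφ2 : ∀ n : ℕ, n ∉ S' \ F → φ n = n := fun n h => dif_neg h
  have hmem : ∀ (n : ℕ) (h : n ∈ S' \ F), φ n ∈ S \ F := fun n h => by
    rw [hφ1 n h]; exact (e ⟨n, h⟩).2
  have hinj : Injective φ := by
    intro a b hab
    by_cases ha : a ∈ S' \ F
    · by_cases hb : b ∈ S' \ F
      · rw [hφ1 a ha, hφ1 b hb] at hab
        have := e.injective (Subtype.ext hab)
        exact congrArg Subtype.val this
      · exfalso
        have h1 := hmem a ha
        rw [hab, hφ2 b hb] at h1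
        exact hb ⟨hSS h1.1, h1.2⟩
    · by_cases hb : b ∈ S' \ F
      · exfalso
        have h1 := hmem b hb
        rw [← hab, hφ2 a ha] at h1
        exact ha ⟨hSS h1.1, h1.2⟩
      · rw [hφ2 a ha, hφ2 b hb] at hab
        exact hab
  refine ⟨⟨φ, hinj⟩, ?_, ?_, ?_⟩
  · ext n
    constructor
    · rintro ⟨m, hm, rfl⟩
      change φ m ∈ S
      by_cases h : m ∈ S' \ F
      · exact (hmem m h).1
      · rw [hφ2 m h]
        have : m ∈ F := by
          by_contra hmF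
          exact h ⟨hm, hmF⟩
        exact hF this
    · intro hn
      by_cases hnF : n ∈ F
      · refine ⟨n, hSS hn, ?_⟩
        exact hφ2 n (fun h => h.2 hnF)
      · refine ⟨e.symm ⟨n, hn, hnF⟩, (e.symm ⟨n, hn, hnF⟩).2.1, ?_⟩
        change φ _ = n
        rw [hφ1 _ (e.symm ⟨n, hn, hnF⟩).2]
        simp
  · intro n hn
    exact hφ2 n (fun h => h.2 hn)
  · intro n hn
    exact hφ2 n (fun h => hn h.1)

end Absorb

open Absorb

namespace Realisation

variable {L : TypeSystem} (R : Realisation L)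

theorem absorb {J : Type} [Finite J] (S S' : Set ℕ) (hSS : S ⊆ S') (hS : S.Infinite)
    (Rs : J → Set ℕ) (hRf : ∀ j, (Rs j).Finite) (hRd : ∀ j, Disjoint (Rs j) S')
    {k : ℕ} (a : Fin k ↪ ℕ) (ha : Set.range a ⊆ S ∪ ⋃ j, Rs j) (f : L.T k → ℝ) :
    R.P[f ∘ R.t a | ⨆ j, R.G (S' ∪ Rs j)] =ᵐ[R.P] R.P[f ∘ R.t a | ⨆ j, R.G (S ∪ Rs j)] := by
  obtain ⟨φ, hφS, hφF, hφo⟩ := exists_relabel S S' (S ∩ Set.range a) hSS hS
    Set.inter_subset_left ((Set.finite_range a).inter_of_right S)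
  have hR : ∀ j, ∀ n ∈ Rs j, φ n = n := fun j n hn =>
    hφo n (fun h => (Set.disjoint_left.1 (hRd j)) hn h)
  have haφ : a.trans φ = a := by
    ext i
    change φ (a i) = a i
    rcases ha ⟨i, rfl⟩ with h | h
    · exact hφF _ ⟨h, ⟨i, rfl⟩⟩
    · obtain ⟨j, hj⟩ := Set.mem_iUnion.1 h
      exact hR j _ hj
  have himg : ∀ j, φ '' (S' ∪ Rs j) = S ∪ Rs j := fun j => by
    rw [Set.image_union, hφS]
    congr 1
    ext n
    constructor
    · rintro ⟨m, hm, rfl⟩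
      rw [hR j m hm]; exact hm
    · intro hn
      exact ⟨n, hn, hR j n hn⟩
  have hcomap : (⨆ j, R.G (S' ∪ Rs j)).comap (R.shift φ) = ⨆ j, R.G (S ∪ Rs j) := by
    rw [MeasurableSpace.comap_iSup]
    exact iSup_congr fun j => by rw [R.comap_shift_G, himg]
  have hbig : (⨆ j, R.G (S' ∪ Rs j)) ≤ R.mΩ := iSup_le fun j => R.G_le _
  have hle : (⨆ j, R.G (S ∪ Rs j)) ≤ ⨆ j, R.G (S' ∪ Rs j) :=
    iSup_mono fun j => R.G_mono (Set.union_subset_union_left _ hSS)
  have hg : Measurable (f ∘ R.t a) := (measurable_from_top (f := f)).comp (R.meas a)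
  obtain ⟨C, hC⟩ : ∃ C : ℝ, ∀ ω, |(f ∘ R.t a) ω| ≤ C := by
    obtain ⟨C, hC⟩ := (Set.finite_range fun τ : L.T k => |f τ|).bddAbove
    exact ⟨C, fun ω => hC ⟨R.t a ω, rfl⟩⟩
  have hgi : Integrable (f ∘ R.t a) R.P :=
    Integrable.of_bound hg.aestronglyMeasurable C
      (Filter.Eventually.of_forall fun ω => by rw [Real.norm_eq_abs]; exact hC ω)
  have hinv : (f ∘ R.t a) ∘ R.shift φ = f ∘ R.t a := by
    funext ω
    simp only [Function.comp]
    rw [R.t_shift, haφ]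
  have hce := condExp_comp_mp (R.shift_mp φ) hbig hgi
  rw [hinv, hcomap] at hce
  refine eq_of_sq hle hbig hC ?_
  calc ∫ ω, (R.P[f ∘ R.t a | ⨆ j, R.G (S' ∪ Rs j)]) ω ^ 2 ∂(R.P)
      = ∫ ω, (R.P[f ∘ R.t a | ⨆ j, R.G (S' ∪ Rs j)]) (R.shift φ ω) ^ 2 ∂(R.P) := by
        conv_lhs => rw [← (R.shift_mp φ).map_eq]
        rw [integral_map (R.shift_mp φ).aemeasurable, (R.shift_mp φ).map_eq]
        rw [(R.shift_mp φ).map_eq]
        exact (integrable_condExp.aestronglyMeasurable).pow 2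
    _ = ∫ ω, (R.P[f ∘ R.t a | ⨆ j, R.G (S ∪ Rs j)]) ω ^ 2 ∂(R.P) := by
        refine integral_congr_ae ?_
        filter_upwards [hce] with ω h
        rw [h]
        rfl

end Realisation

end MSch
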