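import Mathlib

/-!
# Module H (MP_369ee2_lc): finitely generated rings have non-invertible primes
-/

namespace MSch

private theorem int_jacobson : IsJacobsonRing ℤ := by
  rw [isJacobsonRing_iff_prime_eq]
  intro P hP
  by_cases hb : P = ⊥
  · subst hb
    rw [eq_bot_iff]
    intro x hx
    rw [Ideal.mem_jacobson_bot] at hx
    have h1 := Int.isUnit_iff.mp (hx x)
    rw [Ideal.mem_bot]
    rcases h1 with h1 | h1
    · have : x * x = 0 := by linarith
      simpa using this
    · nlinarith [mul_self_nonneg x]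
  · have hm : P.IsMaximal := IsPrime.to_maximal_ideal hb
    exact Ideal.jacobson_eq_self_of_isMaximal

/-- a finitely generated subring of the reals does not contain the inverses of all factorials -/
theorem no_unit_factorials {K : ℕ} (μ : Fin K → ℝ)
    (h : ∀ s : ℕ, ∃ r ∈ Algebra.adjoin ℤ (Set.range μ), (1 : ℝ) = (s.factorial : ℝ) * r) :
    False := by
  set A : Subalgebra ℤ ℝ := Algebra.adjoin ℤ (Set.range μ) with hA
  have hfg : A.FG := by
    refine Subalgebra.fg_def.mpr ⟨Set.range μ, Set.finite_range μ, rfl⟩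
  have : Algebra.FiniteType ℤ A := A.fg_iff_finiteType.mp hfg
  obtain ⟨M, hM⟩ := Ideal.exists_maximal A
  let : Field (A ⧸ M) := Ideal.Quotient.field M
  have : Algebra.FiniteType ℤ (A ⧸ M) := inferInstance
  have := int_jacobson
  have hfin : Module.Finite ℤ (A ⧸ M) := finite_of_finite_type_of_isJacobsonRing ℤ (A ⧸ M)
  have : Algebra.IsIntegral ℤ (A ⧸ M) := Algebra.IsIntegral.of_finite ℤ (A ⧸ M)
  have hnot : ¬ Function.Injective (algebraMap ℤ (A ⧸ M)) := fun hinj =>
    Int.not_isField (isField_of_isIntegral_of_isField hinj (Field.toIsField (A ⧸ M)))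
  obtain ⟨n, hn0, hn⟩ : ∃ n : ℤ, n ≠ 0 ∧ algebraMap ℤ (A ⧸ M) n = 0 := by
    by_contra hcon
    push Not at hcon
    refine hnot ((injective_iff_map_eq_zero _).mpr fun a ha => ?_)
    by_contra ha0
    exact hcon a ha0 ha
  obtain ⟨r, hr, h1⟩ := h n.natAbs
  have hdvd : (n : ℤ) ∣ ((n.natAbs.factorial : ℕ) : ℤ) := by
    rw [← Int.natAbs_dvd]
    exact_mod_cast Nat.dvd_factorial (Int.natAbs_pos.mpr hn0) le_rfl
  obtain ⟨c, hc⟩ := hdvd
  have hzero : ((n.natAbs.factorial : ℕ) : A ⧸ M) = 0 := by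
    have : algebraMap ℤ (A ⧸ M) ((n.natAbs.factorial : ℕ) : ℤ) = 0 := by
      rw [hc, map_mul, hn, zero_mul]
    simpa using this
  have hone : (1 : A) = ((n.natAbs.factorial : ℕ) : A) * ⟨r, hr⟩ := by
    apply Subtype.ext
    push_cast
    simpa using h1
  have := congrArg (Ideal.Quotient.mk M) hone
  rw [map_one, map_mul, map_natCast, hzero, zero_mul] at this
  exact one_ne_zero this

end MSch
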