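import Pool.Agent.Lib.MP_369ee2_lc.Singletons

/-!
# Few bad tuples (module I4b)
-/

namespace MSch

open Function Filter
open scoped Topology BigOperators

namespace BadTup

/-- double counting: if every line in direction `i` meets `S` in at most `K` points -/
theorem count_update {V : Type} [Fintype V] [DecidableEq V] {t : ℕ} (S : Finset (Fin t → V))
    (i : Fin t) (K : ℝ)
    (h : ∀ x : Fin t → V, ((Finset.univ.filter (fun v : V => Function.update x i v ∈ S)).card : ℝ)
      ≤ K) :
    (S.card : ℝ) * Fintype.card V ≤ K * (Fintype.card V : ℝ) ^ t := by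
  classical
  have h1 : S.card * Fintype.card V =
      ∑ x : Fin t → V, (Finset.univ.filter (fun v : V => Function.update x i v ∈ S)).card := by
    rw [← Finset.card_univ (α := V), ← Finset.card_product, ← Finset.card_sigma]
    refine Finset.card_bij' (fun p _ => ⟨Function.update p.1 i p.2, p.1 i⟩)
      (fun q _ => (Function.update q.1 i q.2, q.1 i)) ?_ ?_ ?_ ?_
    · rintro ⟨x, v⟩ hx
      simp only [Finset.mem_product, Finset.mem_univ, and_true] at hx
      simp [hx]
    · rintro ⟨x, v⟩ hx
      simp only [Finset.mem_sigma, Finset.mem_univ, Finset.mem_filter, true_and] at hx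
      simp [hx]
    · rintro ⟨x, v⟩ hx
      simp
    · rintro ⟨x, v⟩ hx
      simp
  have h2 : ((S.card * Fintype.card V : ℕ) : ℝ) ≤ ∑ x : Fin t → V, K := by
    rw [h1]
    push_cast
    exact Finset.sum_le_sum (fun x _ => h x)
  rw [Finset.sum_const, Finset.card_univ, Fintype.card_fun, Fintype.card_fin, nsmul_eq_mul] at h2
  push_cast at h2
  linarith

variable {V : Type} [Fintype V] {m : ℕ}

theorem dich2 {B : ℝ} (hB : 1 ≤ B) (g : Good B V m) : ∀ (s : ℕ) (_ : s ≤ m) (x : Fin s ↪ V),
    (∃ (k : ℕ) (hk : k < s),
      (g.Q.cls ((Fin.castLEEmb hk.le).trans x : Fin k ↪ V) (x ⟨k, hk⟩)).ncard = 1) ∨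
      ((Fintype.card V : ℝ)) ^ s ≤ B ^ (s.choose 2) * g.Q.size x := by
  intro s
  induction s with
  | zero =>
    intro _ x
    right
    simp [SizeLower.size_zero]
  | succ s ih =>
    intro hs x
    have hx := SizeLower.ext_castSucc x
    have hsz : g.Q.size x = g.Q.size (Fin.castSuccEmb.trans x : Fin s ↪ V) *
        (g.Q.cls (Fin.castSuccEmb.trans x : Fin s ↪ V) (x (Fin.last s))).ncard := by
      rw [← size_ext g.Q (by omega) _ _ (SizeLower.last_notMem x), hx]
    rcases ih (by omega) (Fin.castSuccEmb.trans x : Fin s ↪ V) with ⟨k, hk, h⟩ | h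
    · left
      exact ⟨k, by omega, h⟩
    · rcases g.rich s (by omega) _ _ (SizeLower.last_notMem x) with h1 | h1
      · left
        exact ⟨s, by omega, h1⟩
      · right
        rw [hsz, pow_succ, Nat.choose_succ_succ' s 1, Nat.choose_one_right, pow_add]
        push_cast
        have hB0 : (0 : ℝ) ≤ B := by linarith
        calc (Fintype.card V : ℝ) ^ s * Fintype.card V
            ≤ (B ^ (s.choose 2) * g.Q.size (Fin.castSuccEmb.trans x : Fin s ↪ V)) *
              (B ^ s * (g.Q.cls (Fin.castSuccEmb.trans x : Fin s ↪ V)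
                (x (Fin.last s))).ncard) := by
              refine mul_le_mul h h1 (Nat.cast_nonneg _) ?_
              positivity
          _ = B ^ s * B ^ (s.choose 2) * (g.Q.size (Fin.castSuccEmb.trans x : Fin s ↪ V) *
              (g.Q.cls (Fin.castSuccEmb.trans x : Fin s ↪ V)
                (x (Fin.last s))).ncard) := by ring

end BadTup

open BadTup
/-! ## Module I4b : few bad tuples -/
theorem badTuples_le {B : ℝ} (hB : 1 ≤ B) (t : ℕ) : ∃ c : ℝ, ∃ N : ℕ, ∀ (V : Type) [Fintype V]
    (m : ℕ) (g : Good B V m), t + 2 ≤ m → N ≤ Fintype.card V →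
    (badTuples g.Q t : ℝ) * Fintype.card V ≤ c * (Fintype.card V : ℝ) ^ t := by
  obtain ⟨N, hN⟩ := exists_nat_gt (B ^ (2 * t) + B ^ (t.choose 2))
  refine ⟨(t * t : ℕ) * 1 + t * (t * B ^ t), N, ?_⟩
  intro V _ m g htm hNV
  classical
  have hB0 : (0 : ℝ) < B := by linarith
  have hn1 : B ^ (2 * t) < Fintype.card V := by
    have h1 : (0 : ℝ) < B ^ (t.choose 2) := by positivity
    have h2 : (N : ℝ) ≤ Fintype.card V := by exact_mod_cast hNV
    linarith
  have hn2 : B ^ (t.choose 2) < Fintype.card V := by
    have h1 : (0 : ℝ) < B ^ (2 * t) := by positivity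
    have h2 : (N : ℝ) ≤ Fintype.card V := by exact_mod_cast hNV
    linarith
  have hn0 : (0 : ℝ) < Fintype.card V := by
    have h1 : (0 : ℝ) < B ^ (2 * t) := by positivity
    linarith
  set bad : Finset (Fin t → V) := Finset.univ.filter (fun x => ∀ h : Injective x,
    ¬ ((Fintype.card V) ^ t < Fintype.card V * g.Q.size ⟨x, h⟩)) with hbad
  have hcard : badTuples g.Q t = bad.card := by
    unfold badTuples
    rw [Nat.card_eq_fintype_card, Fintype.card_subtype]
  set D : Fin t × Fin t → Finset (Fin t → V) := fun p =>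
    Finset.univ.filter (fun x => x p.1 = x p.2) with hD
  set S : Fin t → Finset (Fin t → V) := fun k =>
    Finset.univ.filter (fun x => ∃ h : Injective x,
      (g.Q.cls ((Fin.castLEEmb k.isLt.le).trans ⟨x, h⟩ : Fin k ↪ V) (x k)).ncard = 1) with hS
  have hsub : bad ⊆ ((Finset.univ.filter (fun p : Fin t × Fin t => p.1 ≠ p.2)).biUnion D) ∪
      (Finset.univ.biUnion S) := by
    intro x hx
    rw [hbad, Finset.mem_filter] at hx
    rw [Finset.mem_union, Finset.mem_biUnion, Finset.mem_biUnion]
    by_cases hinj : Injective x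
    · right
      rcases dich2 hB g t (by omega) ⟨x, hinj⟩ with ⟨k, hk, h⟩ | h
      · refine ⟨⟨k, hk⟩, Finset.mem_univ _, ?_⟩
        rw [hS, Finset.mem_filter]
        exact ⟨Finset.mem_univ _, hinj, h⟩
      · exfalso
        apply hx.2 hinj
        have hsz : (0 : ℝ) < g.Q.size ⟨x, hinj⟩ := by
          exact_mod_cast Singletons.size_pos g.Q _
        have h3 : ((Fintype.card V : ℝ)) ^ t < Fintype.card V * g.Q.size ⟨x, hinj⟩ := by
          refine lt_of_le_of_lt h ?_
          exact mul_lt_mul_of_pos_right hn2 hsz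
        exact_mod_cast h3
    · left
      rw [Function.Injective] at hinj
      push Not at hinj
      obtain ⟨a, b, hab, hne⟩ := hinj
      refine ⟨(a, b), ?_, ?_⟩
      · simp [hne]
      · rw [hD, Finset.mem_filter]
        exact ⟨Finset.mem_univ _, hab⟩
  have hDcard : ∀ p ∈ (Finset.univ.filter (fun p : Fin t × Fin t => p.1 ≠ p.2)),
      ((D p).card : ℝ) * Fintype.card V ≤ 1 * (Fintype.card V : ℝ) ^ t := by
    rintro ⟨a, b⟩ hp
    rw [Finset.mem_filter] at hp
    have hne : a ≠ b := hp.2
    refine count_update (D (a, b)) a 1 (fun x => ?_)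
    have h1 : (Finset.univ.filter (fun v : V => Function.update x a v ∈ D (a, b))) ⊆
        {x b} := by
      intro v hv
      rw [Finset.mem_filter, hD, Finset.mem_filter] at hv
      have h2 := hv.2.2
      simp only [Function.update_self, Function.update_of_ne hne.symm] at h2
      rw [Finset.mem_singleton]
      exact h2
    have h3 := Finset.card_le_card h1
    rw [Finset.card_singleton] at h3
    exact_mod_cast h3
  have hScard : ∀ k ∈ (Finset.univ : Finset (Fin t)),
      ((S k).card : ℝ) * Fintype.card V ≤ (t * B ^ t) * (Fintype.card V : ℝ) ^ t := by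
    intro k _
    refine count_update (S k) k (t * B ^ t) (fun x => ?_)
    have hkt : ((k : ℕ) : ℝ) * B ^ (k : ℕ) ≤ t * B ^ t := by
      have h1 : ((k : ℕ) : ℝ) ≤ t := by exact_mod_cast k.isLt.le
      have h2 : B ^ (k : ℕ) ≤ B ^ t := pow_le_pow_right₀ hB k.isLt.le
      have h3 : (0 : ℝ) ≤ t := by positivity
      exact mul_le_mul h1 h2 (by positivity) h3
    by_cases hxi : Injective (fun j : Fin (k : ℕ) => x (Fin.castLE k.isLt.le j))
    · set xk : Fin (k : ℕ) ↪ V := ⟨_, hxi⟩ with hxk
      have hfew := few_singletons hB g (j := (k : ℕ)) (by have := k.isLt; omega)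
        (lt_of_le_of_lt (pow_le_pow_right₀ hB (by have := k.isLt; omega)) hn1) xk
      refine le_trans ?_ (hfew.trans hkt)
      have hfin : {v | v ∉ Set.range xk ∧ (g.Q.cls xk v).ncard = 1}.Finite := Set.toFinite _
      rw [Set.ncard_eq_toFinset_card _ hfin]
      have h5 : (Finset.univ.filter (fun v : V => Function.update x k v ∈ S k)) ⊆
          hfin.toFinset := by
        intro v hv
        rw [Finset.mem_filter, hS, Finset.mem_filter] at hv
        obtain ⟨hinj, hone⟩ := hv.2.2
        rw [Set.Finite.mem_toFinset]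
        have e1 : ((Fin.castLEEmb k.isLt.le).trans ⟨Function.update x k v, hinj⟩ :
            Fin (k : ℕ) ↪ V) = xk := by
          ext j
          have hjk : Fin.castLE k.isLt.le j ≠ k := by
            intro h
            have h6 := congrArg Fin.val h
            have h7 := j.isLt
            simp at h6
            omega
          simp [hxk, Function.update_of_ne hjk]
        rw [e1, Function.update_self] at hone
        refine ⟨?_, hone⟩
        rintro ⟨j, hj⟩
        have hjk : Fin.castLE k.isLt.le j ≠ k := by
          intro h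
          have h6 := congrArg Fin.val h
          have h7 := j.isLt
          simp at h6
          omega
        apply hjk
        apply hinj
        rw [Function.update_self, Function.update_of_ne hjk]
        exact hj
      exact_mod_cast Finset.card_le_card h5
    · have h5 : (Finset.univ.filter (fun v : V => Function.update x k v ∈ S k)) = ∅ := by
        rw [Finset.filter_eq_empty_iff]
        intro v _ hv
        rw [hS, Finset.mem_filter] at hv
        obtain ⟨hinj, hone⟩ := hv.2
        apply hxi
        intro a b hab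
        have hne : ∀ j : Fin (k : ℕ), Fin.castLE k.isLt.le j ≠ k := by
          intro j h
          have h6 := congrArg Fin.val h
          have h7 := j.isLt
          simp at h6
          omega
        have h8 : Function.update x k v (Fin.castLE k.isLt.le a) =
            Function.update x k v (Fin.castLE k.isLt.le b) := by
          rw [Function.update_of_ne (hne a), Function.update_of_ne (hne b)]
          exact hab
        exact Fin.castLE_injective _ (hinj h8)
      rw [h5]
      simp only [Finset.card_empty, Nat.cast_zero]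
      positivity
  have hle : (bad.card : ℝ) ≤
      ∑ p ∈ (Finset.univ.filter (fun p : Fin t × Fin t => p.1 ≠ p.2)), ((D p).card : ℝ) +
      ∑ k : Fin t, ((S k).card : ℝ) := by
    have h1 := (Finset.card_le_card hsub).trans (Finset.card_union_le _ _)
    have h2 := Finset.card_biUnion_le
      (s := (Finset.univ.filter (fun p : Fin t × Fin t => p.1 ≠ p.2))) (t := D)
    have h3 := Finset.card_biUnion_le (s := (Finset.univ : Finset (Fin t))) (t := S)
    have h4 : bad.card ≤ ∑ p ∈ (Finset.univ.filter (fun p : Fin t × Fin t => p.1 ≠ p.2)),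
      (D p).card + ∑ k : Fin t, (S k).card := by omega
    exact_mod_cast h4
  rw [hcard]
  have hpairs : (((Finset.univ.filter (fun p : Fin t × Fin t => p.1 ≠ p.2)).card : ℕ) : ℝ) ≤
      ((t * t : ℕ) : ℝ) := by
    have h1 := Finset.card_filter_le (Finset.univ : Finset (Fin t × Fin t))
      (fun p : Fin t × Fin t => p.1 ≠ p.2)
    rw [Finset.card_univ, Fintype.card_prod, Fintype.card_fin] at h1
    exact_mod_cast h1
  calc (bad.card : ℝ) * Fintype.card V
      ≤ (∑ p ∈ (Finset.univ.filter (fun p : Fin t × Fin t => p.1 ≠ p.2)), ((D p).card : ℝ) +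
          ∑ k : Fin t, ((S k).card : ℝ)) * Fintype.card V :=
        mul_le_mul_of_nonneg_right hle hn0.le
    _ = ∑ p ∈ (Finset.univ.filter (fun p : Fin t × Fin t => p.1 ≠ p.2)),
          ((D p).card : ℝ) * Fintype.card V +
          ∑ k : Fin t, ((S k).card : ℝ) * Fintype.card V := by
        rw [add_mul, Finset.sum_mul, Finset.sum_mul]
    _ ≤ ∑ p ∈ (Finset.univ.filter (fun p : Fin t × Fin t => p.1 ≠ p.2)),
          (1 * (Fintype.card V : ℝ) ^ t) +
          ∑ k : Fin t, (t * B ^ t) * (Fintype.card V : ℝ) ^ t :=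
        add_le_add (Finset.sum_le_sum hDcard) (Finset.sum_le_sum hScard)
    _ = ((Finset.univ.filter (fun p : Fin t × Fin t => p.1 ≠ p.2)).card : ℝ) *
          (1 * (Fintype.card V : ℝ) ^ t) + t * ((t * B ^ t) * (Fintype.card V : ℝ) ^ t) := by
        rw [Finset.sum_const, Finset.sum_const, nsmul_eq_mul, nsmul_eq_mul, Finset.card_univ,
          Fintype.card_fin]
    _ ≤ ((t * t : ℕ) : ℝ) * (1 * (Fintype.card V : ℝ) ^ t) +
          t * ((t * B ^ t) * (Fintype.card V : ℝ) ^ t) := by gcongr
    _ = (((t * t : ℕ) : ℝ) * 1 + t * (t * B ^ t)) * (Fintype.card V : ℝ) ^ t := by ring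

end MSch
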