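import Pool.Agent.Lib.MP_369ee2_lc.RelAPI

/-!
# Blocks of an m-scheme are m-schemes; truncation (module I2b)
-/

namespace MSch

open Function Filter
open scoped Topology BigOperators

namespace BlockBad

variable {V : Type} [Fintype V] {m : ℕ}

/-- the inclusion of tuples of `U` into tuples of `V` -/
def inc {U : Set V} {s : ℕ} (w : Fin s ↪ U) : Fin s ↪ V := w.trans (Embedding.subtype _)

omit [Fintype V] in
theorem inc_apply {U : Set V} {s : ℕ} (w : Fin s ↪ U) (k : Fin s) : inc w k = (w k : V) := rfl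

omit [Fintype V] in
theorem inc_injective {U : Set V} {s : ℕ} : Function.Injective (inc (U := U) (s := s)) := by
  intro a b h
  ext k
  have := DFunLike.congr_fun h k
  simpa [inc_apply] using this

/-- the fibres over a tuple of the block are the same in the block and in the whole scheme -/
theorem fibre_card (Q : MScheme V m) (E : Setoid V)
    (hE : ∀ a b : Fin 2 ↪ V, (Q.P 2).r a b → E.r (a 0) (a 1) → E.r (b 0) (b 1))
    (v : V) {s : ℕ} (hs : 1 ≤ s) (hsm : s + 1 ≤ m) (i : Fin (s + 1))
    (z : Fin (s + 1) ↪ {w | E.r w v}) (u : Fin s ↪ {w | E.r w v}) :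
    Nat.card {x : Fin (s + 1) ↪ {w | E.r w v} // (Q.P (s + 1)).r (inc x) (inc z) ∧ del i x = u} =
      Nat.card {x : Fin (s + 1) ↪ V // (Q.P (s + 1)).r x (inc z) ∧ del i x = inc u} := by
  refine Nat.card_eq_of_bijective
    (fun x => ⟨inc x.1, x.2.1, congrArg inc x.2.2⟩) ⟨?_, ?_⟩
  · intro a b hab
    have h1 : inc a.1 = inc b.1 := congrArg Subtype.val hab
    exact Subtype.ext (inc_injective h1)
  · rintro ⟨y, hy1, hy2⟩
    have hmem : ∀ k : Fin s, E.r (y (i.succAbove k)) v := by
      intro k
      have h1 := DFunLike.congr_fun hy2 k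
      have h2 : y (i.succAbove k) = (u k : V) := h1
      rw [h2]
      exact (u k).2
    let k0 : Fin s := ⟨0, hs⟩
    have hne : i ≠ i.succAbove k0 := (Fin.succAbove_ne i k0).symm
    have hmi : E.r (y i) v := by
      have h1 := RelAPI.emb Q hsm (pr i (i.succAbove k0) hne) hy1
      have h2 := hE _ _ ((Q.P 2).symm' h1) (by
        show E.r ((z i : V)) ((z (i.succAbove k0) : V))
        exact E.trans' (z i).2 (E.symm' (z (i.succAbove k0)).2))
      have h3 : E.r (y i) (y (i.succAbove k0)) := h2
      exact E.trans' h3 (hmem k0)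
    have hall : ∀ k : Fin (s + 1), E.r (y k) v := by
      intro k
      by_cases hk : k = i
      · rw [hk]; exact hmi
      · obtain ⟨l, hl⟩ := Fin.exists_succAbove_eq hk
        rw [← hl]
        exact hmem l
    let x : Fin (s + 1) ↪ {w | E.r w v} :=
      ⟨fun k => ⟨y k, hall k⟩, fun a b hab => y.injective (congrArg Subtype.val hab)⟩
    have hx : inc x = y := by
      ext k
      rfl
    refine ⟨⟨x, by rw [hx]; exact hy1, ?_⟩, Subtype.ext hx⟩
    apply inc_injective
    rw [← hy2, ← hx]
    rfl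

/-- the scheme induced on a block -/
noncomputable def blockScheme (Q : MScheme V m) (E : Setoid V)
    (hE : ∀ a b : Fin 2 ↪ V, (Q.P 2).r a b → E.r (a 0) (a 1) → E.r (b 0) (b 1))
    (v : V) [Fintype {w | E.r w v}] : MScheme {w | E.r w v} m where
  P s := Setoid.comap inc (Q.P s)
  compat s hs i x y h := Q.compat s hs i (inc x) (inc y) h
  regular s hs i z u u' h := by
    rcases Nat.eq_zero_or_pos s with h0 | h1
    · subst h0
      have : u = u' := by
        ext k
        exact k.elim0
      rw [this]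
    · have e1 := fibre_card Q E hE v h1 hs i z u
      have e2 := fibre_card Q E hE v h1 hs i z u'
      have e3 := Q.regular s hs i (inc z) (inc u) (inc u') h
      show Nat.card {x : Fin (s + 1) ↪ {w | E.r w v} //
          (Q.P (s + 1)).r (inc x) (inc z) ∧ del i x = u} =
        Nat.card {x : Fin (s + 1) ↪ {w | E.r w v} //
          (Q.P (s + 1)).r (inc x) (inc z) ∧ del i x = u'}
      rw [e1, e2, e3]
  inv s hs σ x y h := Q.inv s hs σ (inc x) (inc y) h

end BlockBad

open BlockBad in
theorem block_bad {V : Type} [Fintype V] {m : ℕ} (Q : MScheme V m) (hm : 2 ≤ m)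
    (hH : Q.Homogeneous) (hA : Q.Antisymmetric)
    (hM : ¬ Q.HasMatching) (E : Setoid V)
    (hE : ∀ a b c d : Fin 2 ↪ V, (Q.P 2).r a b → E.r (a 0) (a 1) → E.r (b 0) (b 1))
    (v : V) (h2 : 2 ≤ {w | E.r w v}.ncard) : Bad m {w | E.r w v}.ncard := by
  classical
  have hE' : ∀ a b : Fin 2 ↪ V, (Q.P 2).r a b → E.r (a 0) (a 1) → E.r (b 0) (b 1) :=
    fun a b => hE a b a b
  haveI : Fintype {w | E.r w v} := Fintype.ofFinite _
  refine ⟨h2, {w | E.r w v}, inferInstance, blockScheme Q E hE' v, ?_, ?_, ?_, ?_⟩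
  · rw [← Nat.card_eq_fintype_card, Nat.card_coe_set_eq]
  · intro x y
    exact hH (inc x) (inc y)
  · intro s hs σ hσ x h
    exact hA s hs σ hσ (inc x) h
  · rintro ⟨s, hs1, hsm, z, i, j, hij, hr, hc⟩
    apply hM
    refine ⟨s, hs1, hsm, inc z, i, j, hij, hr, ?_⟩
    have e1 := fibre_card Q E hE' v hs1 hsm i z (del i z)
    have e2 := rel_size (blockScheme Q E hE' v) hsm (Fin.succAboveEmb i) z
    have e3 := rel_size Q hsm (Fin.succAboveEmb i) (inc z)
    have hpos : 0 < (blockScheme Q E hE' v).size ((Fin.succAboveEmb i).trans z) := by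
      haveI : Nonempty {y : Fin s ↪ {w | E.r w v} //
          ((blockScheme Q E hE' v).P s).r y ((Fin.succAboveEmb i).trans z)} :=
        ⟨⟨_, ((blockScheme Q E hE' v).P s).refl' _⟩⟩
      exact Nat.card_pos
    have hc' : (blockScheme Q E hE' v).size ((Fin.succAboveEmb i).trans z) =
        (blockScheme Q E hE' v).size z := hc
    have hone : Nat.card {x : Fin (s + 1) ↪ {w | E.r w v} //
        ((blockScheme Q E hE' v).P (s + 1)).r x z ∧
          (Fin.succAboveEmb i).trans x = (Fin.succAboveEmb i).trans z} = 1 := by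
      rw [← hc'] at e2
      nlinarith [e2, hpos]
    have hone' : Nat.card {x : Fin (s + 1) ↪ V // (Q.P (s + 1)).r x (inc z) ∧
        (Fin.succAboveEmb i).trans x = (Fin.succAboveEmb i).trans (inc z)} = 1 :=
      e1.symm.trans hone
    rw [hone', mul_one] at e3
    exact e3.symm

theorem bad_of_bad_succ {m n : ℕ} (h : Bad (m + 1) n) : Bad m n := by
  obtain ⟨h2, V, fV, Q, hc, hH, hA, hM⟩ := h
  refine ⟨h2, V, fV,
    { P := Q.P
      compat := fun s hs => Q.compat s (by omega)
      regular := fun s hs => Q.regular s (by omega)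
      inv := fun s hs => Q.inv s (by omega) }, hc, hH, ?_, ?_⟩
  · intro s hs σ hσ x
    exact hA s (by omega) σ hσ x
  · rintro ⟨s, hs1, hsm, z, i, j, hij, hr, hc⟩
    exact hM ⟨s, hs1, by omega, z, i, j, hij, hr, hc⟩

end MSch
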