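import Pool.Agent.Lib.MP_369ee2_lc.CondIndep
import Pool.Agent.Lib.MP_369ee2_lc.Absorb

/-!
# The general independence lemma (module GI)

For lower sets `A`, `B` of finite sets, `A` finite, and a bounded `H A`-measurable `f`:
`E[f | H B] = E[f | H (A ∩ B)]`.
-/

namespace MSch.GenIndep

open MeasureTheory Filter

variable {Ω : Type*} {m m0 m1 m2 M : MeasurableSpace Ω} {mΩ : MeasurableSpace Ω} {μ : Measure Ω}
  [IsProbabilityMeasure μ]

omit [IsProbabilityMeasure μ] in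
theorem bdd_condExp {f : Ω → ℝ} {C : ℝ} (hC : ∀ ω, |f ω| ≤ C) :
    ∀ᵐ ω ∂μ, |(μ[f | m]) ω| ≤ C :=
  ae_bdd_abs_condExp_of_ae_bdd_abs (Eventually.of_forall hC)

/-- conditional expectation is self-adjoint -/
theorem selfadj (hm : m ≤ mΩ) {f g : Ω → ℝ}
    (hf : AEStronglyMeasurable f μ) (hg : AEStronglyMeasurable g μ)
    {C D : ℝ} (hC : ∀ ω, |f ω| ≤ C) (hD : ∀ ω, |g ω| ≤ D) :
    ∫ ω, f ω * (μ[g | m]) ω ∂μ = ∫ ω, (μ[f | m]) ω * g ω ∂μ := by
  have hfi : Integrable f μ := Integrable.of_bound hf C (Eventually.of_forall hC)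
  have hgi : Integrable g μ := Integrable.of_bound hg D (Eventually.of_forall hD)
  have h1 : Integrable (f * μ[g | m]) μ :=
    integrable_condExp.bdd_mul hf (Eventually.of_forall hC)
  have h2 : Integrable (μ[f | m] * g) μ :=
    integrable_condExp.mul_bdd hg (Eventually.of_forall hD)
  have e1 : μ[f * μ[g | m] | m] =ᵐ[μ] μ[f | m] * μ[g | m] :=
    condExp_mul_of_stronglyMeasurable_right stronglyMeasurable_condExp h1 hfi
  have e2 : μ[μ[f | m] * g | m] =ᵐ[μ] μ[f | m] * μ[g | m] :=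
    condExp_mul_of_stronglyMeasurable_left stronglyMeasurable_condExp h2 hgi
  calc ∫ ω, f ω * (μ[g | m]) ω ∂μ = ∫ ω, (μ[f * μ[g | m] | m]) ω ∂μ :=
        (integral_condExp hm).symm
    _ = ∫ ω, (μ[μ[f | m] * g | m]) ω ∂μ := integral_congr_ae (e1.trans e2.symm)
    _ = ∫ ω, (μ[f | m]) ω * g ω ∂μ := integral_condExp hm

theorem abs_ind (E : Set Ω) (ω : Ω) : |E.indicator (fun _ => (1 : ℝ)) ω| ≤ 1 := by
  by_cases h : ω ∈ E <;> simp [h]

omit [IsProbabilityMeasure μ] in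
theorem integral_ind_mul {E : Set Ω} (hE : MeasurableSet E) (f : Ω → ℝ) :
    ∫ ω, E.indicator (fun _ => (1 : ℝ)) ω * f ω ∂μ = ∫ ω in E, f ω ∂μ := by
  rw [← integral_indicator hE]
  congr 1
  funext ω
  by_cases h : ω ∈ E <;> simp [h]

omit [IsProbabilityMeasure μ] in
theorem asm_ind {E : Set Ω} (hE : MeasurableSet E) :
    AEStronglyMeasurable (E.indicator (fun _ => (1 : ℝ))) μ :=
  (stronglyMeasurable_const.indicator hE).aestronglyMeasurable

theorem int_ind {E : Set Ω} (hE : MeasurableSet E) :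
    Integrable (E.indicator (fun _ => (1 : ℝ))) μ :=
  Integrable.of_bound (asm_ind hE) 1 (Eventually.of_forall (abs_ind E))

/-- from conditional expectations to integrals -/
theorem setInt_of_eq (h2 : m2 ≤ mΩ) (h0 : m0 ≤ m2) {E D : Set Ω} (hE : MeasurableSet E)
    (hD : MeasurableSet[m2] D)
    (h : μ[E.indicator (fun _ => (1 : ℝ)) | m2] =ᵐ[μ] μ[E.indicator (fun _ => (1 : ℝ)) | m0]) :
    ∫ ω in E, (μ[D.indicator (fun _ => (1 : ℝ)) | m0]) ω ∂μ =
      ∫ ω in E, D.indicator (fun _ => (1 : ℝ)) ω ∂μ := by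
  have hD' : MeasurableSet D := h2 D hD
  calc ∫ ω in E, (μ[D.indicator (fun _ => (1 : ℝ)) | m0]) ω ∂μ
      = ∫ ω, E.indicator (fun _ => (1 : ℝ)) ω * (μ[D.indicator (fun _ => (1 : ℝ)) | m0]) ω ∂μ :=
        (integral_ind_mul hE _).symm
    _ = ∫ ω, (μ[E.indicator (fun _ => (1 : ℝ)) | m0]) ω * D.indicator (fun _ => (1 : ℝ)) ω ∂μ :=
        selfadj (h0.trans h2) (asm_ind hE) (asm_ind hD') (abs_ind E) (abs_ind D)
    _ = ∫ ω, (μ[E.indicator (fun _ => (1 : ℝ)) | m2]) ω * D.indicator (fun _ => (1 : ℝ)) ω ∂μ := by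
        refine integral_congr_ae ?_
        filter_upwards [h] with ω hω
        rw [hω]
    _ = ∫ ω, D.indicator (fun _ => (1 : ℝ)) ω * (μ[E.indicator (fun _ => (1 : ℝ)) | m2]) ω ∂μ := by
        congr 1
        funext ω
        ring
    _ = ∫ ω in D, (μ[E.indicator (fun _ => (1 : ℝ)) | m2]) ω ∂μ := integral_ind_mul hD' _
    _ = ∫ ω in D, E.indicator (fun _ => (1 : ℝ)) ω ∂μ := setIntegral_condExp h2 (int_ind hE) hD
    _ = ∫ ω, D.indicator (fun _ => (1 : ℝ)) ω * E.indicator (fun _ => (1 : ℝ)) ω ∂μ :=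
        (integral_ind_mul hD' _).symm
    _ = ∫ ω, E.indicator (fun _ => (1 : ℝ)) ω * D.indicator (fun _ => (1 : ℝ)) ω ∂μ := by
        congr 1
        funext ω
        ring
    _ = ∫ ω in E, D.indicator (fun _ => (1 : ℝ)) ω ∂μ := integral_ind_mul hE _

/-- from integrals to conditional expectations -/
theorem of_setInt (h1 : m1 ≤ mΩ) (h2 : m2 ≤ mΩ) (h01 : m0 ≤ m1) (h02 : m0 ≤ m2)
    (h : ∀ D, MeasurableSet[m2] D → ∀ E, MeasurableSet[m1] E →
      ∫ ω in E, (μ[D.indicator (fun _ => (1 : ℝ)) | m0]) ω ∂μ =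
      ∫ ω in E, D.indicator (fun _ => (1 : ℝ)) ω ∂μ)
    {f : Ω → ℝ} (hf : StronglyMeasurable[m1] f) {C : ℝ} (hC : ∀ ω, |f ω| ≤ C) :
    μ[f | m2] =ᵐ[μ] μ[f | m0] := by
  have hfm : AEStronglyMeasurable f μ := (hf.mono h1).aestronglyMeasurable
  have hfi : Integrable f μ := Integrable.of_bound hfm C (Eventually.of_forall hC)
  symm
  refine ae_eq_condExp_of_forall_setIntegral_eq h2 hfi
    (fun _ _ _ => integrable_condExp.integrableOn) ?_
    (stronglyMeasurable_condExp.mono h02).aestronglyMeasurable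
  intro D hD _
  have hD' : MeasurableSet D := h2 D hD
  have e : μ[D.indicator (fun _ => (1 : ℝ)) | m0] =ᵐ[μ] μ[D.indicator (fun _ => (1 : ℝ)) | m1] := by
    refine ae_eq_condExp_of_forall_setIntegral_eq h1 (int_ind hD')
      (fun _ _ _ => integrable_condExp.integrableOn) ?_
      (stronglyMeasurable_condExp.mono h01).aestronglyMeasurable
    intro E hE _
    exact h D hD E hE
  calc ∫ ω in D, (μ[f | m0]) ω ∂μ
      = ∫ ω, D.indicator (fun _ => (1 : ℝ)) ω * (μ[f | m0]) ω ∂μ := (integral_ind_mul hD' _).symm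
    _ = ∫ ω, (μ[D.indicator (fun _ => (1 : ℝ)) | m0]) ω * f ω ∂μ :=
        selfadj (h01.trans h1) (asm_ind hD') hfm (abs_ind D) hC
    _ = ∫ ω, (μ[D.indicator (fun _ => (1 : ℝ)) | m1]) ω * f ω ∂μ := by
        refine integral_congr_ae ?_
        filter_upwards [e] with ω hω
        rw [hω]
    _ = ∫ ω, D.indicator (fun _ => (1 : ℝ)) ω * (μ[f | m1]) ω ∂μ :=
        (selfadj h1 (asm_ind hD') hfm (abs_ind D) hC).symm
    _ = ∫ ω, D.indicator (fun _ => (1 : ℝ)) ω * f ω ∂μ := by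
        rw [condExp_of_stronglyMeasurable h1 hf hfi]
    _ = ∫ ω in D, f ω ∂μ := integral_ind_mul hD' _

theorem sandwich (hM : M ≤ mΩ) (h1 : m0 ≤ m1) (h2 : m1 ≤ M) {g : Ω → ℝ}
    (h : μ[g | M] =ᵐ[μ] μ[g | m0]) : μ[g | m1] =ᵐ[μ] μ[g | m0] := by
  have e1 : μ[μ[g | M] | m1] =ᵐ[μ] μ[g | m1] := condExp_condExp_of_le h2 hM
  have e2 : μ[μ[g | M] | m1] =ᵐ[μ] μ[μ[g | m0] | m1] := condExp_congr_ae h
  have e3 : μ[μ[g | m0] | m1] = μ[g | m0] :=
    condExp_of_stronglyMeasurable (h2.trans hM) (stronglyMeasurable_condExp.mono h1)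
      integrable_condExp
  exact e1.symm.trans (e2.trans (by rw [e3]))

theorem eq_of_ae_eq (h2 : m2 ≤ mΩ) (h : m0 ≤ m2) {g k : Ω → ℝ}
    (hgk : μ[g | m2] =ᵐ[μ] μ[k | m0]) : μ[g | m2] =ᵐ[μ] μ[g | m0] := by
  have e1 : μ[μ[g | m2] | m0] =ᵐ[μ] μ[g | m0] := condExp_condExp_of_le h h2
  have e2 : μ[μ[g | m2] | m0] =ᵐ[μ] μ[μ[k | m0] | m0] := condExp_congr_ae hgk
  have e3 : μ[μ[k | m0] | m0] = μ[k | m0] :=
    condExp_of_stronglyMeasurable (h.trans h2) stronglyMeasurable_condExp integrable_condExp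
  rw [e3] at e2
  exact hgk.trans (e2.symm.trans e1)

/-- `{E₁ ∩ E₂}` generates the supremum -/
theorem generateFrom_inter (a b : MeasurableSpace Ω) :
    a ⊔ b = MeasurableSpace.generateFrom
      {E | ∃ E₁ E₂, MeasurableSet[a] E₁ ∧ MeasurableSet[b] E₂ ∧ E = E₁ ∩ E₂} := by
  apply le_antisymm
  · apply sup_le
    · intro E hE
      exact MeasurableSpace.measurableSet_generateFrom ⟨E, Set.univ, hE, MeasurableSet.univ, by simp⟩
    · intro E hE
      exact MeasurableSpace.measurableSet_generateFrom ⟨Set.univ, E, MeasurableSet.univ, hE, by simp⟩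
  · apply MeasurableSpace.generateFrom_le
    rintro _ ⟨E₁, E₂, h1, h2, rfl⟩
    exact MeasurableSet.inter ((le_sup_left : a ≤ a ⊔ b) _ h1) ((le_sup_right : b ≤ a ⊔ b) _ h2)

theorem isPiSystem_inter (a b : MeasurableSpace Ω) :
    IsPiSystem {E | ∃ E₁ E₂, MeasurableSet[a] E₁ ∧ MeasurableSet[b] E₂ ∧ E = E₁ ∩ E₂} := by
  rintro _ ⟨E₁, E₂, h1, h2, rfl⟩ _ ⟨F₁, F₂, k1, k2, rfl⟩ _
  exact ⟨E₁ ∩ F₁, E₂ ∩ F₂, MeasurableSet.inter h1 k1, MeasurableSet.inter h2 k2,
    Set.inter_inter_inter_comm _ _ _ _⟩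

end MSch.GenIndep

namespace MSch.GenIndep

open MeasureTheory Filter

section Sets

theorem XY_empty : XY ∅ = Set.range xx := by
  simp [XY]

theorem mem_XY {S : Finset ℕ} {n : ℕ} : n ∈ XY S ↔ (∃ i, xx i = n) ∨ ∃ i ∈ S, yy i = n := by
  simp [XY]

theorem xx_ne_yy (i j : ℕ) : xx i ≠ yy j := by
  rw [xx_apply, yy_apply]; omega

/-- everything except the points `y_j`, `j ∈ S` -/
def cS (S : Finset ℕ) : Set ℕ := Set.range xx ∪ yy '' ((S : Set ℕ)ᶜ)

theorem mem_cS {S : Finset ℕ} {n : ℕ} : n ∈ cS S ↔ (∃ i, xx i = n) ∨ ∃ i, i ∉ S ∧ yy i = n := by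
  simp [cS]

theorem XY_inter_cS (S : Finset ℕ) : XY S ∩ cS S = XY ∅ := by
  ext n
  simp only [Set.mem_inter_iff, mem_XY, mem_cS]
  constructor
  · rintro ⟨h | ⟨i, hi, rfl⟩, h' | ⟨j, hj, hji⟩⟩
    · exact Or.inl h
    · exact Or.inl h
    · exact Or.inl h'
    · exact absurd (yy.injective hji ▸ hi) hj
  · rintro (h | ⟨i, hi, _⟩)
    · exact ⟨Or.inl h, Or.inl h⟩
    · simp at hi

/-- `y_i`, `i ∈ S`, `i ≠ j` -/
def rS (S : Finset ℕ) (j : ℕ) : Set ℕ := yy '' ((S.erase j : Finset ℕ) : Set ℕ)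

theorem mem_rS {S : Finset ℕ} {j n : ℕ} : n ∈ rS S j ↔ ∃ i, i ≠ j ∧ i ∈ S ∧ yy i = n := by
  unfold rS
  constructor
  · rintro ⟨i, hi, rfl⟩
    have hi' := Finset.mem_erase.1 (Finset.mem_coe.1 hi)
    exact ⟨i, hi'.1, hi'.2, rfl⟩
  · rintro ⟨i, h1, h2, rfl⟩
    exact ⟨i, Finset.mem_coe.2 (Finset.mem_erase.2 ⟨h1, h2⟩), rfl⟩

theorem rS_finite (S : Finset ℕ) (j : ℕ) : (rS S j).Finite :=
  (Finset.finite_toSet _).image _

theorem rS_disj (S : Finset ℕ) (j : ℕ) : Disjoint (rS S j) (cS S) := by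
  rw [Set.disjoint_left]
  intro n h1 h2
  rw [mem_rS] at h1
  rw [mem_cS] at h2
  obtain ⟨i, _, hi, rfl⟩ := h1
  rcases h2 with ⟨k, hk⟩ | ⟨k, hk, hki⟩
  · exact xx_ne_yy _ _ hk
  · exact hk (yy.injective hki ▸ hi)

theorem range_union_rS (S : Finset ℕ) (j : ℕ) : Set.range xx ∪ rS S j = XY (S.erase j) := rfl

theorem XY_subset {S T : Finset ℕ} {j : ℕ} (hjT : j ∉ T) :
    XY T ⊆ cS S ∪ rS S j := by
  intro n hn
  rw [mem_XY] at hn
  rw [Set.mem_union, mem_cS, mem_rS]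
  rcases hn with h | ⟨i, hi, rfl⟩
  · exact Or.inl (Or.inl h)
  · by_cases hiS : i ∈ S
    · exact Or.inr ⟨i, fun h => hjT (h ▸ hi), hiS, rfl⟩
    · exact Or.inl (Or.inr ⟨i, hiS, rfl⟩)

theorem range_xx_infinite : (Set.range xx).Infinite :=
  Set.infinite_range_of_injective xx.injective

end Sets

section Alg

variable {L : TypeSystem} (R : Realisation L)

/-- the case of one point -/
theorem key_one {j : ℕ} (B : Set (Finset ℕ)) (hB : IsLowerSet B) (hSB : {j} ∉ B)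
    (h0 : ∅ ∈ B) {g : R.Ω → ℝ} (hg : StronglyMeasurable[R.G (XY {j})] g) (hgi : Integrable g R.P) :
    R.P[g | R.H B] =ᵐ[R.P] R.P[g | R.H {T | T ⊂ {j}}] := by
  have e1 := R.condExp_G (XY {j}) (cS {j}) hg hgi
  rw [XY_inter_cS] at e1
  have hH : R.H {T | T ⊂ {j}} = R.G (XY ∅) := by
    have : {T : Finset ℕ | T ⊂ {j}} = {T | T ⊆ ∅} := by
      ext T
      simp only [Set.mem_ofPred_eq, Finset.ssubset_singleton_iff, Finset.subset_empty]
    rw [this, R.H_powerset]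
  rw [hH]
  refine sandwich (R.G_le (cS {j})) (R.G_le_H h0) ?_ e1
  refine iSup_le fun T => iSup_le fun hT => R.G_mono ?_
  have hjT : j ∉ T := fun h => hSB (hB (Finset.singleton_subset_iff.2 h) hT)
  intro n hn
  rw [mem_XY] at hn
  rw [mem_cS]
  rcases hn with h | ⟨i, hi, rfl⟩
  · exact Or.inl h
  · refine Or.inr ⟨i, ?_, rfl⟩
    rw [Finset.mem_singleton]
    rintro rfl
    exact hjT hi

/-- the case of at least two points, for finite tuples -/
theorem key_two {S : Finset ℕ} (hS : 2 ≤ S.card) (B : Set (Finset ℕ)) (hB : IsLowerSet B)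
    (hSB : S ∉ B) (hsub : {T | T ⊂ S} ⊆ B) {k : ℕ} (b : Fin k ↪ ℕ)
    (hb : Finset.univ.map b = S) (N : ℕ) (f : L.T (N + k) → ℝ) :
    R.P[f ∘ R.t (xy N b) | R.H B] =ᵐ[R.P] R.P[f ∘ R.t (xy N b) | R.H {T | T ⊂ S}] := by
  have h1 : ∀ i ∈ S, ∃ j ∈ S, i ≠ j := by
    intro i hi
    obtain ⟨j, hj, hji⟩ := Finset.exists_mem_ne (by omega : 1 < S.card) i
    exact ⟨j, hj, hji.symm⟩
  have ha : Set.range (xy N b) ⊆ Set.range xx ∪ ⋃ j : {x // x ∈ S}, rS S j := by
    refine (range_xy_subset_XY N b).trans ?_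
    rw [hb]
    intro n hn
    rw [mem_XY] at hn
    rcases hn with h | ⟨i, hi, rfl⟩
    · exact Or.inl h
    · right
      obtain ⟨j, hj, hij⟩ := h1 i hi
      exact Set.mem_iUnion.2 ⟨⟨j, hj⟩, mem_rS.2 ⟨i, hij, hi, rfl⟩⟩
  have e := R.absorb (J := {x // x ∈ S}) (Set.range xx) (cS S) Set.subset_union_left
    range_xx_infinite (fun j => rS S j) (fun j => rS_finite S j) (fun j => rS_disj S j)
    (xy N b) ha f
  have hH : (⨆ j : {x // x ∈ S}, R.G (Set.range xx ∪ rS S j)) = R.H {T | T ⊂ S} := by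
    apply le_antisymm
    · refine iSup_le fun j => ?_
      rw [range_union_rS]
      exact R.G_le_H (A := {T | T ⊂ S}) (Finset.erase_ssubset j.2)
    · refine iSup_le fun T => iSup_le fun hT => ?_
      obtain ⟨j, hj, hjT⟩ := Finset.exists_of_ssubset hT
      refine le_iSup_of_le ⟨j, hj⟩ ?_
      rw [range_union_rS]
      refine R.G_mono (XY_mono ?_)
      exact Finset.subset_erase.2 ⟨hT.1, hjT⟩
  rw [hH] at e
  refine sandwich (iSup_le fun j => R.G_le _) (R.H_mono hsub) ?_ e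
  refine iSup_le fun T => iSup_le fun hT => ?_
  have : ¬ S ⊆ T := fun h => hSB (hB h hT)
  obtain ⟨j, hj, hjT⟩ := Finset.not_subset.1 this
  exact le_iSup_of_le ⟨j, hj⟩ (R.G_mono (XY_subset hjT))

/-- the key lemma -/
theorem key {S : Finset ℕ} (hS : S.Nonempty) (B : Set (Finset ℕ)) (hB : IsLowerSet B)
    (hSB : S ∉ B) (hsub : {T | T ⊂ S} ⊆ B) {g : R.Ω → ℝ}
    (hg : StronglyMeasurable[R.G (XY S)] g) {C : ℝ} (hC : ∀ ω, |g ω| ≤ C) :
    R.P[g | R.H B] =ᵐ[R.P] R.P[g | R.H {T | T ⊂ S}] := by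
  rcases (Nat.succ_le_of_lt hS.card_pos).eq_or_lt with h1 | h2
  · obtain ⟨j, rfl⟩ := Finset.card_eq_one.1 h1.symm
    have hgi : Integrable g R.P :=
      Integrable.of_bound (hg.mono (R.G_le _)).aestronglyMeasurable C (Eventually.of_forall hC)
    exact key_one R B hB hSB (hsub (by simp)) hg hgi
  · have h01 : R.H {T | T ⊂ S} ≤ R.G (XY S) :=
      iSup_le fun T => iSup_le fun hT => R.G_mono (XY_mono hT.1)
    have h02 : R.H {T | T ⊂ S} ≤ R.H B := R.H_mono hsub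
    refine of_setInt (R.G_le _) (R.H_le _) h01 h02 ?_ hg hC
    intro D hD E hE
    -- enumerate S
    let b : Fin S.card ↪ ℕ := (S.orderEmbOfFin rfl).toEmbedding
    have hb : Finset.univ.map b = S := by
      ext x
      simp [b]
    have hgen := R.iSup_comap_xy b
    rw [hb] at hgen
    have hD' : MeasurableSet D := R.H_le _ D hD
    refine MT.setIntegral_eq_of_piSystem (R.G_le (XY S))
      (⋃ N, {t | MeasurableSet[MeasurableSpace.comap (R.t (xy N b)) ⊤] t}) ?_ ?_ ?_ ?_ ?_ ?_ E hE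
    · refine isPiSystem_iUnion_of_monotone _
        (fun N => (MeasurableSpace.comap (R.t (xy N b)) ⊤).isPiSystem_measurableSet) ?_
      intro x y hxy t ht
      exact R.mono_comap_xy b hxy t ht
    · rw [← hgen]
      exact (MeasurableSpace.generateFrom_iUnion_measurableSet _).symm
    · refine Set.mem_iUnion.2 ⟨0, ?_⟩
      exact @MeasurableSet.univ _ (MeasurableSpace.comap (R.t (xy 0 b)) ⊤)
    · exact int_ind hD'
    · exact integrable_condExp
    · intro E hE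
      obtain ⟨N, hN⟩ := Set.mem_iUnion.1 hE
      obtain ⟨U, _, rfl⟩ := hN
      refine setInt_of_eq (R.H_le _) h02 (R.meas (xy N b) trivial) hD ?_
      have e := key_two R h2 B hB hSB hsub b hb N (U.indicator (fun _ => (1 : ℝ)))
      have e2 : (U.indicator (fun _ => (1 : ℝ))) ∘ R.t (xy N b) =
          (R.t (xy N b) ⁻¹' U).indicator (fun _ => (1 : ℝ)) := rfl
      rw [e2] at e
      exact e

end Alg

end MSch.GenIndep

namespace MSch.GenIndep

open MeasureTheory Filter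

section Main

variable {L : TypeSystem} (R : Realisation L)

/-- a bounded version of a conditional expectation of an indicator -/
theorem exists_version {m : MeasurableSpace R.Ω} (E : Set R.Ω) :
    ∃ g : R.Ω → ℝ, StronglyMeasurable[m] g ∧ (∀ ω, |g ω| ≤ 1) ∧
      R.P[E.indicator (fun _ => (1 : ℝ)) | m] =ᵐ[R.P] g := by
  refine ⟨fun ω => max (-1) (min 1 ((R.P[E.indicator (fun _ => (1 : ℝ)) | m]) ω)), ?_, ?_, ?_⟩
  · have h1 : Measurable[m] (R.P[E.indicator (fun _ => (1 : ℝ)) | m]) :=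
      stronglyMeasurable_condExp.measurable
    exact (measurable_const.max (measurable_const.min h1)).stronglyMeasurable
  · intro ω
    rw [abs_le]
    exact ⟨le_max_left _ _, max_le (by norm_num) (min_le_left _ _)⟩
  · filter_upwards [bdd_condExp (μ := R.P) (m := m) (abs_ind E)] with ω hω
    rw [abs_le] at hω
    rw [min_eq_right hω.2, max_eq_right hω.1]

theorem H_insert {A : Set (Finset ℕ)} {S : Finset ℕ} (hS : S ∈ A) :
    R.H A = R.H (A \ {S}) ⊔ R.G (XY S) := by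
  apply le_antisymm
  · refine iSup_le fun T => iSup_le fun hT => ?_
    by_cases h : T = S
    · subst h
      exact le_sup_right
    · exact le_sup_of_le_left (R.G_le_H (A := A \ {S}) ⟨hT, h⟩)
  · exact sup_le (R.H_mono Set.sdiff_subset) (R.G_le_H hS)

/-- one step of the induction -/
theorem step {A B : Set (Finset ℕ)} {S : Finset ℕ} (hA : IsLowerSet A) (hB : IsLowerSet B)
    (hSA : S ∈ A) (hSB : S ∉ B) (hne : S.Nonempty) (hA' : IsLowerSet (A \ {S}))
    (ih : ∀ {f : R.Ω → ℝ}, StronglyMeasurable[R.H (A \ {S})] f → (∀ ω, |f ω| ≤ 1) →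
      R.P[f | R.H B] =ᵐ[R.P] R.P[f | R.H (A ∩ B)])
    {E₁ E₂ : Set R.Ω} (h1 : MeasurableSet[R.H (A \ {S})] E₁) (h2 : MeasurableSet[R.G (XY S)] E₂) :
    R.P[(E₁ ∩ E₂).indicator (fun _ => (1 : ℝ)) | R.H B] =ᵐ[R.P]
      R.P[(E₁ ∩ E₂).indicator (fun _ => (1 : ℝ)) | R.H (A ∩ B)] := by
  have hsub : {T | T ⊂ S} ⊆ A \ {S} := fun T hT => ⟨hA hT.1 hSA, hT.ne⟩
  have hlow : IsLowerSet (B ∪ A \ {S}) := hB.union hA'
  have hk := key R hne (B ∪ A \ {S}) hlow (by
      rintro (h | h)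
      · exact hSB h
      · exact h.2 rfl) (hsub.trans Set.subset_union_right)
    (stronglyMeasurable_const.indicator h2 :
      StronglyMeasurable[R.G (XY S)] (E₂.indicator (fun _ => (1 : ℝ)))) (abs_ind E₂)
  obtain ⟨g, hgm, hgb, hge⟩ := exists_version R (m := R.H {T | T ⊂ S}) E₂
  have hE1 : MeasurableSet E₁ := R.H_le _ _ h1
  have hE2 : MeasurableSet E₂ := R.G_le _ _ h2
  have hmul : (E₁ ∩ E₂).indicator (fun _ => (1 : ℝ)) =
      E₁.indicator (fun _ => (1 : ℝ)) * E₂.indicator (fun _ => (1 : ℝ)) := by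
    funext ω
    by_cases ha : ω ∈ E₁ <;> by_cases hb : ω ∈ E₂ <;> simp [ha, hb]
  have e1 : R.P[(E₁ ∩ E₂).indicator (fun _ => (1 : ℝ)) | R.H (B ∪ A \ {S})] =ᵐ[R.P]
      E₁.indicator (fun _ => (1 : ℝ)) * g := by
    rw [hmul]
    have e2 := condExp_stronglyMeasurable_mul_of_bound (μ := R.P) (R.H_le (B ∪ A \ {S}))
      (stronglyMeasurable_const.indicator (R.H_mono Set.subset_union_right _ h1) :
        StronglyMeasurable[R.H (B ∪ A \ {S})] (E₁.indicator (fun _ => (1 : ℝ))))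
      (int_ind (μ := R.P) hE2) 1 (Eventually.of_forall (abs_ind E₁))
    refine e2.trans ?_
    filter_upwards [hk, hge] with ω hω1 hω2
    simp only [Pi.mul_apply]
    rw [hω1, hω2]
  have hfm : StronglyMeasurable[R.H (A \ {S})] (E₁.indicator (fun _ => (1 : ℝ)) * g) :=
    (stronglyMeasurable_const.indicator h1).mul (hgm.mono (R.H_mono hsub))
  have hfb : ∀ ω, |(E₁.indicator (fun _ => (1 : ℝ)) * g) ω| ≤ 1 := by
    intro ω
    rw [Pi.mul_apply, abs_mul]
    exact mul_le_one₀ (abs_ind E₁ ω) (abs_nonneg _) (hgb ω)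
  have e3 := ih hfm hfb
  have e4 : R.P[(E₁ ∩ E₂).indicator (fun _ => (1 : ℝ)) | R.H B] =ᵐ[R.P]
      R.P[E₁.indicator (fun _ => (1 : ℝ)) * g | R.H (A ∩ B)] := by
    refine (condExp_condExp_of_le (R.H_mono Set.subset_union_left)
      (R.H_le (B ∪ A \ {S}))).symm.trans ?_
    exact (condExp_congr_ae e1).trans e3
  exact eq_of_ae_eq (R.H_le _) (R.H_mono Set.inter_subset_right) e4

theorem main (n : ℕ) : ∀ (A B : Set (Finset ℕ)), IsLowerSet A → IsLowerSet B →
    A.Finite → ∅ ∈ A ∩ B → (A \ B).ncard = n → ∀ {f : R.Ω → ℝ}, StronglyMeasurable[R.H A] f →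
    ∀ {C : ℝ}, (∀ ω, |f ω| ≤ C) → R.P[f | R.H B] =ᵐ[R.P] R.P[f | R.H (A ∩ B)] := by
  induction n with
  | zero =>
    intro A B hA hB hAf h0 hn f hf C hC
    have hfi : Integrable f R.P :=
      Integrable.of_bound (hf.mono (R.H_le _)).aestronglyMeasurable C (Eventually.of_forall hC)
    have hsub : A ⊆ B := by
      rw [← Set.sdiff_eq_empty]
      exact (Set.ncard_eq_zero hAf.sdiff).1 hn
    rw [Set.inter_eq_left.2 hsub, condExp_of_stronglyMeasurable (R.H_le B)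
      (hf.mono (R.H_mono hsub)) hfi, condExp_of_stronglyMeasurable (R.H_le A) hf hfi]
  | succ n ih =>
    intro A B hA hB hAf h0 hn f hf C hC
    have hfin : (A \ B).Finite := hAf.sdiff
    have hne : (A \ B).Nonempty := by
      rw [← Set.ncard_pos hfin]
      omega
    obtain ⟨S, hS⟩ := hfin.exists_maximal hne
    have hSA : S ∈ A := hS.1.1
    have hSB : S ∉ B := hS.1.2
    have hSne : S.Nonempty := by
      rw [Finset.nonempty_iff_ne_empty]
      rintro rfl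
      exact hSB h0.2
    have hA' : IsLowerSet (A \ {S}) := by
      rintro U T hTU ⟨hU, hUS⟩
      refine ⟨hA hTU hU, ?_⟩
      rintro rfl
      apply hUS
      have hUB : U ∉ B := fun h => hSB (hB hTU h)
      exact le_antisymm (hS.2 ⟨hU, hUB⟩ hTU) hTU
    have hinter : A \ {S} ∩ B = A ∩ B := by
      ext T
      constructor
      · rintro ⟨⟨h1, _⟩, h2⟩
        exact ⟨h1, h2⟩
      · rintro ⟨h1, h2⟩
        refine ⟨⟨h1, ?_⟩, h2⟩
        rintro rfl
        exact hSB h2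
    have hcard : ((A \ {S}) \ B).ncard = n := by
      have h1 : (A \ {S}) \ B = (A \ B) \ {S} := by
        ext T
        simp only [Set.mem_sdiff]
        tauto
      rw [h1]
      have := Set.ncard_sdiff_singleton_add_one hS.1 hfin
      omega
    have ih' : ∀ {f : R.Ω → ℝ}, StronglyMeasurable[R.H (A \ {S})] f → (∀ ω, |f ω| ≤ 1) →
        R.P[f | R.H B] =ᵐ[R.P] R.P[f | R.H (A ∩ B)] := by
      intro f hf hb
      have h1 := ih (A \ {S}) B hA' hB hAf.sdiff (by rw [hinter]; exact h0) hcard hf hb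
      rw [hinter] at h1
      exact h1
    have h01 : R.H (A ∩ B) ≤ R.H A := R.H_mono Set.inter_subset_left
    have h02 : R.H (A ∩ B) ≤ R.H B := R.H_mono Set.inter_subset_right
    refine of_setInt (R.H_le A) (R.H_le B) h01 h02 ?_ hf hC
    intro D hD E hE
    have hD' : MeasurableSet D := R.H_le _ D hD
    refine MT.setIntegral_eq_of_piSystem (R.H_le A)
      {E | ∃ E₁ E₂, MeasurableSet[R.H (A \ {S})] E₁ ∧ MeasurableSet[R.G (XY S)] E₂ ∧ E = E₁ ∩ E₂}
      (isPiSystem_inter _ _) ?_ ?_ ?_ ?_ ?_ E hE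
    · rw [H_insert R hSA]
      exact generateFrom_inter _ _
    · exact ⟨Set.univ, Set.univ, @MeasurableSet.univ _ (R.H (A \ {S})),
        @MeasurableSet.univ _ (R.G (XY S)), by simp⟩
    · exact int_ind hD'
    · exact integrable_condExp
    · rintro _ ⟨E₁, E₂, h1, h2, rfl⟩
      refine setInt_of_eq (R.H_le _) h02 (MeasurableSet.inter (R.H_le _ _ h1) (R.G_le _ _ h2))
        hD ?_
      exact step R hA hB hSA hSB hSne hA' ih' h1 h2

end Main

end MSch.GenIndep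

namespace MSch

open MeasureTheory

namespace Realisation

variable {L : TypeSystem} (R : Realisation L)

/-- **The general independence lemma.** -/
theorem condExp_H (A B : Set (Finset ℕ)) (hA : IsLowerSet A) (hB : IsLowerSet B)
    (hAf : A.Finite) (h0 : ∅ ∈ A ∩ B) {f : R.Ω → ℝ} (hf : StronglyMeasurable[R.H A] f)
    {C : ℝ} (hC : ∀ ω, |f ω| ≤ C) :
    R.P[f | R.H B] =ᵐ[R.P] R.P[f | R.H (A ∩ B)] :=
  GenIndep.main R _ A B hA hB hAf h0 rfl hf hC

end Realisation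

end MSch
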