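import Pool.Agent.Lib.MP_369ee2_lc.SigmaXY

/-!
# The swaps `ysw i j` act on the σ-algebras `H A`
-/

namespace MSch

open Function MeasureTheory

theorem ysw_xx (i j n : ℕ) : ysw i j (xx n) = xx n := by
  change Equiv.swap (yy i) (yy j) (xx n) = xx n
  refine Equiv.swap_apply_of_ne_of_ne ?_ ?_ <;>
  · rw [xx_apply, yy_apply]
    omega

theorem ysw_yy (i j n : ℕ) : ysw i j (yy n) = yy (Equiv.swap i j n) := by
  change Equiv.swap (yy i) (yy j) (yy n) = _
  by_cases h1 : n = i
  · subst h1; rw [Equiv.swap_apply_left, Equiv.swap_apply_left]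
  by_cases h2 : n = j
  · subst h2; rw [Equiv.swap_apply_right, Equiv.swap_apply_right]
  rw [Equiv.swap_apply_of_ne_of_ne (fun h => h1 (yy.injective h)) (fun h => h2 (yy.injective h)),
    Equiv.swap_apply_of_ne_of_ne h1 h2]

theorem ysw_image_XY (i j : ℕ) (S : Finset ℕ) :
    ysw i j '' XY S = XY (S.map (Equiv.swap i j).toEmbedding) := by
  unfold XY
  rw [Set.image_union]
  congr 1
  · ext x
    constructor
    · rintro ⟨_, ⟨n, rfl⟩, rfl⟩
      exact ⟨n, (ysw_xx i j n).symm⟩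
    · rintro ⟨n, rfl⟩
      exact ⟨xx n, ⟨n, rfl⟩, ysw_xx i j n⟩
  · ext x
    constructor
    · rintro ⟨_, ⟨n, hn, rfl⟩, rfl⟩
      refine ⟨Equiv.swap i j n, ?_, (ysw_yy i j n).symm⟩
      simp only [Finset.coe_map, Equiv.coe_toEmbedding]
      exact ⟨n, hn, rfl⟩
    · rintro ⟨_, hn, rfl⟩
      simp only [Finset.coe_map, Equiv.coe_toEmbedding] at hn
      obtain ⟨n, hn, rfl⟩ := hn
      exact ⟨yy n, ⟨n, hn, rfl⟩, ysw_yy i j n⟩

theorem xy_trans_ysw (N : ℕ) {k : ℕ} (b : Fin k ↪ ℕ) (i j : ℕ) :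
    (xy N b).trans (ysw i j) = xy N (b.trans (Equiv.swap i j).toEmbedding) := by
  ext l
  refine Fin.addCases (fun l => ?_) (fun l => ?_) l
  · change ysw i j (xy N b (Fin.castAdd k l)) = _
    rw [xy_left, xy_left, ysw_xx]
  · change ysw i j (xy N b (Fin.natAdd N l)) = _
    rw [xy_right, xy_right, ysw_yy]
    rfl

theorem yy_trans_ysw {k : ℕ} (b : Fin k ↪ ℕ) (i j : ℕ) :
    (b.trans yy).trans (ysw i j) = (b.trans (Equiv.swap i j).toEmbedding).trans yy := by
  ext l
  exact ysw_yy i j (b l)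

theorem map_swap_swap (i j : ℕ) (S : Finset ℕ) :
    (S.map (Equiv.swap i j).toEmbedding).map (Equiv.swap i j).toEmbedding = S := by
  rw [Finset.map_map]
  convert Finset.map_refl
  ext x
  simp

namespace Realisation

variable {L : TypeSystem} (R : Realisation L)

theorem comap_shift_H (i j : ℕ) (A : Set (Finset ℕ)) :
    (R.H A).comap (R.shift (ysw i j)) =
      R.H ((fun S => S.map (Equiv.swap i j).toEmbedding) '' A) := by
  unfold H
  rw [iSup_image]
  simp only [MeasurableSpace.comap_iSup, R.comap_shift_G, ysw_image_XY]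

theorem comap_shift_cardLe (i j k : ℕ) :
    (R.H (cardLe k)).comap (R.shift (ysw i j)) = R.H (cardLe k) := by
  rw [comap_shift_H]
  congr 1
  ext S
  constructor
  · rintro ⟨T, hT, rfl⟩
    simpa [cardLe] using hT
  · intro hS
    refine ⟨S.map (Equiv.swap i j).toEmbedding, ?_, map_swap_swap i j S⟩
    simpa [cardLe] using hS

theorem ind_comp_shift {k : ℕ} (a : Fin k ↪ ℕ) (τ : L.T k) (φ : ℕ ↪ ℕ) :
    R.ind a τ ∘ R.shift φ = R.ind (a.trans φ) τ := by
  funext ω
  simp only [Function.comp, ind]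
  rw [R.t_shift]

theorem comap_shift_powerset (i j : ℕ) (S : Finset ℕ) :
    (R.H {T | T ⊆ S}).comap (R.shift (ysw i j)) =
      R.H {T | T ⊆ S.map (Equiv.swap i j).toEmbedding} := by
  rw [R.H_powerset, R.H_powerset, R.comap_shift_G, ysw_image_XY]

theorem H_union (A B : Set (Finset ℕ)) : R.H (A ∪ B) = R.H A ⊔ R.H B := by
  unfold H
  rw [iSup_union]

end Realisation

end MSch
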