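import Pool.Agent.Lib.MP_369ee2_lc.Twins
import Pool.Agent.Lib.MP_369ee2_lc.GenIndep
import Pool.Agent.Lib.MP_369ee2_lc.ShiftH

/-!
# Determined sets of 2-types are trivial (module C1)
-/

namespace MSch
open Function MeasureTheory Filter

namespace COne

variable {L : TypeSystem}

theorem pr_zero {n : ℕ} {i j : Fin n} (h : i ≠ j) : pr i j h 0 = i := rfl
theorem pr_one {n : ℕ} {i j : Fin n} (h : i ≠ j) : pr i j h 1 = j := rfl

theorem pr_trans {n m : ℕ} {i j : Fin n} (h : i ≠ j) (ι : Fin n ↪ Fin m) :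
    (pr i j h).trans ι = pr (ι i) (ι j) (fun e => h (ι.injective e)) := by
  ext x
  fin_cases x <;> rfl

/-- amalgamation -/
theorem amalgam {a b c n : ℕ} (α : Fin a ↪ Fin n) (β : Fin b ↪ Fin n) (γ : Fin c ↪ Fin a)
    (δ : Fin c ↪ Fin b) (h : γ.trans α = δ.trans β)
    (hr : Set.range α ∩ Set.range β ⊆ Set.range (γ.trans α)) (τ : L.T a) (ρ : L.T b)
    (hκ : L.res γ τ = L.res δ ρ) : ∃ υ : L.T n, L.res α υ = τ ∧ L.res β υ = ρ := by
  by_contra hcon
  push Not at hcon
  have h1 := L.ci α β γ δ h hr τ ρ hκ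
  have h2 : (∑ υ : L.T n, (if L.res α υ = τ ∧ L.res β υ = ρ then L.D υ else 0)) = 0 := by
    refine Finset.sum_eq_zero fun υ _ => ?_
    rw [if_neg]
    rintro ⟨h3, h4⟩
    exact hcon υ h3 h4
  rw [h2, zero_mul] at h1
  have := mul_pos (L.D_pos τ) (L.D_pos ρ)
  linarith

/-- the injective triple -/
def tr {n : ℕ} (i j k : Fin n) (h1 : i ≠ j) (h2 : i ≠ k) (h3 : j ≠ k) : Fin 3 ↪ Fin n :=
  ⟨![i, j, k], by
    intro a b hab
    fin_cases a <;> fin_cases b <;> simp_all [Ne.symm]⟩

theorem res_res {r s t : ℕ} (ι : Fin r ↪ Fin s) (κ : Fin s ↪ Fin t) (τ : L.T t) :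
    L.res ι (L.res κ τ) = L.res (ι.trans κ) τ := (L.res_trans ι κ τ).symm

/-- the set of 2-types which do not distinguish their two points by `U` -/
def Eset (L : TypeSystem) (U : Set (L.T 2)) : Set (L.T 2) :=
  {π | ∀ α : L.T 3, L.res (pr 0 1 (by decide)) α = π →
    (L.res (pr 0 2 (by decide)) α ∈ U ↔ L.res (pr 1 2 (by decide)) α ∈ U)}

theorem Eset_symm (U : Set (L.T 2)) : ∀ τ ∈ Eset L U,
    L.res (pr 1 0 (by decide)) τ ∈ Eset L U := by
  intro π hπ α hα
  let s : Fin 3 ↪ Fin 3 := tr 1 0 2 (by decide) (by decide) (by decide)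
  have h1 := hπ (L.res s α) (by
    rw [res_res]
    have h2 : (pr (0 : Fin 3) 1 (by decide)).trans s = (pr (1 : Fin 2) 0 (by decide)).trans
        (pr (0 : Fin 3) 1 (by decide)) := by
      ext x; fin_cases x <;> rfl
    rw [h2, ← res_res, hα, res_res]
    have h3 : (pr (1 : Fin 2) 0 (by decide)).trans (pr (1 : Fin 2) 0 (by decide)) =
        Embedding.refl (Fin 2) := by
      ext x; fin_cases x <;> rfl
    rw [h3, L.res_refl])
  rw [res_res, res_res] at h1
  have h4 : (pr (0 : Fin 3) 2 (by decide)).trans s = pr 1 2 (by decide) := by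
    ext x; fin_cases x <;> rfl
  have h5 : (pr (1 : Fin 3) 2 (by decide)).trans s = pr 0 2 (by decide) := by
    ext x; fin_cases x <;> rfl
  rw [h4, h5] at h1
  exact h1.symm

theorem Eset_trans (U : Set (L.T 2)) : ∀ τ : L.T 3,
    L.res (pr 0 1 (by decide)) τ ∈ Eset L U → L.res (pr 1 2 (by decide)) τ ∈ Eset L U →
      L.res (pr 0 2 (by decide)) τ ∈ Eset L U := by
  intro τ h01 h12 α hα
  obtain ⟨υ, h1, h2⟩ := amalgam (L := L) (n := 4)
    (tr 0 1 2 (by decide) (by decide) (by decide))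
    (tr 0 2 3 (by decide) (by decide) (by decide))
    (pr 0 2 (by decide)) (pr 0 1 (by decide))
    (by ext x; fin_cases x <;> rfl)
    (by
      rintro x ⟨⟨i, hi⟩, ⟨j, hj⟩⟩
      fin_cases i <;> fin_cases j <;> subst hi <;>
        first
          | exact ⟨0, rfl⟩
          | exact ⟨1, rfl⟩
          | exact absurd hj (by decide))
    τ α hα.symm
  have h3 := h01 (L.res (tr 0 1 3 (by decide) (by decide) (by decide)) υ) (by
    rw [← h1, res_res, res_res]
    congr 1
    ext x; fin_cases x <;> rfl)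
  have h4 := h12 (L.res (tr 1 2 3 (by decide) (by decide) (by decide)) υ) (by
    rw [← h1, res_res, res_res]
    congr 1
    ext x; fin_cases x <;> rfl)
  rw [res_res, res_res] at h3 h4
  rw [← h2, res_res, res_res]
  have e1 : (pr (0 : Fin 3) 2 (by decide)).trans
      (tr (0 : Fin 4) 1 3 (by decide) (by decide) (by decide)) =
      (pr (0 : Fin 3) 2 (by decide)).trans
        (tr (0 : Fin 4) 2 3 (by decide) (by decide) (by decide)) := by
    ext x; fin_cases x <;> rfl
  have e2 : (pr (1 : Fin 3) 2 (by decide)).trans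
      (tr (0 : Fin 4) 1 3 (by decide) (by decide) (by decide)) =
      (pr (0 : Fin 3) 2 (by decide)).trans
        (tr (1 : Fin 4) 2 3 (by decide) (by decide) (by decide)) := by
    ext x; fin_cases x <;> rfl
  have e3 : (pr (1 : Fin 3) 2 (by decide)).trans
      (tr (1 : Fin 4) 2 3 (by decide) (by decide) (by decide)) =
      (pr (1 : Fin 3) 2 (by decide)).trans
        (tr (0 : Fin 4) 2 3 (by decide) (by decide) (by decide)) := by
    ext x; fin_cases x <;> rfl
  rw [e1, e2] at h3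
  rw [e3] at h4
  exact h3.trans h4

/-- if no pair is distinguished then `U` is trivial -/
theorem trivial_of_univ (U : Set (L.T 2)) (h : Eset L U = Set.univ) : U = ∅ ∨ U = Set.univ := by
  have key : ∀ π π' : L.T 2, π ∈ U → π' ∈ U := by
    intro π π' hπ
    obtain ⟨υ, h1, h2⟩ := amalgam (L := L) (n := 3) (pr 0 2 (by decide)) (pr 1 2 (by decide))
      (⟨fun _ => 1, fun x y _ => Subsingleton.elim x y⟩ : Fin 1 ↪ Fin 2)
      (⟨fun _ => 1, fun x y _ => Subsingleton.elim x y⟩ : Fin 1 ↪ Fin 2)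
      (by ext x; rfl)
      (by
        rintro x ⟨⟨i, hi⟩, ⟨j, hj⟩⟩
        fin_cases i <;> fin_cases j <;> subst hi <;>
          first
            | exact ⟨0, rfl⟩
            | exact absurd hj (by decide))
      π π' (Subsingleton.elim _ _)
    have h3 : L.res (pr 0 1 (by decide)) υ ∈ Eset L U := by rw [h]; trivial
    have h4 := h3 υ rfl
    rw [h1, h2] at h4
    exact h4.1 hπ
  rcases U.eq_empty_or_nonempty with h1 | ⟨π, hπ⟩
  · exact Or.inl h1
  · exact Or.inr (Set.eq_univ_of_forall fun π' => key π π' hπ)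

end COne

namespace Realisation

open COne

variable {L : TypeSystem} (R : Realisation L)

/-- the indicator of `t (c.trans yy) ∈ U` -/
noncomputable def uI (U : Set (L.T 2)) (c : Fin 2 ↪ ℕ) : R.Ω → ℝ :=
  fun ω => Set.indicator U (fun _ => (1 : ℝ)) (R.t (c.trans yy) ω)

theorem uI_eq_indicator (U : Set (L.T 2)) (c : Fin 2 ↪ ℕ) :
    R.uI U c = Set.indicator {ω | R.t (c.trans yy) ω ∈ U} (fun _ => (1 : ℝ)) := by
  funext ω
  simp [uI, Set.indicator]

theorem uI_comp_shift (U : Set (L.T 2)) (c : Fin 2 ↪ ℕ) (i j : ℕ) :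
    R.uI U c ∘ R.shift (ysw i j) = R.uI U (c.trans (Equiv.swap i j).toEmbedding) := by
  funext ω
  simp only [Function.comp, uI]
  rw [R.t_shift, yy_trans_ysw]

/-- the injective triple of naturals -/
def trN (i j l : ℕ) (h1 : i ≠ j) (h2 : i ≠ l) (h3 : j ≠ l) : Fin 3 ↪ ℕ :=
  ⟨![i, j, l], by
    intro a b hab
    fin_cases a <;> fin_cases b <;> simp_all [Ne.symm]⟩

/-- the indicator that the third point distinguishes the first two -/
noncomputable def f3 (U : Set (L.T 2)) (α : L.T 3) : ℝ :=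
  |Set.indicator U (fun _ => (1 : ℝ)) (L.res (pr 0 2 (by decide)) α) -
    Set.indicator U (fun _ => (1 : ℝ)) (L.res (pr 1 2 (by decide)) α)|

noncomputable def del3 (U : Set (L.T 2)) (π : L.T 2) : ℝ :=
  ∑ α : L.T 3, f3 U α *
    (if π = L.res (pr 0 1 (by decide)) α then L.D α / L.D (L.res (pr 0 1 (by decide)) α) else 0)

theorem f3_nonneg (U : Set (L.T 2)) (α : L.T 3) : 0 ≤ f3 U α := abs_nonneg _

theorem del3_nonneg (U : Set (L.T 2)) (π : L.T 2) : 0 ≤ del3 U π := by
  refine Finset.sum_nonneg fun α _ => mul_nonneg (f3_nonneg U α) ?_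
  split_ifs
  · exact (div_pos (L.D_pos _) (L.D_pos _)).le
  · exact le_rfl

theorem mem_Eset_of_del3 (U : Set (L.T 2)) (π : L.T 2) (h : del3 U π = 0) : π ∈ Eset L U := by
  intro α hα
  have h1 := (Finset.sum_eq_zero_iff_of_nonneg (fun α _ => mul_nonneg (f3_nonneg U α) (by
    split_ifs
    · exact (div_pos (L.D_pos _) (L.D_pos _)).le
    · exact le_rfl))).1 h α (Finset.mem_univ α)
  rw [if_pos hα.symm] at h1
  have h2 : (0 : ℝ) < L.D α / L.D (L.res (pr 0 1 (by decide)) α) :=
    div_pos (L.D_pos _) (L.D_pos _)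
  have h3 : f3 U α = 0 := by
    rcases mul_eq_zero.1 h1 with h4 | h4
    · exact h4
    · exact absurd h4 h2.ne'
  unfold f3 at h3
  rw [abs_eq_zero, sub_eq_zero] at h3
  by_cases h5 : L.res (pr 0 2 (by decide)) α ∈ U
  · by_cases h6 : L.res (pr 1 2 (by decide)) α ∈ U
    · exact ⟨fun _ => h6, fun _ => h5⟩
    · rw [Set.indicator_of_mem h5, Set.indicator_of_notMem h6] at h3
      exact absurd h3 one_ne_zero
  · by_cases h6 : L.res (pr 1 2 (by decide)) α ∈ U
    · rw [Set.indicator_of_notMem h5, Set.indicator_of_mem h6] at h3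
      exact absurd h3.symm one_ne_zero
    · exact ⟨fun h => absurd h h5, fun h => absurd h h6⟩

/-- the conditional expectation of `f3` given the base and the first two points -/
theorem condExp_f3 (U : Set (L.T 2)) (i j l : ℕ) (h1 : i ≠ j) (h2 : i ≠ l) (h3 : j ≠ l) :
    R.P[f3 U ∘ R.t ((trN i j l h1 h2 h3).trans yy) | R.G (XY {i, j})] =ᵐ[R.P]
      fun ω => del3 U (R.t ((pr (0 : Fin 3) 1 (by decide)).trans
        ((trN i j l h1 h2 h3).trans yy)) ω) := by
  classical
  set c := (trN i j l h1 h2 h3).trans yy with hc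
  have hS : Set.range c ∩ XY {i, j} = Set.range ((pr (0 : Fin 3) 1 (by decide)).trans c) := by
    ext x
    constructor
    · rintro ⟨⟨a, rfl⟩, hx⟩
      fin_cases a
      · exact ⟨0, rfl⟩
      · exact ⟨1, rfl⟩
      · exfalso
        rcases hx with ⟨n, hn⟩ | ⟨n, hn, hn'⟩
        · have h4 : 2 * n = 2 * l + 1 := hn
          omega
        · have h4 : yy n = yy l := hn'
          have h5 := yy.injective h4
          subst h5
          simp only [Finset.coe_insert, Finset.coe_singleton, Set.mem_insert_iff,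
            Set.mem_singleton_iff] at hn
          rcases hn with h | h
          · exact h2 h.symm
          · exact h3 h.symm
    · rintro ⟨a, rfl⟩
      fin_cases a
      · exact ⟨⟨0, rfl⟩, Or.inr ⟨i, by simp, rfl⟩⟩
      · exact ⟨⟨1, rfl⟩, Or.inr ⟨j, by simp, rfl⟩⟩
  have h4 : f3 U ∘ R.t c = ∑ α : L.T 3, f3 U α • R.ind c α := by
    funext ω
    rw [Finset.sum_apply]
    simp only [Function.comp, Pi.smul_apply, smul_eq_mul, ind]
    rw [Finset.sum_eq_single (R.t c ω)]
    · simp
    · intro b _ hb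
      rw [if_neg hb.symm, mul_zero]
    · simp
  rw [h4]
  have h5 := condExp_finsetSum (μ := R.P) (m := R.G (XY {i, j})) (s := Finset.univ)
    (f := fun α => f3 U α • R.ind c α) (fun α _ => (R.integrable_ind c α).smul _)
  refine h5.trans ?_
  have h6 : ∀ᵐ ω ∂(R.P), ∀ α : L.T 3, (R.P[f3 U α • R.ind c α | R.G (XY {i, j})]) ω =
      f3 U α * (if R.t ((pr (0 : Fin 3) 1 (by decide)).trans c) ω =
        L.res (pr 0 1 (by decide)) α then L.D α / L.D (L.res (pr 0 1 (by decide)) α) else 0) := by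
    refine ae_all_iff.2 fun α => ?_
    filter_upwards [condExp_smul (μ := R.P) (m := R.G (XY {i, j})) (f3 U α) (R.ind c α),
      R.condExp_ind (pr (0 : Fin 3) 1 (by decide)) c (XY {i, j}) hS α] with ω hω1 hω2
    rw [hω1, Pi.smul_apply, hω2, smul_eq_mul]
  filter_upwards [h6] with ω hω
  rw [Finset.sum_apply]
  exact Finset.sum_congr rfl fun α _ => hω α

theorem two_types_trivial (U : Set (L.T 2)) (b : Fin 2 ↪ ℕ) {g : R.Ω → ℝ}
    (hg : StronglyMeasurable[R.H (cardLe 1)] g)
    (h : (fun ω => Set.indicator U (fun _ => (1 : ℝ)) (R.t (b.trans yy) ω)) =ᵐ[R.P] g) :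
    U = ∅ ∨ U = Set.univ := by
  classical
  apply trivial_of_univ
  apply L.prim _ _ (Eset_symm U) (Eset_trans U)
  by_contra hne
  rw [Set.not_nonempty_iff_eq_empty] at hne
  have hpos : ∀ π : L.T 2, 0 < del3 U π := by
    intro π
    rcases (del3_nonneg U π).lt_or_eq with h1 | h1
    · exact h1
    · exfalso
      have := mem_Eset_of_del3 U π h1.symm
      rw [hne] at this
      exact this
  have hneT : (Finset.univ : Finset (L.T 2)).Nonempty := by
    rw [Finset.univ_nonempty_iff]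
    by_contra hcon
    rw [not_nonempty_iff] at hcon
    have := L.D_sum 2
    rw [Finset.univ_eq_empty, Finset.sum_empty] at this
    exact zero_ne_one this
  obtain ⟨π₀, -, hmin⟩ := Finset.exists_min_image Finset.univ (del3 U) hneT
  set d := del3 U π₀ with hd
  have hd0 : 0 < d := hpos π₀
  -- indices
  let i := b 0
  let l := b 1
  have hil : i ≠ l := fun e => absurd (b.injective e) (by decide)
  let j := i + l + 1
  have hji : j ≠ i := by simp only [j]; omega
  have hjl : j ≠ l := by simp only [j]; omega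
  -- a version measurable for the two 1-types
  let 𝒟 : Set (Finset ℕ) := {T | T ⊆ {l}} ∪ {T | T ⊆ {i}}
  have hmap : Finset.univ.map b = {i, l} := by
    ext x
    simp only [Finset.mem_map, Finset.mem_univ, true_and, Finset.mem_insert,
      Finset.mem_singleton, Fin.exists_fin_two]
    exact ⟨fun h => h.imp Eq.symm Eq.symm, fun h => h.imp Eq.symm Eq.symm⟩
  have hrange : Set.range (b.trans yy) ⊆ XY {i, l} := by
    rintro _ ⟨a, rfl⟩
    right
    refine ⟨b a, ?_, rfl⟩
    rw [← hmap]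
    simp
  have huI : StronglyMeasurable[R.G (XY {i, l})] (R.uI U b) :=
    ((measurable_from_top (f := fun υ : L.T 2 => Set.indicator U (fun _ => (1 : ℝ)) υ)).comp
      (R.meas_G (b.trans yy) hrange)).stronglyMeasurable
  have huIb : ∀ ω, |R.uI U b ω| ≤ 1 := by
    intro ω
    rw [R.uI_eq_indicator]
    exact MT.ind_bdd _ ω
  have hGI := R.condExp_H {T | T ⊆ ({i, l} : Finset ℕ)} (cardLe 1)
    (fun S T hTS hS => Finset.Subset.trans hTS hS)
    (fun S T hTS hS => (Finset.card_le_card hTS).trans hS)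
    (by
      have : {T | T ⊆ ({i, l} : Finset ℕ)} = (({i, l} : Finset ℕ).powerset : Set (Finset ℕ)) := by
        ext T
        exact Finset.mem_powerset.symm
      rw [this]; exact Finset.finite_toSet _)
    ⟨Finset.empty_subset _, by simp [cardLe]⟩
    (f := R.uI U b) (by rw [R.H_powerset]; exact huI) (C := 1) huIb
  have hset : {T | T ⊆ ({i, l} : Finset ℕ)} ∩ cardLe 1 = 𝒟 := by
    ext T
    simp only [Set.mem_inter_iff, Set.mem_ofPred_eq, cardLe, 𝒟, Set.mem_union]
    constructor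
    · rintro ⟨h3, h4⟩
      rcases Nat.lt_or_ge T.card 1 with h5 | h5
      · have : T = ∅ := Finset.card_eq_zero.1 (by omega)
        subst this
        exact Or.inl (Finset.empty_subset _)
      · obtain ⟨x, rfl⟩ := Finset.card_eq_one.1 (le_antisymm h4 h5)
        have h6 := h3 (Finset.mem_singleton_self x)
        simp only [Finset.mem_insert, Finset.mem_singleton] at h6
        rcases h6 with h6 | h6
        · right
          rw [h6]
        · left
          rw [h6]
    · rintro (h3 | h3)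
      · refine ⟨h3.trans (by simp), (Finset.card_le_card h3).trans (by simp)⟩
      · refine ⟨h3.trans (by simp), (Finset.card_le_card h3).trans (by simp)⟩
  rw [hset] at hGI
  obtain ⟨ψ, hψm, hψb, hψ⟩ := GenIndep.exists_version R (m := R.H 𝒟)
    {ω | R.t (b.trans yy) ω ∈ U}
  rw [← R.uI_eq_indicator] at hψ
  have hψu : R.uI U b =ᵐ[R.P] ψ := by
    have h1 : R.uI U b =ᵐ[R.P] g := h
    have h2 : R.P[R.uI U b | R.H (cardLe 1)] =ᵐ[R.P] g := by
      refine (condExp_congr_ae h1).trans ?_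
      rw [condExp_of_stronglyMeasurable (R.H_le _) hg]
      refine Integrable.congr ?_ h1
      exact R.integrable_of_bdd ((huI.mono (R.G_le _)).measurable) huIb
    exact h1.trans (h2.symm.trans (hGI.trans hψ))
  -- apply `twin`
  obtain ⟨ϖ, hϖ0, ⟨C, hϖC⟩, hϖm, hϖ1, hϖ2⟩ := R.twin {l} i j (by simpa using hil)
    (by simpa using hjl) hji.symm hψm hψb hd0
  -- identify the shifted function
  let c3 := (trN i j l hji.symm hil hjl).trans yy
  have hψs : (ψ ∘ R.shift (ysw i j)) =ᵐ[R.P] R.uI U (b.trans (Equiv.swap i j).toEmbedding) := by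
    rw [← R.uI_comp_shift]
    exact ((R.shift_mp (ysw i j)).quasiMeasurePreserving.ae_eq_comp hψu).symm
  have hb0 : (pr (0 : Fin 3) 2 (by decide)).trans c3 = b.trans yy := by
    ext x
    fin_cases x <;> rfl
  have hb1 : (pr (1 : Fin 3) 2 (by decide)).trans c3 =
      (b.trans (Equiv.swap i j).toEmbedding).trans yy := by
    ext x
    fin_cases x
    · change yy j = yy (Equiv.swap i j (b 0))
      rw [show b 0 = i from rfl, Equiv.swap_apply_left]
    · change yy l = yy (Equiv.swap i j (b 1))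
      rw [show b 1 = l from rfl, Equiv.swap_apply_of_ne_of_ne hil.symm hjl.symm]
  have habs : (fun ω => |ψ ω - ψ (R.shift (ysw i j) ω)|) =ᵐ[R.P] f3 U ∘ R.t c3 := by
    filter_upwards [hψu, hψs] with ω h1 h2
    have h3 : ψ (R.shift (ysw i j) ω) = R.uI U (b.trans (Equiv.swap i j).toEmbedding) ω := h2
    rw [h3, ← h1]
    simp only [Function.comp, f3, uI]
    rw [← hb0, ← hb1, R.comp, R.comp]
  have hfi : Integrable (f3 U ∘ R.t c3) R.P := R.integrable_comp_t c3 (f3 U)
  have hϖmeas : Measurable ϖ := (hϖm.mono (R.G_le _)).measurable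
  have hϖb : ∀ ω, |ϖ ω| ≤ C := fun ω => by rw [abs_of_nonneg (hϖ0 ω)]; exact hϖC ω
  have hϖi : Integrable ϖ R.P := R.integrable_of_bdd hϖmeas hϖb
  have hint1 : ∫ ω, ϖ ω ∂(R.P) = 1 := by
    have h1 : ∫ ω, (R.P[ϖ | R.G (XY (insert i {l}))]) ω ∂(R.P) = ∫ ω, ϖ ω ∂(R.P) :=
      integral_condExp (R.G_le _)
    rw [← h1, integral_congr_ae hϖ1]
    simp
  have hcalc : ∫ ω, |ψ ω - ψ (R.shift (ysw i j) ω)| * ϖ ω ∂(R.P) =
      ∫ ω, del3 U (R.t ((pr (0 : Fin 3) 1 (by decide)).trans c3) ω) * ϖ ω ∂(R.P) := by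
    have h1 : ∫ ω, |ψ ω - ψ (R.shift (ysw i j) ω)| * ϖ ω ∂(R.P) =
        ∫ ω, (f3 U ∘ R.t c3) ω * ϖ ω ∂(R.P) := by
      refine integral_congr_ae ?_
      filter_upwards [habs] with ω hω
      rw [← hω]
    have h2 := MT.integral_condExp_mul (μ := R.P) (R.G_le (XY {i, j})) hfi (g := ϖ)
      hϖmeas.aestronglyMeasurable (C := C) (Eventually.of_forall hϖb)
    rw [condExp_of_stronglyMeasurable (R.G_le _) hϖm hϖi] at h2
    rw [h1, ← h2]
    refine integral_congr_ae ?_
    filter_upwards [R.condExp_f3 U i j l hji.symm hil hjl] with ω hω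
    rw [hω]
  have hge : d ≤ ∫ ω, del3 U (R.t ((pr (0 : Fin 3) 1 (by decide)).trans c3) ω) * ϖ ω ∂(R.P) := by
    have h1 : d = ∫ ω, d * ϖ ω ∂(R.P) := by
      rw [integral_const_mul, hint1, mul_one]
    rw [h1]
    refine integral_mono (hϖi.const_mul d) ?_ ?_
    · exact (R.integrable_comp_t _ (del3 U)).mul_bdd hϖmeas.aestronglyMeasurable
        (Eventually.of_forall fun ω => by rw [Real.norm_eq_abs]; exact hϖb ω)
    · intro ω
      exact mul_le_mul_of_nonneg_right (hmin _ (Finset.mem_univ _)) (hϖ0 ω)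
  rw [hcalc] at hϖ2
  exact absurd hϖ2 (not_lt.2 hge)

end Realisation
end MSch
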