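import Pool.Agent.Lib.MP_369ee2_lc.CTwo

/-!
# Types of tuples of `y`-points are independent of the 1-types over the base (module C3)
-/

namespace MSch

open Function MeasureTheory Filter

namespace CThree

theorem subsingleton_T0 (L : TypeSystem) : Subsingleton (L.T 0) := by
  classical
  let ι : Fin 0 ↪ Fin 1 := ⟨fun i => i.elim0, fun i => i.elim0⟩
  have h : ∀ τ : L.T 0, ∃ υ : L.T 1, L.res ι υ = τ := by
    intro τ
    by_contra hcon
    push Not at hcon
    have h1 := L.D_res ι τ
    rw [Finset.sum_eq_zero] at h1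
    · exact (L.D_pos τ).ne h1
    · intro υ _
      rw [if_neg (hcon υ)]
  refine ⟨fun τ τ' => ?_⟩
  obtain ⟨υ, rfl⟩ := h τ
  obtain ⟨υ', rfl⟩ := h τ'
  rw [Subsingleton.elim υ υ']

theorem D_T0 (L : TypeSystem) (τ : L.T 0) : L.D τ = 1 := by
  have := subsingleton_T0 L
  rw [← L.D_sum 0]
  exact (Fintype.sum_subsingleton (fun τ : L.T 0 => L.D τ) τ).symm

theorem isLowerSet_subset (S : Finset ℕ) : IsLowerSet {T : Finset ℕ | T ⊆ S} :=
  fun _ _ h h' => h.trans h'

theorem isLowerSet_cardLe (k : ℕ) : IsLowerSet (cardLe k) :=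
  fun _ _ h h' => (Finset.card_le_card h).trans h'

theorem finite_subset (S : Finset ℕ) : {T : Finset ℕ | T ⊆ S}.Finite := by
  have : {T : Finset ℕ | T ⊆ S} = (S.powerset : Set (Finset ℕ)) := by
    ext T; simp
  rw [this]
  exact Finset.finite_toSet _

theorem range_subset {k : ℕ} (b : Fin k ↪ ℕ) : Set.range (b.trans yy) ⊆ XY (Finset.univ.map b) := by
  rintro _ ⟨i, rfl⟩
  right
  exact ⟨b i, by simp, rfl⟩

end CThree

namespace Realisation

variable {L : TypeSystem} (R : Realisation L)

theorem CThree.sm_ind {k : ℕ} (b : Fin k ↪ ℕ) (τ : L.T k) :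
    StronglyMeasurable[R.H {T | T ⊆ Finset.univ.map b}] (R.ind (b.trans yy) τ) := by
  rw [R.H_powerset, R.ind_eq_indicator]
  refine Measurable.stronglyMeasurable ?_
  refine Measurable.indicator measurable_const ?_
  exact R.meas_G (b.trans yy) (CThree.range_subset b) (t := {τ}) trivial

theorem CThree.bdd_ind {k : ℕ} (a : Fin k ↪ ℕ) (τ : L.T k) (ω : R.Ω) : |R.ind a τ ω| ≤ 1 := by
  rw [abs_of_nonneg (R.ind_nonneg a τ ω)]
  exact R.ind_le_one a τ ω

theorem types_indep {s : ℕ} (b : Fin s ↪ ℕ) (τ : L.T s) :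
    R.P[R.ind (b.trans yy) τ | R.H (cardLe 1)] =ᵐ[R.P] fun _ => L.D τ := by
  induction s with
  | zero =>
    have := CThree.subsingleton_T0 L
    have h1 : R.ind (b.trans yy) τ = fun _ => L.D τ := by
      funext ω
      rw [CThree.D_T0 L τ]
      unfold ind
      rw [if_pos (Subsingleton.elim _ _)]
    rw [h1, condExp_const (R.H_le _)]
  | succ s ih =>
    set b' : Fin s ↪ ℕ := Fin.castSuccEmb.trans b with hb'
    set κ : L.T s := L.res Fin.castSuccEmb τ with hκ
    set A : Set (Finset ℕ) := {T | T ⊆ Finset.univ.map b} with hA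
    set W : Set (Finset ℕ) := {T | T ⊆ Finset.univ.map b'} with hW
    have hWA : W ⊆ A := by
      intro T hT x hx
      have h1 := hT hx
      simp only [Finset.mem_map, Finset.mem_univ, true_and] at h1 ⊢
      obtain ⟨i, hi⟩ := h1
      exact ⟨Fin.castSucc i, hi⟩
    have hsub : A ∩ cardLe 1 ⊆ W ∪ {T | T ⊆ {b (Fin.last s)}} := by
      rintro T ⟨hTA, hT1⟩
      have hT1' : T.card ≤ 1 := hT1
      rcases Finset.card_le_one_iff_subset_singleton.1 hT1' with ⟨x, hx⟩
      rcases T.eq_empty_or_nonempty with rfl | hne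
      · left; exact Finset.empty_subset _
      · have hTx : T = {x} := (Finset.subset_singleton_iff.1 hx).resolve_left hne.ne_empty
        subst hTx
        have h1 := hTA (Finset.mem_singleton_self x)
        simp only [Finset.mem_map, Finset.mem_univ, true_and] at h1
        obtain ⟨i, rfl⟩ := h1
        refine Fin.lastCases ?_ (fun j => ?_) i
        · right; exact Finset.Subset.refl _
        · left
          intro y hy
          rw [Finset.mem_singleton] at hy
          subst hy
          simp only [Finset.mem_map, Finset.mem_univ, true_and]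
          exact ⟨j, rfl⟩
    have h0 : (∅ : Finset ℕ) ∈ A ∩ cardLe 1 := ⟨Finset.empty_subset _, by simp [cardLe]⟩
    have h0' : (∅ : Finset ℕ) ∈ W ∩ cardLe 1 := ⟨Finset.empty_subset _, by simp [cardLe]⟩
    -- step 1
    have s1 := R.condExp_H A (cardLe 1) (CThree.isLowerSet_subset _) (CThree.isLowerSet_cardLe 1)
      (CThree.finite_subset _) h0 (CThree.sm_ind R b τ) (CThree.bdd_ind R (b.trans yy) τ)
    -- step 2 : tower property
    have s2 := (condExp_condExp_of_le (μ := R.P) (f := R.ind (b.trans yy) τ) (R.H_mono hsub)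
      (R.H_le _))
    have s3 : R.P[R.P[R.ind (b.trans yy) τ | R.H (W ∪ {T | T ⊆ {b (Fin.last s)}})] |
        R.H (A ∩ cardLe 1)] =ᵐ[R.P]
        R.P[(L.D τ / L.D κ) • R.ind (b'.trans yy) κ | R.H (A ∩ cardLe 1)] := by
      refine condExp_congr_ae ((R.ext_indep b τ).trans ?_)
      refine Eventually.of_forall fun ω => ?_
      simp only [Pi.smul_apply, smul_eq_mul, ind]
      rw [← hb', ← hκ]
      split_ifs <;> ring
    have s4 := condExp_smul (μ := R.P) (L.D τ / L.D κ) (R.ind (b'.trans yy) κ)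
      (R.H (A ∩ cardLe 1))
    -- step 5 : back to all 1-types
    have s5 := R.condExp_H W (cardLe 1) (CThree.isLowerSet_subset _) (CThree.isLowerSet_cardLe 1)
      (CThree.finite_subset _) h0' (CThree.sm_ind R b' κ) (CThree.bdd_ind R (b'.trans yy) κ)
    have h0'' : (∅ : Finset ℕ) ∈ W ∩ (A ∩ cardLe 1) := ⟨h0'.1, h0⟩
    have s6 := R.condExp_H W (A ∩ cardLe 1) (CThree.isLowerSet_subset _)
      ((CThree.isLowerSet_subset _).inter (CThree.isLowerSet_cardLe 1))
      (CThree.finite_subset _) h0'' (CThree.sm_ind R b' κ) (CThree.bdd_ind R (b'.trans yy) κ)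
    have hset : W ∩ (A ∩ cardLe 1) = W ∩ cardLe 1 := by
      rw [← Set.inter_assoc, Set.inter_eq_left.2 hWA]
    rw [hset] at s6
    have s7 := ih b' κ
    refine s1.trans (s2.symm.trans (s3.trans (s4.trans ?_)))
    filter_upwards [s5, s6, s7] with ω h5 h6 h7
    rw [Pi.smul_apply, h6, ← h5, h7, smul_eq_mul]
    exact div_mul_cancel₀ _ (L.D_pos κ).ne'

end Realisation

end MSch
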