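import Pool.Agent.Lib.MP_369ee2_lc.CondIndep

/-!
# Twins (module TW)
-/

namespace MSch

open Function MeasureTheory Filter
open scoped Topology ENNReal

namespace TwinsAux

/-- the constant `1`-tuple -/
def one (i : ℕ) : Fin 1 ↪ ℕ := ⟨fun _ => i, fun a b _ => Subsingleton.elim a b⟩

theorem map_one (i : ℕ) : Finset.univ.map (one i) = {i} := by
  ext n
  simp [one, eq_comm]

theorem ysw_left (i j : ℕ) : ysw i j (yy i) = yy j := Equiv.swap_apply_left _ _

theorem ysw_right (i j : ℕ) : ysw i j (yy j) = yy i := Equiv.swap_apply_right _ _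

theorem ysw_xx (i j n : ℕ) : ysw i j (xx n) = xx n := by
  apply Equiv.swap_apply_of_ne_of_ne
  · rw [xx_apply, yy_apply]; omega
  · rw [xx_apply, yy_apply]; omega

theorem ysw_yy {i j n : ℕ} (h1 : n ≠ i) (h2 : n ≠ j) : ysw i j (yy n) = yy n := by
  apply Equiv.swap_apply_of_ne_of_ne
  · exact fun h => h1 (yy.injective h)
  · exact fun h => h2 (yy.injective h)

theorem xy_one_swap (N i j : ℕ) : (xy N (one i)).trans (ysw i j) = xy N (one j) := by
  ext a
  refine Fin.addCases (fun a => ?_) (fun a => ?_) a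
  · rw [Embedding.trans_apply, xy_left, xy_left, ysw_xx]
  · rw [Embedding.trans_apply, xy_right, xy_right]
    exact ysw_left i j

theorem xy_one_swap' (N i j : ℕ) : (xy N (one j)).trans (ysw i j) = xy N (one i) := by
  ext a
  refine Fin.addCases (fun a => ?_) (fun a => ?_) a
  · rw [Embedding.trans_apply, xy_left, xy_left, ysw_xx]
  · rw [Embedding.trans_apply, xy_right, xy_right]
    exact ysw_right i j

theorem xy_fix_swap (N i j : ℕ) {r : ℕ} (b : Fin r ↪ ℕ) (hi : ∀ a, b a ≠ i) (hj : ∀ a, b a ≠ j) :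
    (xy N b).trans (ysw i j) = xy N b := by
  ext a
  refine Fin.addCases (fun a => ?_) (fun a => ?_) a
  · rw [Embedding.trans_apply, xy_left, ysw_xx]
  · rw [Embedding.trans_apply, xy_right, ysw_yy (hi a) (hj a)]

theorem base_eq (N i j : ℕ) :
    (Fin.castAddEmb 1).trans (xy N (one i)) = (Fin.castAddEmb 1).trans (xy N (one j)) := by
  ext a
  rw [Embedding.trans_apply, Embedding.trans_apply]
  show xy N (one i) (Fin.castAdd 1 a) = xy N (one j) (Fin.castAdd 1 a)
  rw [xy_left, xy_left]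

theorem range_base (N j : ℕ) (S : Finset ℕ) (hj : j ∉ S) :
    Set.range (xy N (one j)) ∩ XY S = Set.range ((Fin.castAddEmb 1).trans (xy N (one j))) := by
  ext n
  constructor
  · rintro ⟨⟨a, rfl⟩, h⟩
    revert h
    refine Fin.addCases (fun a => ?_) (fun a => ?_) a
    · intro _
      exact ⟨a, rfl⟩
    · intro h
      exfalso
      rw [xy_right] at h
      rcases h with ⟨m, hm⟩ | ⟨m, hm, hm'⟩
      · rw [xx_apply, yy_apply] at hm
        omega
      · have : m = j := yy.injective hm'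
        rw [this] at hm
        exact hj (by exact_mod_cast hm)
  · rintro ⟨a, rfl⟩
    refine ⟨⟨Fin.castAdd 1 a, rfl⟩, ?_⟩
    show xy N (one j) (Fin.castAdd 1 a) ∈ XY S
    rw [xy_left]
    exact Or.inl ⟨a, rfl⟩

theorem factors {Ω Z : Type*} {m : MeasurableSpace Ω} {g : Ω → Z}
    (hm : m ≤ MeasurableSpace.comap g ⊤) {f : Ω → ℝ} (hf : Measurable[m] f) {ω ω' : Ω}
    (h : g ω = g ω') : f ω = f ω' := by
  have h1 : MeasurableSet[m] (f ⁻¹' {f ω'}) := hf (measurableSet_singleton _)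
  obtain ⟨U, -, hU⟩ := hm _ h1
  have h2 : ω' ∈ f ⁻¹' {f ω'} := rfl
  rw [← hU] at h2
  have h3 : ω ∈ f ⁻¹' {f ω'} := by
    rw [← hU]
    show g ω ∈ U
    rw [h]
    exact h2
  exact h3

end TwinsAux

open TwinsAux

namespace Realisation

variable {L : TypeSystem} (R : Realisation L)

theorem twin (W : Finset ℕ) (i j : ℕ) (hi : i ∉ W) (hj : j ∉ W) (hij : i ≠ j)
    {ψ : R.Ω → ℝ} (hψ : StronglyMeasurable[R.H ({T | T ⊆ W} ∪ {T | T ⊆ {i}})] ψ)
    (hb : ∀ ω, |ψ ω| ≤ 1) {ε : ℝ} (hε : 0 < ε) :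
    ∃ ϖ : R.Ω → ℝ, (∀ ω, 0 ≤ ϖ ω) ∧ (∃ C : ℝ, ∀ ω, ϖ ω ≤ C) ∧
      StronglyMeasurable[R.G (XY {i, j})] ϖ ∧
      R.P[ϖ | R.G (XY (insert i W))] =ᵐ[R.P] (fun _ => 1) ∧
      ∫ ω, |ψ ω - ψ (R.shift (ysw i j) ω)| * ϖ ω ∂(R.P) < ε := by
  classical
  -- the enumeration of `W`
  obtain ⟨r, bw, hbw⟩ : ∃ (r : ℕ) (bw : Fin r ↪ ℕ), Finset.univ.map bw = W := by
    obtain ⟨r, bw, h⟩ := exists_enum W
    refine ⟨r, bw, ?_⟩
    ext n
    have : n ∈ Set.range bw ↔ n ∈ (W : Set ℕ) := by rw [h]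
    simpa using this
  have hbi : ∀ a, bw a ≠ i := fun a h => hi (by rw [← hbw, ← h]; simp)
  have hbj : ∀ a, bw a ≠ j := fun a h => hj (by rw [← hbw, ← h]; simp)
  -- the filtration
  let F : Filtration ℕ R.mΩ :=
    { seq := fun N => MeasurableSpace.comap (R.t (xy N bw)) ⊤ ⊔
        MeasurableSpace.comap (R.t (xy N (one i))) ⊤
      mono' := fun N M h => sup_le_sup (R.mono_comap_xy bw h) (R.mono_comap_xy (one i) h)
      le' := fun N => sup_le (R.meas _).comap_le (R.meas _).comap_le }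
  have hFdef : ∀ N, F N = MeasurableSpace.comap (R.t (xy N bw)) ⊤ ⊔
        MeasurableSpace.comap (R.t (xy N (one i))) ⊤ := fun N => rfl
  have hH : R.H ({T | T ⊆ W} ∪ {T | T ⊆ {i}}) = ⨆ N, F N := by
    have h1 : R.H ({T | T ⊆ W} ∪ {T | T ⊆ {i}}) = R.G (XY W) ⊔ R.G (XY {i}) := by
      rw [← R.H_powerset W, ← R.H_powerset {i}]
      unfold H
      rw [iSup_union]
    rw [h1]
    simp only [hFdef]
    rw [iSup_sup_eq, R.iSup_comap_xy, R.iSup_comap_xy, hbw, map_one]
  have hψm : Measurable ψ := hψ.measurable.mono (R.H_le _) le_rfl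
  have hψi : Integrable ψ R.P := R.integrable_of_bdd hψm hb
  have hlim := hψi.tendsto_eLpNorm_condExp (ℱ := F) (by rw [← hH]; exact hψ)
  obtain ⟨N, hN⟩ : ∃ N, eLpNorm (R.P[ψ|F N] - ψ) 1 R.P < ENNReal.ofReal (ε / 2) := by
    have h0 : (0 : ℝ≥0∞) < ENNReal.ofReal (ε / 2) := by
      rw [ENNReal.ofReal_pos]; linarith
    exact ((tendsto_order.1 hlim).2 _ h0).exists
  obtain ⟨p, hp⟩ : ∃ p : R.Ω → ℝ, p = R.P[ψ|F N] := ⟨_, rfl⟩
  have hpm : StronglyMeasurable[F N] p := by rw [hp]; exact stronglyMeasurable_condExp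
  have hpi : Integrable p R.P := by rw [hp]; exact integrable_condExp
  have hdiff : ∫ ω, |ψ ω - p ω| ∂(R.P) < ε / 2 := by
    rw [← hp] at hN
    rw [eLpNorm_one_eq_lintegral_enorm] at hN
    have h1 : ∫ ω, |ψ ω - p ω| ∂(R.P) = ∫ ω, ‖(p - ψ) ω‖ ∂(R.P) := by
      refine integral_congr_ae (Eventually.of_forall fun ω => ?_)
      simp only [Pi.sub_apply, Real.norm_eq_abs]
      exact abs_sub_comm _ _
    rw [h1, integral_norm_eq_lintegral_enorm (hpi.sub hψi).aestronglyMeasurable]
    have h2 : (0 : ℝ) ≤ ε / 2 := by linarith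
    calc (∫⁻ ω, ‖(p - ψ) ω‖ₑ ∂(R.P)).toReal < (ENNReal.ofReal (ε / 2)).toReal :=
          (ENNReal.toReal_lt_toReal (ne_top_of_lt hN) ENNReal.ofReal_ne_top).2 hN
      _ = ε / 2 := ENNReal.toReal_ofReal h2
  -- `p` factors
  have hpf : ∀ ω ω', R.t (xy N bw) ω = R.t (xy N bw) ω' →
      R.t (xy N (one i)) ω = R.t (xy N (one i)) ω' → p ω = p ω' := by
    intro ω ω' h1 h2
    refine factors (g := fun ω => (R.t (xy N bw) ω, R.t (xy N (one i)) ω)) ?_ hpm.measurable
      (Prod.ext h1 h2)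
    refine sup_le ?_ ?_
    · rintro _ ⟨U, -, rfl⟩
      exact ⟨Prod.fst ⁻¹' U, trivial, rfl⟩
    · rintro _ ⟨U, -, rfl⟩
      exact ⟨Prod.snd ⁻¹' U, trivial, rfl⟩
  -- the weight
  let c : L.T (N + 1) → ℝ := fun a => L.D (L.res (Fin.castAddEmb 1) a) / L.D a
  have hc : ∀ a, 0 < c a := fun a => div_pos (L.D_pos _) (L.D_pos _)
  let ϖ : R.Ω → ℝ := fun ω => ∑ a, R.ind (xy N (one i)) a ω * (R.ind (xy N (one j)) a ω * c a)
  have hϖ0 : ∀ ω, 0 ≤ ϖ ω := fun ω => Finset.sum_nonneg fun a _ =>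
    mul_nonneg (R.ind_nonneg _ _ _) (mul_nonneg (R.ind_nonneg _ _ _) (hc a).le)
  have hϖC : ∀ ω, ϖ ω ≤ ∑ a, c a := fun ω => Finset.sum_le_sum fun a _ => by
    calc R.ind (xy N (one i)) a ω * (R.ind (xy N (one j)) a ω * c a)
        ≤ 1 * (1 * c a) := mul_le_mul (R.ind_le_one _ _ _)
          (mul_le_mul_of_nonneg_right (R.ind_le_one _ _ _) (hc a).le)
          (mul_nonneg (R.ind_nonneg _ _ _) (hc a).le) zero_le_one
      _ = c a := by ring
  have hindG : ∀ (S : Finset ℕ) (k : ℕ) (hk : k ∈ S) (a : L.T (N + 1)),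
      StronglyMeasurable[R.G (XY S)] (R.ind (xy N (one k)) a) := by
    intro S k hk a
    have h1 : Set.range (xy N (one k)) ⊆ XY S := by
      refine (range_xy_subset_XY N (one k)).trans (XY_mono ?_)
      rw [map_one]
      simpa using hk
    have h2 : MeasurableSet[R.G (XY S)] {ω | R.t (xy N (one k)) ω = a} :=
      R.meas_G _ h1 (show MeasurableSet[⊤] {a} from trivial)
    rw [R.ind_eq_indicator]
    exact stronglyMeasurable_const.indicator h2
  have hϖm : StronglyMeasurable[R.G (XY {i, j})] ϖ := by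
    refine Finset.stronglyMeasurable_fun_sum _ fun a _ => ?_
    exact (hindG _ i (by simp) a).mul ((hindG _ j (by simp) a).mul_const _)
  have hϖmeas : Measurable ϖ := hϖm.measurable.mono (R.G_le _) le_rfl
  have hϖi : Integrable ϖ R.P := R.integrable_of_bdd hϖmeas (C := ∑ a, c a) fun ω => by
    rw [abs_of_nonneg (hϖ0 ω)]; exact hϖC ω
  -- its conditional expectation
  have hjW : j ∉ insert i W := by
    rw [Finset.mem_insert]
    rintro (h | h)
    · exact hij h.symm
    · exact hj h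
  have hcond : R.P[ϖ | R.G (XY (insert i W))] =ᵐ[R.P] (fun _ => 1) := by
    have h1 : ϖ = ∑ a, (R.ind (xy N (one i)) a * fun ω => R.ind (xy N (one j)) a ω * c a) := by
      funext ω
      rw [Finset.sum_apply]
      rfl
    have hterm : ∀ a, R.P[R.ind (xy N (one i)) a * (fun ω => R.ind (xy N (one j)) a ω * c a) |
        R.G (XY (insert i W))] =ᵐ[R.P] fun ω => R.ind (xy N (one i)) a ω *
          ((if R.t ((Fin.castAddEmb 1).trans (xy N (one j))) ω = L.res (Fin.castAddEmb 1) a
            then L.D a / L.D (L.res (Fin.castAddEmb 1) a) else 0) * c a) := by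
      intro a
      have h2 : Integrable (fun ω => R.ind (xy N (one j)) a ω * c a) R.P :=
        (R.integrable_ind _ a).mul_const _
      have h3 : Integrable (R.ind (xy N (one i)) a * fun ω => R.ind (xy N (one j)) a ω * c a)
          R.P := by
        refine h2.bdd_mul (R.measurable_ind _ a).aestronglyMeasurable
          (Eventually.of_forall fun ω => ?_) (c := 1)
        rw [Real.norm_eq_abs, abs_of_nonneg (R.ind_nonneg _ _ _)]
        exact R.ind_le_one _ _ _
      have h4 := condExp_mul_of_stronglyMeasurable_left (μ := R.P)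
        (hindG (insert i W) i (Finset.mem_insert_self _ _) a) h3 h2
      have h5 : R.P[fun ω => R.ind (xy N (one j)) a ω * c a | R.G (XY (insert i W))] =ᵐ[R.P]
          fun ω => (R.P[R.ind (xy N (one j)) a | R.G (XY (insert i W))]) ω * c a := by
        have h6 := condExp_smul (μ := R.P) (c a) (R.ind (xy N (one j)) a)
          (R.G (XY (insert i W)))
        have h7 : (fun ω => R.ind (xy N (one j)) a ω * c a) = c a • R.ind (xy N (one j)) a := by
          funext ω
          simp [mul_comm]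
        rw [h7]
        refine h6.trans (Eventually.of_forall fun ω => ?_)
        simp [mul_comm]
      have h8 := R.condExp_ind (Fin.castAddEmb 1) (xy N (one j)) (XY (insert i W))
        (range_base N j _ hjW) a
      filter_upwards [h4, h5, h8] with ω e4 e5 e8
      rw [e4, Pi.mul_apply, e5, e8]
    rw [h1]
    refine (condExp_finsetSum (μ := R.P) (m := R.G (XY (insert i W))) (s := Finset.univ)
      (f := fun a => R.ind (xy N (one i)) a * fun ω => R.ind (xy N (one j)) a ω * c a)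
      (fun a _ => ?_)).trans ?_
    · have h2 : Integrable (fun ω => R.ind (xy N (one j)) a ω * c a) R.P :=
        (R.integrable_ind _ a).mul_const _
      refine h2.bdd_mul (R.measurable_ind _ a).aestronglyMeasurable
          (Eventually.of_forall fun ω => ?_) (c := 1)
      rw [Real.norm_eq_abs, abs_of_nonneg (R.ind_nonneg _ _ _)]
      exact R.ind_le_one _ _ _
    · have h9 : ∀ᵐ ω ∂(R.P), ∀ a, (R.P[R.ind (xy N (one i)) a *
          (fun ω => R.ind (xy N (one j)) a ω * c a) | R.G (XY (insert i W))]) ω =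
          R.ind (xy N (one i)) a ω *
          ((if R.t ((Fin.castAddEmb 1).trans (xy N (one j))) ω = L.res (Fin.castAddEmb 1) a
            then L.D a / L.D (L.res (Fin.castAddEmb 1) a) else 0) * c a) :=
        ae_all_iff.2 hterm
      filter_upwards [h9] with ω hω
      rw [Finset.sum_apply, Finset.sum_congr rfl fun a _ => hω a,
        Finset.sum_eq_single (R.t (xy N (one i)) ω)]
      · have h10 : R.t ((Fin.castAddEmb 1).trans (xy N (one j))) ω =
            L.res (Fin.castAddEmb 1) (R.t (xy N (one i)) ω) := by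
          rw [← base_eq N i j, R.comp]
        rw [if_pos h10]
        simp only [ind, if_true, c]
        have h11 := (L.D_pos (R.t (xy N (one i)) ω)).ne'
        have h12 := (L.D_pos (L.res (Fin.castAddEmb 1) (R.t (xy N (one i)) ω))).ne'
        field_simp
      · intro a _ ha
        simp [ind, ha.symm]
      · simp
  -- swapping
  have hswi : ∀ ω, R.t (xy N (one i)) (R.shift (ysw i j) ω) = R.t (xy N (one j)) ω := fun ω => by
    rw [R.t_shift, xy_one_swap]
  have hswj : ∀ ω, R.t (xy N (one j)) (R.shift (ysw i j) ω) = R.t (xy N (one i)) ω := fun ω => by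
    rw [R.t_shift, xy_one_swap']
  have hsww : ∀ ω, R.t (xy N bw) (R.shift (ysw i j) ω) = R.t (xy N bw) ω := fun ω => by
    rw [R.t_shift, xy_fix_swap N i j bw hbi hbj]
  have hϖsw : ∀ ω, ϖ (R.shift (ysw i j) ω) = ϖ ω := by
    intro ω
    refine Finset.sum_congr rfl fun a _ => ?_
    simp only [ind, hswi, hswj]
    ring
  have hϖne : ∀ ω, ϖ ω ≠ 0 → R.t (xy N (one i)) ω = R.t (xy N (one j)) ω := by
    intro ω h
    by_contra hne
    apply h
    refine Finset.sum_eq_zero fun a _ => ?_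
    simp only [ind]
    by_cases h1 : R.t (xy N (one i)) ω = a
    · have h2 : R.t (xy N (one j)) ω ≠ a := fun h2 => hne (h1.trans h2.symm)
      simp [h2]
    · simp [h1]
  have hpoint : ∀ ω, |ψ ω - ψ (R.shift (ysw i j) ω)| * ϖ ω ≤
      |ψ ω - p ω| * ϖ ω + |ψ (R.shift (ysw i j) ω) - p (R.shift (ysw i j) ω)| *
        ϖ (R.shift (ysw i j) ω) := by
    intro ω
    rw [hϖsw]
    by_cases h : ϖ ω = 0
    · rw [h]; simp
    · have h1 := hϖne ω h
      have h2 : p (R.shift (ysw i j) ω) = p ω := by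
        apply hpf
        · exact hsww ω
        · rw [hswi, h1]
      rw [h2, ← add_mul]
      refine mul_le_mul_of_nonneg_right ?_ (hϖ0 ω)
      have h3 : ψ ω - ψ (R.shift (ysw i j) ω) =
          (ψ ω - p ω) - (ψ (R.shift (ysw i j) ω) - p ω) := by ring
      rw [h3]
      exact abs_sub _ _
  -- integrals
  have hq : Integrable (fun ω => |ψ ω - p ω| * ϖ ω) R.P := by
    refine Integrable.mul_bdd (c := ∑ a, c a) (hψi.sub hpi).abs
      hϖmeas.aestronglyMeasurable (Eventually.of_forall fun ω => ?_)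
    rw [Real.norm_eq_abs, abs_of_nonneg (hϖ0 ω)]
    exact hϖC ω
  have hmp := R.shift_mp (ysw i j)
  have hqs : ∫ ω, |ψ (R.shift (ysw i j) ω) - p (R.shift (ysw i j) ω)| *
        ϖ (R.shift (ysw i j) ω) ∂(R.P) = ∫ ω, |ψ ω - p ω| * ϖ ω ∂(R.P) := by
    have h1 := integral_map (μ := R.P) (φ := R.shift (ysw i j)) hmp.measurable.aemeasurable
      (f := fun ω => |ψ ω - p ω| * ϖ ω) (by rw [hmp.map_eq]; exact hq.aestronglyMeasurable)
    rw [hmp.map_eq] at h1
    exact h1.symm
  have hqsi : Integrable (fun ω => |ψ (R.shift (ysw i j) ω) - p (R.shift (ysw i j) ω)| *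
        ϖ (R.shift (ysw i j) ω)) R.P := hmp.integrable_comp_of_integrable hq
  have hq2 : ∫ ω, |ψ ω - p ω| * ϖ ω ∂(R.P) = ∫ ω, |ψ ω - p ω| ∂(R.P) := by
    have hsub : XY W ⊆ XY (insert i W) := XY_mono (Finset.subset_insert _ _)
    have hle : F N ≤ R.G (XY (insert i W)) := by
      refine sup_le ?_ ?_
      · refine R.comap_le_G _ ((range_xy_subset_XY N bw).trans ?_)
        rw [hbw]
        exact hsub
      · refine R.comap_le_G _ ((range_xy_subset_XY N (one i)).trans (XY_mono ?_))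
        rw [map_one]
        simp
    have hle2 : R.H ({T | T ⊆ W} ∪ {T | T ⊆ {i}}) ≤ R.G (XY (insert i W)) := by
      rw [hH]
      refine iSup_le fun M => ?_
      refine sup_le ?_ ?_
      · refine R.comap_le_G _ ((range_xy_subset_XY M bw).trans ?_)
        rw [hbw]
        exact hsub
      · refine R.comap_le_G _ ((range_xy_subset_XY M (one i)).trans (XY_mono ?_))
        rw [map_one]
        simp
    have hfm : StronglyMeasurable[R.G (XY (insert i W))] (fun ω => |ψ ω - p ω|) := by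
      have := ((hψ.mono hle2).sub (hpm.mono hle)).norm
      exact this
    have hfi : Integrable (fun ω => |ψ ω - p ω|) R.P := (hψi.sub hpi).abs
    have h1 := MT.integral_condExp_mul (μ := R.P) (R.G_le (XY (insert i W))) hfi
      (g := ϖ) hϖmeas.aestronglyMeasurable (C := ∑ a, c a) (Eventually.of_forall fun ω => by
        rw [abs_of_nonneg (hϖ0 ω)]; exact hϖC ω)
    rw [condExp_of_stronglyMeasurable (R.G_le _) hfm hfi] at h1
    rw [h1]
    refine integral_congr_ae ?_
    filter_upwards [hcond] with ω hω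
    rw [hω, mul_one]
  refine ⟨ϖ, hϖ0, ⟨_, hϖC⟩, hϖm, hcond, ?_⟩
  have hfin : ∫ ω, |ψ ω - ψ (R.shift (ysw i j) ω)| * ϖ ω ∂(R.P) ≤
      ∫ ω, (|ψ ω - p ω| * ϖ ω + |ψ (R.shift (ysw i j) ω) - p (R.shift (ysw i j) ω)| *
        ϖ (R.shift (ysw i j) ω)) ∂(R.P) := by
    refine integral_mono_of_nonneg (Eventually.of_forall fun ω => ?_) (hq.add hqsi)
      (Eventually.of_forall hpoint)
    exact mul_nonneg (abs_nonneg _) (hϖ0 ω)
  rw [integral_add hq hqsi, hqs, hq2] at hfin
  linarith

end Realisation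

end MSch
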