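import Pool.Agent.Lib.MP_369ee2_lc.CondIndep
import Pool.Agent.Lib.MP_369ee2_lc.CondExpMP
import Pool.Agent.Lib.MP_369ee2_lc.GenIndep
import Pool.Agent.Lib.MP_369ee2_lc.Twins
import Pool.Agent.Lib.MP_369ee2_lc.COne

/-!
# One point extensions are independent of the base (module C2)
-/

namespace MSch

open Function MeasureTheory

namespace CTwoAux

theorem fin_ss (S : Finset ℕ) : {T : Finset ℕ | T ⊆ S}.Finite := by
  refine (S.powerset.finite_toSet).subset ?_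
  intro T hT
  simpa using hT

theorem low_ss (S : Finset ℕ) : IsLowerSet {T : Finset ℕ | T ⊆ S} :=
  fun _ _ h1 h2 => h1.trans h2

theorem inter1 {W : Finset ℕ} {i j : ℕ} (hi : i ∉ W) (hj : j ∉ W) (hij : i ≠ j) :
    {T : Finset ℕ | T ⊆ insert i W} ∩ ({T | T ⊆ insert j W} ∪ {T | T ⊆ {i, j}})
      = {T | T ⊆ W} ∪ {T | T ⊆ {i}} := by
  ext T
  simp only [Set.mem_inter_iff, Set.mem_union, Set.mem_ofPred_eq]
  constructor
  · rintro ⟨h1, h2 | h2⟩
    · left
      intro x hx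
      have h3 := h1 hx
      have h4 := h2 hx
      rw [Finset.mem_insert] at h3 h4
      rcases h3 with rfl | h3
      · rcases h4 with h4 | h4
        · exact absurd h4 hij
        · exact h4
      · exact h3
    · right
      intro x hx
      have h3 := h1 hx
      have h4 := h2 hx
      rw [Finset.mem_insert] at h3
      rw [Finset.mem_insert, Finset.mem_singleton] at h4
      rw [Finset.mem_singleton]
      rcases h4 with h4 | h4
      · exact h4
      · rcases h3 with h3 | h3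
        · exact h3
        · exact absurd (h4 ▸ h3) hj
  · rintro (h | h)
    · exact ⟨h.trans (Finset.subset_insert _ _), Or.inl (h.trans (Finset.subset_insert _ _))⟩
    · refine ⟨h.trans (by simp), Or.inr (h.trans (by simp))⟩

theorem inter2 {W : Finset ℕ} {i j : ℕ} (hi : i ∉ W) (hj : j ∉ W) (hij : i ≠ j) :
    {T : Finset ℕ | T ⊆ insert j W} ∩ ({T | T ⊆ W} ∪ {T | T ⊆ {i, j}})
      = {T | T ⊆ W} ∪ {T | T ⊆ {j}} := by
  ext T
  simp only [Set.mem_inter_iff, Set.mem_union, Set.mem_ofPred_eq]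
  constructor
  · rintro ⟨h1, h2 | h2⟩
    · left
      exact h2
    · right
      intro x hx
      have h3 := h1 hx
      have h4 := h2 hx
      rw [Finset.mem_insert] at h3
      rw [Finset.mem_insert, Finset.mem_singleton] at h4
      rw [Finset.mem_singleton]
      rcases h4 with h4 | h4
      · rcases h3 with h3 | h3
        · exact h3
        · exact absurd (h4 ▸ h3) hi
      · exact h4
  · rintro (h | h)
    · exact ⟨h.trans (Finset.subset_insert _ _), Or.inl h⟩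
    · refine ⟨h.trans (by simp), Or.inr (h.trans (by simp))⟩

theorem inter3 {W : Finset ℕ} {i j : ℕ} (hi : i ∉ W) (hj : j ∉ W) :
    (({T : Finset ℕ | T ⊆ W} ∪ {T | T ⊆ {i}}) ∪ {T | T ⊆ {j}}) ∩ {T | T ⊆ {i, j}}
      = {T | T ⊆ {i}} ∪ {T | T ⊆ {j}} := by
  ext T
  simp only [Set.mem_inter_iff, Set.mem_union, Set.mem_ofPred_eq]
  constructor
  · rintro ⟨(h1 | h1) | h1, h2⟩
    · left
      intro x hx
      have h3 := h1 hx
      have h4 := h2 hx
      rw [Finset.mem_insert, Finset.mem_singleton] at h4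
      rcases h4 with h4 | h4
      · exact absurd (h4 ▸ h3) hi
      · exact absurd (h4 ▸ h3) hj
    · exact Or.inl h1
    · exact Or.inr h1
  · rintro (h | h)
    · exact ⟨Or.inl (Or.inr h), h.trans (by simp)⟩
    · exact ⟨Or.inr h, h.trans (by simp)⟩

theorem inter4 {W : Finset ℕ} {i j : ℕ} (hi : i ∉ W) (hj : j ∉ W) (hij : i ≠ j) :
    ({T : Finset ℕ | T ⊆ W} ∪ {T | T ⊆ {j}}) ∩ ({T | T ⊆ W} ∪ {T | T ⊆ {i}})
      = {T | T ⊆ W} := by
  ext T
  simp only [Set.mem_inter_iff, Set.mem_union, Set.mem_ofPred_eq]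
  constructor
  · rintro ⟨h1 | h1, h2⟩
    · exact h1
    · rcases h2 with h2 | h2
      · exact h2
      · intro x hx
        have h3 := h1 hx
        have h4 := h2 hx
        rw [Finset.mem_singleton] at h3 h4
        exact absurd (h4.symm.trans h3) hij
  · intro h
    exact ⟨Or.inl h, Or.inl h⟩

theorem pair_inj {i j : ℕ} (hij : i ≠ j) : Function.Injective (![i, j] : Fin 2 → ℕ) := by
  intro x y hxy
  fin_cases x <;> fin_cases y <;> simp_all

theorem ysw_yy (i j n : ℕ) : ysw i j (yy n) = yy (Equiv.swap i j n) := by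
  show Equiv.swap (yy i) (yy j) (yy n) = _
  rw [← yy.injective.swap_apply]

theorem ysw_xx (i j n : ℕ) : ysw i j (xx n) = xx n := by
  show Equiv.swap (yy i) (yy j) (xx n) = _
  apply Equiv.swap_apply_of_ne_of_ne
  · rw [xx_apply, yy_apply]; omega
  · rw [xx_apply, yy_apply]; omega

theorem ysw_image (i j : ℕ) (S : Finset ℕ) :
    (ysw i j) '' (XY S) = XY (S.map (Equiv.swap i j).toEmbedding) := by
  unfold XY
  rw [Set.image_union]
  congr 1
  · ext n
    constructor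
    · rintro ⟨_, ⟨m, rfl⟩, rfl⟩
      rw [ysw_xx]
      exact ⟨m, rfl⟩
    · rintro ⟨m, rfl⟩
      exact ⟨xx m, ⟨m, rfl⟩, ysw_xx i j m⟩
  · ext n
    constructor
    · rintro ⟨_, ⟨m, hm, rfl⟩, rfl⟩
      rw [ysw_yy]
      refine ⟨_, ?_, rfl⟩
      have : m ∈ S := hm
      simp [this]
    · rintro ⟨m, hm, rfl⟩
      obtain ⟨a, ha, rfl⟩ := Finset.mem_map.1 (show m ∈ S.map (Equiv.swap i j).toEmbedding from hm)
      exact ⟨yy a, ⟨a, ha, rfl⟩, ysw_yy i j a⟩

theorem swap_map_of_notMem {S : Finset ℕ} {i j : ℕ} (hi : i ∉ S) (hj : j ∉ S) :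
    S.map (Equiv.swap i j).toEmbedding = S := by
  ext n
  rw [Finset.mem_map]
  constructor
  · rintro ⟨a, ha, rfl⟩
    have h1 : a ≠ i := fun h => hi (h ▸ ha)
    have h2 : a ≠ j := fun h => hj (h ▸ ha)
    show Equiv.swap i j a ∈ S
    rwa [Equiv.swap_apply_of_ne_of_ne h1 h2]
  · intro hn
    have h1 : n ≠ i := fun h => hi (h ▸ hn)
    have h2 : n ≠ j := fun h => hj (h ▸ hn)
    exact ⟨n, hn, Equiv.swap_apply_of_ne_of_ne h1 h2⟩

section

variable {L : TypeSystem} (R : Realisation L)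

theorem comap_H {W : Finset ℕ} {i j : ℕ} (hi : i ∉ W) (hj : j ∉ W) :
    (R.H ({T | T ⊆ W} ∪ {T | T ⊆ {i}})).comap (R.shift (ysw i j))
      = R.H ({T | T ⊆ W} ∪ {T | T ⊆ {j}}) := by
  have h1 : ∀ S : Finset ℕ, (R.G (XY S)).comap (R.shift (ysw i j))
      = R.G (XY (S.map (Equiv.swap i j).toEmbedding)) := by
    intro S
    rw [R.comap_shift_G, ysw_image]
  have h2 : ({i} : Finset ℕ).map (Equiv.swap i j).toEmbedding = {j} := by
    rw [Finset.map_singleton]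
    show {Equiv.swap i j i} = {j}
    rw [Equiv.swap_apply_left]
  unfold Realisation.H
  simp only [MeasurableSpace.comap_iSup, h1]
  apply le_antisymm
  · refine iSup_le fun S => iSup_le fun hS => ?_
    rcases hS with hS | hS
    · have hS' : S ⊆ W := hS
      rw [swap_map_of_notMem (fun h => hi (hS' h)) (fun h => hj (hS' h))]
      exact le_iSup_of_le S (le_iSup_of_le (Or.inl hS) le_rfl)
    · have hS' : S ⊆ {i} := hS
      refine le_iSup_of_le (S.map (Equiv.swap i j).toEmbedding) (le_iSup_of_le (Or.inr ?_) le_rfl)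
      show S.map (Equiv.swap i j).toEmbedding ⊆ {j}
      rw [← h2]
      exact Finset.map_subset_map.2 hS'
  · refine iSup_le fun S => iSup_le fun hS => ?_
    rcases hS with hS | hS
    · have hS' : S ⊆ W := hS
      refine le_iSup_of_le S (le_iSup_of_le (Or.inl hS) ?_)
      rw [swap_map_of_notMem (fun h => hi (hS' h)) (fun h => hj (hS' h))]
    · have hS' : S ⊆ {j} := hS
      refine le_iSup_of_le {i} (le_iSup_of_le (Or.inr (Finset.Subset.refl _)) ?_)
      rw [h2]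
      exact R.G_mono (XY_mono hS')

/-- conditional expectation of a function of the type of a tuple -/
theorem condExp_comp_t {k n : ℕ} (ι : Fin k ↪ Fin n) (a : Fin n ↪ ℕ) (S : Set ℕ)
    (hS : Set.range a ∩ S = Set.range (ι.trans a)) (F : L.T n → ℝ) :
    ∃ γ : L.T k → ℝ, R.P[F ∘ R.t a | R.G S] =ᵐ[R.P] fun ω => γ (R.t (ι.trans a) ω) := by
  classical
  have h1 : F ∘ R.t a = ∑ τ : L.T n, F τ • R.ind a τ := by
    funext ω
    simp [Realisation.ind, Finset.sum_apply]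
  refine ⟨fun υ => ∑ τ : L.T n, F τ * (if υ = L.res ι τ then L.D τ / L.D (L.res ι τ) else 0), ?_⟩
  rw [h1]
  have h2 := condExp_finsetSum (μ := R.P) (s := Finset.univ) (f := fun τ : L.T n => F τ • R.ind a τ)
    (fun τ _ => (R.integrable_ind a τ).smul (F τ)) (R.G S)
  refine h2.trans ?_
  have h3 : ∀ τ : L.T n, R.P[F τ • R.ind a τ | R.G S] =ᵐ[R.P] fun ω =>
      F τ * (if R.t (ι.trans a) ω = L.res ι τ then L.D τ / L.D (L.res ι τ) else 0) := by
    intro τ
    refine (condExp_smul (F τ) (R.ind a τ) (R.G S)).trans ?_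
    filter_upwards [R.condExp_ind ι a S hS τ] with ω hω
    rw [Pi.smul_apply, hω, smul_eq_mul]
  have h4 : ∀ᵐ ω ∂(R.P), ∀ τ : L.T n, (R.P[F τ • R.ind a τ | R.G S]) ω =
      F τ * (if R.t (ι.trans a) ω = L.res ι τ then L.D τ / L.D (L.res ι τ) else 0) :=
    ae_all_iff.2 h3
  filter_upwards [h4] with ω hω
  rw [Finset.sum_apply]
  exact Finset.sum_congr rfl fun τ _ => hω τ

end

end CTwoAux

namespace Realisation

variable {L : TypeSystem} (R : Realisation L)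

open CTwoAux

/-- One point extensions are independent of the base (module C2). -/
theorem ext_indep {r : ℕ} (b : Fin (r + 1) ↪ ℕ) (τ : L.T (r + 1)) :
    R.P[R.ind (b.trans yy) τ |
      R.H ({T | T ⊆ Finset.univ.map (Fin.castSuccEmb.trans b)} ∪ {T | T ⊆ {b (Fin.last r)}})]
    =ᵐ[R.P] fun ω => if R.t ((Fin.castSuccEmb.trans b).trans yy) ω = L.res Fin.castSuccEmb τ
      then L.D τ / L.D (L.res Fin.castSuccEmb τ) else 0 := by
  classical
  set W : Finset ℕ := Finset.univ.map (Fin.castSuccEmb.trans b) with hW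
  set i : ℕ := b (Fin.last r) with hidef
  have hi : i ∉ W := by
    rw [hW, Finset.mem_map]
    rintro ⟨a, _, ha⟩
    have h1 : b (Fin.castSucc a) = b (Fin.last r) := ha
    exact (Fin.castSucc_lt_last a).ne (b.injective h1)
  obtain ⟨j, hj'⟩ := Infinite.exists_notMem_finset (insert i W)
  rw [Finset.mem_insert, not_or] at hj'
  obtain ⟨hji, hj⟩ := hj'
  have hij : i ≠ j := Ne.symm hji
  set μ := R.P with hμ
  set φ := R.shift (ysw i j) with hφ
  have hφm : MeasurePreserving φ μ μ := R.shift_mp (ysw i j)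
  set Ai : Set (Finset ℕ) := {T | T ⊆ W} ∪ {T | T ⊆ {i}} with hAi
  set Aj : Set (Finset ℕ) := {T | T ⊆ W} ∪ {T | T ⊆ {j}} with hAj
  set C : Set (Finset ℕ) := {T | T ⊆ W} ∪ {T | T ⊆ {i, j}} with hC
  set f : R.Ω → ℝ := R.ind (b.trans yy) τ with hf
  set b' : Fin (r + 1) ↪ ℕ := b.trans (Equiv.swap i j).toEmbedding with hb'
  set f' : R.Ω → ℝ := R.ind (b'.trans yy) τ with hf'
  -- `f'` is the shift of `f`
  have hbb' : (b.trans yy).trans (ysw i j) = b'.trans yy := by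
    ext a
    exact ysw_yy i j (b a)
  have hff' : f ∘ φ = f' := by
    funext ω
    show (if R.t (b.trans yy) (R.shift (ysw i j) ω) = τ then (1 : ℝ) else 0)
      = if R.t (b'.trans yy) ω = τ then (1 : ℝ) else 0
    rw [R.t_shift, hbb']
  -- ranges
  have hrange : Set.range (b.trans yy) ⊆ XY (insert i W) := by
    rintro _ ⟨a, rfl⟩
    right
    refine ⟨b a, ?_, rfl⟩
    rw [Finset.mem_coe, Finset.mem_insert]
    induction a using Fin.lastCases with
    | last => exact Or.inl rfl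
    | cast a =>
      right
      rw [hW, Finset.mem_map]
      exact ⟨a, Finset.mem_univ _, rfl⟩
  have hswapW : ∀ x ∈ W, Equiv.swap i j x = x := fun x hx =>
    Equiv.swap_apply_of_ne_of_ne (fun h => hi (h ▸ hx)) (fun h => hj (h ▸ hx))
  have hb'last : b' (Fin.last r) = j := by
    show Equiv.swap i j (b (Fin.last r)) = j
    exact Equiv.swap_apply_left i j
  have hb'cast : ∀ a : Fin r, b' (Fin.castSucc a) = b (Fin.castSucc a) := by
    intro a
    exact hswapW _ (by rw [hW, Finset.mem_map]; exact ⟨a, Finset.mem_univ _, rfl⟩)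
  have hrange' : Set.range (b'.trans yy) ⊆ XY (insert j W) := by
    rintro _ ⟨a, rfl⟩
    right
    refine ⟨b' a, ?_, rfl⟩
    rw [Finset.mem_coe, Finset.mem_insert]
    induction a using Fin.lastCases with
    | last => exact Or.inl hb'last
    | cast a =>
      right
      rw [hb'cast, hW, Finset.mem_map]
      exact ⟨a, Finset.mem_univ _, rfl⟩
  -- measurability of indicators
  have hindm : ∀ {k : ℕ} (a : Fin k ↪ ℕ) (υ : L.T k) (S : Set ℕ), Set.range a ⊆ S →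
      StronglyMeasurable[R.G S] (R.ind a υ) := by
    intro k a υ S hS
    have h1 : Measurable[R.G S] (R.ind a υ) := by
      have h2 : R.ind a υ = (fun ρ : L.T k => if ρ = υ then (1 : ℝ) else 0) ∘ R.t a := rfl
      rw [h2]
      exact (measurable_from_top (f := fun ρ : L.T k => if ρ = υ then (1 : ℝ) else 0)).comp
        (R.meas_G a hS)
    exact h1.stronglyMeasurable
  have hfm : StronglyMeasurable[R.H {T | T ⊆ insert i W}] f := by
    rw [R.H_powerset]
    exact hindm _ _ _ hrange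
  have hf'm : StronglyMeasurable[R.H {T | T ⊆ insert j W}] f' := by
    rw [R.H_powerset]
    exact hindm _ _ _ hrange'
  have hf0 : ∀ ω, 0 ≤ f ω := R.ind_nonneg _ _
  have hf1 : ∀ ω, f ω ≤ 1 := R.ind_le_one _ _
  have hf'0 : ∀ ω, 0 ≤ f' ω := R.ind_nonneg _ _
  have hf'1 : ∀ ω, f' ω ≤ 1 := R.ind_le_one _ _
  have hfb : ∀ ω, |f ω| ≤ 1 := fun ω => by rw [abs_of_nonneg (hf0 ω)]; exact hf1 ω
  have hf'b : ∀ ω, |f' ω| ≤ 1 := fun ω => by rw [abs_of_nonneg (hf'0 ω)]; exact hf'1 ω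
  have hfi : Integrable f μ := R.integrable_ind _ _
  have hf'i : Integrable f' μ := R.integrable_ind _ _
  have hfmm : Measurable f := R.measurable_ind _ _
  have hf'mm : Measurable f' := R.measurable_ind _ _
  -- the function `Φ`
  set Φ₀ : R.Ω → ℝ := μ[f | R.H Ai] with hΦ₀
  have hΦ₀m : StronglyMeasurable[R.H Ai] Φ₀ := stronglyMeasurable_condExp
  set Φ : R.Ω → ℝ := fun ω => max 0 (min 1 (Φ₀ ω)) with hΦ
  have hΦm : StronglyMeasurable[R.H Ai] Φ := by
    have h1 : Measurable[R.H Ai] Φ :=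
      (measurable_const.max (measurable_const.min hΦ₀m.measurable))
    exact h1.stronglyMeasurable
  have hΦ0 : ∀ ω, 0 ≤ Φ ω := fun ω => le_max_left _ _
  have hΦ1 : ∀ ω, Φ ω ≤ 1 := fun ω => max_le zero_le_one (min_le_left _ _)
  have hΦb : ∀ ω, |Φ ω| ≤ 1 := fun ω => by rw [abs_of_nonneg (hΦ0 ω)]; exact hΦ1 ω
  have hΦae : Φ₀ =ᵐ[μ] Φ := by
    have h1 : 0 ≤ᵐ[μ] Φ₀ := condExp_nonneg (Filter.Eventually.of_forall hf0)
    have h2 : Φ₀ ≤ᵐ[μ] μ[(fun _ => (1 : ℝ)) | R.H Ai] :=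
      condExp_mono hfi (integrable_const 1) (Filter.Eventually.of_forall hf1)
    rw [condExp_const (R.H_le Ai)] at h2
    filter_upwards [h1, h2] with ω h3 h4
    show Φ₀ ω = max 0 (min 1 (Φ₀ ω))
    rw [min_eq_right h4, max_eq_right (show (0 : ℝ) ≤ Φ₀ ω from h3)]
  have hΦmm : Measurable Φ := (hΦm.mono (R.H_le Ai)).measurable
  -- the shifted function
  set Φ' : R.Ω → ℝ := Φ ∘ φ with hΦ'
  have hcomap : (R.H Ai).comap φ = R.H Aj := comap_H R hi hj
  have hΦ'm : StronglyMeasurable[R.H Aj] Φ' := by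
    rw [← hcomap]
    exact hΦm.comp_measurable (comap_measurable φ)
  have hΦ'0 : ∀ ω, 0 ≤ Φ' ω := fun ω => hΦ0 _
  have hΦ'1 : ∀ ω, Φ' ω ≤ 1 := fun ω => hΦ1 _
  have hΦ'b : ∀ ω, |Φ' ω| ≤ 1 := fun ω => hΦb _
  have hΦ'mm : Measurable Φ' := (hΦ'm.mono (R.H_le Aj)).measurable
  have hΦ'ae : μ[f' | R.H Aj] =ᵐ[μ] Φ' := by
    have h1 := condExp_comp_mp hφm (R.H_le Ai) hfi
    rw [hff', hcomap] at h1
    refine h1.trans ?_
    exact hφm.quasiMeasurePreserving.ae_eq_comp hΦae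
  have hΦi : Integrable Φ μ := R.integrable_of_bdd hΦmm hΦb
  have hΦ'i : Integrable Φ' μ := R.integrable_of_bdd hΦ'mm hΦ'b
  -- products are bounded
  have hmul : ∀ {g h : R.Ω → ℝ}, Measurable g → Measurable h → (∀ ω, |g ω| ≤ 1) →
      (∀ ω, |h ω| ≤ 1) → Integrable (g * h) μ := by
    intro g h hg hh hgb hhb
    refine R.integrable_of_bdd (hg.mul hh) (C := 1) fun ω => ?_
    rw [Pi.mul_apply, abs_mul]
    exact mul_le_one₀ (hgb ω) (abs_nonneg _) (hhb ω)
  have hempty : ∀ S : Finset ℕ, ∅ ∈ {T : Finset ℕ | T ⊆ S} := fun S => Finset.empty_subset S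
  have hCi : Ai ⊆ C := by
    rintro T (hT | hT)
    · exact Or.inl hT
    · exact Or.inr (Finset.Subset.trans hT (by simp))
  have hijC : {T : Finset ℕ | T ⊆ {i, j}} ⊆ C := fun T hT => Or.inr hT
  -- (b) product formula
  set B₁ : Set (Finset ℕ) := {T | T ⊆ insert j W} ∪ {T | T ⊆ {i, j}} with hB₁
  have hCB : C ⊆ B₁ := by
    rintro T (hT | hT)
    · exact Or.inl (Finset.Subset.trans hT (Finset.subset_insert _ _))
    · exact Or.inr hT
  have hbf : μ[f | R.H B₁] =ᵐ[μ] Φ := by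
    have h1 := R.condExp_H {T | T ⊆ insert i W} B₁ (low_ss _) ((low_ss _).union (low_ss _))
      (fin_ss _) ⟨hempty _, Or.inl (hempty _)⟩ hfm hfb
    rw [hB₁, inter1 hi hj hij] at h1
    exact h1.trans hΦae
  have hbf' : μ[f' | R.H C] =ᵐ[μ] Φ' := by
    have h1 := R.condExp_H {T | T ⊆ insert j W} C (low_ss _) ((low_ss _).union (low_ss _))
      (fin_ss _) ⟨hempty _, Or.inl (hempty _)⟩ hf'm hf'b
    rw [hC, inter2 hi hj hij] at h1
    exact h1.trans hΦ'ae
  have hprod : μ[f * f' | R.H C] =ᵐ[μ] Φ * Φ' := by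
    have h1 : μ[μ[f * f' | R.H B₁] | R.H C] =ᵐ[μ] μ[f * f' | R.H C] :=
      condExp_condExp_of_le (R.H_mono hCB) (R.H_le B₁)
    have h2 : μ[f * f' | R.H B₁] =ᵐ[μ] μ[f | R.H B₁] * f' :=
      condExp_mul_of_stronglyMeasurable_right
        (hf'm.mono (R.H_mono fun T hT => Or.inl hT)) (hmul hfmm hf'mm hfb hf'b) hfi
    have h3 : μ[f * f' | R.H B₁] =ᵐ[μ] Φ * f' := by
      refine h2.trans ?_
      filter_upwards [hbf] with ω hω
      rw [Pi.mul_apply, Pi.mul_apply, hω]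
    have h4 : μ[Φ * f' | R.H C] =ᵐ[μ] Φ * μ[f' | R.H C] :=
      condExp_mul_of_stronglyMeasurable_left (hΦm.mono (R.H_mono hCi))
        (hmul hΦmm hf'mm hΦb hf'b) hf'i
    refine h1.symm.trans ((condExp_congr_ae h3).trans (h4.trans ?_))
    filter_upwards [hbf'] with ω hω
    rw [Pi.mul_apply, Pi.mul_apply, hω]
  have hprod2 : μ[f * f' | R.H {T | T ⊆ {i, j}}] =ᵐ[μ] μ[Φ * Φ' | R.H {T | T ⊆ {i, j}}] := by
    have h1 : μ[μ[f * f' | R.H C] | R.H {T | T ⊆ {i, j}}] =ᵐ[μ]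
        μ[f * f' | R.H {T | T ⊆ {i, j}}] :=
      condExp_condExp_of_le (R.H_mono hijC) (R.H_le C)
    exact h1.symm.trans (condExp_congr_ae hprod)
  -- (c) lower measurability
  have hA3 : Ai ∪ {T | T ⊆ {j}} = ({T | T ⊆ W} ∪ {T | T ⊆ {i}}) ∪ {T | T ⊆ {j}} := rfl
  have hPm : StronglyMeasurable[R.H (Ai ∪ {T | T ⊆ {j}})] (Φ * Φ') := by
    refine (hΦm.mono (R.H_mono Set.subset_union_left)).mul (hΦ'm.mono (R.H_mono ?_))
    rintro T (hT | hT)
    · exact Or.inl (Or.inl hT)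
    · exact Or.inr hT
  have hPb : ∀ ω, |(Φ * Φ') ω| ≤ 1 := by
    intro ω
    rw [Pi.mul_apply, abs_mul]
    exact mul_le_one₀ (hΦb ω) (abs_nonneg _) (hΦ'b ω)
  have hGI3 := R.condExp_H (Ai ∪ {T | T ⊆ {j}}) {T | T ⊆ {i, j}}
    (((low_ss _).union (low_ss _)).union (low_ss _)) (low_ss _)
    (((fin_ss _).union (fin_ss _)).union (fin_ss _))
    ⟨Or.inl (Or.inl (hempty _)), hempty _⟩ hPm hPb
  rw [hA3, inter3 hi hj] at hGI3
  set g : R.Ω → ℝ := μ[Φ * Φ' | R.H ({T | T ⊆ {i}} ∪ {T | T ⊆ {j}})] with hg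
  have hgm : StronglyMeasurable[R.H (cardLe 1)] g := by
    refine StronglyMeasurable.mono stronglyMeasurable_condExp (R.H_mono ?_)
    rintro T (hT | hT)
    · exact (Finset.card_le_card (show T ⊆ {i} from hT)).trans (by simp)
    · exact (Finset.card_le_card (show T ⊆ {j} from hT)).trans (by simp)
  -- the pair `(i, j)`
  set b2 : Fin 2 ↪ ℕ := ⟨![i, j], pair_inj hij⟩ with hb2
  have hb20 : b2 0 = i := rfl
  have hb21 : b2 1 = j := rfl
  obtain ⟨n, c, hc⟩ := exists_enum (Finset.univ.map (b.trans yy) ∪ Finset.univ.map (b'.trans yy))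
  have hcr : Set.range c = Set.range (b.trans yy) ∪ Set.range (b'.trans yy) := by
    rw [hc]
    ext x
    simp
  obtain ⟨α, hα⟩ := exists_trans (b.trans yy) c (by rw [hcr]; exact Set.subset_union_left)
  obtain ⟨β, hβ⟩ := exists_trans (b'.trans yy) c (by rw [hcr]; exact Set.subset_union_right)
  have hb2r : Set.range (b2.trans yy) ⊆ Set.range c := by
    rintro _ ⟨a, rfl⟩
    rw [hcr]
    fin_cases a
    · exact Or.inl ⟨Fin.last r, rfl⟩
    · right
      refine ⟨Fin.last r, ?_⟩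
      show yy (b' (Fin.last r)) = yy j
      rw [hb'last]
  obtain ⟨ι, hι⟩ := exists_trans (b2.trans yy) c hb2r
  have hinter : Set.range c ∩ XY {i, j} = Set.range (ι.trans c) := by
    rw [hι]
    apply Set.Subset.antisymm
    · rintro x ⟨hx, hx2⟩
      rw [hcr] at hx
      have h1 : ∃ m : ℕ, x = yy m := by
        rcases hx with ⟨a, rfl⟩ | ⟨a, rfl⟩
        · exact ⟨b a, rfl⟩
        · exact ⟨b' a, rfl⟩
      obtain ⟨m, rfl⟩ := h1
      rcases hx2 with ⟨m', hm'⟩ | ⟨m', hm', hm2⟩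
      · rw [xx_apply, yy_apply] at hm'
        omega
      · have h2 : m' = m := yy.injective hm2
        rw [h2] at hm'
        have h3 : m = i ∨ m = j := by simpa using hm'
        rcases h3 with rfl | rfl
        · exact ⟨0, rfl⟩
        · exact ⟨1, rfl⟩
    · rintro _ ⟨a, rfl⟩
      refine ⟨hb2r ⟨a, rfl⟩, Or.inr ⟨b2 a, ?_, rfl⟩⟩
      fin_cases a
      · show i ∈ (({i, j} : Finset ℕ) : Set ℕ)
        simp
      · show j ∈ (({i, j} : Finset ℕ) : Set ℕ)
        simp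
  have hFF : f * f' = (fun υ : L.T n => (if L.res α υ = τ then (1 : ℝ) else 0) *
      (if L.res β υ = τ then (1 : ℝ) else 0)) ∘ R.t c := by
    funext ω
    show (if R.t (b.trans yy) ω = τ then (1 : ℝ) else 0) *
      (if R.t (b'.trans yy) ω = τ then (1 : ℝ) else 0) = (if L.res α (R.t c ω) = τ then (1 : ℝ)
        else 0) * (if L.res β (R.t c ω) = τ then (1 : ℝ) else 0)
    rw [← hα, ← hβ, R.comp, R.comp]
  obtain ⟨γ, hγ⟩ := condExp_comp_t R ι c (XY {i, j}) hinter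
    (fun υ : L.T n => (if L.res α υ = τ then (1 : ℝ) else 0) *
      (if L.res β υ = τ then (1 : ℝ) else 0))
  rw [← hFF, hι, ← R.H_powerset] at hγ
  -- `γ` is constant
  have hγg : (fun ω => γ (R.t (b2.trans yy) ω)) =ᵐ[μ] g :=
    hγ.symm.trans (hprod2.trans hGI3)
  have hconst : ∃ g₀ : ℝ, ∀ ρ, γ ρ = g₀ := by
    have hne : Nonempty (L.T 2) := by
      by_contra hcon
      rw [not_nonempty_iff] at hcon
      have := L.D_sum 2
      rw [Finset.univ_eq_empty, Finset.sum_empty] at this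
      exact zero_ne_one this
    obtain ⟨ρ₀⟩ := hne
    refine ⟨γ ρ₀, ?_⟩
    have h1 : StronglyMeasurable[R.H (cardLe 1)]
        ((Set.indicator {x : ℝ | x = γ ρ₀} (fun _ => (1 : ℝ))) ∘ g) := by
      have h2 : Measurable (Set.indicator {x : ℝ | x = γ ρ₀} (fun _ => (1 : ℝ))) :=
        measurable_const.indicator (measurableSet_singleton _)
      exact (h2.comp hgm.measurable).stronglyMeasurable
    have h2 := R.two_types_trivial {ρ | γ ρ = γ ρ₀} b2 h1 (by
      filter_upwards [hγg] with ω hω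
      show Set.indicator {ρ | γ ρ = γ ρ₀} (fun _ => (1 : ℝ)) (R.t (b2.trans yy) ω)
        = Set.indicator {x : ℝ | x = γ ρ₀} (fun _ => (1 : ℝ)) (g ω)
      rw [← hω]
      rfl)
    rcases h2 with h2 | h2
    · exact absurd (show ρ₀ ∈ {ρ | γ ρ = γ ρ₀} from rfl) (by rw [h2]; exact Set.notMem_empty _)
    · intro ρ
      have : ρ ∈ {ρ | γ ρ = γ ρ₀} := by rw [h2]; trivial
      exact this
  obtain ⟨g₀, hg₀⟩ := hconst
  have hE : μ[Φ * Φ' | R.G (XY {i, j})] =ᵐ[μ] fun _ => g₀ := by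
    rw [← R.H_powerset]
    refine (hprod2.symm.trans hγ).trans ?_
    exact Filter.Eventually.of_forall fun ω => hg₀ _
  -- (d) second moments
  have hweight : ∀ ϖ : R.Ω → ℝ, StronglyMeasurable[R.G (XY {i, j})] ϖ → (∃ C : ℝ, ∀ ω, |ϖ ω| ≤ C) →
      ∫ ω, ϖ ω ∂μ = 1 → ∫ ω, Φ ω * Φ' ω * ϖ ω ∂μ = g₀ := by
    rintro ϖ hϖm ⟨K, hK⟩ hϖ1
    have hϖmm : Measurable ϖ := (hϖm.mono (R.G_le _)).measurable
    have hi1 : Integrable ((Φ * Φ') * ϖ) μ := by
      refine R.integrable_of_bdd ((hΦmm.mul hΦ'mm).mul hϖmm) (C := K) fun ω => ?_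
      rw [Pi.mul_apply, abs_mul]
      calc |(Φ * Φ') ω| * |ϖ ω| ≤ 1 * |ϖ ω| :=
            mul_le_mul_of_nonneg_right (hPb ω) (abs_nonneg _)
        _ ≤ K := by rw [one_mul]; exact hK ω
    have h1 : μ[(Φ * Φ') * ϖ | R.G (XY {i, j})] =ᵐ[μ] μ[Φ * Φ' | R.G (XY {i, j})] * ϖ :=
      condExp_mul_of_stronglyMeasurable_right hϖm hi1 (hmul hΦmm hΦ'mm hΦb hΦ'b)
    have h2 : μ[(Φ * Φ') * ϖ | R.G (XY {i, j})] =ᵐ[μ] fun ω => g₀ * ϖ ω := by
      refine h1.trans ?_
      filter_upwards [hE] with ω hω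
      rw [Pi.mul_apply, hω]
    have h3 : ∫ ω, Φ ω * Φ' ω * ϖ ω ∂μ = ∫ ω, ((Φ * Φ') * ϖ) ω ∂μ := rfl
    rw [h3, ← integral_condExp (R.G_le (XY {i, j})), integral_congr_ae h2, integral_const_mul,
      hϖ1, mul_one]
  have hone : ∫ ω, Φ ω * Φ' ω ∂μ = g₀ := by
    have h1 := hweight (fun _ => 1) stronglyMeasurable_const ⟨1, fun ω => by simp⟩ (by simp)
    simpa using h1
  have hsq : ∫ ω, Φ ω * Φ ω ∂μ = g₀ := by
    have hclose : ∀ ε : ℝ, 0 < ε → |∫ ω, Φ ω * Φ ω ∂μ - g₀| ≤ ε := by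
      intro ε hε
      obtain ⟨ϖ, hϖ0, ⟨K, hK⟩, hϖm, hϖE, hϖd⟩ := R.twin W i j hi hj hij hΦm hΦb hε
      have hKb : ∀ ω, |ϖ ω| ≤ K := fun ω => by rw [abs_of_nonneg (hϖ0 ω)]; exact hK ω
      have hϖmm : Measurable ϖ := (hϖm.mono (R.G_le _)).measurable
      have hϖi : Integrable ϖ μ := R.integrable_of_bdd hϖmm hKb
      have hϖ1 : ∫ ω, ϖ ω ∂μ = 1 := by
        rw [← integral_condExp (R.G_le (XY (insert i W))), integral_congr_ae hϖE]
        simp
      have h1 := hweight ϖ hϖm ⟨K, hKb⟩ hϖ1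
      have hbd : ∀ {u : R.Ω → ℝ}, Measurable u → (∀ ω, |u ω| ≤ 1) →
          Integrable (u * ϖ) μ := by
        intro u hu hub
        refine R.integrable_of_bdd (hu.mul hϖmm) (C := K) fun ω => ?_
        rw [Pi.mul_apply, abs_mul]
        calc |u ω| * |ϖ ω| ≤ 1 * |ϖ ω| :=
              mul_le_mul_of_nonneg_right (hub ω) (abs_nonneg _)
          _ ≤ K := by rw [one_mul]; exact hKb ω
      have hΦΦb : ∀ ω, |(Φ * Φ) ω| ≤ 1 := by
        intro ω
        rw [Pi.mul_apply, abs_mul]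
        exact mul_le_one₀ (hΦb ω) (abs_nonneg _) (hΦb ω)
      have hΦins : StronglyMeasurable[R.G (XY (insert i W))] Φ := by
        rw [← R.H_powerset]
        refine hΦm.mono (R.H_mono ?_)
        rintro T (hT | hT)
        · exact Finset.Subset.trans hT (Finset.subset_insert _ _)
        · exact Finset.Subset.trans hT (by simp)
      have h2 : μ[(Φ * Φ) * ϖ | R.G (XY (insert i W))] =ᵐ[μ]
          (Φ * Φ) * μ[ϖ | R.G (XY (insert i W))] :=
        condExp_mul_of_stronglyMeasurable_left (hΦins.mul hΦins)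
          (hbd (hΦmm.mul hΦmm) hΦΦb) hϖi
      have h3 : ∫ ω, Φ ω * Φ ω * ϖ ω ∂μ = ∫ ω, Φ ω * Φ ω ∂μ := by
        have h4 : ∫ ω, Φ ω * Φ ω * ϖ ω ∂μ = ∫ ω, ((Φ * Φ) * ϖ) ω ∂μ := rfl
        rw [h4, ← integral_condExp (R.G_le (XY (insert i W)))]
        refine integral_congr_ae (h2.trans ?_)
        filter_upwards [hϖE] with ω hω
        rw [Pi.mul_apply, hω, mul_one]
        rfl
      have h5 : ∫ ω, Φ ω * Φ ω * ϖ ω ∂μ - ∫ ω, Φ ω * Φ' ω * ϖ ω ∂μ
          = ∫ ω, Φ ω * (Φ ω - Φ' ω) * ϖ ω ∂μ := by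
        have k1 : Integrable (fun ω => Φ ω * Φ ω * ϖ ω) μ := hbd (hΦmm.mul hΦmm) hΦΦb
        have k2 : Integrable (fun ω => Φ ω * Φ' ω * ϖ ω) μ := hbd (hΦmm.mul hΦ'mm) hPb
        rw [← integral_sub k1 k2]
        refine integral_congr_ae (Filter.Eventually.of_forall fun ω => ?_)
        show Φ ω * Φ ω * ϖ ω - Φ ω * Φ' ω * ϖ ω = Φ ω * (Φ ω - Φ' ω) * ϖ ω
        ring
      rw [← h3, ← h1, h5]
      have hdb : ∀ ω, |(|Φ ω - Φ' ω|)| ≤ 1 := by
        intro ω
        rw [abs_abs, abs_le]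
        constructor
        · linarith [hΦ0 ω, hΦ'1 ω]
        · linarith [hΦ1 ω, hΦ'0 ω]
      calc |∫ ω, Φ ω * (Φ ω - Φ' ω) * ϖ ω ∂μ| ≤ ∫ ω, |Φ ω * (Φ ω - Φ' ω) * ϖ ω| ∂μ :=
            abs_integral_le_integral_abs
        _ ≤ ∫ ω, |Φ ω - Φ' ω| * ϖ ω ∂μ := by
            refine integral_mono_of_nonneg (Filter.Eventually.of_forall fun ω => abs_nonneg _)
              (hbd (u := fun ω => |Φ ω - Φ' ω|) (measurable_abs.comp (hΦmm.sub hΦ'mm)) hdb)
              (Filter.Eventually.of_forall fun ω => ?_)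
            show |Φ ω * (Φ ω - Φ' ω) * ϖ ω| ≤ |Φ ω - Φ' ω| * ϖ ω
            rw [abs_mul, abs_mul, abs_of_nonneg (hϖ0 ω)]
            refine mul_le_mul_of_nonneg_right ?_ (hϖ0 ω)
            calc |Φ ω| * |Φ ω - Φ' ω| ≤ 1 * |Φ ω - Φ' ω| :=
                  mul_le_mul_of_nonneg_right (hΦb ω) (abs_nonneg _)
              _ = _ := one_mul _
        _ ≤ ε := hϖd.le
    by_contra hne
    have h1 : 0 < |∫ ω, Φ ω * Φ ω ∂μ - g₀| := abs_pos.2 (sub_ne_zero.2 hne)
    have h2 := hclose (|∫ ω, Φ ω * Φ ω ∂μ - g₀| / 2) (by positivity)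
    linarith
  have hsq' : ∫ ω, Φ' ω * Φ' ω ∂μ = g₀ := by
    rw [← hsq]
    have h1 : ∫ ω, Φ ω * Φ ω ∂(Measure.map φ μ) = ∫ ω, Φ (φ ω) * Φ (φ ω) ∂μ :=
      integral_map hφm.measurable.aemeasurable (hΦmm.mul hΦmm).aestronglyMeasurable
    rw [hφm.map_eq] at h1
    exact h1.symm
  have heq : Φ =ᵐ[μ] Φ' := by
    have h1 : ∫ ω, (Φ ω - Φ' ω) ^ 2 ∂μ = 0 := by
      have h2 : ∫ ω, (Φ ω - Φ' ω) ^ 2 ∂μ
          = ∫ ω, (Φ ω * Φ ω + Φ' ω * Φ' ω - 2 * (Φ ω * Φ' ω)) ∂μ :=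
        integral_congr_ae (Filter.Eventually.of_forall fun ω => by
          show (Φ ω - Φ' ω) ^ 2 = Φ ω * Φ ω + Φ' ω * Φ' ω - 2 * (Φ ω * Φ' ω)
          ring)
      have i1 : Integrable (fun ω => Φ ω * Φ ω) μ := hmul hΦmm hΦmm hΦb hΦb
      have i2 : Integrable (fun ω => Φ' ω * Φ' ω) μ := hmul hΦ'mm hΦ'mm hΦ'b hΦ'b
      have i3 : Integrable (fun ω => Φ ω * Φ' ω) μ := hmul hΦmm hΦ'mm hΦb hΦ'b
      have i4 : Integrable (fun ω => Φ ω * Φ ω + Φ' ω * Φ' ω) μ := i1.add i2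
      rw [h2, integral_sub i4 (i3.const_mul 2), integral_add i1 i2, integral_const_mul,
        hsq, hsq', hone]
      ring
    have h3 : Integrable (fun ω => (Φ ω - Φ' ω) ^ 2) μ := by
      refine R.integrable_of_bdd ((hΦmm.sub hΦ'mm).pow_const 2) (C := 1) fun ω => ?_
      rw [abs_pow]
      refine pow_le_one₀ (abs_nonneg _) ?_
      rw [abs_le]
      constructor
      · linarith [hΦ0 ω, hΦ'1 ω]
      · linarith [hΦ1 ω, hΦ'0 ω]
    have h4 := (integral_eq_zero_iff_of_nonneg (fun ω => sq_nonneg (Φ ω - Φ' ω)) h3).1 h1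
    filter_upwards [h4] with ω hω
    have h5 : (Φ ω - Φ' ω) ^ 2 = 0 := hω
    have h6 : Φ ω - Φ' ω = 0 := by
      rcases pow_eq_zero_iff two_ne_zero |>.1 h5 with h
      exact h
    linarith
  -- (e)
  have hGI4 := R.condExp_H Aj Ai ((low_ss _).union (low_ss _)) ((low_ss _).union (low_ss _))
    ((fin_ss _).union (fin_ss _)) ⟨Or.inl (hempty _), Or.inl (hempty _)⟩ hΦ'm hΦ'b
  rw [hAj, hAi, inter4 hi hj hij, ← hAi] at hGI4
  have h1 : Φ₀ =ᵐ[μ] μ[f | R.H {T | T ⊆ W}] := by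
    have h2 : μ[Φ | R.H Ai] = Φ := condExp_of_stronglyMeasurable (R.H_le Ai) hΦm hΦi
    have h3 : Φ =ᵐ[μ] μ[Φ' | R.H {T | T ⊆ W}] := by
      calc Φ = μ[Φ | R.H Ai] := h2.symm
        _ =ᵐ[μ] μ[Φ' | R.H Ai] := condExp_congr_ae heq
        _ =ᵐ[μ] μ[Φ' | R.H {T | T ⊆ W}] := hGI4
    have h4 : μ[Φ' | R.H {T | T ⊆ W}] =ᵐ[μ] μ[Φ₀ | R.H {T | T ⊆ W}] :=
      condExp_congr_ae (heq.symm.trans hΦae.symm)
    have h5 : μ[Φ₀ | R.H {T | T ⊆ W}] =ᵐ[μ] μ[f | R.H {T | T ⊆ W}] :=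
      condExp_condExp_of_le (R.H_mono fun T hT => Or.inl hT) (R.H_le Ai)
    exact hΦae.trans (h3.trans (h4.trans h5))
  refine h1.trans ?_
  rw [R.H_powerset]
  have hS : Set.range (b.trans yy) ∩ XY W = Set.range (Fin.castSuccEmb.trans (b.trans yy)) := by
    apply Set.Subset.antisymm
    · rintro _ ⟨⟨a, rfl⟩, hx⟩
      rcases hx with ⟨m, hm⟩ | ⟨m, hm, hm2⟩
      · have h6 : xx m = yy (b a) := hm
        rw [xx_apply, yy_apply] at h6
        omega
      · have h6 : m = b a := yy.injective hm2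
        have h7 : b a ∈ W := by rw [← h6]; exact hm
        rw [hW, Finset.mem_map] at h7
        obtain ⟨a', _, ha'⟩ := h7
        exact ⟨a', congrArg yy ha'⟩
    · rintro _ ⟨a, rfl⟩
      refine ⟨⟨Fin.castSucc a, rfl⟩, Or.inr ⟨b (Fin.castSucc a), ?_, rfl⟩⟩
      rw [Finset.mem_coe, hW, Finset.mem_map]
      exact ⟨a, Finset.mem_univ _, rfl⟩
  exact R.condExp_ind Fin.castSuccEmb (b.trans yy) (XY W) hS τ

end Realisation

end MSch
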