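import Mathlib

/-!
# Generic measure theory for MP_369ee2_lc
-/

namespace MSch.MT

open MeasureTheory Filter
open scoped Topology ENNReal

variable {Ω : Type*} {mΩ : MeasurableSpace Ω} {μ : Measure Ω}

/-- equality of integrals on a generating `π`-system which contains `univ` -/
theorem setIntegral_eq_of_piSystem [IsFiniteMeasure μ] {m : MeasurableSpace Ω} (hm : m ≤ mΩ)
    (C : Set (Set Ω)) (hC : IsPiSystem C) (hgen : m = MeasurableSpace.generateFrom C)
    (huniv : Set.univ ∈ C)
    {f g : Ω → ℝ} (hf : Integrable f μ) (hg : Integrable g μ)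
    (h : ∀ E ∈ C, ∫ ω in E, g ω ∂μ = ∫ ω in E, f ω ∂μ) (E : Set Ω) (hE : MeasurableSet[m] E) :
    ∫ ω in E, g ω ∂μ = ∫ ω in E, f ω ∂μ := by
  induction E, hE using MeasurableSpace.induction_on_inter hgen hC with
  | empty => simp
  | basic t ht => exact h t ht
  | compl t ht ih =>
    have h1 := h Set.univ huniv
    rw [Measure.restrict_univ] at h1
    have htm : MeasurableSet[mΩ] t := hm t ht
    have h2 := integral_add_compl htm hf
    have h3 := integral_add_compl htm hg
    linarith
  | iUnion t hd ht ih =>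
    have htm : ∀ i, MeasurableSet[mΩ] (t i) := fun i => hm _ (ht i)
    rw [integral_iUnion htm hd hf.integrableOn, integral_iUnion htm hd hg.integrableOn]
    exact tsum_congr ih

/-- conditional expectation with respect to a supremum of an increasing sequence -/
theorem ae_eq_condExp_iSup [IsFiniteMeasure μ] {m : ℕ → MeasurableSpace Ω} (hmono : Monotone m)
    (hm : ∀ n, m n ≤ mΩ) {f g : Ω → ℝ} (hf : Integrable f μ) (hg : Integrable g μ)
    (hgm : AEStronglyMeasurable[⨆ n, m n] g μ)
    (h : ∀ n, ∀ E, MeasurableSet[m n] E → ∫ ω in E, g ω ∂μ = ∫ ω in E, f ω ∂μ) :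
    g =ᵐ[μ] μ[f | ⨆ n, m n] := by
  have hle : (⨆ n, m n) ≤ mΩ := iSup_le hm
  refine ae_eq_condExp_of_forall_setIntegral_eq hle hf (fun _ _ _ => hg.integrableOn) ?_ hgm
  intro s hs _
  refine setIntegral_eq_of_piSystem hle (⋃ n, {t | MeasurableSet[m n] t}) ?_
    (MeasurableSpace.generateFrom_iUnion_measurableSet m).symm ?_ hf hg ?_ s hs
  · refine isPiSystem_iUnion_of_monotone _ (fun n => (m n).isPiSystem_measurableSet) ?_
    intro a b hab t ht
    exact hmono hab t ht
  · exact Set.mem_iUnion.2 ⟨0, MeasurableSet.univ⟩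
  · intro E hE
    obtain ⟨n, hn⟩ := Set.mem_iUnion.1 hE
    exact h n E hn

end MSch.MT
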