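import Mathlib

/-!
# Generic facts on conditional expectations for MP_369ee2_lc
-/

namespace MSch.MT

open MeasureTheory Filter
open scoped Topology ENNReal NNReal

variable {Ω : Type*} {mΩ : MeasurableSpace Ω} {μ : Measure Ω}

theorem condExp_bdd {m : MeasurableSpace Ω} {f : Ω → ℝ} {C : ℝ} (hC : ∀ᵐ ω ∂μ, |f ω| ≤ C) :
    ∀ᵐ ω ∂μ, |(μ[f | m]) ω| ≤ C :=
  ae_bdd_abs_condExp_of_ae_bdd_abs hC

/-- self-adjointness of the conditional expectation -/
theorem integral_condExp_mul [IsFiniteMeasure μ] {m : MeasurableSpace Ω} (hm : m ≤ mΩ)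
    {f g : Ω → ℝ} (hf : Integrable f μ) (hg : AEStronglyMeasurable[mΩ] g μ) {C : ℝ}
    (hC : ∀ᵐ ω ∂μ, |g ω| ≤ C) :
    ∫ ω, (μ[f | m]) ω * g ω ∂μ = ∫ ω, f ω * (μ[g | m]) ω ∂μ := by
  have hgi : Integrable g μ := Integrable.of_bound hg C (hC.mono fun ω h => by
    rw [Real.norm_eq_abs]; exact h)
  have hCg := condExp_bdd (m := m) hC
  have h1 : μ[(μ[f | m]) * g | m] =ᵐ[μ] μ[f | m] * μ[g | m] :=
    condExp_mul_of_stronglyMeasurable_left stronglyMeasurable_condExp
      (integrable_condExp.mul_bdd hg (hC.mono fun ω h => by rw [Real.norm_eq_abs]; exact h)) hgi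
  have h2 : μ[f * (μ[g | m]) | m] =ᵐ[μ] μ[f | m] * μ[g | m] :=
    condExp_mul_of_stronglyMeasurable_right stronglyMeasurable_condExp
      (hf.mul_bdd (stronglyMeasurable_condExp.mono hm).aestronglyMeasurable
        (hCg.mono fun ω h => by rw [Real.norm_eq_abs]; exact h)) hf
  have h3 : ∫ ω, (μ[(μ[f | m]) * g | m]) ω ∂μ = ∫ ω, (μ[f | m] * g) ω ∂μ := integral_condExp hm
  have h4 : ∫ ω, (μ[f * (μ[g | m]) | m]) ω ∂μ = ∫ ω, (f * μ[g | m]) ω ∂μ := integral_condExp hm
  have h5 : ∫ ω, (μ[(μ[f | m]) * g | m]) ω ∂μ = ∫ ω, (μ[f * (μ[g | m]) | m]) ω ∂μ :=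
    integral_congr_ae (h1.trans h2.symm)
  rw [h3, h4] at h5
  exact h5

/-- indicator version of a set integral -/
theorem setIntegral_eq_mul_ind {E : Set Ω} (hE : MeasurableSet E) (f : Ω → ℝ) :
    ∫ ω in E, f ω ∂μ = ∫ ω, f ω * Set.indicator E (fun _ => (1 : ℝ)) ω ∂μ := by
  rw [← integral_indicator hE]
  refine integral_congr_ae (Eventually.of_forall fun ω => ?_)
  by_cases h : ω ∈ E
  · simp [h]
  · simp [h]

theorem ind_bdd (E : Set Ω) (ω : Ω) : |Set.indicator E (fun _ => (1 : ℝ)) ω| ≤ 1 := by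
  by_cases h : ω ∈ E
  · simp [h]
  · simp [h]

/-- conditional independence from a generating family.  If for every `E` in a generating π-system
`C` of `m₂` the conditional expectations of `1_E` given `m₁` and given `m₀` agree, then for every
`m₁`-measurable integrable `f` the conditional expectations given `m₂` and given `m₀` agree. -/
theorem condExp_eq_of_piSystem [IsFiniteMeasure μ] {m₀ m₁ m₂ : MeasurableSpace Ω}
    (h01 : m₀ ≤ m₁) (h02 : m₀ ≤ m₂) (h1 : m₁ ≤ mΩ) (h2 : m₂ ≤ mΩ)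
    (C : Set (Set Ω)) (hC : IsPiSystem C) (hgen : m₂ = MeasurableSpace.generateFrom C)
    (h : ∀ E ∈ C, μ[Set.indicator E (fun _ => (1 : ℝ)) | m₁] =ᵐ[μ]
      μ[Set.indicator E (fun _ => (1 : ℝ)) | m₀])
    {f : Ω → ℝ} (hf : StronglyMeasurable[m₁] f) (hfi : Integrable f μ) :
    μ[f | m₂] =ᵐ[μ] μ[f | m₀] := by
  have h0 : m₀ ≤ mΩ := h01.trans h1
  have hint : ∀ E : Set Ω, MeasurableSet[mΩ] E →
      Integrable (Set.indicator E (fun _ => (1 : ℝ))) μ := fun E hE =>
    (integrable_const 1).indicator hE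
  have hae : ∀ E : Set Ω, MeasurableSet[mΩ] E →
      AEStronglyMeasurable[mΩ] (Set.indicator E (fun _ => (1 : ℝ))) μ := fun E hE =>
    (hint E hE).aestronglyMeasurable
  -- the basic computation
  have base : ∀ g : Ω → ℝ, StronglyMeasurable[m₁] g → Integrable g μ → ∀ E ∈ C,
      ∫ ω in E, (μ[g | m₀]) ω ∂μ = ∫ ω in E, g ω ∂μ := by
    intro g hg hgi E hE
    have hEm2 : MeasurableSet[m₂] E := by
      rw [hgen]; exact MeasurableSpace.measurableSet_generateFrom hE
    have hEm : MeasurableSet[mΩ] E := h2 E hEm2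
    rw [setIntegral_eq_mul_ind hEm, setIntegral_eq_mul_ind hEm]
    rw [integral_condExp_mul h0 hgi (hae E hEm) (Eventually.of_forall (ind_bdd E))]
    have h3 : ∫ ω, g ω * (μ[Set.indicator E (fun _ => (1 : ℝ)) | m₀]) ω ∂μ =
        ∫ ω, g ω * (μ[Set.indicator E (fun _ => (1 : ℝ)) | m₁]) ω ∂μ := by
      refine integral_congr_ae ?_
      filter_upwards [h E hE] with ω hω
      rw [hω]
    rw [h3, ← integral_condExp_mul h1 hgi (hae E hEm) (Eventually.of_forall (ind_bdd E))]
    rw [condExp_of_stronglyMeasurable h1 hg hgi]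
  have full : ∀ g : Ω → ℝ, StronglyMeasurable[m₁] g → Integrable g μ → ∀ E,
      MeasurableSet[m₂] E → ∫ ω in E, (μ[g | m₀]) ω ∂μ = ∫ ω in E, g ω ∂μ := by
    intro g hg hgi E hE
    have : MeasurableSet[MeasurableSpace.generateFrom C] E := by rw [← hgen]; exact hE
    induction E, hE using MeasurableSpace.induction_on_inter hgen hC with
    | empty => simp
    | basic t ht => exact base g hg hgi t ht
    | compl t ht ih =>
      have ih' := ih (by rw [← hgen]; exact ht)
      have htm : MeasurableSet[mΩ] t := h2 t ht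
      have h3 := integral_add_compl htm hgi
      have h4 := integral_add_compl htm (integrable_condExp (μ := μ) (m := m₀) (f := g))
      have h5 : ∫ ω, (μ[g | m₀]) ω ∂μ = ∫ ω, g ω ∂μ := integral_condExp h0
      linarith
    | iUnion t hd ht ih =>
      have htm : ∀ i, MeasurableSet[mΩ] (t i) := fun i => h2 _ (ht i)
      rw [integral_iUnion htm hd hgi.integrableOn,
        integral_iUnion htm hd integrable_condExp.integrableOn]
      exact tsum_congr fun i => ih i (by rw [← hgen]; exact ht i)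
  symm
  refine ae_eq_condExp_of_forall_setIntegral_eq h2 hfi
    (fun _ _ _ => integrable_condExp.integrableOn) (fun E hE _ => full f hf hfi E hE) ?_
  exact (stronglyMeasurable_condExp.mono h02).aestronglyMeasurable

end MSch.MT
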