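import Pool.Agent.Lib.MP_369ee2_lc.SigmaXY
import Pool.Agent.Lib.MP_369ee2_lc.MT
import Pool.Agent.Lib.MP_369ee2_lc.MT2

/-!
# Conditional independence (module CI)
-/

namespace MSch

open Function MeasureTheory

/-- every finite set of naturals is the range of an injective tuple -/
theorem exists_enum (F : Finset ℕ) : ∃ (n : ℕ) (c : Fin n ↪ ℕ), Set.range c = (F : Set ℕ) :=
  ⟨F.card, (F.orderEmbOfFin rfl).toEmbedding, by simp⟩

namespace Realisation

variable {L : TypeSystem} (R : Realisation L)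

theorem measurableSet_t {k : ℕ} (a : Fin k ↪ ℕ) (U : Set (L.T k)) :
    MeasurableSet (R.t a ⁻¹' U) := R.meas a trivial

theorem measurableSet_eq {k : ℕ} (a : Fin k ↪ ℕ) (τ : L.T k) :
    MeasurableSet {ω | R.t a ω = τ} := R.measurableSet_t a {τ}

theorem real_preimage {k : ℕ} (a : Fin k ↪ ℕ) (U : Set (L.T k)) [DecidablePred (· ∈ U)] :
    R.P.real (R.t a ⁻¹' U) = ∑ υ : L.T k, if υ ∈ U then L.D υ else 0 := by
  classical
  have h1 : R.t a ⁻¹' U = ⋃ υ ∈ (Finset.univ.filter (· ∈ U)), {ω | R.t a ω = υ} := by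
    ext ω
    simp
  rw [h1, measureReal_biUnion_finset]
  · rw [Finset.sum_filter]
    exact Finset.sum_congr rfl fun υ _ => by rw [R.law]
  · intro υ _ υ' _ h
    rw [Function.onFun, Set.disjoint_left]
    intro ω h1 h2
    exact h (h1.symm.trans h2)
  · intro υ _
    exact R.measurableSet_eq a υ

/-- the finite identity -/
theorem real_inter {n m k : ℕ} (a : Fin n ↪ ℕ) (b : Fin m ↪ ℕ) (ι : Fin k ↪ Fin n)
    (δ : Fin k ↪ Fin m) (h : ι.trans a = δ.trans b)
    (hr : Set.range a ∩ Set.range b ⊆ Set.range (ι.trans a)) (τ : L.T n) (ρ : L.T m) :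
    R.P.real ({ω | R.t a ω = τ} ∩ {ω | R.t b ω = ρ}) * L.D (L.res ι τ) =
      if L.res ι τ = L.res δ ρ then L.D τ * L.D ρ else 0 := by
  classical
  split_ifs with hκ
  · obtain ⟨N, c, hc⟩ := exists_enum (Finset.univ.map a ∪ Finset.univ.map b)
    have hca : Set.range a ⊆ Set.range c := by
      rw [hc]; intro x hx; simp at hx ⊢; exact Or.inl hx
    have hcb : Set.range b ⊆ Set.range c := by
      rw [hc]; intro x hx; simp at hx ⊢; exact Or.inr hx
    obtain ⟨α, rfl⟩ := exists_trans a c hca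
    obtain ⟨β, rfl⟩ := exists_trans b c hcb
    have h2 : ι.trans α = δ.trans β := by
      ext i
      have := DFunLike.congr_fun h i
      exact congrArg Fin.val (c.injective this)
    have h3 : Set.range α ∩ Set.range β ⊆ Set.range (ι.trans α) := by
      rintro x ⟨⟨i, hi⟩, ⟨j, hj⟩⟩
      have h4 : c x ∈ Set.range (α.trans c) ∩ Set.range (β.trans c) :=
        ⟨⟨i, congrArg c hi⟩, ⟨j, congrArg c hj⟩⟩
      obtain ⟨l, hl⟩ := hr h4
      exact ⟨l, c.injective hl⟩
    have h5 := L.ci α β ι δ h2 h3 τ ρ hκ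
    rw [← h5]
    congr 1
    have h6 : ({ω | R.t (α.trans c) ω = τ} ∩ {ω | R.t (β.trans c) ω = ρ}) =
        R.t c ⁻¹' {υ | L.res α υ = τ ∧ L.res β υ = ρ} := by
      ext ω
      simp only [Set.mem_inter_iff, Set.mem_ofPred_eq, Set.mem_preimage]
      rw [R.comp, R.comp]
    rw [h6, real_preimage]
    rfl
  · have h1 : ({ω | R.t a ω = τ} ∩ {ω | R.t b ω = ρ}) = ∅ := by
      ext ω
      simp only [Set.mem_inter_iff, Set.mem_ofPred_eq, Set.mem_empty_iff_false, iff_false,
        not_and]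
      rintro rfl rfl
      apply hκ
      rw [← R.comp, ← R.comp, h]
    rw [h1]
    simp

/-- `G S` is the supremum of an increasing sequence of finite σ-algebras containing a given finite
tuple -/
theorem exists_seq (S : Set ℕ) {k : ℕ} (a : Fin k ↪ ℕ) (ha : Set.range a ⊆ S) :
    ∃ (κ : ℕ → ℕ) (c : ∀ n, Fin (κ n) ↪ ℕ), (∀ n, Set.range (c n) ⊆ S) ∧
      (∀ n, Set.range a ⊆ Set.range (c n)) ∧
      Monotone (fun n => MeasurableSpace.comap (R.t (c n)) ⊤) ∧
      ⨆ n, MeasurableSpace.comap (R.t (c n)) ⊤ = R.G S := by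
  classical
  have h1 : ∀ n : ℕ, ∃ (κ : ℕ) (c : Fin κ ↪ ℕ), Set.range c =
      (((Finset.range n).filter (· ∈ S) ∪ Finset.univ.map a : Finset ℕ) : Set ℕ) :=
    fun n => exists_enum _
  choose κ c hc using h1
  refine ⟨κ, c, ?_, ?_, ?_, ?_⟩
  · intro n
    rw [hc]
    intro x hx
    simp only [Finset.coe_union, Finset.coe_filter, Finset.mem_range, Finset.coe_map,
      Finset.coe_univ, Set.image_univ, Set.mem_union, Set.mem_ofPred_eq] at hx
    rcases hx with hx | hx
    · exact hx.2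
    · exact ha hx
  · intro n
    rw [hc]
    intro x hx
    simp only [Finset.coe_union, Finset.coe_filter, Finset.mem_range, Finset.coe_map,
      Finset.coe_univ, Set.image_univ, Set.mem_union, Set.mem_ofPred_eq]
    exact Or.inr hx
  · intro n m hnm
    apply R.comap_le_of_range
    rw [hc, hc]
    intro x hx
    simp only [Finset.coe_union, Finset.coe_filter, Finset.mem_range, Finset.coe_map,
      Finset.coe_univ, Set.image_univ, Set.mem_union, Set.mem_ofPred_eq] at hx ⊢
    rcases hx with hx | hx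
    · exact Or.inl ⟨by omega, hx.2⟩
    · exact Or.inr hx
  · apply le_antisymm
    · refine iSup_le fun n => R.comap_le_G _ ?_
      rw [hc]
      intro x hx
      simp only [Finset.coe_union, Finset.coe_filter, Finset.mem_range, Finset.coe_map,
        Finset.coe_univ, Set.image_univ, Set.mem_union, Set.mem_ofPred_eq] at hx
      rcases hx with hx | hx
      · exact hx.2
      · exact ha hx
    · refine iSup_le fun n => iSup_le fun b => iSup_le fun hb => ?_
      refine le_iSup_of_le ((∑ i, b i) + 1) (R.comap_le_of_range _ _ ?_)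
      rw [hc]
      rintro _ ⟨i, rfl⟩
      simp only [Finset.coe_union, Finset.coe_filter, Finset.mem_range, Finset.coe_map,
        Finset.coe_univ, Set.image_univ, Set.mem_union, Set.mem_ofPred_eq]
      left
      refine ⟨?_, hb ⟨i, rfl⟩⟩
      have h1 : b i ≤ ∑ i, b i :=
        Finset.single_le_sum (fun _ _ => Nat.zero_le _) (Finset.mem_univ i)
      omega

theorem ind_eq_indicator {k : ℕ} (a : Fin k ↪ ℕ) (τ : L.T k) :
    R.ind a τ = Set.indicator {ω | R.t a ω = τ} (fun _ => (1 : ℝ)) := by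
  funext ω
  simp [ind, Set.indicator]

theorem measurable_ind {k : ℕ} (a : Fin k ↪ ℕ) (τ : L.T k) : Measurable (R.ind a τ) := by
  rw [ind_eq_indicator]
  exact measurable_const.indicator (R.measurableSet_eq a τ)

theorem ind_nonneg {k : ℕ} (a : Fin k ↪ ℕ) (τ : L.T k) (ω : R.Ω) : 0 ≤ R.ind a τ ω := by
  unfold ind; split_ifs <;> norm_num

theorem ind_le_one {k : ℕ} (a : Fin k ↪ ℕ) (τ : L.T k) (ω : R.Ω) : R.ind a τ ω ≤ 1 := by
  unfold ind; split_ifs <;> norm_num

theorem integrable_of_bdd {f : R.Ω → ℝ} (hf : Measurable f) {C : ℝ} (hC : ∀ ω, |f ω| ≤ C) :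
    Integrable f R.P :=
  Integrable.of_bound hf.aestronglyMeasurable C (Filter.Eventually.of_forall fun ω => by
    rw [Real.norm_eq_abs]; exact hC ω)

theorem integrable_ind {k : ℕ} (a : Fin k ↪ ℕ) (τ : L.T k) : Integrable (R.ind a τ) R.P :=
  R.integrable_of_bdd (R.measurable_ind a τ) (C := 1) fun ω => by
    rw [abs_of_nonneg (R.ind_nonneg a τ ω)]; exact R.ind_le_one a τ ω

/-- functions of `t a` -/
theorem measurable_comp_t {k : ℕ} (a : Fin k ↪ ℕ) (f : L.T k → ℝ) : Measurable (f ∘ R.t a) :=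
  (measurable_from_top (f := f)).comp (R.meas a)

theorem bdd_comp_t {k : ℕ} (a : Fin k ↪ ℕ) (f : L.T k → ℝ) :
    ∃ C : ℝ, ∀ ω, |(f ∘ R.t a) ω| ≤ C :=
  ⟨∑ υ, |f υ|, fun ω => Finset.single_le_sum (f := fun υ => |f υ|) (fun _ _ => abs_nonneg _)
    (Finset.mem_univ (R.t a ω))⟩

theorem integrable_comp_t {k : ℕ} (a : Fin k ↪ ℕ) (f : L.T k → ℝ) :
    Integrable (f ∘ R.t a) R.P := by
  obtain ⟨C, hC⟩ := R.bdd_comp_t a f
  exact R.integrable_of_bdd (R.measurable_comp_t a f) hC

/-- integral over a set of the finite σ-algebra generated by `t c`, reduced to atoms -/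
theorem setIntegral_eq_of_atoms {k : ℕ} (c : Fin k ↪ ℕ) {f g : R.Ω → ℝ} (hf : Integrable f R.P)
    (hg : Integrable g R.P)
    (h : ∀ ρ : L.T k, ∫ ω in {ω | R.t c ω = ρ}, g ω ∂(R.P) = ∫ ω in {ω | R.t c ω = ρ}, f ω ∂(R.P))
    (E : Set R.Ω) (hE : MeasurableSet[MeasurableSpace.comap (R.t c) ⊤] E) :
    ∫ ω in E, g ω ∂(R.P) = ∫ ω in E, f ω ∂(R.P) := by
  classical
  obtain ⟨U, _, rfl⟩ := hE
  have h1 : R.t c ⁻¹' U = ⋃ υ ∈ (Finset.univ.filter (· ∈ U)), {ω | R.t c ω = υ} := by
    ext ω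
    simp
  rw [h1]
  have hd : Set.Pairwise (↑(Finset.univ.filter (· ∈ U)) : Set (L.T k))
      (Function.onFun Disjoint fun υ => {ω | R.t c ω = υ}) := by
    intro υ _ υ' _ h
    rw [Function.onFun, Set.disjoint_left]
    intro ω h1 h2
    exact h (h1.symm.trans h2)
  rw [integral_biUnion_finset _ (fun υ _ => R.measurableSet_eq c υ) hd
      (fun υ _ => hg.integrableOn),
    integral_biUnion_finset _ (fun υ _ => R.measurableSet_eq c υ) hd
      (fun υ _ => hf.integrableOn)]
  exact Finset.sum_congr rfl fun υ _ => h υ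

/-- one point extensions -/
theorem condExp_ind {k n : ℕ} (ι : Fin k ↪ Fin n) (a : Fin n ↪ ℕ) (S : Set ℕ)
    (hS : Set.range a ∩ S = Set.range (ι.trans a)) (τ : L.T n) :
    R.P[R.ind a τ | R.G S] =ᵐ[R.P]
      fun ω => if R.t (ι.trans a) ω = L.res ι τ then L.D τ / L.D (L.res ι τ) else 0 := by
  have hsub : Set.range (ι.trans a) ⊆ S := by
    rw [← hS]; exact Set.inter_subset_right
  obtain ⟨κ, c, hcS, hac, hmono, hsup⟩ := R.exists_seq S (ι.trans a) hsub
  let g : R.Ω → ℝ := fun ω =>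
    if R.t (ι.trans a) ω = L.res ι τ then L.D τ / L.D (L.res ι τ) else 0
  let g' : L.T k → ℝ := fun υ => if υ = L.res ι τ then L.D τ / L.D (L.res ι τ) else 0
  have hgg' : g = g' ∘ R.t (ι.trans a) := rfl
  have hgm : Measurable[R.G S] g := by
    rw [hgg']
    exact (measurable_from_top (f := g')).comp (R.meas_G _ hsub)
  have hgi : Integrable g R.P := R.integrable_comp_t _ g'
  symm
  have key := MT.ae_eq_condExp_iSup (μ := R.P) hmono (fun n => (R.meas (c n)).comap_le)
    (R.integrable_ind a τ) hgi (by rw [hsup]; exact hgm.stronglyMeasurable.aestronglyMeasurable)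
    (fun n E hE => by
      refine R.setIntegral_eq_of_atoms (c n) (R.integrable_ind a τ) hgi ?_ E hE
      intro ρ
      obtain ⟨δ, hδ⟩ := exists_trans (ι.trans a) (c n) (hac n)
      have hr : Set.range a ∩ Set.range (c n) ⊆ Set.range (ι.trans a) := by
        rw [← hS]; exact Set.inter_subset_inter_right _ (hcS n)
      have h1 := R.real_inter a (c n) ι δ hδ.symm hr τ ρ
      have hDpos := L.D_pos (L.res ι τ)
      -- right side
      have h2 : ∫ ω in {ω | R.t (c n) ω = ρ}, R.ind a τ ω ∂(R.P) =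
          R.P.real ({ω | R.t a ω = τ} ∩ {ω | R.t (c n) ω = ρ}) := by
        rw [R.ind_eq_indicator, setIntegral_indicator (R.measurableSet_eq a τ)]
        rw [setIntegral_const, smul_eq_mul, mul_one, Set.inter_comm]
      -- left side
      have h3 : ∫ ω in {ω | R.t (c n) ω = ρ}, g ω ∂(R.P) =
          (if L.res δ ρ = L.res ι τ then L.D τ / L.D (L.res ι τ) else 0) * L.D ρ := by
        have h4 : ∫ ω in {ω | R.t (c n) ω = ρ}, g ω ∂(R.P) =
            ∫ ω in {ω | R.t (c n) ω = ρ},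
              (if L.res δ ρ = L.res ι τ then L.D τ / L.D (L.res ι τ) else 0) ∂(R.P) := by
          refine setIntegral_congr_fun (R.measurableSet_eq (c n) ρ) ?_
          intro ω hω
          change (if R.t (ι.trans a) ω = L.res ι τ then L.D τ / L.D (L.res ι τ) else 0) = _
          have h5 : R.t (ι.trans a) ω = L.res δ ρ := by
            rw [← hδ, R.comp]
            exact congrArg _ hω
          rw [h5]
        rw [h4, setIntegral_const, smul_eq_mul, R.law, mul_comm]
      rw [h2, h3]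
      rw [← mul_left_inj' hDpos.ne', h1]
      by_cases hκ : L.res ι τ = L.res δ ρ
      · rw [if_pos hκ, if_pos hκ.symm]
        field_simp
      · rw [if_neg hκ, if_neg (fun h => hκ h.symm)]
        ring)
  rw [hsup] at key
  exact key

/-- the part of a tuple inside `S` -/
theorem _root_.MSch.exists_sub {n : ℕ} (b : Fin n ↪ ℕ) (S : Set ℕ) :
    ∃ (k : ℕ) (ι : Fin k ↪ Fin n), Set.range b ∩ S = Set.range (ι.trans b) := by
  classical
  obtain ⟨k, c, hc⟩ := exists_enum ((Finset.univ.map b).filter (· ∈ S))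
  have hcb : Set.range c ⊆ Set.range b := by
    rw [hc]
    intro x hx
    simp only [Finset.coe_filter, Finset.mem_map, Finset.mem_univ, true_and,
      Set.mem_ofPred_eq] at hx
    obtain ⟨⟨i, hi⟩, _⟩ := hx
    exact ⟨i, hi⟩
  obtain ⟨ι, hι⟩ := exists_trans c b hcb
  refine ⟨k, ι, ?_⟩
  rw [hι, hc]
  ext x
  simp only [Set.mem_inter_iff, Set.mem_range, Finset.coe_filter, Finset.mem_map,
    Finset.mem_univ, true_and, Set.mem_ofPred_eq]

theorem condExp_ind_inter {n : ℕ} (b : Fin n ↪ ℕ) (ρ : L.T n) (S S' : Set ℕ)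
    (hb : Set.range b ⊆ S') :
    R.P[R.ind b ρ | R.G S] =ᵐ[R.P] R.P[R.ind b ρ | R.G (S ∩ S')] := by
  obtain ⟨k, ι, hι⟩ := exists_sub b S
  have h1 := R.condExp_ind ι b S hι ρ
  have h2 := R.condExp_ind ι b (S ∩ S') (by
    rw [← hι]
    ext x
    simp only [Set.mem_inter_iff]
    exact ⟨fun h => ⟨h.1, h.2.1⟩, fun h => ⟨h.1, h.2, hb h.1⟩⟩) ρ
  exact h1.trans h2.symm

theorem condExp_G (S S' : Set ℕ) {f : R.Ω → ℝ} (hf : StronglyMeasurable[R.G S] f)
    (hfi : Integrable f R.P) : R.P[f | R.G S'] =ᵐ[R.P] R.P[f | R.G (S ∩ S')] := by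
  classical
  have hempty : Set.range (⟨fun i : Fin 0 => i.elim0, fun i => i.elim0⟩ : Fin 0 ↪ ℕ) ⊆ S' := by
    rintro _ ⟨i, _⟩
    exact i.elim0
  obtain ⟨κ, c, hcS, _, hmono, hsup⟩ := R.exists_seq S' _ hempty
  let m : ℕ → MeasurableSpace R.Ω := fun n => MeasurableSpace.comap (R.t (c n)) ⊤
  refine MT.condExp_eq_of_piSystem (m₁ := R.G S) (R.G_mono Set.inter_subset_left)
    (R.G_mono Set.inter_subset_right) (R.G_le S) (R.G_le S')
    (⋃ n, {t | MeasurableSet[m n] t})
    (isPiSystem_iUnion_of_monotone _ (fun n => (m n).isPiSystem_measurableSet)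
      (fun a b hab t ht => hmono hab t ht))
    (by rw [← hsup]; exact (MeasurableSpace.generateFrom_iUnion_measurableSet m).symm)
    ?_ hf hfi
  intro E hE
  obtain ⟨n, hn⟩ := Set.mem_iUnion.1 hE
  obtain ⟨U, _, rfl⟩ := hn
  have h1 : Set.indicator (R.t (c n) ⁻¹' U) (fun _ => (1 : ℝ)) =
      ∑ υ ∈ Finset.univ.filter (· ∈ U), R.ind (c n) υ := by
    funext ω
    rw [Finset.sum_apply]
    simp only [ind, Finset.sum_filter]
    by_cases h : R.t (c n) ω ∈ U
    · rw [Set.indicator_of_mem (by exact h), Finset.sum_eq_single (R.t (c n) ω)]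
      · simp [h]
      · intro b _ hb
        simp [hb.symm]
      · simp
    · rw [Set.indicator_of_notMem (by exact h)]
      symm
      refine Finset.sum_eq_zero fun υ _ => ?_
      split_ifs with h2 h3
      · exact absurd (h3 ▸ h2) h
      · rfl
      · rfl
  rw [h1]
  have h2 := condExp_finsetSum (μ := R.P) (m := R.G S)
    (s := Finset.univ.filter (· ∈ U)) (f := fun υ => R.ind (c n) υ)
    (fun υ _ => R.integrable_ind (c n) υ)
  have h3 := condExp_finsetSum (μ := R.P) (m := R.G (S ∩ S'))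
    (s := Finset.univ.filter (· ∈ U)) (f := fun υ => R.ind (c n) υ)
    (fun υ _ => R.integrable_ind (c n) υ)
  refine h2.trans (Filter.EventuallyEq.trans ?_ h3.symm)
  have h4 : ∀ᵐ ω ∂(R.P), ∀ υ : L.T (κ n), (R.P[R.ind (c n) υ | R.G S]) ω =
      (R.P[R.ind (c n) υ | R.G (S ∩ S')]) ω :=
    ae_all_iff.2 fun υ => R.condExp_ind_inter (c n) υ S S' (hcS n)
  filter_upwards [h4] with ω hω
  rw [Finset.sum_apply, Finset.sum_apply]
  exact Finset.sum_congr rfl fun υ _ => hω υ

end Realisation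

end MSch
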