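import Mathlib

/-!
# m-schemes (Ivanyos–Karpinski–Saxena) and type systems

Shared definitions for MP_369ee2_lc.
-/

namespace MSch

open Function

/-- Delete the `i`-th coordinate of an injective `(s+1)`-tuple. -/
def del {V : Type} {s : ℕ} (i : Fin (s + 1)) (x : Fin (s + 1) ↪ V) : Fin s ↪ V :=
  (Fin.succAboveEmb i).trans x

/-- An `m`-scheme on the finite set `V` (Ivanyos–Karpinski–Saxena 2009): for every `s ≤ m` a
partition (given as an equivalence relation `P s`) of the set of injective `s`-tuples of `V` which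
is compatible, regular and invariant.  (The relations `P s` with `s > m` carry no information.) -/
structure MScheme (V : Type) [Fintype V] (m : ℕ) where
  /-- the partition of the injective `s`-tuples -/
  P : ∀ s : ℕ, Setoid (Fin s ↪ V)
  compat : ∀ s, s + 1 ≤ m → ∀ (i : Fin (s + 1)) (x y : Fin (s + 1) ↪ V),
    (P (s + 1)).r x y → (P s).r (del i x) (del i y)
  regular : ∀ s, s + 1 ≤ m → ∀ (i : Fin (s + 1)) (z : Fin (s + 1) ↪ V) (u v : Fin s ↪ V),
    (P s).r u v →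
      Nat.card {x : Fin (s + 1) ↪ V // (P (s + 1)).r x z ∧ del i x = u} =
        Nat.card {x : Fin (s + 1) ↪ V // (P (s + 1)).r x z ∧ del i x = v}
  inv : ∀ s, s ≤ m → ∀ (σ : Equiv.Perm (Fin s)) (x y : Fin s ↪ V),
    (P s).r x y → (P s).r (σ.toEmbedding.trans x) (σ.toEmbedding.trans y)

namespace MScheme

variable {V : Type} [Fintype V] {m : ℕ}

/-- All points of `V` have the same colour. -/
def Homogeneous (Q : MScheme V m) : Prop := ∀ x y : Fin 1 ↪ V, (Q.P 1).r x y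

/-- No colour is fixed by a non-trivial permutation of the coordinates. -/
def Antisymmetric (Q : MScheme V m) : Prop :=
  ∀ s, s ≤ m → ∀ σ : Equiv.Perm (Fin s), σ ≠ 1 → ∀ x : Fin s ↪ V,
    ¬ (Q.P s).r (σ.toEmbedding.trans x) x

/-- Some colour (the class of `z`) at a level `s + 1 ≤ m`, `s ≥ 1`, is a matching: two of its
coordinate deletions `i < j` are the same colour, and this colour has as many elements as the
class of `z`. -/
def HasMatching (Q : MScheme V m) : Prop :=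
  ∃ s, 1 ≤ s ∧ s + 1 ≤ m ∧ ∃ (z : Fin (s + 1) ↪ V) (i j : Fin (s + 1)), i < j ∧
    (Q.P s).r (del i z) (del j z) ∧
    Nat.card {u : Fin s ↪ V // (Q.P s).r u (del i z)} =
      Nat.card {x : Fin (s + 1) ↪ V // (Q.P (s + 1)).r x z}

end MScheme

/-- the injective pair `(i, j)` -/
def pr {n : ℕ} (i j : Fin n) (h : i ≠ j) : Fin 2 ↪ Fin n :=
  ⟨![i, j], by
    intro a b hab
    fin_cases a <;> fin_cases b <;> simp_all [Ne.symm]⟩

/-- A type system: the limit object.  `T s` is the set of types of `s`-tuples, `res` the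
restriction along injections of index sets, `D` the probability of a type. -/
structure TypeSystem where
  T : ℕ → Type
  fin : ∀ s, Fintype (T s)
  dec : ∀ s, DecidableEq (T s)
  res : ∀ {s t : ℕ}, (Fin s ↪ Fin t) → T t → T s
  res_refl : ∀ {s : ℕ} (τ : T s), res (Embedding.refl (Fin s)) τ = τ
  res_trans : ∀ {r s t : ℕ} (ι : Fin r ↪ Fin s) (κ : Fin s ↪ Fin t) (τ : T t),
    res (ι.trans κ) τ = res ι (res κ τ)
  D : ∀ {s : ℕ}, T s → ℝ
  D_pos : ∀ {s : ℕ} (τ : T s), 0 < D τ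
  D_sum : ∀ s : ℕ, ∑ τ : T s, D τ = 1
  D_res : ∀ {s t : ℕ} (ι : Fin s ↪ Fin t) (τ : T s),
    ∑ υ : T t, (if res ι υ = τ then D υ else 0) = D τ
  /-- conditional independence over the common part -/
  ci : ∀ {a b c n : ℕ} (α : Fin a ↪ Fin n) (β : Fin b ↪ Fin n) (γ : Fin c ↪ Fin a)
    (δ : Fin c ↪ Fin b), γ.trans α = δ.trans β →
    Set.range α ∩ Set.range β ⊆ Set.range (γ.trans α) →
    ∀ (τ : T a) (ρ : T b), res γ τ = res δ ρ →
      (∑ υ : T n, (if res α υ = τ ∧ res β υ = ρ then D υ else 0)) * D (res γ τ) = D τ * D ρ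
  one : Subsingleton (T 1)
  /-- `S_s` acts freely on the `s`-types -/
  free : ∀ {s : ℕ} (σ : Equiv.Perm (Fin s)) (τ : T s), res σ.toEmbedding τ = τ → σ = 1
  B : ℝ
  card_le : ∀ s : ℕ, (Fintype.card (T s) : ℝ) ≤ B ^ (s.choose 2)
  /-- primitivity: no proper nonempty symmetric transitive set of 2-types -/
  prim : ∀ E : Set (T 2), E.Nonempty →
    (∀ τ ∈ E, res (pr 1 0 (by decide)) τ ∈ E) →
    (∀ τ : T 3, res (pr 0 1 (by decide)) τ ∈ E → res (pr 1 2 (by decide)) τ ∈ E →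
      res (pr 0 2 (by decide)) τ ∈ E) → E = Set.univ

attribute [instance] TypeSystem.fin TypeSystem.dec TypeSystem.one

/-- An approximate type system, as it comes from one finite scheme.  All defects at level `t` are
at most `err t`. -/
structure PreTS (B : ℝ) where
  T : ℕ → Type
  fin : ∀ s, Fintype (T s)
  dec : ∀ s, DecidableEq (T s)
  res : ∀ {s t : ℕ}, (Fin s ↪ Fin t) → T t → T s
  res_refl : ∀ {s : ℕ} (τ : T s), res (Embedding.refl (Fin s)) τ = τ
  res_trans : ∀ {r s t : ℕ} (ι : Fin r ↪ Fin s) (κ : Fin s ↪ Fin t) (τ : T t),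
    res (ι.trans κ) τ = res ι (res κ τ)
  D : ∀ {s : ℕ}, T s → ℝ
  D_lb : ∀ {s : ℕ} (τ : T s), 1 ≤ B ^ (s.choose 2) * D τ
  D_ub : ∀ s : ℕ, ∑ τ : T s, D τ ≤ 1
  err : ℕ → ℝ
  D_sum : ∀ s : ℕ, 1 - err s ≤ ∑ τ : T s, D τ
  D_res : ∀ {s t : ℕ} (ι : Fin s ↪ Fin t) (τ : T s),
    |∑ υ : T t, (if res ι υ = τ then D υ else 0) - D τ| ≤ err t
  ci : ∀ {a b c n : ℕ} (α : Fin a ↪ Fin n) (β : Fin b ↪ Fin n) (γ : Fin c ↪ Fin a)
    (δ : Fin c ↪ Fin b), γ.trans α = δ.trans β →
    Set.range α ∩ Set.range β ⊆ Set.range (γ.trans α) →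
    ∀ (τ : T a) (ρ : T b), res γ τ = res δ ρ →
      |(∑ υ : T n, (if res α υ = τ ∧ res β υ = ρ then D υ else 0)) * D (res γ τ) - D τ * D ρ|
        ≤ err n
  one : Subsingleton (T 1)
  free : ∀ {s : ℕ} (σ : Equiv.Perm (Fin s)) (τ : T s), res σ.toEmbedding τ = τ → σ = 1

attribute [instance] PreTS.fin PreTS.dec PreTS.one

/-- primitivity of an approximate type system -/
def PreTS.Primitive {B : ℝ} (A : PreTS B) : Prop :=
  ∀ E : Set (A.T 2), E.Nonempty →
    (∀ τ ∈ E, A.res (pr 1 0 (by decide)) τ ∈ E) →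
    (∀ τ : A.T 3, A.res (pr 0 1 (by decide)) τ ∈ E → A.res (pr 1 2 (by decide)) τ ∈ E →
      A.res (pr 0 2 (by decide)) τ ∈ E) → E = Set.univ

end MSch
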