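import Pool.Agent.Lib.MP_369ee2_lc.TDefs

/-!
# One probability vector for all levels (module G12)
-/

namespace MSch

open Function Filter
open scoped Topology

namespace ExactArrayAux

/-- the ultrafilter used for all limits -/
noncomputable def U : Ultrafilter ℕ := hyperfilter ℕ

theorem U_le : (U : Filter ℕ) ≤ atTop := Nat.hyperfilter_le_atTop

theorem U_gt (m : ℕ) : ∀ᶠ n in (U : Filter ℕ), m < n := U_le (eventually_gt_atTop m)

/-- a function into a finite type is constant along an ultrafilter -/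
theorem const_of_finite {α β : Type*} [Finite β] (V : Ultrafilter α) (g : α → β) :
    ∃ z, ∀ᶠ x in (V : Filter α), g x = z := by
  obtain ⟨z, hz⟩ := Ultrafilter.eq_pure_of_finite (V.map g)
  refine ⟨z, ?_⟩
  have h1 : ({z} : Set β) ∈ V.map g := by
    rw [hz]
    exact Set.mem_singleton z
  exact h1

/-- limits of functions with values in `[0,1]` -/
theorem exists_lim {α : Type*} (V : Ultrafilter α) (g : α → ℝ)
    (hg : ∀ᶠ x in (V : Filter α), 0 ≤ g x ∧ g x ≤ 1) :
    ∃ z : ℝ, (0 ≤ z ∧ z ≤ 1) ∧ Tendsto g V (𝓝 z) := by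
  obtain ⟨z, hz, h⟩ := (isCompact_Icc (a := (0 : ℝ)) (b := 1)).ultrafilter_le_nhds' (V.map g) hg
  exact ⟨z, hz, h⟩

theorem tendsto_tabProb {α : Type*} {l : Filter α} {s K : ℕ} {T : Type} [DecidableEq T]
    (μ : α → Pairs s → Fin K → ℝ) (μ' : Pairs s → Fin K → ℝ) (F : (Pairs s → Fin K) → T) (τ : T)
    (h : ∀ p c, Tendsto (fun x => μ x p c) l (𝓝 (μ' p c))) :
    Tendsto (fun x => tabProb (μ x) F τ) l (𝓝 (tabProb μ' F τ)) := by
  unfold tabProb
  refine tendsto_finset_sum _ fun a _ => ?_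
  by_cases ha : F a = τ
  · simp only [ha, if_true]
    exact tendsto_finset_prod _ fun p _ => h p (a p)
  · simp only [ha, if_false]
    exact tendsto_const_nhds

/-- the iterated ultrafilters -/
noncomputable def UU : (s : ℕ) → Ultrafilter (Fin s → ℕ)
  | 0 => pure Fin.elim0
  | s + 1 => U.bind fun n => (UU s).map (Fin.cons n)

theorem eventually_succ {s : ℕ} {p : (Fin (s + 1) → ℕ) → Prop} :
    (∀ᶠ b in (UU (s + 1) : Filter (Fin (s + 1) → ℕ)), p b) ↔
      ∀ᶠ n in (U : Filter ℕ), ∀ᶠ b in (UU s : Filter (Fin s → ℕ)), p (Fin.cons n b) :=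
  Iff.rfl

theorem eventually_mono (s m : ℕ) :
    ∀ᶠ b in (UU s : Filter (Fin s → ℕ)), StrictMono b ∧ ∀ k, m < b k := by
  induction s generalizing m with
  | zero =>
    refine Filter.Eventually.of_forall fun b => ⟨fun i => i.elim0, fun i => i.elim0⟩
  | succ s ih =>
    rw [eventually_succ]
    filter_upwards [U_gt m] with n hn
    filter_upwards [ih n] with b hb
    refine ⟨?_, ?_⟩
    · intro i j hij
      rcases Fin.eq_zero_or_eq_succ i with rfl | ⟨i, rfl⟩
      · rcases Fin.eq_zero_or_eq_succ j with rfl | ⟨j, rfl⟩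
        · exact absurd hij (lt_irrefl _)
        · rw [Fin.cons_zero, Fin.cons_succ]
          exact hb.2 j
      · rcases Fin.eq_zero_or_eq_succ j with rfl | ⟨j, rfl⟩
        · exact absurd hij (Fin.not_lt_zero _)
        · rw [Fin.cons_succ, Fin.cons_succ]
          exact hb.1 (Fin.succ_lt_succ_iff.1 hij)
    · intro k
      rcases Fin.eq_zero_or_eq_succ k with rfl | ⟨k, rfl⟩
      · rw [Fin.cons_zero]; exact hn
      · rw [Fin.cons_succ]; exact hn.trans (hb.2 k)

theorem eventually_one {Q : ℕ → Prop} (hQ : ∀ᶠ n in (U : Filter ℕ), Q n) (s : ℕ) (l : Fin s) :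
    ∀ᶠ b in (UU s : Filter (Fin s → ℕ)), Q (b l) := by
  induction s with
  | zero => exact l.elim0
  | succ s ih =>
    rw [eventually_succ]
    rcases Fin.eq_zero_or_eq_succ l with rfl | ⟨l, rfl⟩
    · filter_upwards [hQ] with n hn
      exact Filter.Eventually.of_forall fun b => by rw [Fin.cons_zero]; exact hn
    · refine Filter.Eventually.of_forall fun n => ?_
      filter_upwards [ih l] with b hb
      rw [Fin.cons_succ]
      exact hb

theorem eventually_two {Q : ℕ → ℕ → Prop}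
    (hQ : ∀ᶠ n in (U : Filter ℕ), ∀ᶠ m in (U : Filter ℕ), Q n m) (s : ℕ) (k l : Fin s)
    (hkl : k < l) : ∀ᶠ b in (UU s : Filter (Fin s → ℕ)), Q (b k) (b l) := by
  induction s with
  | zero => exact l.elim0
  | succ s ih =>
    rw [eventually_succ]
    rcases Fin.eq_zero_or_eq_succ k with rfl | ⟨k, rfl⟩
    · rcases Fin.eq_zero_or_eq_succ l with rfl | ⟨l, rfl⟩
      · exact absurd hkl (lt_irrefl _)
      · filter_upwards [hQ] with n hn
        filter_upwards [eventually_one hn s l] with b hb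
        rw [Fin.cons_zero, Fin.cons_succ]
        exact hb
    · rcases Fin.eq_zero_or_eq_succ l with rfl | ⟨l, rfl⟩
      · exact absurd hkl (Fin.not_lt_zero _)
      · refine Filter.Eventually.of_forall fun n => ?_
        filter_upwards [ih k l (Fin.succ_lt_succ_iff.1 hkl)] with b hb
        rw [Fin.cons_succ, Fin.cons_succ]
        exact hb

end ExactArrayAux

open ExactArrayAux

theorem exact_array (L : TypeSystem) (K : ℕ)
    (h : ∀ (M : ℕ) (ε : ℝ), 0 < ε →
      ∃ μ : Fin M → Fin M → Fin K → ℝ, (∀ i j c, 0 ≤ μ i j c ∧ μ i j c ≤ 1) ∧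
      ∀ (s : ℕ) (b : Fin s ↪o Fin M), ∃ F : (Pairs s → Fin K) → L.T s, ∀ τ : L.T s,
        |tabProb (fun p c => μ (b p.1.1) (b p.1.2) c) F τ - L.D τ| ≤ ε) :
    ∃ μ : Fin K → ℝ, ∀ s : ℕ, ∃ F : (Pairs s → Fin K) → L.T s, ∀ τ : L.T s,
      tabProb (fun _ c => μ c) F τ = L.D τ := by
  classical
  -- step 1
  have hA : ∀ M : ℕ, ∃ ν : ℕ → ℕ → Fin K → ℝ, (∀ i j c, 0 ≤ ν i j c ∧ ν i j c ≤ 1) ∧
      ∀ (s : ℕ) (b : Fin s → ℕ), StrictMono b → (∀ k, b k < M) →
        ∃ F : (Pairs s → Fin K) → L.T s, ∀ τ : L.T s,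
          |tabProb (fun p c => ν (b p.1.1) (b p.1.2) c) F τ - L.D τ| ≤ 1 / ((M : ℝ) + 1) := by
    intro M
    obtain ⟨μ, hμ, hF⟩ := h M (1 / ((M : ℝ) + 1)) (by positivity)
    refine ⟨fun i j c => if hij : i < M ∧ j < M then μ ⟨i, hij.1⟩ ⟨j, hij.2⟩ c else 0, ?_, ?_⟩
    · intro i j c
      by_cases hij : i < M ∧ j < M
      · simp only [hij, and_self, dif_pos]
        exact hμ _ _ _
      · simp only [hij, dif_neg, not_false_iff]
        exact ⟨le_rfl, zero_le_one⟩
    · intro s b hb hbM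
      obtain ⟨F, hF'⟩ := hF s (OrderEmbedding.ofStrictMono (fun k => (⟨b k, hbM k⟩ : Fin M))
        (fun i j hij => hb hij))
      refine ⟨F, fun τ => ?_⟩
      have h1 : (fun (p : Pairs s) (c : Fin K) =>
          if hij : b p.1.1 < M ∧ b p.1.2 < M then
            μ ⟨b p.1.1, hij.1⟩ ⟨b p.1.2, hij.2⟩ c else 0) =
          fun p c => μ ((OrderEmbedding.ofStrictMono (fun k => (⟨b k, hbM k⟩ : Fin M))
            (fun i j hij => hb hij)) p.1.1) ((OrderEmbedding.ofStrictMono
            (fun k => (⟨b k, hbM k⟩ : Fin M)) (fun i j hij => hb hij)) p.1.2) c := by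
        funext p c
        rw [dif_pos ⟨hbM _, hbM _⟩]
        rfl
      rw [h1]
      exact hF' τ
  choose ν hν hνF using hA
  -- step 2
  have hB1 : ∀ i j c, ∃ z : ℝ, (0 ≤ z ∧ z ≤ 1) ∧
      Tendsto (fun M => ν M i j c) (U : Filter ℕ) (𝓝 z) := fun i j c =>
    exists_lim U _ (Filter.Eventually.of_forall fun M => hν M i j c)
  choose lam hlam hlim using hB1
  have hB : ∀ (s : ℕ) (b : Fin s → ℕ), StrictMono b →
      ∃ F : (Pairs s → Fin K) → L.T s, ∀ τ : L.T s,
        tabProb (fun p c => lam (b p.1.1) (b p.1.2) c) F τ = L.D τ := by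
    intro s b hb
    have hex : ∀ M : ℕ, ∃ F : (Pairs s → Fin K) → L.T s, (∀ k, b k < M) → ∀ τ : L.T s,
          |tabProb (fun p c => ν M (b p.1.1) (b p.1.2) c) F τ - L.D τ| ≤ 1 / ((M : ℝ) + 1) := by
      intro M
      by_cases hM : ∀ k, b k < M
      · obtain ⟨F, hF⟩ := hνF M s b hb hM
        exact ⟨F, fun _ => hF⟩
      · have hne : Nonempty (L.T s) := by
          by_contra hcon
          rw [not_nonempty_iff] at hcon
          have := L.D_sum s
          rw [Finset.univ_eq_empty, Finset.sum_empty] at this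
          exact zero_ne_one this
        exact ⟨fun _ => hne.some, fun hM' => absurd hM' hM⟩
    choose G hG using hex
    obtain ⟨F, hF⟩ := const_of_finite U G
    refine ⟨F, fun τ => ?_⟩
    have hbig : ∀ᶠ M in (U : Filter ℕ), ∀ k, b k < M := by
      rw [Filter.eventually_all]
      intro k
      exact U_gt (b k)
    have h1 : Tendsto (fun M => tabProb (fun p c => ν M (b p.1.1) (b p.1.2) c) F τ - L.D τ)
        (U : Filter ℕ) (𝓝 (tabProb (fun p c => lam (b p.1.1) (b p.1.2) c) F τ - L.D τ)) := by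
      refine Tendsto.sub ?_ tendsto_const_nhds
      exact tendsto_tabProb _ _ _ _ fun p c => hlim _ _ _
    have h2 : Tendsto (fun M => tabProb (fun p c => ν M (b p.1.1) (b p.1.2) c) F τ - L.D τ)
        (U : Filter ℕ) (𝓝 0) := by
      have h3 : Tendsto (fun M : ℕ => 1 / ((M : ℝ) + 1)) (U : Filter ℕ) (𝓝 0) :=
        tendsto_one_div_add_atTop_nhds_zero_nat.mono_left U_le
      refine squeeze_zero_norm' ?_ h3
      filter_upwards [hbig, hF] with M hM hFM
      rw [Real.norm_eq_abs, ← hFM]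
      exact hG M hM τ
    have h4 := tendsto_nhds_unique h1 h2
    linarith
  -- step 3
  have hC1 : ∀ i c, ∃ z : ℝ, (0 ≤ z ∧ z ≤ 1) ∧
      Tendsto (fun j => lam i j c) (U : Filter ℕ) (𝓝 z) := fun i c =>
    exists_lim U _ (Filter.Eventually.of_forall fun j => hlam i j c)
  choose lam' hlam' hlim' using hC1
  have hC2 : ∀ c, ∃ z : ℝ, (0 ≤ z ∧ z ≤ 1) ∧
      Tendsto (fun i => lam' i c) (U : Filter ℕ) (𝓝 z) := fun c =>
    exists_lim U _ (Filter.Eventually.of_forall fun i => hlam' i c)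
  choose mu hmu hlim'' using hC2
  refine ⟨mu, fun s => ?_⟩
  have hex : ∀ b : Fin s → ℕ, ∃ F : (Pairs s → Fin K) → L.T s, StrictMono b → ∀ τ : L.T s,
        tabProb (fun p c => lam (b p.1.1) (b p.1.2) c) F τ = L.D τ := by
    intro b
    by_cases hb : StrictMono b
    · obtain ⟨F, hF⟩ := hB s b hb
      exact ⟨F, fun _ => hF⟩
    · have hne : Nonempty (L.T s) := by
        by_contra hcon
        rw [not_nonempty_iff] at hcon
        have := L.D_sum s
        rw [Finset.univ_eq_empty, Finset.sum_empty] at this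
        exact zero_ne_one this
      exact ⟨fun _ => hne.some, fun hb' => absurd hb' hb⟩
  choose G hG using hex
  obtain ⟨F, hF⟩ := const_of_finite (UU s) G
  refine ⟨F, fun τ => ?_⟩
  have h1 : Tendsto (fun b : Fin s → ℕ => tabProb (fun p c => lam (b p.1.1) (b p.1.2) c) F τ)
      (UU s : Filter (Fin s → ℕ)) (𝓝 (tabProb (fun _ c => mu c) F τ)) := by
    refine tendsto_tabProb _ _ _ _ fun p c => ?_
    rw [Metric.tendsto_nhds]
    intro ε hε
    have h2 : ∀ᶠ i in (U : Filter ℕ), ∀ᶠ j in (U : Filter ℕ), dist (lam i j c) (mu c) < ε := by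
      filter_upwards [Metric.tendsto_nhds.1 (hlim'' c) (ε / 2) (by linarith)] with i hi
      filter_upwards [Metric.tendsto_nhds.1 (hlim' i c) (ε / 2) (by linarith)] with j hj
      calc dist (lam i j c) (mu c) ≤ dist (lam i j c) (lam' i c) + dist (lam' i c) (mu c) :=
            dist_triangle _ _ _
        _ < ε := by linarith
    exact eventually_two h2 s p.1.1 p.1.2 p.2
  have h3 : Tendsto (fun b : Fin s → ℕ => tabProb (fun p c => lam (b p.1.1) (b p.1.2) c) F τ)
      (UU s : Filter (Fin s → ℕ)) (𝓝 (L.D τ)) := by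
    refine Tendsto.congr' ?_ tendsto_const_nhds
    filter_upwards [hF, eventually_mono s 0] with b hb1 hb2
    rw [← hb1]
    exact (hG b hb2.1 τ).symm
  exact tendsto_nhds_unique h1 h3

end MSch
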