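import Pool.Agent.Lib.MP_369ee2_lc.IDefs

/-!
# Tuples indexed by arbitrary finite types (module I1)
-/

namespace MSch

open Function Filter
open scoped Topology BigOperators

namespace RelAPI

theorem factor {s t : ℕ} (ι : Fin s ↪ Fin (t + 1)) (i : Fin (t + 1)) (hi : i ∉ Set.range ι) :
    ∃ ι' : Fin s ↪ Fin t, ι = ι'.trans (Fin.succAboveEmb i) := by
  have h : ∀ a : Fin s, ∃ b : Fin t, i.succAbove b = ι a := fun a =>
    Fin.exists_succAbove_eq (fun hh => hi ⟨a, hh⟩)
  choose f hf using h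
  refine ⟨⟨f, fun a b hab => ?_⟩, ?_⟩
  · apply ι.injective
    rw [← hf a, ← hf b, hab]
  · ext a
    simp [hf]

theorem perm_or_factor {s t : ℕ} (ι : Fin s ↪ Fin t) :
    (∃ h : s = t, ∃ σ : Equiv.Perm (Fin t), ι = (finCongr h).toEmbedding.trans σ.toEmbedding) ∨
    (∃ t' : ℕ, t = t' + 1 ∧ ∃ i : Fin t, i ∉ Set.range ι) := by
  by_cases hs : Function.Surjective ι
  · left
    have hb : Function.Bijective ι := ⟨ι.injective, hs⟩
    have h : s = t := by simpa using Fintype.card_congr (Equiv.ofBijective ι hb)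
    subst h
    refine ⟨rfl, Equiv.ofBijective ι hb, ?_⟩
    ext a
    simp
  · right
    have : ∃ i, i ∉ Set.range ι := by
      by_contra hcon
      push Not at hcon
      exact hs hcon
    obtain ⟨i, hi⟩ := this
    refine ⟨t - 1, ?_, i, hi⟩
    have := i.pos
    omega

section
variable {V : Type} [Fintype V] {m : ℕ} (Q : MScheme V m)

theorem emb {t : ℕ} : ∀ {s : ℕ} (_ : t ≤ m) (ι : Fin s ↪ Fin t) {x y : Fin t ↪ V}
    (_ : (Q.P t).r x y), (Q.P s).r (ι.trans x) (ι.trans y) := by
  induction t with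
  | zero =>
    intro s ht ι x y h
    rcases perm_or_factor ι with ⟨hst, σ, hσ⟩ | ⟨t', ht', i, hi⟩
    · subst hst
      subst hσ
      exact Q.inv _ ht σ x y h
    · omega
  | succ t ih =>
    intro s ht ι x y h
    rcases perm_or_factor ι with ⟨hst, σ, hσ⟩ | ⟨t', ht', i, hi⟩
    · subst hst
      subst hσ
      exact Q.inv _ ht σ x y h
    · obtain ⟨ι', hι'⟩ := factor ι i hi
      subst hι'
      exact ih (by omega) ι' (Q.compat t ht i x y h)

theorem card_eq_of_subsingleton {α β : Type*} [Subsingleton α] [Subsingleton β]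
    (h : Nonempty α ↔ Nonempty β) : Nat.card α = Nat.card β := by
  rcases isEmpty_or_nonempty α with ha | ha
  · have hb : IsEmpty β := by
      rw [← not_nonempty_iff]
      intro hb
      exact (not_nonempty_iff.2 ha) (h.2 hb)
    simp
  · have hb : Nonempty β := h.1 ha
    obtain ⟨a⟩ := ha
    obtain ⟨b⟩ := hb
    have h1 : Nat.card α = 1 := Nat.card_eq_one_iff_unique.2 ⟨inferInstance, ⟨a⟩⟩
    have h2 : Nat.card β = 1 := Nat.card_eq_one_iff_unique.2 ⟨inferInstance, ⟨b⟩⟩
    rw [h1, h2]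

/-- the splitting of the tuples over `u` along a deletion -/
noncomputable def split {s t : ℕ} (ι' : Fin s ↪ Fin t) (i : Fin (t + 1)) (ht : t + 1 ≤ m)
    (z : Fin (t + 1) ↪ V) (u : Fin s ↪ V) :
    {x : Fin (t + 1) ↪ V // (Q.P (t + 1)).r x z ∧
      (ι'.trans (Fin.succAboveEmb i)).trans x = u} ≃
    Σ x' : {x' : Fin t ↪ V // (Q.P t).r x' (del i z) ∧ ι'.trans x' = u},
      {x : Fin (t + 1) ↪ V // (Q.P (t + 1)).r x z ∧ del i x = x'.1} where
  toFun x := ⟨⟨del i x.1, Q.compat t ht i _ _ x.2.1, x.2.2⟩, ⟨x.1, x.2.1, rfl⟩⟩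
  invFun p := ⟨p.2.1, p.2.2.1, by
    have h1 := p.2.2.2
    have h2 := p.1.2.2
    rw [← h1] at h2
    exact h2⟩
  left_inv x := rfl
  right_inv p := by
    obtain ⟨⟨x', hx'⟩, ⟨x, hx, hxx⟩⟩ := p
    dsimp only at hxx
    subst hxx
    rfl

theorem count {t : ℕ} : ∀ {s : ℕ} (_ : t ≤ m) (ι : Fin s ↪ Fin t) (z : Fin t ↪ V)
    {u v : Fin s ↪ V} (_ : (Q.P s).r u v),
    Nat.card {x : Fin t ↪ V // (Q.P t).r x z ∧ ι.trans x = u} =
      Nat.card {x : Fin t ↪ V // (Q.P t).r x z ∧ ι.trans x = v} := by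
  have hperm : ∀ (t : ℕ) (ht : t ≤ m) (σ : Equiv.Perm (Fin t)) (z : Fin t ↪ V)
      {u v : Fin t ↪ V} (_ : (Q.P t).r u v),
      Nat.card {x : Fin t ↪ V // (Q.P t).r x z ∧ σ.toEmbedding.trans x = u} =
      Nat.card {x : Fin t ↪ V // (Q.P t).r x z ∧ σ.toEmbedding.trans x = v} := by
    intro t ht σ z u v h
    have hu : ∀ (w : Fin t ↪ V), Subsingleton
        {x : Fin t ↪ V // (Q.P t).r x z ∧ σ.toEmbedding.trans x = w} := by
      intro w
      refine ⟨fun a b => ?_⟩
      obtain ⟨a, ha1, ha2⟩ := a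
      obtain ⟨b, hb1, hb2⟩ := b
      refine Subtype.ext ?_
      ext k
      have h1 := DFunLike.congr_fun ha2 (σ.symm k)
      have h2 := DFunLike.congr_fun hb2 (σ.symm k)
      simp only [Embedding.trans_apply, Equiv.coe_toEmbedding, Equiv.apply_symm_apply] at h1 h2
      show a k = b k
      rw [h1, h2]
    have hone : ∀ {u v : Fin t ↪ V} (_ : (Q.P t).r u v),
        Nonempty {x : Fin t ↪ V // (Q.P t).r x z ∧ σ.toEmbedding.trans x = u} →
        Nonempty {x : Fin t ↪ V // (Q.P t).r x z ∧ σ.toEmbedding.trans x = v} := by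
      rintro u v h ⟨⟨x, hx1, hx2⟩⟩
      refine ⟨⟨σ.symm.toEmbedding.trans v, ?_, ?_⟩⟩
      · have h1 := Q.inv t ht σ.symm v u ((Q.P t).symm' h)
        have h2 : σ.symm.toEmbedding.trans u = x := by
          rw [← hx2]
          ext k
          simp
        have h3 := (Q.P t).trans' h1 (y := σ.symm.toEmbedding.trans u) (z := z)
        apply h3
        rw [h2]
        exact hx1
      · ext k
        simp
    haveI := hu u
    haveI := hu v
    exact card_eq_of_subsingleton ⟨hone h, hone ((Q.P t).symm' h)⟩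
  induction t with
  | zero =>
    intro s ht ι z u v h
    rcases perm_or_factor ι with ⟨hst, σ, hσ⟩ | ⟨t', ht', i, hi⟩
    · subst hst
      subst hσ
      exact hperm _ ht σ z h
    · omega
  | succ t ih =>
    intro s ht ι z u v h
    rcases perm_or_factor ι with ⟨hst, σ, hσ⟩ | ⟨t', ht', i, hi⟩
    · subst hst
      subst hσ
      exact hperm _ ht σ z h
    · obtain ⟨ι', hι'⟩ := factor ι i hi
      subst hι'
      classical
      have key : ∀ w : Fin s ↪ V,
          Nat.card {x : Fin (t + 1) ↪ V // (Q.P (t + 1)).r x z ∧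
            (ι'.trans (Fin.succAboveEmb i)).trans x = w} =
          Nat.card {x' : Fin t ↪ V // (Q.P t).r x' (del i z) ∧ ι'.trans x' = w} *
            Nat.card {x : Fin (t + 1) ↪ V // (Q.P (t + 1)).r x z ∧ del i x = del i z} := by
        intro w
        haveI : Fintype {x' : Fin t ↪ V // (Q.P t).r x' (del i z) ∧ ι'.trans x' = w} :=
          Fintype.ofFinite _
        rw [Nat.card_congr (split Q ι' i ht z w), Nat.card_sigma]
        rw [Finset.sum_congr rfl (fun x' _ => Q.regular t ht i z x'.1 (del i z) x'.2.1)]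
        rw [Finset.sum_const, Finset.card_univ, smul_eq_mul, Nat.card_eq_fintype_card
          (α := {x' : Fin t ↪ V // (Q.P t).r x' (del i z) ∧ ι'.trans x' = w})]
      rw [key u, key v, ih (by omega) ι' (del i z) h]

/-- reindexing embeddings -/
def reidx {I J : Type} (e : I ≃ J) : (J ↪ V) ≃ (I ↪ V) where
  toFun x := e.toEmbedding.trans x
  invFun x := e.symm.toEmbedding.trans x
  left_inv x := by ext; simp
  right_inv x := by ext; simp

end

end RelAPI

section I1
variable {V : Type} [Fintype V] {m : ℕ} (Q : MScheme V m)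

theorem rel_iff {I : Type} [Fintype I] (hI : Fintype.card I ≤ m) {s : ℕ} (e : Fin s ≃ I)
    (x y : I ↪ V) : Q.rel x y ↔ (Q.P s).r (e.toEmbedding.trans x) (e.toEmbedding.trans y) := by
  have hs : s = Fintype.card I := by simpa using Fintype.card_congr e
  subst hs
  constructor
  · rintro ⟨e', h⟩
    have h1 := Q.inv _ hI (e.trans e'.symm) _ _ h
    have h2 : ∀ x : I ↪ V, (e.trans e'.symm).toEmbedding.trans (e'.toEmbedding.trans x) =
        e.toEmbedding.trans x := by
      intro x
      ext k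
      simp
    rw [h2, h2] at h1
    exact h1
  · intro h
    exact ⟨e, h⟩

theorem rel_refl {I : Type} [Fintype I] (x : I ↪ V) : Q.rel x x :=
  ⟨(Fintype.equivFin I).symm, (Q.P _).refl' _⟩

theorem rel_symm {I : Type} [Fintype I] {x y : I ↪ V} (h : Q.rel x y) : Q.rel y x := by
  obtain ⟨e, h⟩ := h
  exact ⟨e, (Q.P _).symm' h⟩

theorem rel_trans {I : Type} [Fintype I] (hI : Fintype.card I ≤ m) {x y z : I ↪ V}
    (h : Q.rel x y) (h' : Q.rel y z) : Q.rel x z := by
  have e := (Fintype.equivFin I).symm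
  rw [rel_iff Q hI e] at h h' ⊢
  exact (Q.P _).trans' h h'

theorem rel_comp {I J : Type} [Fintype I] [Fintype J] (hJ : Fintype.card J ≤ m) (ι : I ↪ J)
    {x y : J ↪ V} (h : Q.rel x y) : Q.rel (ι.trans x) (ι.trans y) := by
  have eI := (Fintype.equivFin I).symm
  have eJ := (Fintype.equivFin J).symm
  have hI : Fintype.card I ≤ m := le_trans (Fintype.card_le_of_embedding ι) hJ
  rw [rel_iff Q hJ eJ] at h
  rw [rel_iff Q hI eI]
  have h1 := RelAPI.emb Q hJ (eI.toEmbedding.trans (ι.trans eJ.symm.toEmbedding)) h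
  have h2 : ∀ x : J ↪ V, (eI.toEmbedding.trans (ι.trans eJ.symm.toEmbedding)).trans
      (eJ.toEmbedding.trans x) = eI.toEmbedding.trans (ι.trans x) := by
    intro x
    ext k
    simp
  rw [h2, h2] at h1
  exact h1

theorem rel_count {I J : Type} [Fintype I] [Fintype J] (hJ : Fintype.card J ≤ m) (ι : I ↪ J)
    (z : J ↪ V) {u v : I ↪ V} (h : Q.rel u v) :
    Nat.card {x : J ↪ V // Q.rel x z ∧ ι.trans x = u} =
      Nat.card {x : J ↪ V // Q.rel x z ∧ ι.trans x = v} := by
  have eI := (Fintype.equivFin I).symm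
  have eJ := (Fintype.equivFin J).symm
  have hI : Fintype.card I ≤ m := le_trans (Fintype.card_le_of_embedding ι) hJ
  rw [rel_iff Q hI eI] at h
  have key : ∀ w : I ↪ V, Nat.card {x : J ↪ V // Q.rel x z ∧ ι.trans x = w} =
      Nat.card {x : Fin (Fintype.card J) ↪ V // (Q.P _).r x (eJ.toEmbedding.trans z) ∧
        (eI.toEmbedding.trans (ι.trans eJ.symm.toEmbedding)).trans x =
          eI.toEmbedding.trans w} := by
    intro w
    refine Nat.card_congr (Equiv.subtypeEquiv (RelAPI.reidx eJ) (fun x => ?_))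
    rw [rel_iff Q hJ eJ]
    have h2 : (eI.toEmbedding.trans (ι.trans eJ.symm.toEmbedding)).trans
        (RelAPI.reidx eJ x) = eI.toEmbedding.trans (ι.trans x) := by
      ext k
      simp [RelAPI.reidx]
    rw [h2]
    refine and_congr Iff.rfl ⟨fun h => by rw [h], fun h => ?_⟩
    ext k
    have := DFunLike.congr_fun h (eI.symm k)
    simpa using this
  rw [key u, key v]
  exact RelAPI.count Q hJ _ _ h

/-- extension property: a tuple of the same colour as a restriction extends -/
theorem rel_extend {I J : Type} [Fintype I] [Fintype J] (hJ : Fintype.card J ≤ m) (ι : I ↪ J)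
    (z : J ↪ V) {u : I ↪ V} (h : Q.rel u (ι.trans z)) :
    ∃ x : J ↪ V, Q.rel x z ∧ ι.trans x = u := by
  have h1 := rel_count Q hJ ι z h
  have h2 : 0 < Nat.card {x : J ↪ V // Q.rel x z ∧ ι.trans x = ι.trans z} := by
    haveI : Nonempty {x : J ↪ V // Q.rel x z ∧ ι.trans x = ι.trans z} :=
      ⟨⟨z, rel_refl Q z, rfl⟩⟩
    exact Nat.card_pos
  rw [← h1] at h2
  obtain ⟨⟨x, hx⟩⟩ := (Nat.card_pos_iff.1 h2).1
  exact ⟨x, hx⟩

theorem rel_antisymm {I : Type} [Fintype I] (hI : Fintype.card I ≤ m) (hQ : Q.Antisymmetric)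
    (σ : Equiv.Perm I) (x : I ↪ V) (h : Q.rel (σ.toEmbedding.trans x) x) : σ = 1 := by
  have e := (Fintype.equivFin I).symm
  rw [rel_iff Q hI e] at h
  by_contra hne
  have h1 : (e.trans (σ.trans e.symm)) ≠ 1 := by
    intro h1
    apply hne
    ext k
    have := congrArg (fun τ : Equiv.Perm (Fin (Fintype.card I)) => e (τ (e.symm k))) h1
    simpa using this
  apply hQ _ hI _ h1 (e.toEmbedding.trans x)
  have h2 : (e.trans (σ.trans e.symm)).toEmbedding.trans (e.toEmbedding.trans x) =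
      e.toEmbedding.trans (σ.toEmbedding.trans x) := by
    ext k
    simp
  rw [h2]
  exact h

/-- `size` in terms of restrictions -/
theorem rel_size {s t : ℕ} (ht : t ≤ m) (ι : Fin s ↪ Fin t) (z : Fin t ↪ V) :
    Q.size z = Q.size (ι.trans z) *
      Nat.card {x : Fin t ↪ V // (Q.P t).r x z ∧ ι.trans x = ι.trans z} := by
  classical
  unfold MScheme.size
  let E : {y : Fin t ↪ V // (Q.P t).r y z} ≃
      Σ u : {u : Fin s ↪ V // (Q.P s).r u (ι.trans z)},
        {x : Fin t ↪ V // (Q.P t).r x z ∧ ι.trans x = u.1} :=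
    { toFun := fun y => ⟨⟨ι.trans y.1, RelAPI.emb Q ht ι y.2⟩, ⟨y.1, y.2, rfl⟩⟩
      invFun := fun p => ⟨p.2.1, p.2.2.1⟩
      left_inv := fun y => rfl
      right_inv := fun p => by
        obtain ⟨⟨x', hx'⟩, ⟨x, hx, hxx⟩⟩ := p
        dsimp only at hxx
        subst hxx
        rfl }
  haveI : Fintype {u : Fin s ↪ V // (Q.P s).r u (ι.trans z)} := Fintype.ofFinite _
  rw [Nat.card_congr E, Nat.card_sigma]
  rw [Finset.sum_congr rfl (fun u _ => RelAPI.count Q ht ι z u.2)]
  rw [Finset.sum_const, Finset.card_univ, smul_eq_mul, Nat.card_eq_fintype_card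
    (α := {u : Fin s ↪ V // (Q.P s).r u (ι.trans z)})]

theorem size_ext {j : ℕ} (hj : j < m) (x : Fin j ↪ V) (v : V) (hv : v ∉ Set.range x) :
    Q.size (ext x v hv) = Q.size x * (Q.cls x v).ncard := by
  have h0 : ∀ (w : V) (hw : w ∉ Set.range x), Fin.castSuccEmb.trans (ext x w hw) = x := by
    intro w hw
    ext k
    simp [ext]
  rw [rel_size Q hj Fin.castSuccEmb (ext x v hv), h0 v hv]
  congr 1
  rw [← Nat.card_coe_set_eq]
  refine Nat.card_congr
    { toFun := fun y => ⟨y.1 (Fin.last j), ?_⟩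
      invFun := fun w => ⟨ext x w.1 w.2.1, w.2.2.2, h0 w.1 w.2.1⟩
      left_inv := ?_
      right_inv := ?_ }
  · have hw : y.1 (Fin.last j) ∉ Set.range x := by
      rintro ⟨k, hk⟩
      have h1 := DFunLike.congr_fun y.2.2 k
      rw [← h1] at hk
      simp only [Embedding.trans_apply, Fin.castSuccEmb_apply] at hk
      have := y.1.injective hk
      exact absurd this (Fin.castSucc_lt_last k).ne
    refine ⟨hw, hv, ?_⟩
    have h2 : ext x (y.1 (Fin.last j)) hw = y.1 := by
      ext k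
      refine Fin.lastCases ?_ (fun k => ?_) k
      · simp [ext]
      · have h1 := DFunLike.congr_fun y.2.2 k
        simp only [Embedding.trans_apply, Fin.castSuccEmb_apply] at h1
        simp [ext, h1]
    rw [h2]
    exact y.2.1
  · intro y
    refine Subtype.ext ?_
    ext k
    refine Fin.lastCases ?_ (fun k => ?_) k
    · simp [ext]
    · have h1 := DFunLike.congr_fun y.2.2 k
      simp only [Embedding.trans_apply, Fin.castSuccEmb_apply] at h1
      simp [ext, h1]
  · intro w
    refine Subtype.ext ?_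
    simp [ext]

end I1

end MSch
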