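import Pool.Agent.Lib.MP_369ee2_lc.IDefs
import Pool.Agent.Lib.MP_369ee2_lc.RelAPI

/-!
# SCHEME, module I2a: fibres of an antisymmetric scheme without matching are again such schemes
-/

namespace MSch

open Function

namespace FibreBad

variable {V : Type} [Fintype V] {m : ℕ}

/-- restriction along an embedding of index sets -/
theorem P_comp (Q : MScheme V m) {s t : ℕ} (ht : t ≤ m) (ι : Fin s ↪ Fin t) {x y : Fin t ↪ V}
    (h : (Q.P t).r x y) : (Q.P s).r (ι.trans x) (ι.trans y) := by
  have hst : s ≤ t := by simpa using Fintype.card_le_of_embedding ι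
  have h1 : Q.rel x y := (rel_iff Q (by simpa using ht) (Equiv.refl (Fin t)) x y).mpr h
  have h2 := rel_comp Q (by simpa using ht) ι h1
  exact (rel_iff Q (by simpa using hst.trans ht) (Equiv.refl (Fin s)) _ _).mp h2

section app

variable {j : ℕ} (x : Fin j ↪ V) {W : Set V} (hW : ∀ w ∈ W, w ∉ Set.range x)

/-- `x` followed by `w` -/
def app (s : ℕ) (w : Fin s ↪ W) : Fin (j + s) ↪ V :=
  ⟨Fin.append x (fun k => (w k : V)), Fin.append_injective_iff.mpr
    ⟨x.injective, fun _ _ h => w.injective (Subtype.ext h), fun a b h => hW _ (w b).2 ⟨a, h⟩⟩⟩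

variable {s : ℕ}

theorem app_left (w : Fin s ↪ W) (a : Fin j) : app x hW s w (Fin.castAdd s a) = x a := by
  change Fin.append x (fun k => (w k : V)) (Fin.castAdd s a) = x a
  exact Fin.append_left _ _ _

theorem app_right (w : Fin s ↪ W) (b : Fin s) : app x hW s w (Fin.natAdd j b) = w b := by
  change Fin.append x (fun k => (w k : V)) (Fin.natAdd j b) = w b
  exact Fin.append_right _ _ _

theorem app_inj {w w' : Fin s ↪ W} (h : app x hW s w = app x hW s w') : w = w' := by
  ext b
  have := DFunLike.congr_fun h (Fin.natAdd j b)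
  rwa [app_right, app_right] at this

theorem sA_left (i : Fin (s + 1)) (a : Fin j) :
    Fin.succAbove (Fin.natAdd j i : Fin (j + s + 1)) (Fin.castAdd s a) = Fin.castAdd (s + 1) a := by
  apply Fin.ext
  have h : (Fin.castAdd s a).castSucc < (Fin.natAdd j i : Fin (j + s + 1)) := by
    rw [Fin.lt_def]
    simp
    omega
  rw [Fin.succAbove_of_castSucc_lt _ _ h]
  rfl

theorem sA_right (i : Fin (s + 1)) (b : Fin s) :
    Fin.succAbove (Fin.natAdd j i : Fin (j + s + 1)) (Fin.natAdd j b) =
      Fin.natAdd j (Fin.succAbove i b) := by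
  apply Fin.ext
  by_cases h : b.castSucc < i
  · have h' : (Fin.natAdd j b).castSucc < (Fin.natAdd j i : Fin (j + s + 1)) := by
      rw [Fin.lt_def] at h ⊢
      simp at h ⊢
      omega
    rw [Fin.succAbove_of_castSucc_lt _ _ h', Fin.succAbove_of_castSucc_lt _ _ h]
    rfl
  · have h' : (Fin.natAdd j i : Fin (j + s + 1)) ≤ (Fin.natAdd j b).castSucc := by
      rw [not_lt] at h
      rw [Fin.le_def] at h ⊢
      simp at h ⊢
      omega
    rw [Fin.succAbove_of_le_castSucc _ _ h', Fin.succAbove_of_le_castSucc _ _ (not_lt.mp h)]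
    simp
    omega

theorem app_del (i : Fin (s + 1)) (w : Fin (s + 1) ↪ W) :
    del (Fin.natAdd j i : Fin (j + s + 1)) (app x hW (s + 1) w) = app x hW s (del i w) := by
  ext k
  refine Fin.addCases (fun a => ?_) (fun b => ?_) k
  · rw [app_left]
    change app x hW (s + 1) w
      (Fin.succAbove (Fin.natAdd j i : Fin (j + s + 1)) (Fin.castAdd s a)) = x a
    rw [sA_left, app_left]
  · rw [app_right]
    change app x hW (s + 1) w
      (Fin.succAbove (Fin.natAdd j i : Fin (j + s + 1)) (Fin.natAdd j b)) = _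
    rw [sA_right, app_right]
    rfl

/-- a permutation of the last coordinates -/
def pm (j : ℕ) {s : ℕ} (σ : Equiv.Perm (Fin s)) : Equiv.Perm (Fin (j + s)) :=
  finSumFinEquiv.symm.trans ((Equiv.sumCongr (Equiv.refl (Fin j)) σ).trans finSumFinEquiv)

theorem pm_left (σ : Equiv.Perm (Fin s)) (a : Fin j) :
    pm j σ (Fin.castAdd s a) = Fin.castAdd s a := by
  simp [pm]

theorem pm_right (σ : Equiv.Perm (Fin s)) (b : Fin s) :
    pm j σ (Fin.natAdd j b) = Fin.natAdd j (σ b) := by
  simp [pm]

theorem app_perm (σ : Equiv.Perm (Fin s)) (w : Fin s ↪ W) :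
    (pm j σ).toEmbedding.trans (app x hW s w) = app x hW s (σ.toEmbedding.trans w) := by
  ext k
  refine Fin.addCases (fun a => ?_) (fun b => ?_) k
  · rw [app_left]
    change app x hW s w (pm j σ (Fin.castAdd s a)) = x a
    rw [pm_left, app_left]
  · rw [app_right]
    change app x hW s w (pm j σ (Fin.natAdd j b)) = _
    rw [pm_right, app_right]
    rfl

theorem pm_ne_one {σ : Equiv.Perm (Fin s)} (h : σ ≠ 1) : pm j σ ≠ 1 := by
  intro h1
  apply h
  ext b
  have := congrArg (fun e : Equiv.Perm (Fin (j + s)) => e (Fin.natAdd j b)) h1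
  simp only [pm_right, Equiv.Perm.coe_one, id_eq] at this
  have h2 := congrArg Fin.val this
  simp at h2
  simpa using h2

end app

/-- the tuple of the first `j` coordinates and one further coordinate -/
def kp (j : ℕ) {s : ℕ} (k : Fin s) : Fin (j + 1) ↪ Fin (j + s) :=
  ⟨Fin.snoc (α := fun _ => Fin (j + s)) (Fin.castAdd s) (Fin.natAdd j k), by
    intro a b
    refine Fin.lastCases ?_ (fun a => ?_) a <;> refine Fin.lastCases ?_ (fun b => ?_) b
    · intro _; rfl
    · simp only [Fin.snoc_last, Fin.snoc_castSucc]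
      intro h
      have := congrArg Fin.val h
      simp at this
      omega
    · simp only [Fin.snoc_last, Fin.snoc_castSucc]
      intro h
      have := congrArg Fin.val h
      simp at this
      omega
    · simp only [Fin.snoc_castSucc]
      intro h
      have := congrArg Fin.val h
      simp at this
      exact congrArg _ (Fin.ext this)⟩

theorem kp_last (j : ℕ) {s : ℕ} (k : Fin s) : kp j k (Fin.last j) = Fin.natAdd j k := by
  change Fin.snoc (α := fun _ => Fin (j + s)) (Fin.castAdd s) (Fin.natAdd j k) (Fin.last j) = _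
  exact Fin.snoc_last _ _

theorem kp_castSucc (j : ℕ) {s : ℕ} (k : Fin s) (a : Fin j) :
    kp j k a.castSucc = Fin.castAdd s a := by
  change Fin.snoc (α := fun _ => Fin (j + s)) (Fin.castAdd s) (Fin.natAdd j k) a.castSucc = _
  exact Fin.snoc_castSucc _ _ _

theorem ext_last {j : ℕ} (x : Fin j ↪ V) (v : V) (hv : v ∉ Set.range x) :
    ext x v hv (Fin.last j) = v := by
  change Fin.snoc (α := fun _ => V) x v (Fin.last j) = _
  exact Fin.snoc_last _ _

theorem ext_castSucc {j : ℕ} (x : Fin j ↪ V) (v : V) (hv : v ∉ Set.range x) (a : Fin j) :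
    ext x v hv a.castSucc = x a := by
  change Fin.snoc (α := fun _ => V) x v a.castSucc = _
  exact Fin.snoc_castSucc _ _ _

theorem kp_trans {j s : ℕ} (k : Fin s) (x : Fin j ↪ V) (y : Fin (j + s) ↪ V)
    (h : ∀ a, y (Fin.castAdd s a) = x a) (hv : y (Fin.natAdd j k) ∉ Set.range x) :
    (kp j k).trans y = ext x (y (Fin.natAdd j k)) hv := by
  ext b
  refine Fin.lastCases ?_ (fun b => ?_) b
  · rw [ext_last]
    change y (kp j k (Fin.last j)) = _
    rw [kp_last]
  · rw [ext_castSucc, ← h]
    change y (kp j k b.castSucc) = _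
    rw [kp_castSucc]

variable (Q : MScheme V m) {j : ℕ} (x : Fin j ↪ V) (v : V)

theorem cls_nr {w : V} (h : w ∈ Q.cls x v) : w ∉ Set.range x := h.1

/-- `x` followed by a tuple of the fibre -/
def ap (s : ℕ) (w : Fin s ↪ ↥(Q.cls x v)) : Fin (j + s) ↪ V :=
  app x (fun _ h => cls_nr Q x v h) s w

theorem ap_left {s : ℕ} (w : Fin s ↪ ↥(Q.cls x v)) (a : Fin j) :
    ap Q x v s w (Fin.castAdd s a) = x a := app_left _ _ _ _

theorem ap_right {s : ℕ} (w : Fin s ↪ ↥(Q.cls x v)) (b : Fin s) :
    ap Q x v s w (Fin.natAdd j b) = w b := app_right _ _ _ _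

theorem ap_inj {s : ℕ} {w w' : Fin s ↪ ↥(Q.cls x v)} (h : ap Q x v s w = ap Q x v s w') :
    w = w' := app_inj _ _ h

theorem ap_del {s : ℕ} (i : Fin (s + 1)) (w : Fin (s + 1) ↪ ↥(Q.cls x v)) :
    del (Fin.natAdd j i : Fin (j + s + 1)) (ap Q x v (s + 1) w) = ap Q x v s (del i w) :=
  app_del _ _ _ _

theorem ap_perm {s : ℕ} (σ : Equiv.Perm (Fin s)) (w : Fin s ↪ ↥(Q.cls x v)) :
    (pm j σ).toEmbedding.trans (ap Q x v s w) = ap Q x v s (σ.toEmbedding.trans w) :=
  app_perm _ _ _ _

/-- tuples related to tuples of the fibre come from the fibre -/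
theorem exists_app {s : ℕ} (hs : j + s ≤ m) (z : Fin s ↪ ↥(Q.cls x v)) (y : Fin (j + s) ↪ V)
    (hy : (Q.P (j + s)).r y (ap Q x v s z))
    (hx : ∀ a, y (Fin.castAdd s a) = x a) :
    ∃ w : Fin s ↪ ↥(Q.cls x v), ap Q x v s w = y := by
  have hmem : ∀ k, y (Fin.natAdd j k) ∈ Q.cls x v := by
    intro k
    have hnr : y (Fin.natAdd j k) ∉ Set.range x := by
      rintro ⟨a, ha⟩
      rw [← hx a] at ha
      have := congrArg Fin.val (y.injective ha)
      simp at this
      omega
    obtain ⟨hw, hv, h⟩ := (z k).2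
    refine ⟨hnr, hv, ?_⟩
    have h1 := P_comp Q hs (kp j k) hy
    rw [kp_trans k x y hx hnr, kp_trans k x _ (fun a => ap_left Q x v z a)
      (by rw [ap_right]; exact hw)] at h1
    refine (Q.P (j + 1)).trans' h1 ?_
    convert h using 2
    exact ap_right Q x v z k
  refine ⟨⟨fun k => ⟨y (Fin.natAdd j k), hmem k⟩, fun a b h => ?_⟩, ?_⟩
  · have h1 := y.injective (congrArg Subtype.val h)
    have h2 := congrArg Fin.val h1
    simp at h2
    exact Fin.ext h2
  · ext k
    refine Fin.addCases (fun a => ?_) (fun b => ?_) k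
    · rw [ap_left, hx]
    · rw [ap_right]; rfl

theorem fibre_count {s : ℕ} (hs : j + (s + 1) ≤ m) (i : Fin (s + 1))
    (z : Fin (s + 1) ↪ ↥(Q.cls x v)) (u : Fin s ↪ ↥(Q.cls x v)) :
    Nat.card {w : Fin (s + 1) ↪ ↥(Q.cls x v) // (Q.P (j + (s + 1))).r
        (ap Q x v (s + 1) w) (ap Q x v (s + 1) z) ∧ del i w = u} =
      Nat.card {y : Fin (j + s + 1) ↪ V // (Q.P (j + s + 1)).r y (ap Q x v (s + 1) z) ∧
        del (Fin.natAdd j i : Fin (j + s + 1)) y = ap Q x v s u} := by
  refine Nat.card_congr (Equiv.ofBijective (fun w => ⟨ap Q x v (s + 1) w.1,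
    w.2.1, by rw [ap_del, w.2.2]⟩) ⟨?_, ?_⟩)
  · intro w w' h
    exact Subtype.ext (ap_inj Q x v (congrArg Subtype.val h))
  · rintro ⟨y, hy, hd⟩
    have hx : ∀ a, y (Fin.castAdd (s + 1) a) = x a := by
      intro a
      have := DFunLike.congr_fun hd (Fin.castAdd s a)
      rw [ap_left] at this
      rw [← this]
      change _ = y (Fin.succAbove (Fin.natAdd j i : Fin (j + s + 1)) (Fin.castAdd s a))
      rw [sA_left]
    obtain ⟨w, hw⟩ := exists_app Q x v hs z y hy hx
    refine ⟨⟨w, ?_, ?_⟩, Subtype.ext hw⟩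
    · rw [hw]; exact hy
    · apply ap_inj Q x v
      rw [← ap_del, hw, hd]

/-- the scheme on a fibre -/
def sch (hj : j ≤ m) [Fintype ↥(Q.cls x v)] : MScheme ↥(Q.cls x v) (m - j) where
  P s := (Q.P (j + s)).comap (ap Q x v s)
  compat := by
    intro s hs i a b h
    have h1 : (Q.P (j + s)).r (del (Fin.natAdd j i) (ap Q x v (s + 1) a))
      (del (Fin.natAdd j i) (ap Q x v (s + 1) b)) :=
      Q.compat (j + s) (by omega) (Fin.natAdd j i) _ _ h
    rw [ap_del, ap_del] at h1
    exact h1
  regular := by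
    intro s hs i z u u' h
    have h1 := Q.regular (j + s) (by omega) (Fin.natAdd j i) (ap Q x v (s + 1) z) _ _ h
    have e1 := fibre_count Q x v (by omega) i z u
    have e2 := fibre_count Q x v (by omega) i z u'
    exact e1.trans (h1.trans e2.symm)
  inv := by
    intro s hs σ a b h
    have h1 := Q.inv (j + s) (by omega) (pm j σ) _ _ h
    rw [ap_perm, ap_perm] at h1
    exact h1

end FibreBad

open FibreBad

theorem fibre_bad {V : Type} [Fintype V] {m : ℕ} (Q : MScheme V m) (hA : Q.Antisymmetric)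
    (hM : ¬ Q.HasMatching) {j : ℕ} (hj : j < m) (x : Fin j ↪ V) (v : V) (hv : v ∉ Set.range x)
    (h2 : 2 ≤ (Q.cls x v).ncard) : Bad (m - j) (Q.cls x v).ncard := by
  have _ : Fintype ↥(Q.cls x v) := Fintype.ofFinite _
  refine ⟨h2, ↥(Q.cls x v), inferInstance, sch Q x v hj.le, ?_, ?_, ?_, ?_⟩
  · rw [← Nat.card_eq_fintype_card]
    exact Nat.card_coe_set_eq _
  · intro a b
    have key : ∀ a : Fin 1 ↪ ↥(Q.cls x v), (Q.P (j + 1)).r (ap Q x v 1 a) (ext x v hv) := by
      intro a
      obtain ⟨hw, hv', h⟩ := (a 0).2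
      have e : ap Q x v 1 a = ext x (a 0) hw := by
        apply DFunLike.ext
        intro k
        refine Fin.lastCases ?_ (fun k => ?_) k
        · exact (ap_right Q x v a 0).trans (ext_last x _ hw).symm
        · exact (ap_left Q x v a k).trans (ext_castSucc x _ hw k).symm
      rw [e]
      exact h
    exact (Q.P (j + 1)).trans' (key a) ((Q.P (j + 1)).symm' (key b))
  · intro s hs σ hσ w h
    have h1 : (Q.P (j + s)).r (ap Q x v s (σ.toEmbedding.trans w)) (ap Q x v s w) := h
    rw [← ap_perm] at h1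
    exact hA (j + s) (by omega) (pm j σ) (pm_ne_one hσ) _ h1
  · rintro ⟨s, hs1, hs2, z, i, i', hlt, hrel, hcard⟩
    apply hM
    refine ⟨j + s, by omega, by omega, ap Q x v (s + 1) z, Fin.natAdd j i,
      Fin.natAdd j i', ?_, ?_, ?_⟩
    · rw [Fin.lt_def] at hlt ⊢
      simp
      exact hlt
    · rw [ap_del, ap_del]
      exact hrel
    · have e1 := rel_size Q (by omega : j + s + 1 ≤ m)
        (Fin.succAboveEmb (Fin.natAdd j i : Fin (j + s + 1))) (ap Q x v (s + 1) z)
      have e2 := rel_size (sch Q x v hj.le) hs2 (Fin.succAboveEmb i) z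
      have e3 := fibre_count Q x v (by omega) i z (del i z)
      have e4 : (sch Q x v hj.le).size ((Fin.succAboveEmb i).trans z) = (sch Q x v hj.le).size z := hcard
      have hpos : 0 < (sch Q x v hj.le).size ((Fin.succAboveEmb i).trans z) := by
        unfold MScheme.size
        have _ : Nonempty {y : Fin s ↪ ↥(Q.cls x v) // ((sch Q x v hj.le).P s).r y
          ((Fin.succAboveEmb i).trans z)} := ⟨⟨_, ((sch Q x v hj.le).P s).refl' _⟩⟩
        exact Nat.card_pos
      rw [← e4] at e2
      have e5 : Nat.card {w : Fin (s + 1) ↪ ↥(Q.cls x v) // ((sch Q x v hj.le).P (s + 1)).r w z ∧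
          (Fin.succAboveEmb i).trans w = (Fin.succAboveEmb i).trans z} = 1 := by
        have : (sch Q x v hj.le).size ((Fin.succAboveEmb i).trans z) * 1 =
          (sch Q x v hj.le).size ((Fin.succAboveEmb i).trans z) * _ := (mul_one _).trans e2
        exact (Nat.eq_of_mul_eq_mul_left hpos this).symm
      rw [← ap_del] at e3
      have e6 : Nat.card {y : Fin (j + s + 1) ↪ V // (Q.P (j + s + 1)).r y
          (ap Q x v (s + 1) z) ∧
          (Fin.succAboveEmb (Fin.natAdd j i : Fin (j + s + 1))).trans y =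
            (Fin.succAboveEmb (Fin.natAdd j i : Fin (j + s + 1))).trans
            (ap Q x v (s + 1) z)} = 1 := e3.symm.trans e5
      have e7 := e1.trans (congrArg _ e6)
      rw [mul_one] at e7
      exact e7.symm

end MSch
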