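import Pool.Agent.Lib.MP_369ee2_lc.Defs

/-!
# Definitions for the finite part (schemes to approximate type systems)
-/

namespace MSch

open Function Filter
open scoped Topology BigOperators

/-- append the point `v` to the tuple `x` -/
def ext {V : Type} {j : ℕ} (x : Fin j ↪ V) (v : V) (hv : v ∉ Set.range x) : Fin (j + 1) ↪ V :=
  ⟨Fin.snoc (α := fun _ => V) x v, by
    intro a b
    refine Fin.lastCases ?_ (fun a => ?_) a <;> refine Fin.lastCases ?_ (fun b => ?_) b
    · intro _; rfl
    · simp only [Fin.snoc_last, Fin.snoc_castSucc]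
      intro h; exact absurd ⟨b, h.symm⟩ hv
    · simp only [Fin.snoc_last, Fin.snoc_castSucc]
      intro h; exact absurd ⟨a, h⟩ hv
    · simp only [Fin.snoc_castSucc]
      intro h; exact congrArg _ (x.injective h)⟩

namespace MScheme

variable {V : Type} [Fintype V] {m : ℕ}

/-- the colour equality for tuples indexed by an arbitrary finite type -/
def rel (Q : MScheme V m) {I : Type} [Fintype I] (x y : I ↪ V) : Prop :=
  ∃ e : Fin (Fintype.card I) ≃ I, (Q.P _).r (e.toEmbedding.trans x) (e.toEmbedding.trans y)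

/-- the fibre of `v` over the tuple `x` -/
def cls (Q : MScheme V m) {j : ℕ} (x : Fin j ↪ V) (v : V) : Set V :=
  {w | ∃ (hw : w ∉ Set.range x) (hv : v ∉ Set.range x),
    (Q.P (j + 1)).r (ext x w hw) (ext x v hv)}

/-- the size of the colour of `x` -/
noncomputable def size (Q : MScheme V m) {s : ℕ} (x : Fin s ↪ V) : ℕ :=
  Nat.card {y : Fin s ↪ V // (Q.P s).r y x}

/-- all non-singleton fibres at depth `j < m` have size at least `n B^{-j}` -/
def Rich (Q : MScheme V m) (B : ℝ) : Prop :=
  ∀ j, j < m → ∀ (x : Fin j ↪ V) (v : V), v ∉ Set.range x →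
    (Q.cls x v).ncard = 1 ∨ (Fintype.card V : ℝ) ≤ B ^ j * (Q.cls x v).ncard

end MScheme

/-- there is a counterexample with `m` levels on `n` points -/
def Bad (m n : ℕ) : Prop :=
  2 ≤ n ∧ ∃ (V : Type) (_ : Fintype V) (Q : MScheme V m), Fintype.card V = n ∧
    Q.Homogeneous ∧ Q.Antisymmetric ∧ ¬ Q.HasMatching

/-- for a minimal counterexample -/
structure Good (B : ℝ) (V : Type) [Fintype V] (m : ℕ) where
  Q : MScheme V m
  hom : Q.Homogeneous
  anti : Q.Antisymmetric
  nomat : ¬ Q.HasMatching
  rich : Q.Rich B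
  minimal : ∀ n, Bad m n → Fintype.card V ≤ n
  big : m < Fintype.card V

/-- the number of `t`-tuples (functions) which are not injective or of a small colour -/
noncomputable def badTuples {V : Type} [Fintype V] {m : ℕ} (Q : MScheme V m) (t : ℕ) : ℕ :=
  Nat.card {x : Fin t → V // ∀ h : Injective x,
    ¬ ((Fintype.card V) ^ t < Fintype.card V * Q.size ⟨x, h⟩)}

/-- primitivity of a scheme: the only nonempty symmetric union of 2-colours which is transitive
on all big triples is everything -/
def SchemePrimitive {V : Type} [Fintype V] {m : ℕ} (Q : MScheme V m) : Prop :=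
  ∀ E : (Fin 2 ↪ V) → Prop, (∀ a b, (Q.P 2).r a b → E a → E b) → (∃ a, E a) →
    (∀ a, E a → E ((pr 1 0 (by decide)).trans a)) →
    (∀ z : Fin 3 ↪ V, Fintype.card V ^ 3 < Fintype.card V * Q.size z →
      E ((pr 0 1 (by decide)).trans z) → E ((pr 1 2 (by decide)).trans z) →
      E ((pr 0 2 (by decide)).trans z)) → ∀ a, E a

/-- the theorem for one `ε` -/
def Goal (ε : ℝ) : Prop :=
  ∃ C : ℝ, ∀ (V : Type) [Fintype V] (m : ℕ) (Q : MScheme V m),
    2 ≤ Fintype.card V → Q.Homogeneous → Q.Antisymmetric →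
    ε * Real.log (Fintype.card V) + C ≤ m → Q.HasMatching

end MSch
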