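import Mathlib
import Pool.Agent.Lib.MP_369ee2_lc.Defs
import Pool.Agent.Lib.MP_369ee2_lc.IDefs
import Pool.Agent.Lib.MP_369ee2_lc.RelAPI
import Pool.Agent.Lib.MP_369ee2_lc.BlockBad
import Pool.Agent.Lib.MP_369ee2_lc.FibreBad

/-!
# Module I2c: records and minimal counterexamples
-/

set_option autoImplicit false

namespace MSch

open Function Filter
open scoped Topology BigOperators

theorem records (f : ℕ → ℕ) (hf : ∀ m, 0 < f m) (B₁ : ℝ) (hB : 1 ≤ B₁)
    (h : ∀ M, ∃ m, M ≤ m ∧ (f m : ℝ) ≤ B₁ ^ m) (M : ℕ) :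
    ∃ m, M ≤ m ∧ ∀ j, 1 ≤ j → j ≤ m → (f m : ℝ) < (2 * B₁) ^ j * f (m - j) := by
  classical
  have hB0 : 0 < 2 * B₁ := by linarith
  set g : ℕ → ℝ := fun m => (f m : ℝ) / (2 * B₁) ^ m with hg
  have hgpos : ∀ m, 0 < g m := fun m => by
    have := hf m
    have h1 : (0 : ℝ) < f m := by exact_mod_cast this
    positivity
  have hev : ∀ᶠ k : ℕ in atTop, ∀ m' ∈ Finset.range M, ((1 : ℝ) / 2) ^ k < g m' := by
    rw [Finset.eventually_all]
    intro m' _
    exact (tendsto_pow_atTop_nhds_zero_of_lt_one (by norm_num) (by norm_num)).eventually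
      (gt_mem_nhds (hgpos m'))
  obtain ⟨N, hN⟩ := eventually_atTop.mp hev
  obtain ⟨m₁, hm₁, hfm⟩ := h (max M N)
  have hgm₁ : g m₁ ≤ (1 / 2) ^ m₁ := by
    have h1 : 0 < (2 * B₁) ^ m₁ := by positivity
    have h2 : 0 < B₁ ^ m₁ := by positivity
    simp only [hg]
    rw [div_le_iff₀ h1, mul_pow, one_div, inv_pow, ← mul_assoc, inv_mul_cancel₀ (by positivity),
      one_mul]
    exact hfm
  have hex : ∃ m, m ≤ m₁ ∧ ∀ m' ≤ m₁, g m ≤ g m' := by
    obtain ⟨m, hm, hmin⟩ := Finset.exists_min_image (Finset.range (m₁ + 1)) g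
      ⟨0, Finset.mem_range.mpr (Nat.succ_pos _)⟩
    exact ⟨m, Nat.lt_succ_iff.mp (Finset.mem_range.mp hm), fun m' hm' =>
      hmin m' (Finset.mem_range.mpr (Nat.lt_succ_of_le hm'))⟩
  obtain ⟨hle, hmin⟩ := Nat.find_spec hex
  set m := Nat.find hex with hmdef
  have hstrict : ∀ m' < m, g m < g m' := by
    intro m' hm'
    have h1 := Nat.find_min hex hm'
    push Not at h1
    obtain ⟨m'', h2, h3⟩ := h1 (hm'.le.trans hle)
    exact lt_of_le_of_lt (hmin m'' h2) h3
  refine ⟨m, ?_, fun j hj hjm => ?_⟩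
  · by_contra hcon
    push Not at hcon
    have h1 := hN m₁ ((le_max_right _ _).trans hm₁) m (Finset.mem_range.mpr hcon)
    have h2 := hmin m₁ le_rfl
    linarith
  · have h1 := hstrict (m - j) (by omega)
    simp only [hg] at h1
    have h2 : 0 < (2 * B₁) ^ m := by positivity
    have h3 : 0 < (2 * B₁) ^ (m - j) := by positivity
    rw [div_lt_div_iff₀ h2 h3] at h1
    have h4 : (2 * B₁) ^ m = (2 * B₁) ^ j * (2 * B₁) ^ (m - j) := by
      rw [← pow_add]; congr 1; omega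
    rw [h4] at h1
    have h5 : (f m : ℝ) * (2 * B₁) ^ (m - j) < ((2 * B₁) ^ j * f (m - j)) * (2 * B₁) ^ (m - j) := by
      calc (f m : ℝ) * (2 * B₁) ^ (m - j) < f (m - j) * ((2 * B₁) ^ j * (2 * B₁) ^ (m - j)) := h1
        _ = _ := by ring
    exact lt_of_mul_lt_mul_right h5 h3.le

namespace GoodAux

variable {V : Type} [Fintype V] {m : ℕ}

theorem mem_cls (Q : MScheme V m) {j : ℕ} (x : Fin j ↪ V) (v : V) (hv : v ∉ Set.range x) :
    v ∈ Q.cls x v := ⟨hv, hv, (Q.P (j + 1)).refl _⟩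

theorem size_eq_of_hom (Q : MScheme V m) (hH : Q.Homogeneous) (x y : Fin 1 ↪ V) :
    Q.size x = Q.size y := by
  unfold MScheme.size
  exact Nat.card_congr (Equiv.subtypeEquivRight fun u =>
    ⟨fun _ => hH u y, fun _ => hH u x⟩)

/-- fibres over points have at least two elements -/
theorem two_le (Q : MScheme V m) (hm : 2 ≤ m) (hH : Q.Homogeneous) (hM : ¬ Q.HasMatching)
    (x : Fin 1 ↪ V) (v : V) (hv : v ∉ Set.range x) : 2 ≤ (Q.cls x v).ncard := by
  have h0 : (Q.cls x v).ncard ≠ 0 := Set.ncard_ne_zero_of_mem (mem_cls Q x v hv)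
  by_contra hcon
  have h1 : (Q.cls x v).ncard = 1 := by omega
  apply hM
  refine ⟨1, le_rfl, hm, ext x v hv, 0, 1, by decide, hH _ _, ?_⟩
  have h2 := size_ext Q (by omega : 1 < m) x v hv
  rw [h1, mul_one] at h2
  have h3 := size_eq_of_hom Q hH x (del 0 (ext x v hv))
  change Q.size (del 0 (ext x v hv)) = Q.size (ext x v hv)
  rw [h2, h3]

theorem bad_mono {m m' n : ℕ} (h : m ≤ m') (hb : Bad m' n) : Bad m n := by
  induction m', h using Nat.le_induction with
  | base => exact hb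
  | succ k _ ih => exact ih (bad_of_bad_succ hb)

end GoodAux

open GoodAux

theorem exists_good (ε : ℝ) (hε : 0 < ε)
    (h : ¬ ∃ C : ℝ, ∀ (V : Type) [Fintype V] (m : ℕ) (Q : MScheme V m),
      2 ≤ Fintype.card V → Q.Homogeneous → Q.Antisymmetric →
      ε * Real.log (Fintype.card V) + C ≤ m → Q.HasMatching) :
    ∃ B : ℝ, 1 ≤ B ∧ ∀ M : ℕ, ∃ (V : Type) (_ : Fintype V) (m : ℕ), M ≤ m ∧
      Nonempty (Good B V m) := by
  classical
  set B₁ : ℝ := Real.exp (1 / ε) with hB₁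
  have hB1 : 1 ≤ B₁ := by
    rw [hB₁]; exact Real.one_le_exp (by positivity)
  have step1 : ∀ M : ℕ, ∃ m n, M ≤ m ∧ Bad m n ∧ (n : ℝ) ≤ B₁ ^ m := by
    intro M
    by_contra hcon
    apply h
    refine ⟨M, fun V _ m Q h2 hH hA hle => ?_⟩
    by_contra hM
    apply hcon
    have hcard : (2 : ℝ) ≤ Fintype.card V := by exact_mod_cast h2
    have hlog : 0 ≤ Real.log (Fintype.card V) := Real.log_nonneg (by linarith)
    have hMm : M ≤ m := by
      have : (M : ℝ) ≤ m := by nlinarith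
      exact_mod_cast this
    refine ⟨m, Fintype.card V, hMm, ⟨h2, V, inferInstance, Q, rfl, hH, hA, hM⟩, ?_⟩
    rw [hB₁, ← Real.exp_nat_mul, ← Real.log_le_iff_le_exp (by linarith)]
    have hM0 : (0 : ℝ) ≤ M := Nat.cast_nonneg M
    have h3 : ε * Real.log (Fintype.card V) ≤ m := by linarith
    rw [mul_one_div, le_div_iff₀ hε]
    linarith
  have hne : ∀ m, ∃ n, Bad m n := by
    intro m
    obtain ⟨m', n, hmm, hb, -⟩ := step1 m
    exact ⟨n, bad_mono hmm hb⟩
  set f : ℕ → ℕ := fun m => Nat.find (hne m) with hf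
  have hfb : ∀ m, Bad m (f m) := fun m => Nat.find_spec (hne m)
  have hfmin : ∀ m n, Bad m n → f m ≤ n := fun m n hb => Nat.find_min' (hne m) hb
  have hf2 : ∀ m, 2 ≤ f m := fun m => (hfb m).1
  have hinf : ∀ M, ∃ m, M ≤ m ∧ (f m : ℝ) ≤ B₁ ^ m := by
    intro M
    obtain ⟨m, n, hMm, hb, hn⟩ := step1 M
    refine ⟨m, hMm, le_trans ?_ hn⟩
    exact_mod_cast hfmin m n hb
  have hstep : ∀ m, 2 ≤ m → f (m - 1) + 1 ≤ f m := by
    intro m hm
    obtain ⟨h2, V, fV, Q, hcard, hH, hA, hM⟩ := hfb m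
    have hc : 1 < Fintype.card V := by omega
    obtain ⟨a, b, hab⟩ := Fintype.one_lt_card_iff.mp hc
    let x : Fin 1 ↪ V := ⟨fun _ => a, fun i j _ => Subsingleton.elim i j⟩
    have hv : b ∉ Set.range x := by
      rintro ⟨i, hi⟩
      exact hab hi
    have h3 := two_le Q hm hH hM x b hv
    have h4 := fibre_bad Q hA hM (by omega : 1 < m) x b hv h3
    have h5 := hfmin _ _ h4
    have h6 : (Q.cls x b).ncard < Nat.card V := by
      apply Set.ncard_lt_card
      intro hu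
      have : a ∈ Q.cls x b := by rw [hu]; exact Set.mem_univ a
      obtain ⟨hw, -⟩ := this
      exact hw ⟨0, rfl⟩
    rw [Nat.card_eq_fintype_card] at h6
    omega
  have hbig : ∀ m, 1 ≤ m → m < f m := by
    intro m hm
    induction m, hm using Nat.le_induction with
    | base => have := hf2 1; omega
    | succ k hk ih =>
      have := hstep (k + 1) (by omega)
      simp only [Nat.add_sub_cancel] at this
      omega
  refine ⟨2 * B₁, by linarith, fun M => ?_⟩
  obtain ⟨m, hMm, hrec⟩ := records f (fun m => by have := hf2 m; omega) B₁ hB1 hinf (M + 2)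
  obtain ⟨h2, V, fV, Q, hcard, hH, hA, hM⟩ := hfb m
  refine ⟨V, fV, m, by omega, ⟨⟨Q, hH, hA, hM, ?_, ?_, ?_⟩⟩⟩
  · intro j hj x v hv
    have h0 : (Q.cls x v).ncard ≠ 0 := Set.ncard_ne_zero_of_mem (mem_cls Q x v hv)
    rcases Nat.eq_zero_or_pos j with hj0 | hj0
    · subst hj0
      right
      have hu : Q.cls x v = Set.univ := by
        ext w
        simp only [Set.mem_univ, iff_true]
        exact ⟨fun ⟨i, _⟩ => i.elim0, hv, hH _ _⟩
      rw [hu, Set.ncard_univ, Nat.card_eq_fintype_card]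
      simp
    · by_cases h1 : (Q.cls x v).ncard = 1
      · exact Or.inl h1
      · right
        have h3 := fibre_bad Q hA hM hj x v hv (by omega)
        have h4 := hfmin _ _ h3
        have h5 := hrec j hj0 hj.le
        rw [hcard]
        refine h5.le.trans ?_
        have : (f (m - j) : ℝ) ≤ (Q.cls x v).ncard := by exact_mod_cast h4
        gcongr
  · intro n hn
    rw [hcard]
    exact hfmin m n hn
  · rw [hcard]
    exact hbig m (by omega)

end MSch
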