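import Pool.Agent.Lib.MP_369ee2_lc.Singletons

/-!
# The approximate type system of a scheme (module I4c)
-/

namespace MSch

open Function
open scoped BigOperators

namespace PreT

variable {V : Type} [Fintype V] {m : ℕ} (Q : MScheme V m)

/-- the colour of a tuple -/
def col {s : ℕ} (x : Fin s ↪ V) : Quotient (Q.P s) := Quotient.mk (Q.P s) x

theorem col_eq {s : ℕ} {x y : Fin s ↪ V} : col Q x = col Q y ↔ (Q.P s).r x y :=
  Quotient.eq

/-- the size of a colour -/
noncomputable def qsize {s : ℕ} (c : Quotient (Q.P s)) : ℕ :=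
  Nat.card {y : Fin s ↪ V // col Q y = c}

theorem qsize_col {s : ℕ} (x : Fin s ↪ V) : qsize Q (col Q x) = Q.size x := by
  unfold qsize MScheme.size
  exact Nat.card_congr (Equiv.subtypeEquivRight (fun u => col_eq Q))

/-- big colours -/
def Big {s : ℕ} (c : Quotient (Q.P s)) : Prop :=
  Fintype.card V ^ s < Fintype.card V * qsize Q c

/-- the types: big colours at levels `≤ m` -/
structure Ty (s : ℕ) where
  /-- the colour -/
  c : Quotient (Q.P s)
  le : s ≤ m
  big : Big Q c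

theorem Ty.ext' {s : ℕ} {τ ρ : Ty Q s} (h : τ.c = ρ.c) : τ = ρ := by
  cases τ
  cases ρ
  simp only at h
  subst h
  rfl

instance (s : ℕ) : Finite (Ty Q s) :=
  Finite.of_injective (fun τ : Ty Q s => τ.c) (fun _ _ h => Ty.ext' Q h)

noncomputable instance (s : ℕ) : Fintype (Ty Q s) := Fintype.ofFinite _

theorem exists_rep {s : ℕ} (τ : Ty Q s) : ∃ x : Fin s ↪ V, col Q x = τ.c := by
  obtain ⟨x, hx⟩ := Quotient.exists_rep τ.c
  exact ⟨x, hx⟩

theorem card_fun (s : ℕ) : Nat.card (Fin s → V) = Fintype.card V ^ s := by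
  rw [Nat.card_eq_fintype_card, Fintype.card_fun, Fintype.card_fin]

/-- functions on `Fin N` with a prescribed restriction -/
theorem card_restrict {N : ℕ} {J : Type} [Fintype J] (j : J ↪ Fin N) (R : (J → V) → Prop) :
    Nat.card {x : Fin N → V // R (x ∘ j)} * Fintype.card V ^ Fintype.card J =
      Nat.card {u : J → V // R u} * Fintype.card V ^ N := by
  classical
  let K : Type := {i : Fin N // i ∉ Set.range j}
  let e : J ≃ {i : Fin N // i ∈ Set.range j} := Equiv.ofInjective j j.injective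
  let E : (Fin N → V) ≃ (J → V) × (K → V) :=
    (Equiv.piEquivPiSubtypeProd (fun i : Fin N => i ∈ Set.range j) (fun _ => V)).trans
      (Equiv.prodCongr (Equiv.arrowCongr e.symm (Equiv.refl V)) (Equiv.refl _))
  have hE : ∀ x : Fin N → V, (E x).1 = x ∘ j := by
    intro x
    funext k
    simp [E, e, Equiv.piEquivPiSubtypeProd]
  have h1 : Nat.card {x : Fin N → V // R (x ∘ j)} =
      Nat.card {u : J → V // R u} * Nat.card (K → V) := by
    rw [← Nat.card_prod]
    refine Nat.card_congr ?_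
    refine (Equiv.subtypeEquiv E (p := fun x => R (x ∘ j)) (q := fun p => R p.1) ?_).trans ?_
    · intro x
      rw [hE]
    · exact
        { toFun := fun p => (⟨p.1.1, p.2⟩, p.1.2)
          invFun := fun p => ⟨(p.1.1, p.2), p.1.2⟩
          left_inv := fun _ => rfl
          right_inv := fun _ => rfl }
  have h2 : Nat.card (Fin N → V) = Nat.card (J → V) * Nat.card (K → V) := by
    rw [← Nat.card_prod]
    exact Nat.card_congr E
  have h3 : Nat.card (J → V) = Fintype.card V ^ Fintype.card J := by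
    rw [Nat.card_eq_fintype_card, Fintype.card_fun]
  rw [h1, ← card_fun (V := V) N, h2, h3]
  ring

/-- restriction to functions, up to the bad tuples -/
theorem card_bounds {t : ℕ} (R : (Fin t → V) → Prop) :
    Nat.card {y : Fin t ↪ V // Big Q (col Q y) ∧ R y} ≤ Nat.card {x : Fin t → V // R x} ∧
    Nat.card {x : Fin t → V // R x} ≤
      Nat.card {y : Fin t ↪ V // Big Q (col Q y) ∧ R y} + badTuples Q t := by
  classical
  constructor
  · refine Nat.card_le_card_of_injective (fun y => ⟨(y.1 : Fin t → V), y.2.2⟩) ?_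
    intro a b hab
    have h := congrArg Subtype.val hab
    exact Subtype.ext (DFunLike.coe_injective h)
  · unfold badTuples
    rw [← Nat.card_sum]
    let f : {x : Fin t → V // R x} → {y : Fin t ↪ V // Big Q (col Q y) ∧ R y} ⊕
        {x : Fin t → V // ∀ h : Injective x,
          ¬ ((Fintype.card V) ^ t < Fintype.card V * Q.size ⟨x, h⟩)} := fun x =>
      if h : ∃ h : Injective x.1, (Fintype.card V) ^ t < Fintype.card V * Q.size ⟨x.1, h⟩ then
        Sum.inl ⟨⟨x.1, h.choose⟩, by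
          have h2 := h.choose_spec
          unfold Big
          rw [qsize_col]
          exact h2, x.2⟩
      else Sum.inr ⟨x.1, by
        intro h1 h2
        exact h ⟨h1, h2⟩⟩
    refine Nat.card_le_card_of_injective f ?_
    intro a b hab
    simp only [f] at hab
    split_ifs at hab with ha hb hb
    · have h := Sum.inl.inj hab
      have h' := congrArg (fun z : {y : Fin t ↪ V // Big Q (col Q y) ∧ R y} => (z.1 : Fin t → V)) h
      exact Subtype.ext h'
    · have h := Sum.inr.inj hab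
      have h' := congrArg Subtype.val h
      exact Subtype.ext h'

/-- sums over the types as counts of tuples -/
theorem sum_types {t : ℕ} (ht : t ≤ m) (P : Ty Q t → Prop) [DecidablePred P]
    (p : (Fin t ↪ V) → Prop) (hp : ∀ (υ : Ty Q t) (y : Fin t ↪ V), col Q y = υ.c → (P υ ↔ p y)) :
    ∑ υ : Ty Q t, (if P υ then qsize Q υ.c else 0) =
      Nat.card {y : Fin t ↪ V // Big Q (col Q y) ∧ p y} := by
  classical
  have h1 : ∀ υ : Ty Q t, (if P υ then qsize Q υ.c else 0) =
      ∑ y : Fin t ↪ V, (if col Q y = υ.c ∧ p y then 1 else 0) := by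
    intro υ
    rw [Finset.sum_boole]
    unfold qsize
    split_ifs with h
    · rw [Nat.card_eq_fintype_card, Fintype.card_subtype]
      simp only [Nat.cast_id]
      congr 1
      ext y
      simp only [Finset.mem_filter, Finset.mem_univ, true_and]
      exact ⟨fun hy => ⟨hy, (hp υ y hy).1 h⟩, fun hy => hy.1⟩
    · symm
      simp only [Nat.cast_id, Finset.card_eq_zero, Finset.filter_eq_empty_iff, Finset.mem_univ,
        forall_const]
      rintro y ⟨hy1, hy2⟩
      exact h ((hp υ y hy1).2 hy2)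
  rw [Finset.sum_congr rfl (fun υ _ => h1 υ), Finset.sum_comm]
  have h2 : ∀ y : Fin t ↪ V, ∑ υ : Ty Q t, (if col Q y = υ.c ∧ p y then 1 else 0) =
      if Big Q (col Q y) ∧ p y then 1 else 0 := by
    intro y
    split_ifs with h
    · rw [Finset.sum_eq_single (⟨col Q y, ht, h.1⟩ : Ty Q t)]
      · rw [if_pos ⟨rfl, h.2⟩]
      · intro b _ hb
        rw [if_neg]
        rintro ⟨h3, _⟩
        exact hb (Ty.ext' Q h3.symm)
      · intro h3
        exact absurd (Finset.mem_univ _) h3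
    · refine Finset.sum_eq_zero (fun υ _ => ?_)
      rw [if_neg]
      rintro ⟨h3, h4⟩
      exact h ⟨h3 ▸ υ.big, h4⟩
  rw [Finset.sum_congr rfl (fun y _ => h2 y), Finset.sum_boole, Nat.card_eq_fintype_card,
    Fintype.card_subtype, Nat.cast_id]

theorem size_mul_le {s t : ℕ} (ht : t ≤ m) (ι : Fin s ↪ Fin t) (z : Fin t ↪ V) :
    Q.size z * Fintype.card V ^ s ≤ Q.size (ι.trans z) * Fintype.card V ^ t := by
  rw [rel_size Q ht ι z, mul_assoc]
  refine Nat.mul_le_mul_left _ ?_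
  have h1 := card_restrict (V := V) ι (fun u : Fin s → V => u = (ι.trans z : Fin s ↪ V))
  have h2 : Nat.card {u : Fin s → V // u = (ι.trans z : Fin s ↪ V)} = 1 :=
    Nat.card_eq_one_iff_unique.2 ⟨⟨fun a b => Subtype.ext (a.2.trans b.2.symm)⟩, ⟨⟨_, rfl⟩⟩⟩
  rw [h2, one_mul, Fintype.card_fin] at h1
  rw [← h1]
  refine Nat.mul_le_mul_right _ ?_
  refine Nat.card_le_card_of_injective
    (fun x => ⟨(x.1 : Fin t → V), by
      have h3 := x.2.2
      funext k
      exact congrArg (fun f : Fin s ↪ V => f k) h3⟩) ?_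
  intro a b hab
  have h := congrArg Subtype.val hab
  exact Subtype.ext (DFunLike.coe_injective h)

theorem big_res [Nonempty V] {s t : ℕ} (ht : t ≤ m) (ι : Fin s ↪ Fin t) (z : Fin t ↪ V)
    (hz : Big Q (col Q z)) : Big Q (col Q (ι.trans z)) := by
  unfold Big at hz ⊢
  rw [qsize_col] at hz ⊢
  have h1 := size_mul_le Q ht ι z
  have hn : 0 < Fintype.card V := Fintype.card_pos
  have hpos : 0 < Fintype.card V ^ t := pow_pos hn t
  by_contra hcon
  rw [not_lt] at hcon
  have h2 : Fintype.card V ^ t * Fintype.card V ^ s <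
      Fintype.card V * Q.size z * Fintype.card V ^ s :=
    Nat.mul_lt_mul_of_pos_right hz (pow_pos hn s)
  have h3 : Fintype.card V * Q.size z * Fintype.card V ^ s ≤
      Fintype.card V * Q.size (ι.trans z) * Fintype.card V ^ t := by
    rw [mul_assoc, mul_assoc]
    exact Nat.mul_le_mul_left _ h1
  have h4 : Fintype.card V * Q.size (ι.trans z) * Fintype.card V ^ t ≤
      Fintype.card V ^ s * Fintype.card V ^ t := Nat.mul_le_mul_right _ hcon
  have h5 := lt_of_lt_of_le h2 (h3.trans h4)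
  rw [mul_comm] at h5
  exact lt_irrefl _ h5

/-- restriction of types -/
def res [Nonempty V] {s t : ℕ} (ι : Fin s ↪ Fin t) (τ : Ty Q t) : Ty Q s where
  c := Quotient.map' (s₁ := Q.P t) (s₂ := Q.P s) (fun x => ι.trans x)
    (fun _ _ h => RelAPI.emb Q τ.le ι h) τ.c
  le := le_trans (by simpa using Fintype.card_le_of_embedding ι) τ.le
  big := by
    obtain ⟨x, hx⟩ := exists_rep Q τ
    have h := τ.big
    rw [← hx] at h ⊢
    exact big_res Q τ.le ι x h

theorem res_c [Nonempty V] {s t : ℕ} (ι : Fin s ↪ Fin t) (τ : Ty Q t) {x : Fin t ↪ V}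
    (hx : col Q x = τ.c) : (res Q ι τ).c = col Q (ι.trans x) := by
  obtain ⟨c, h1, h2⟩ := τ
  simp only at hx
  subst hx
  rfl

theorem card_inj {s : ℕ} (c : Quotient (Q.P s)) :
    Nat.card {u : Fin s → V // ∃ h : Injective u, col Q ⟨u, h⟩ = c} = qsize Q c := by
  unfold qsize
  refine Nat.card_congr ?_
  exact
    { toFun := fun u => ⟨⟨u.1, u.2.choose⟩, u.2.choose_spec⟩
      invFun := fun y => ⟨y.1, y.1.injective, y.2⟩
      left_inv := fun _ => rfl
      right_inv := fun _ => rfl }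

theorem card_res {s t : ℕ} (ι : Fin s ↪ Fin t) (c : Quotient (Q.P s)) :
    Nat.card {x : Fin t → V // ∃ h : Injective (x ∘ ι), col Q ⟨x ∘ ι, h⟩ = c} *
      Fintype.card V ^ s = qsize Q c * Fintype.card V ^ t := by
  have h := card_restrict (V := V) ι (fun u : Fin s → V => ∃ h : Injective u, col Q ⟨u, h⟩ = c)
  rw [Fintype.card_fin, card_inj] at h
  exact h

section ci

variable {a b c N : ℕ} (α : Fin a ↪ Fin N) (β : Fin b ↪ Fin N) (γ : Fin c ↪ Fin a)
    (δ : Fin c ↪ Fin b)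

theorem card_union (h1 : γ.trans α = δ.trans β)
    (h2 : Set.range α ∩ Set.range β ⊆ Set.range (γ.trans α)) :
    Nat.card {i : Fin N // i ∈ Set.range α ∪ Set.range β} + c = a + b := by
  classical
  have e1 : Nat.card {i : Fin N // i ∈ Set.range α ∪ Set.range β} =
      ((Finset.univ.map α) ∪ (Finset.univ.map β)).card := by
    rw [Nat.card_eq_fintype_card, Fintype.card_subtype]
    congr 1
    ext i
    simp
  have e2 : ((Finset.univ.map α) ∩ (Finset.univ.map β)) = Finset.univ.map (γ.trans α) := by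
    ext i
    simp only [Finset.mem_inter, Finset.mem_map, Finset.mem_univ, true_and]
    constructor
    · rintro ⟨⟨k, hk⟩, ⟨l, hl⟩⟩
      obtain ⟨r, hr⟩ := h2 ⟨⟨k, hk⟩, ⟨l, hl⟩⟩
      exact ⟨r, hr⟩
    · rintro ⟨r, hr⟩
      refine ⟨⟨γ r, hr⟩, ⟨δ r, ?_⟩⟩
      rw [h1] at hr
      exact hr
  have e3 := Finset.card_union_add_card_inter (Finset.univ.map α) (Finset.univ.map β)
  rw [e2, Finset.card_map, Finset.card_map, Finset.card_map, Finset.card_univ, Finset.card_univ,
    Finset.card_univ, Fintype.card_fin, Fintype.card_fin, Fintype.card_fin] at e3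
  rw [e1]
  exact e3

/-- the pairs of tuples of given colours which agree on the common part -/
def Pairs (τ : Quotient (Q.P a)) (ρ : Quotient (Q.P b)) : Type :=
  {p : (Fin a ↪ V) × (Fin b ↪ V) // (col Q p.1 = τ ∧ col Q p.2 = ρ) ∧ γ.trans p.1 = δ.trans p.2}

theorem card_glue (h1 : γ.trans α = δ.trans β)
    (h2 : Set.range α ∩ Set.range β ⊆ Set.range (γ.trans α))
    (τ : Quotient (Q.P a)) (ρ : Quotient (Q.P b)) :
    Nat.card {x : Fin N → V // (∃ h : Injective (x ∘ α), col Q ⟨x ∘ α, h⟩ = τ) ∧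
        (∃ h : Injective (x ∘ β), col Q ⟨x ∘ β, h⟩ = ρ)} *
      Fintype.card V ^ (a + b) =
    Nat.card (Pairs Q γ δ τ ρ) * Fintype.card V ^ (N + c) := by
  classical
  let J : Type := {i : Fin N // i ∈ Set.range α ∪ Set.range β}
  let α' : Fin a → J := fun k => ⟨α k, Or.inl ⟨k, rfl⟩⟩
  let β' : Fin b → J := fun k => ⟨β k, Or.inr ⟨k, rfl⟩⟩
  have hαβ : ∀ r : Fin c, α' (γ r) = β' (δ r) := by
    intro r
    refine Subtype.ext ?_
    exact congrArg (fun f : Fin c ↪ Fin N => f r) h1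
  let R : (J → V) → Prop := fun u =>
    (∃ h : Injective (u ∘ α'), col Q ⟨u ∘ α', h⟩ = τ) ∧
        (∃ h : Injective (u ∘ β'), col Q ⟨u ∘ β', h⟩ = ρ)
  have e1 := card_restrict (V := V) (Embedding.subtype (fun i : Fin N =>
    i ∈ Set.range α ∪ Set.range β)) R
  have e2 : Nat.card {u : J → V // R u} = Nat.card (Pairs Q γ δ τ ρ) := by
    let F : {u : J → V // R u} → Pairs Q γ δ τ ρ := fun u =>
      ⟨(⟨u.1 ∘ α', u.2.1.choose⟩, ⟨u.1 ∘ β', u.2.2.choose⟩),
        ⟨⟨u.2.1.choose_spec, u.2.2.choose_spec⟩, by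
          ext r
          simp only [Embedding.trans_apply, Embedding.coeFn_mk, comp_apply]
          rw [hαβ]⟩⟩
    refine Nat.card_congr (Equiv.ofBijective F ⟨?_, ?_⟩)
    · intro u v huv
      have h3 := congrArg (fun p : Pairs Q γ δ τ ρ => (p.1.1 : Fin a → V)) huv
      have h4 := congrArg (fun p : Pairs Q γ δ τ ρ => (p.1.2 : Fin b → V)) huv
      refine Subtype.ext (funext fun i => ?_)
      obtain ⟨i, hi | hi⟩ := i
      · obtain ⟨k, rfl⟩ := hi
        exact congrFun h3 k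
      · obtain ⟨k, rfl⟩ := hi
        exact congrFun h4 k
    · rintro ⟨⟨y, z⟩, ⟨⟨hy, hz⟩, hyz⟩⟩
      have hne : ∀ i : J, ¬ (∃ k, α k = i.1) → ∃ k, β k = i.1 := by
        rintro ⟨i, hi | hi⟩ h
        · exact absurd hi h
        · exact hi
      let u : J → V := fun i => if h : ∃ k, α k = i.1 then y h.choose else
        z (hne i h).choose
      have hu1 : u ∘ α' = y := by
        funext k
        have hk : ∃ l, α l = (α' k).1 := ⟨k, rfl⟩
        simp only [comp_apply, u]
        rw [dif_pos hk]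
        congr 1
        exact α.injective hk.choose_spec
      have hu2 : u ∘ β' = z := by
        funext k
        simp only [comp_apply, u]
        split_ifs with hk
        · have hk2 := hk.choose_spec
          obtain ⟨r, hr⟩ := h2 ⟨⟨hk.choose, hk2⟩, ⟨k, rfl⟩⟩
          have h5 : hk.choose = γ r := α.injective (hk2.trans hr.symm)
          have h6 : k = δ r := by
            rw [h1] at hr
            exact β.injective hr.symm
          rw [h5]
          have h7 := congrArg (fun f : Fin c ↪ V => f r) hyz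
          simp only [Embedding.trans_apply] at h7
          rw [h7, h6]
        · congr 1
          exact β.injective (hne _ hk).choose_spec
      refine ⟨⟨u, ⟨?_, ?_⟩⟩, ?_⟩
      · refine ⟨by rw [hu1]; exact y.injective, ?_⟩
        rw [← hy]
        congr 1
        ext k
        exact congrFun hu1 k
      · refine ⟨by rw [hu2]; exact z.injective, ?_⟩
        rw [← hz]
        congr 1
        ext k
        exact congrFun hu2 k
      · refine Subtype.ext (Prod.ext ?_ ?_)
        · ext k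
          exact congrFun hu1 k
        · ext k
          exact congrFun hu2 k
  have e3 := card_union α β γ δ h1 h2
  rw [Nat.card_eq_fintype_card] at e3
  rw [e2] at e1
  calc _ = (Nat.card {x : Fin N → V // (∃ h : Injective (x ∘ α), col Q ⟨x ∘ α, h⟩ = τ) ∧
        (∃ h : Injective (x ∘ β), col Q ⟨x ∘ β, h⟩ = ρ)} *
          Fintype.card V ^ Fintype.card {i : Fin N // i ∈ Set.range α ∪ Set.range β}) *
          Fintype.card V ^ c := by
        rw [← e3, pow_add, mul_assoc]
    _ = (Nat.card (Pairs Q γ δ τ ρ) * Fintype.card V ^ N) * Fintype.card V ^ c := by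
        rw [← e1]
        rfl
    _ = _ := by rw [pow_add, mul_assoc]

theorem card_pairs (ha : a ≤ m) (hb : b ≤ m) (y₀ : Fin a ↪ V) (z₀ : Fin b ↪ V)
    (h : (Q.P c).r (γ.trans y₀) (δ.trans z₀)) :
    Nat.card (Pairs Q γ δ (col Q y₀) (col Q z₀)) * Q.size (γ.trans y₀) =
      Q.size y₀ * Q.size z₀ := by
  classical
  let E : Pairs Q γ δ (col Q y₀) (col Q z₀) ≃
      Σ u : {u : Fin c ↪ V // (Q.P c).r u (γ.trans y₀)},
        {y : Fin a ↪ V // (Q.P a).r y y₀ ∧ γ.trans y = u.1} ×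
          {z : Fin b ↪ V // (Q.P b).r z z₀ ∧ δ.trans z = u.1} :=
    { toFun := fun p => ⟨⟨γ.trans p.1.1, RelAPI.emb Q ha γ ((col_eq Q).1 p.2.1.1)⟩,
        (⟨p.1.1, (col_eq Q).1 p.2.1.1, rfl⟩, ⟨p.1.2, (col_eq Q).1 p.2.1.2, p.2.2.symm⟩)⟩
      invFun := fun q => ⟨(q.2.1.1, q.2.2.1), ⟨⟨(col_eq Q).2 q.2.1.2.1, (col_eq Q).2 q.2.2.2.1⟩,
        q.2.1.2.2.trans q.2.2.2.2.symm⟩⟩
      left_inv := fun _ => rfl
      right_inv := fun q => by
        obtain ⟨⟨u, hu⟩, ⟨⟨y, hy1, hy2⟩, ⟨z, hz1, hz2⟩⟩⟩ := q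
        simp only at hy2 hz2
        subst hy2
        rfl }
  letI : Fintype {u : Fin c ↪ V // (Q.P c).r u (γ.trans y₀)} := Fintype.ofFinite _
  rw [Nat.card_congr E, Nat.card_sigma]
  have h1 : ∀ u : {u : Fin c ↪ V // (Q.P c).r u (γ.trans y₀)},
      Nat.card ({y : Fin a ↪ V // (Q.P a).r y y₀ ∧ γ.trans y = u.1} ×
          {z : Fin b ↪ V // (Q.P b).r z z₀ ∧ δ.trans z = u.1}) =
      Nat.card {y : Fin a ↪ V // (Q.P a).r y y₀ ∧ γ.trans y = γ.trans y₀} *
        Nat.card {z : Fin b ↪ V // (Q.P b).r z z₀ ∧ δ.trans z = δ.trans z₀} := by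
    intro u
    rw [Nat.card_prod, RelAPI.count Q ha γ y₀ u.2,
      RelAPI.count Q hb δ z₀ ((Q.P c).trans' u.2 h)]
  rw [Finset.sum_congr rfl (fun u _ => h1 u), Finset.sum_const, Finset.card_univ,
    rel_size Q ha γ y₀, rel_size Q hb δ z₀, smul_eq_mul, ← Singletons.size_congr Q h]
  have h2 : Fintype.card {u : Fin c ↪ V // (Q.P c).r u (γ.trans y₀)} = Q.size (γ.trans y₀) := by
    unfold MScheme.size
    rw [Nat.card_eq_fintype_card]
  rw [h2]
  ring

end ci

/-- the probability of a type -/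
noncomputable def pr1 {s : ℕ} (τ : Ty Q s) : ℝ := (qsize Q τ.c : ℝ) / (Fintype.card V : ℝ) ^ s

theorem qsize_le {s : ℕ} (c : Quotient (Q.P s)) : qsize Q c ≤ Fintype.card V ^ s := by
  obtain ⟨x, hx⟩ := Quotient.exists_rep c
  have hx' : col Q x = c := hx
  rw [← hx', qsize_col]
  exact SizeLower.size_le Q x

theorem pr1_nonneg {s : ℕ} (τ : Ty Q s) : 0 ≤ pr1 Q τ := by
  unfold pr1
  positivity

theorem pr1_le_one {s : ℕ} (τ : Ty Q s) : pr1 Q τ ≤ 1 := by
  unfold pr1
  refine div_le_one_of_le₀ ?_ (by positivity)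
  exact_mod_cast qsize_le Q τ.c

theorem isEmpty_of_lt {t : ℕ} (ht : ¬ t ≤ m) : IsEmpty (Ty Q t) := ⟨fun τ => ht τ.le⟩

theorem defect [Nonempty V] {t : ℕ} (ht : t ≤ m) (P : Ty Q t → Prop) [DecidablePred P]
    (R : (Fin t → V) → Prop) (hPR : ∀ (υ : Ty Q t) (y : Fin t ↪ V), col Q y = υ.c → (P υ ↔ R y)) :
    (∑ υ : Ty Q t, (if P υ then pr1 Q υ else 0) ≤
      (Nat.card {x : Fin t → V // R x} : ℝ) / (Fintype.card V : ℝ) ^ t) ∧
    ((Nat.card {x : Fin t → V // R x} : ℝ) / (Fintype.card V : ℝ) ^ t -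
      ∑ υ : Ty Q t, (if P υ then pr1 Q υ else 0) ≤
        (badTuples Q t : ℝ) / (Fintype.card V : ℝ) ^ t) := by
  have hn : (0 : ℝ) < Fintype.card V := by exact_mod_cast Fintype.card_pos
  have hpow : (0 : ℝ) < (Fintype.card V : ℝ) ^ t := pow_pos hn t
  have h1 : ∑ υ : Ty Q t, (if P υ then pr1 Q υ else 0) =
      (Nat.card {y : Fin t ↪ V // Big Q (col Q y) ∧ R y} : ℝ) / (Fintype.card V : ℝ) ^ t := by
    rw [← sum_types Q ht P (fun y => R y) hPR, Nat.cast_sum, Finset.sum_div]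
    refine Finset.sum_congr rfl (fun υ _ => ?_)
    split_ifs
    · rfl
    · simp
  obtain ⟨h2, h3⟩ := card_bounds Q R
  rw [h1]
  constructor
  · exact div_le_div_of_nonneg_right (by exact_mod_cast h2) hpow.le
  · rw [← sub_div]
    refine div_le_div_of_nonneg_right ?_ hpow.le
    have h4 : (Nat.card {x : Fin t → V // R x} : ℝ) ≤
      (Nat.card {y : Fin t ↪ V // Big Q (col Q y) ∧ R y} : ℝ) + (badTuples Q t : ℝ) := by
      exact_mod_cast h3
    linarith

theorem pr_sum [Nonempty V] {t : ℕ} (ht : t ≤ m) :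
    (∑ υ : Ty Q t, pr1 Q υ ≤ 1) ∧
      1 - (badTuples Q t : ℝ) / (Fintype.card V : ℝ) ^ t ≤ ∑ υ : Ty Q t, pr1 Q υ := by
  have hn : (0 : ℝ) < Fintype.card V := by exact_mod_cast Fintype.card_pos
  have hpow : (0 : ℝ) < (Fintype.card V : ℝ) ^ t := pow_pos hn t
  have h := defect Q ht (fun _ => True) (fun _ => True) (fun _ _ _ => Iff.rfl)
  have h1 : Nat.card {x : Fin t → V // True} = Fintype.card V ^ t := by
    rw [← card_fun (V := V) t]
    exact Nat.card_congr (Equiv.subtypeUnivEquiv (fun _ => trivial))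
  simp only [if_true] at h
  rw [h1, Nat.cast_pow, div_self hpow.ne'] at h
  exact ⟨h.1, by linarith [h.2]⟩

theorem pr_res [Nonempty V] {s t : ℕ} (ht : t ≤ m) (ι : Fin s ↪ Fin t) (τ : Ty Q s)
    [DecidablePred (fun υ : Ty Q t => res Q ι υ = τ)] :
    |∑ υ : Ty Q t, (if res Q ι υ = τ then pr1 Q υ else 0) - pr1 Q τ| ≤
      (badTuples Q t : ℝ) / (Fintype.card V : ℝ) ^ t := by
  have hn : (0 : ℝ) < Fintype.card V := by exact_mod_cast Fintype.card_pos
  have h := defect Q ht (fun υ : Ty Q t => res Q ι υ = τ)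
    (fun x => ∃ h : Injective (x ∘ ι), col Q ⟨x ∘ ι, h⟩ = τ.c) (by
      intro υ y hy
      have h1 := res_c Q ι υ hy
      constructor
      · intro h2
        exact ⟨(ι.trans y).injective, by rw [← h2, h1]; rfl⟩
      · rintro ⟨h2, h3⟩
        refine Ty.ext' Q ?_
        rw [h1, ← h3]
        rfl)
  have h1 : (Nat.card {x : Fin t → V // ∃ h : Injective (x ∘ ι), col Q ⟨x ∘ ι, h⟩ = τ.c} : ℝ) /
      (Fintype.card V : ℝ) ^ t = pr1 Q τ := by
    unfold pr1
    rw [div_eq_div_iff (pow_pos hn t).ne' (pow_pos hn s).ne']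
    exact_mod_cast card_res Q ι τ.c
  rw [h1] at h
  rw [abs_le]
  constructor
  · linarith [h.2]
  · have h2 : (0 : ℝ) ≤ (badTuples Q t : ℝ) / (Fintype.card V : ℝ) ^ t := by positivity
    linarith [h.1]

theorem pr_ci [Nonempty V] {a b c N : ℕ} (hN : N ≤ m) (α : Fin a ↪ Fin N) (β : Fin b ↪ Fin N)
    (γ : Fin c ↪ Fin a) (δ : Fin c ↪ Fin b) (h1 : γ.trans α = δ.trans β)
    (h2 : Set.range α ∩ Set.range β ⊆ Set.range (γ.trans α)) (τ : Ty Q a) (ρ : Ty Q b)
    (hτρ : res Q γ τ = res Q δ ρ)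
    [DecidablePred (fun υ : Ty Q N => res Q α υ = τ ∧ res Q β υ = ρ)] :
    |(∑ υ : Ty Q N, (if res Q α υ = τ ∧ res Q β υ = ρ then pr1 Q υ else 0)) *
      pr1 Q (res Q γ τ) - pr1 Q τ * pr1 Q ρ| ≤ (badTuples Q N : ℝ) / (Fintype.card V : ℝ) ^ N := by
  have hn : (0 : ℝ) < Fintype.card V := by exact_mod_cast Fintype.card_pos
  obtain ⟨y₀, hy₀⟩ := exists_rep Q τ
  obtain ⟨z₀, hz₀⟩ := exists_rep Q ρ
  have h3 := res_c Q γ τ hy₀
  have h4 := res_c Q δ ρ hz₀
  have h5 : (Q.P c).r (γ.trans y₀) (δ.trans z₀) := by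
    rw [← col_eq, ← h3, ← h4, hτρ]
  have h := defect Q hN (fun υ : Ty Q N => res Q α υ = τ ∧ res Q β υ = ρ)
    (fun x => (∃ h : Injective (x ∘ α), col Q ⟨x ∘ α, h⟩ = τ.c) ∧
      (∃ h : Injective (x ∘ β), col Q ⟨x ∘ β, h⟩ = ρ.c)) (by
      intro υ y hy
      have e1 := res_c Q α υ hy
      have e2 := res_c Q β υ hy
      constructor
      · rintro ⟨e3, e4⟩
        exact ⟨⟨(α.trans y).injective, by rw [← e3, e1]; rfl⟩,
          ⟨(β.trans y).injective, by rw [← e4, e2]; rfl⟩⟩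
      · rintro ⟨⟨e3, e4⟩, ⟨e5, e6⟩⟩
        refine ⟨Ty.ext' Q ?_, Ty.ext' Q ?_⟩
        · rw [e1, ← e4]
          rfl
        · rw [e2, ← e6]
          rfl)
  have h6 := card_glue Q α β γ δ h1 h2 τ.c ρ.c
  have h7 := card_pairs Q γ δ τ.le ρ.le y₀ z₀ h5
  rw [hy₀, hz₀] at h7
  set A := Nat.card {x : Fin N → V // (∃ h : Injective (x ∘ α), col Q ⟨x ∘ α, h⟩ = τ.c) ∧
      (∃ h : Injective (x ∘ β), col Q ⟨x ∘ β, h⟩ = ρ.c)} with hA
  set S := ∑ υ : Ty Q N, (if res Q α υ = τ ∧ res Q β υ = ρ then pr1 Q υ else 0) with hS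
  have h8 : (A : ℝ) / (Fintype.card V : ℝ) ^ N * pr1 Q (res Q γ τ) = pr1 Q τ * pr1 Q ρ := by
    unfold pr1
    rw [h3, qsize_col, ← hy₀, ← hz₀, qsize_col, qsize_col, div_mul_div_comm, div_mul_div_comm,
      div_eq_div_iff (by positivity) (by positivity)]
    have h9 : A * Q.size (γ.trans y₀) * (Fintype.card V ^ a * Fintype.card V ^ b) =
        Q.size y₀ * Q.size z₀ * (Fintype.card V ^ N * Fintype.card V ^ c) := by
      rw [← h7, ← pow_add, ← pow_add]
      calc _ = (A * Fintype.card V ^ (a + b)) * Q.size (γ.trans y₀) := by ring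
        _ = _ := by rw [h6]; ring
    exact_mod_cast h9
  rw [← h8, ← sub_mul]
  have h10 := pr1_nonneg Q (res Q γ τ)
  have h11 := pr1_le_one Q (res Q γ τ)
  rw [abs_mul, abs_of_nonneg h10]
  have h12 : |S - (A : ℝ) / (Fintype.card V : ℝ) ^ N| ≤
      (badTuples Q N : ℝ) / (Fintype.card V : ℝ) ^ N := by
    rw [abs_le]
    constructor
    · linarith [h.2]
    · have h2 : (0 : ℝ) ≤ (badTuples Q N : ℝ) / (Fintype.card V : ℝ) ^ N := by positivity
      linarith [h.1]
  calc |S - (A : ℝ) / (Fintype.card V : ℝ) ^ N| * pr1 Q (res Q γ τ)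
      ≤ |S - (A : ℝ) / (Fintype.card V : ℝ) ^ N| * 1 :=
        mul_le_mul_of_nonneg_left h11 (abs_nonneg _)
    _ ≤ _ := by rw [mul_one]; exact h12

end PreT

open PreT in
/-- Module I4c : the approximate type system of a scheme -/
theorem exists_preTS {B : ℝ} (hB : 1 ≤ B) {V : Type} [Fintype V] {m : ℕ} (hm : 3 ≤ m)
    (g : Good B V m) :
    ∃ A : PreTS B, (∀ t, t ≤ m → A.err t = (badTuples g.Q t : ℝ) / (Fintype.card V : ℝ) ^ t) ∧
      (SchemePrimitive g.Q → A.Primitive) := by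
  classical
  have hn0 : 0 < Fintype.card V := lt_of_le_of_lt (Nat.zero_le _) g.big
  haveI : Nonempty V := Fintype.card_pos_iff.1 hn0
  have hn : (0 : ℝ) < Fintype.card V := by exact_mod_cast hn0
  let err : ℕ → ℝ := fun t => if t ≤ m then
    (badTuples g.Q t : ℝ) / (Fintype.card V : ℝ) ^ t else 1
  have herr1 : ∀ t, t ≤ m → err t = (badTuples g.Q t : ℝ) / (Fintype.card V : ℝ) ^ t :=
    fun t ht => if_pos ht
  have herr2 : ∀ t, ¬ t ≤ m → err t = 1 := fun t ht => if_neg ht
  refine ⟨{ T := fun s => Ty g.Q s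
            fin := fun s => inferInstance
            dec := fun s => Classical.decEq _
            res := fun ι τ => res g.Q ι τ
            res_refl := ?_
            res_trans := ?_
            D := fun τ => pr1 g.Q τ
            D_lb := ?_
            D_ub := ?_
            err := err
            D_sum := ?_
            D_res := ?_
            ci := ?_
            one := ?_
            free := ?_ }, ?_, ?_⟩
  · intro s τ
    obtain ⟨x, hx⟩ := exists_rep g.Q τ
    refine Ty.ext' g.Q ?_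
    rw [res_c g.Q _ τ hx, ← hx]
    rfl
  · intro r s t ι κ τ
    obtain ⟨x, hx⟩ := exists_rep g.Q τ
    refine Ty.ext' g.Q ?_
    rw [res_c g.Q _ τ hx, res_c g.Q ι (res g.Q κ τ) (x := κ.trans x) (res_c g.Q κ τ hx).symm]
    rfl
  · intro s τ
    obtain ⟨x, hx⟩ := exists_rep g.Q τ
    have h1 := τ.big
    unfold Big at h1
    rw [← hx, qsize_col] at h1
    have h2 := size_lower hB g τ.le x h1
    change 1 ≤ B ^ (s.choose 2) * pr1 g.Q τ
    unfold pr1
    rw [← hx, qsize_col, mul_div_assoc', one_le_div (pow_pos hn s)]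
    exact h2
  · intro s
    by_cases hs : s ≤ m
    · exact (pr_sum g.Q hs).1
    · haveI := isEmpty_of_lt g.Q hs
      simp
  · intro s
    by_cases hs : s ≤ m
    · rw [herr1 s hs]
      exact (pr_sum g.Q hs).2
    · haveI := isEmpty_of_lt g.Q hs
      rw [herr2 s hs]
      simp
  · intro s t ι τ
    by_cases ht : t ≤ m
    · rw [herr1 t ht]
      exact pr_res g.Q ht ι τ
    · haveI := isEmpty_of_lt g.Q ht
      rw [herr2 t ht]
      have h1 := pr1_nonneg g.Q τ
      have h2 := pr1_le_one g.Q τ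
      simp only [Finset.univ_eq_empty, Finset.sum_empty, zero_sub, abs_neg]
      rw [abs_of_nonneg h1]
      exact h2
  · intro a b c n α β γ δ h1 h2 τ ρ hτρ
    by_cases hN : n ≤ m
    · rw [herr1 n hN]
      exact pr_ci g.Q hN α β γ δ h1 h2 τ ρ hτρ
    · haveI := isEmpty_of_lt g.Q hN
      rw [herr2 n hN]
      have h3 := pr1_nonneg g.Q τ
      have h4 := pr1_le_one g.Q τ
      have h5 := pr1_nonneg g.Q ρ
      have h6 := pr1_le_one g.Q ρ
      simp only [Finset.univ_eq_empty, Finset.sum_empty, zero_mul, zero_sub, abs_neg]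
      rw [abs_of_nonneg (mul_nonneg h3 h5)]
      calc pr1 g.Q τ * pr1 g.Q ρ ≤ 1 * 1 := mul_le_mul h4 h6 h5 zero_le_one
        _ = 1 := one_mul 1
  · constructor
    intro τ ρ
    obtain ⟨x, hx⟩ := exists_rep g.Q τ
    obtain ⟨y, hy⟩ := exists_rep g.Q ρ
    refine Ty.ext' g.Q ?_
    rw [← hx, ← hy, col_eq]
    exact g.hom x y
  · intro s σ τ h
    obtain ⟨x, hx⟩ := exists_rep g.Q τ
    by_contra hσ
    have h1 : (res g.Q σ.toEmbedding τ).c = τ.c := congrArg (fun τ : Ty g.Q s => τ.c) h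
    rw [res_c g.Q _ τ hx, ← hx, col_eq] at h1
    exact g.anti s τ.le σ hσ x h1
  · intro t ht
    exact herr1 t ht
  · intro hprim E hE1 hE2 hE3
    have hall : ∀ a : Fin 2 ↪ V, ∃ τ ∈ E, (τ : Ty g.Q 2).c = col g.Q a := by
      refine hprim (fun a => ∃ τ ∈ E, (τ : Ty g.Q 2).c = col g.Q a) ?_ ?_ ?_ ?_
      · rintro a b hab ⟨τ, hτ, hτa⟩
        refine ⟨τ, hτ, ?_⟩
        rw [hτa, col_eq]
        exact hab
      · obtain ⟨τ, hτ⟩ := hE1
        obtain ⟨x, hx⟩ := exists_rep g.Q τ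
        exact ⟨x, τ, hτ, hx.symm⟩
      · rintro a ⟨τ, hτ, hτa⟩
        exact ⟨_, hE2 τ hτ, res_c g.Q _ τ hτa.symm⟩
      · rintro z hz ⟨τ₁, hτ₁, h1⟩ ⟨τ₂, hτ₂, h2⟩
        let ζ : Ty g.Q 3 := ⟨col g.Q z, hm, by
          unfold Big
          rw [qsize_col]
          exact hz⟩
        have hζ : col g.Q z = ζ.c := rfl
        refine ⟨_, hE3 ζ ?_ ?_, res_c g.Q _ ζ hζ⟩
        · have h3 : res g.Q (pr 0 1 (by decide)) ζ = τ₁ :=
            Ty.ext' g.Q ((res_c g.Q _ ζ hζ).trans h1.symm)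
          change res g.Q (pr 0 1 (by decide)) ζ ∈ E
          rw [h3]
          exact hτ₁
        · have h3 : res g.Q (pr 1 2 (by decide)) ζ = τ₂ :=
            Ty.ext' g.Q ((res_c g.Q _ ζ hζ).trans h2.symm)
          change res g.Q (pr 1 2 (by decide)) ζ ∈ E
          rw [h3]
          exact hτ₂
    ext τ
    simp only [Set.mem_univ, iff_true]
    obtain ⟨x, hx⟩ := exists_rep g.Q (τ : Ty g.Q 2)
    obtain ⟨τ', hτ', h1⟩ := hall x
    have h2 : τ' = τ := Ty.ext' g.Q (h1.trans hx)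
    rw [← h2]
    exact hτ'

end MSch
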