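import Pool.Agent.Lib.MP_369ee2_lc.Singletons
import Pool.Agent.Lib.MP_369ee2_lc.BlockBad

/-!
# Primitivity of minimal schemes (module I5)
-/

namespace MSch

open Function Filter
open scoped Topology BigOperators

namespace Prim

open Singletons

section basic
variable {V : Type}

/-- the 1-tuple -/
def one (x : V) : Fin 1 ↪ V := ⟨fun _ => x, fun _ _ _ => Subsingleton.elim _ _⟩

/-- the injective pair -/
def pair (x y : V) (h : x ≠ y) : Fin 2 ↪ V :=
  ⟨![x, y], by
    intro a b hab
    fin_cases a <;> fin_cases b <;> simp_all [Ne.symm]⟩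

theorem notMem_one {x y : V} (h : x ≠ y) : y ∉ Set.range (one x) := by
  rintro ⟨_, hk⟩
  exact h hk

theorem notMem_pair {x y z : V} (h : x ≠ y) (h1 : z ≠ x) (h2 : z ≠ y) :
    z ∉ Set.range (pair x y h) := by
  rintro ⟨k, hk⟩
  fin_cases k
  · exact h1 hk.symm
  · exact h2 hk.symm

theorem pair_eq (x y : V) (h : x ≠ y) : pair x y h = ext (one x) y (notMem_one h) := by
  ext k
  fin_cases k <;> rfl

theorem eq_pair (a : Fin 2 ↪ V) (h : a 0 ≠ a 1) : a = pair (a 0) (a 1) h := by
  ext k
  fin_cases k <;> rfl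

/-- the injective triple -/
def tri (x y z : V) (h : x ≠ y) (h1 : z ≠ x) (h2 : z ≠ y) : Fin 3 ↪ V :=
  ext (pair x y h) z (notMem_pair h h1 h2)

theorem tri01 (x y z : V) (h : x ≠ y) (h1 : z ≠ x) (h2 : z ≠ y) :
    (pr 0 1 (by decide)).trans (tri x y z h h1 h2) = pair x y h := by
  ext k
  fin_cases k <;> rfl

theorem tri12 (x y z : V) (h : x ≠ y) (h1 : z ≠ x) (h2 : z ≠ y) :
    (pr 1 2 (by decide)).trans (tri x y z h h1 h2) = pair y z h2.symm := by
  ext k
  fin_cases k <;> rfl

theorem tri02 (x y z : V) (h : x ≠ y) (h1 : z ≠ x) (h2 : z ≠ y) :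
    (pr 0 2 (by decide)).trans (tri x y z h h1 h2) = pair x z h1.symm := by
  ext k
  fin_cases k <;> rfl

end basic

variable {V : Type} [Fintype V] {m : ℕ}

theorem size_tri {B : ℝ} (g : Good B V m) (hm : 4 ≤ m) (x y z : V) (h : x ≠ y) (h1 : z ≠ x)
    (h2 : z ≠ y) : g.Q.size (tri x y z h h1 h2) =
      Fintype.card V * (g.Q.cls (one x) y).ncard * (g.Q.cls (pair x y h) z).ncard := by
  have e0 : one x = ext (⟨Fin.elim0, fun k => k.elim0⟩ : Fin 0 ↪ V) x
      (by rintro ⟨k, _⟩; exact k.elim0) := by
    ext k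
    fin_cases k
    rfl
  have hone : g.Q.size (one x) = Fintype.card V := by
    rw [e0, size_ext g.Q (by omega), SizeLower.size_zero, cls_zero, one_mul]
  unfold tri
  rw [size_ext g.Q (by omega)]
  congr 1
  rw [pair_eq, size_ext g.Q (by omega), hone]

theorem size_tri_swap {B : ℝ} (g : Good B V m) (hm : 4 ≤ m) (x y z : V) (h : x ≠ y)
    (h1 : z ≠ x) (h2 : z ≠ y) : g.Q.size (tri x z y h1.symm h.symm h2.symm) =
      g.Q.size (tri x y z h h1 h2) := by
  have hz : z ∉ Set.range (ext (one x) y (notMem_one h)) := by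
    rw [← pair_eq]
    exact notMem_pair h h1 h2
  have hy : y ∉ Set.range (ext (one x) z (notMem_one h1.symm)) := by
    rw [← pair_eq]
    exact notMem_pair h1.symm h.symm h2.symm
  have e1 : tri x y z h h1 h2 = ext (ext (one x) y (notMem_one h)) z hz :=
    ext_congr (pair_eq x y h) rfl _ _
  have e2 : tri x z y h1.symm h.symm h2.symm =
      ext (ext (one x) z (notMem_one h1.symm)) y hy :=
    ext_congr (pair_eq x z h1.symm) rfl _ _
  rw [e1, e2, ← swap_ext (one x) y z (notMem_one h) hz (notMem_one h1.symm) hy]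
  exact size_perm g.Q (by omega) _ _

theorem big_tri {B : ℝ} (hB : 1 ≤ B) (g : Good B V m) (hm : 4 ≤ m)
    (hn : B ^ 3 < Fintype.card V) (x y z : V) (h : x ≠ y) (h1 : z ≠ x) (h2 : z ≠ y)
    (hns : (g.Q.cls (pair x y h) z).ncard ≠ 1) :
    Fintype.card V ^ 3 < Fintype.card V * g.Q.size (tri x y z h h1 h2) := by
  have hc1 : (Fintype.card V : ℝ) ≤ B ^ 1 * (g.Q.cls (one x) y).ncard := by
    rcases g.rich 1 (by omega) (one x) y (notMem_one h) with h3 | h3
    · have := no_singletons_one (by omega) g (one x) y (notMem_one h)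
      omega
    · exact h3
  have hc2 : (Fintype.card V : ℝ) ≤ B ^ 2 * (g.Q.cls (pair x y h) z).ncard := by
    rcases g.rich 2 (by omega) (pair x y h) z (notMem_pair h h1 h2) with h3 | h3
    · exact absurd h3 hns
    · exact h3
  have hn0 : (0 : ℝ) < Fintype.card V := by
    have : (0 : ℝ) < B ^ 3 := by positivity
    linarith
  have hB0 : (0 : ℝ) < B := by linarith
  have hmul : (Fintype.card V : ℝ) * Fintype.card V ≤
      B ^ 3 * ((g.Q.cls (one x) y).ncard * (g.Q.cls (pair x y h) z).ncard) := by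
    calc (Fintype.card V : ℝ) * Fintype.card V
        ≤ (B ^ 1 * (g.Q.cls (one x) y).ncard) * (B ^ 2 * (g.Q.cls (pair x y h) z).ncard) := by
          refine mul_le_mul hc1 hc2 hn0.le ?_
          positivity
      _ = B ^ 3 * ((g.Q.cls (one x) y).ncard * (g.Q.cls (pair x y h) z).ncard) := by ring
  have hkey : (Fintype.card V : ℝ) * B ^ 3 <
      B ^ 3 * ((g.Q.cls (one x) y).ncard * (g.Q.cls (pair x y h) z).ncard) := by
    refine lt_of_lt_of_le ?_ hmul
    exact mul_lt_mul_of_pos_left hn hn0
  have hkey2 : (Fintype.card V : ℝ) <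
      (g.Q.cls (one x) y).ncard * (g.Q.cls (pair x y h) z).ncard := by
    have hB3 : (0 : ℝ) < B ^ 3 := by positivity
    rw [mul_comm] at hkey
    exact lt_of_mul_lt_mul_left hkey hB3.le
  have hkey3 : Fintype.card V <
      (g.Q.cls (one x) y).ncard * (g.Q.cls (pair x y h) z).ncard := by exact_mod_cast hkey2
  have hn0' : 0 < Fintype.card V := by exact_mod_cast hn0
  rw [size_tri g hm]
  calc Fintype.card V ^ 3 = Fintype.card V * (Fintype.card V * Fintype.card V) := by ring
    _ < Fintype.card V * (Fintype.card V *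
        ((g.Q.cls (one x) y).ncard * (g.Q.cls (pair x y h) z).ncard)) := by
        refine Nat.mul_lt_mul_of_pos_left ?_ hn0'
        exact Nat.mul_lt_mul_of_pos_left hkey3 hn0'
    _ = _ := by ring

end Prim

open Prim Singletons

section I5
/-! ## Module I5 : primitivity -/
theorem schemePrimitive {B : ℝ} (hB : 1 ≤ B) : ∃ N : ℕ, ∀ (V : Type) [Fintype V]
    (m : ℕ) (g : Good B V m), 4 ≤ m → N ≤ Fintype.card V → SchemePrimitive g.Q := by
  obtain ⟨N, hN⟩ := exists_nat_gt (B ^ 4 + B ^ 3 + B * (6 * B ^ 2 + 2))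
  refine ⟨N, ?_⟩
  intro V _ m g hm hNV E hcl hne hsymm htrans
  classical
  have hB0 : (0 : ℝ) < B := by linarith
  have hNV' : (N : ℝ) ≤ Fintype.card V := by exact_mod_cast hNV
  have hp4 : (0 : ℝ) < B ^ 4 := by positivity
  have hp3 : (0 : ℝ) < B ^ 3 := by positivity
  have hp1 : (0 : ℝ) < B * (6 * B ^ 2 + 2) := by positivity
  have hn4 : B ^ (2 * 2) < Fintype.card V := by
    norm_num
    linarith
  have hn3 : B ^ 3 < Fintype.card V := by linarith
  have hnl : B * (6 * B ^ 2 + 2) < Fintype.card V := by linarith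
  have hn0 : (0 : ℝ) < Fintype.card V := by linarith
  -- the relation
  set Er : V → V → Prop := fun x y => ∃ h : x ≠ y, E (pair x y h) with hEr
  have hErs : ∀ x y, Er x y → Er y x := by
    rintro x y ⟨h, hE⟩
    refine ⟨h.symm, ?_⟩
    have h1 := hsymm _ hE
    have h2 : (pr 1 0 (by decide)).trans (pair x y h) = pair y x h.symm := by
      ext k
      fin_cases k <;> rfl
    rw [h2] at h1
    exact h1
  -- neighbourhoods are large
  have hNbr : ∀ x : V, (Fintype.card V : ℝ) ≤ B * ({y | Er x y}.ncard : ℝ) := by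
    intro x
    obtain ⟨a, ha⟩ := hne
    obtain ⟨y, hy, hr⟩ := extend_last g.Q (k := 1) (by omega) a (one x) (g.hom _ _)
    have hsub : g.Q.cls (one x) y ⊆ {y | Er x y} := by
      rintro w ⟨hw, hy', hr2⟩
      have hxw : x ≠ w := fun h => hw ⟨0, h⟩
      refine ⟨hxw, ?_⟩
      rw [pair_eq]
      refine hcl _ _ ?_ ha
      exact (g.Q.P 2).symm' ((g.Q.P 2).trans' hr2 hr)
    have h1 := no_singletons_one (by omega) g (one x) y hy
    rcases g.rich 1 (by omega) (one x) y hy with h3 | h3
    · omega
    · rw [pow_one] at h3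
      refine h3.trans ?_
      have h4 : ((g.Q.cls (one x) y).ncard : ℝ) ≤ ({y | Er x y}.ncard : ℝ) := by
        exact_mod_cast Set.ncard_le_ncard hsub (Set.toFinite _)
      exact mul_le_mul_of_nonneg_left h4 hB0.le
  -- exceptions
  have hExc : ∀ (x z : V) (h : x ≠ z),
      ({y | y ∉ Set.range (pair x z h) ∧ (g.Q.cls (pair x z h) y).ncard = 1}.ncard : ℝ) ≤
        2 * B ^ 2 := by
    intro x z h
    have := few_singletons hB g (j := 2) (by omega) hn4 (pair x z h)
    simpa using this
  have hF5 : ∀ x z, Er x z → (({y | Er z y} \ {y | Er x y}).ncard : ℝ) ≤ 2 * B ^ 2 + 1 := by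
    rintro x z ⟨h, hE⟩
    have hsub : ({y | Er z y} \ {y | Er x y}) ⊆
        {y | y ∉ Set.range (pair x z h) ∧ (g.Q.cls (pair x z h) y).ncard = 1} ∪ {x} := by
      rintro y ⟨⟨hzy, hzyE⟩, hxy⟩
      by_cases hyx : y = x
      · right
        exact hyx
      · left
        refine ⟨notMem_pair h hyx hzy.symm, ?_⟩
        by_contra hcon
        apply hxy
        refine ⟨fun hh => hyx hh.symm, ?_⟩
        have hbig := big_tri hB g hm hn3 x z y h hyx hzy.symm hcon
        have h1 := htrans (tri x z y h hyx hzy.symm) hbig (by rw [tri01]; exact hE)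
          (by rw [tri12]; exact hzyE)
        rw [tri02] at h1
        exact h1
    have h1 := (Set.ncard_le_ncard hsub (Set.toFinite _)).trans (Set.ncard_union_le _ _)
    rw [Set.ncard_singleton] at h1
    have h2 := hExc x z h
    have h3 : (({y | Er z y} \ {y | Er x y}).ncard : ℝ) ≤
        ({y | y ∉ Set.range (pair x z h) ∧ (g.Q.cls (pair x z h) y).ncard = 1}.ncard : ℝ) + 1 := by
      exact_mod_cast h1
    linarith
  have hF6 : ∀ x z, x ≠ z → ¬ Er x z →
      (({y | Er x y} ∩ {y | Er z y}).ncard : ℝ) ≤ 2 * B ^ 2 := by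
    intro x z h hE
    have hsub : ({y | Er x y} ∩ {y | Er z y}) ⊆
        {y | y ∉ Set.range (pair x z h) ∧ (g.Q.cls (pair x z h) y).ncard = 1} := by
      rintro y ⟨⟨hxy, hxyE⟩, hzyE'⟩
      obtain ⟨hyz, hyzE⟩ := hErs _ _ hzyE'
      refine ⟨notMem_pair h hxy.symm hyz, ?_⟩
      by_contra hcon
      apply hE
      refine ⟨h, ?_⟩
      have hbig := big_tri hB g hm hn3 x z y h hxy.symm hyz hcon
      rw [← size_tri_swap g hm x z y h hxy.symm hyz] at hbig
      have h1 := htrans (tri x y z hxy h.symm hyz.symm) hbig (by rw [tri01]; exact hxyE)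
        (by rw [tri12]; exact hyzE)
      rw [tri02] at h1
      exact h1
    have h1 := Set.ncard_le_ncard hsub (Set.toFinite _)
    refine le_trans ?_ (hExc x z h)
    exact_mod_cast h1
  have hF7 : ∀ x z w, Er x z → Er z w → x ≠ w → Er x w := by
    intro x z w hxz hzw hxw
    by_contra hcon
    have h1 := hF5 x z hxz
    have h2 := hF5 w z (hErs _ _ hzw)
    have h3 := hF6 x w hxw hcon
    have hsub : {y | Er z y} ⊆ (({y | Er x y} ∩ {y | Er w y}) ∪ ({y | Er z y} \ {y | Er x y})) ∪
        ({y | Er z y} \ {y | Er w y}) := by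
      intro y hy
      by_cases ha : Er x y
      · by_cases hb : Er w y
        · left; left; exact ⟨ha, hb⟩
        · right; exact ⟨hy, hb⟩
      · left; right; exact ⟨hy, ha⟩
    have h4 := (Set.ncard_le_ncard hsub (Set.toFinite _)).trans (Set.ncard_union_le _ _)
    have h5 := Set.ncard_union_le ({y | Er x y} ∩ {y | Er w y}) ({y | Er z y} \ {y | Er x y})
    have h6 : ({y | Er z y}.ncard : ℝ) ≤ (({y | Er x y} ∩ {y | Er w y}).ncard : ℝ) +
        (({y | Er z y} \ {y | Er x y}).ncard : ℝ) + (({y | Er z y} \ {y | Er w y}).ncard : ℝ) := by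
      exact_mod_cast h4.trans (Nat.add_le_add_right h5 _)
    have h7 := hNbr z
    have h8 : B * ({y | Er z y}.ncard : ℝ) ≤ B * (6 * B ^ 2 + 2) :=
      mul_le_mul_of_nonneg_left (by linarith) hB0.le
    linarith
  -- the setoid
  let S : Setoid V :=
    { r := fun x y => x = y ∨ Er x y
      iseqv :=
        { refl := fun x => Or.inl rfl
          symm := by
            rintro x y (h | h)
            · exact Or.inl h.symm
            · exact Or.inr (hErs _ _ h)
          trans := by
            rintro x y z (h | h) (h' | h')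
            · exact Or.inl (h.trans h')
            · subst h; exact Or.inr h'
            · subst h'; exact Or.inr h
            · by_cases hxz : x = z
              · exact Or.inl hxz
              · exact Or.inr (hF7 _ _ _ h h' hxz) } }
  have hS2 : ∀ a : Fin 2 ↪ V, S.r (a 0) (a 1) ↔ E a := by
    intro a
    have h01 : a 0 ≠ a 1 := fun h => by
      have := a.injective h
      exact absurd this (by decide)
    constructor
    · rintro (h | ⟨h, hE⟩)
      · exact absurd h h01
      · rw [eq_pair a h01]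
        exact hE
    · intro h
      right
      refine ⟨h01, ?_⟩
      rw [← eq_pair a h01]
      exact h
  have hblock : ∀ v w : V, S.r w v := by
    intro v
    have h2 : 2 ≤ {w | S.r w v}.ncard := by
      have h3 := hNbr v
      have h4 : (0 : ℝ) < ({y | Er v y}.ncard : ℝ) := by
        by_contra hcon
        have h5 : ({y | Er v y}.ncard : ℝ) = 0 := le_antisymm (not_lt.1 hcon) (Nat.cast_nonneg _)
        rw [h5] at h3
        linarith
      have h5 : 0 < {y | Er v y}.ncard := by exact_mod_cast h4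
      obtain ⟨y, hy⟩ := (Set.ncard_pos (Set.toFinite _)).1 h5
      have hyv : v ≠ y := hy.1
      have h6 : ({v, y} : Set V) ⊆ {w | S.r w v} := by
        intro w hw
        rcases hw with h | h
        · left; exact h
        · rw [Set.mem_singleton_iff] at h
          subst h
          right
          exact hErs _ _ hy
      have h7 := Set.ncard_le_ncard h6 (Set.toFinite _)
      rw [Set.ncard_pair hyv] at h7
      exact h7
    have h8 := block_bad g.Q (by omega) g.hom g.anti g.nomat S (fun a b _ _ hab h => by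
      rw [hS2] at h ⊢
      exact hcl _ _ hab h) v h2
    have h9 := g.minimal _ h8
    have h10 : {w | S.r w v} = Set.univ := by
      apply Set.eq_of_subset_of_ncard_le (Set.subset_univ _) _ (Set.toFinite _)
      rw [Set.ncard_univ, Nat.card_eq_fintype_card]
      exact h9
    intro w
    have : w ∈ {w | S.r w v} := by
      rw [h10]
      exact Set.mem_univ _
    exact this
  intro a
  exact (hS2 a).1 (hblock _ _)
end I5

end MSch
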