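import Pool.Agent.Lib.MP_369ee2_lc.ExistsGood
import Pool.Agent.Lib.MP_369ee2_lc.BadTuples
import Pool.Agent.Lib.MP_369ee2_lc.Primitive
import Pool.Agent.Lib.MP_369ee2_lc.PreTS

/-!
# Part I: counterexamples give a sequence of approximate type systems
-/

namespace MSch

open Function Filter
open scoped Topology BigOperators

theorem exists_seq (ε : ℝ) (hε : 0 < ε) (h : ¬ Goal ε) :
    ∃ (B : ℝ) (_ : 1 ≤ B) (A : ℕ → PreTS B),
      (∀ t : ℕ, Tendsto (fun i => (A i).err t) atTop (𝓝 0)) ∧
      ∀ᶠ i in atTop, (A i).Primitive := by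
  obtain ⟨B, hB, hgood⟩ := exists_good ε hε h
  choose V fV m hm g using fun i : ℕ => hgood (i + 4)
  have g' : ∀ i, Good B (V i) (m i) := fun i => (g i).some
  have hcard : ∀ i, i + 4 < Fintype.card (V i) := fun i => lt_of_le_of_lt (hm i) (g' i).big
  have hA : ∀ i, ∃ A : PreTS B, (∀ t, t ≤ m i → A.err t =
      (badTuples (g' i).Q t : ℝ) / (Fintype.card (V i) : ℝ) ^ t) ∧
      (SchemePrimitive (g' i).Q → A.Primitive) := fun i =>
    exists_preTS hB (by have := hm i; omega) (g' i)
  choose A hA1 hA2 using hA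
  refine ⟨B, hB, A, ?_, ?_⟩
  · intro t
    obtain ⟨c, N, hN⟩ := badTuples_le hB t
    have hlim : Tendsto (fun i : ℕ => |c| / ((i : ℝ) + 4)) atTop (𝓝 0) := by
      refine tendsto_const_nhds.div_atTop ?_
      exact tendsto_atTop_add_const_right _ _ tendsto_natCast_atTop_atTop
    refine squeeze_zero_norm' ?_ hlim
    filter_upwards [eventually_ge_atTop (max N (t + 2))] with i hi
    have hi1 : N ≤ i := le_trans (le_max_left _ _) hi
    have hi2 : t + 2 ≤ i := le_trans (le_max_right _ _) hi
    have hmi := hm i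
    have hci := hcard i
    rw [hA1 i t (by omega)]
    have hpos : (0 : ℝ) < Fintype.card (V i) := by
      have : 0 < Fintype.card (V i) := by omega
      exact_mod_cast this
    have hpow : (0 : ℝ) < (Fintype.card (V i) : ℝ) ^ t := pow_pos hpos t
    have key := hN (V i) (m i) (g' i) (by omega) (by omega)
    rw [Real.norm_of_nonneg (by positivity)]
    have h4 : ((i : ℝ) + 4) ≤ Fintype.card (V i) := by exact_mod_cast hci.le
    have h5 : (0 : ℝ) < (i : ℝ) + 4 := by positivity
    rw [div_le_div_iff₀ hpow h5]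
    calc (badTuples (g' i).Q t : ℝ) * ((i : ℝ) + 4)
        ≤ (badTuples (g' i).Q t : ℝ) * Fintype.card (V i) := by gcongr
      _ ≤ c * (Fintype.card (V i) : ℝ) ^ t := key
      _ ≤ |c| * (Fintype.card (V i) : ℝ) ^ t := by gcongr; exact le_abs_self c
  · obtain ⟨N, hN⟩ := schemePrimitive hB
    filter_upwards [eventually_ge_atTop N] with i hi
    have hmi := hm i
    have hci := hcard i
    exact hA2 i (hN (V i) (m i) (g' i) (by omega) (by omega))

end MSch
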