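import Pool.Agent.Lib.MP_369ee2_lc.SigmaAPI
import Pool.Agent.Lib.MP_369ee2_lc.CondExpMP
import Pool.Agent.Lib.MP_369ee2_lc.GenIndep

/-!
# Module E1: positivity of products of conditionally iid copies
-/

namespace MSch

open Function MeasureTheory Filter
open scoped Topology BigOperators

namespace PosProd

theorem ysw_fix {i j n : ℕ} (hi : n ≠ yy i) (hj : n ≠ yy j) : ysw i j n = n :=
  Equiv.swap_apply_of_ne_of_ne hi hj

theorem yy_ne_xx (i k : ℕ) : (xx k : ℕ) ≠ yy i := by
  change 2 * k ≠ 2 * i + 1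
  omega

theorem not_mem_XY {S : Finset ℕ} {i : ℕ} (hi : i ∉ S) : (yy i : ℕ) ∉ XY S := by
  rintro (⟨k, hk⟩ | ⟨k, hk, hk'⟩)
  · exact yy_ne_xx i k hk
  · rw [yy.injective hk'] at hk
    exact hi hk

/-- the swap fixes the points of `X ∪ y_S` -/
theorem ysw_XY {S : Finset ℕ} {i j : ℕ} (hi : i ∉ S) (hj : j ∉ S) : ∀ n ∈ XY S, ysw i j n = n := by
  intro n hn
  refine ysw_fix ?_ ?_
  · rintro rfl; exact not_mem_XY hi hn
  · rintro rfl; exact not_mem_XY hj hn

theorem image_XY {S : Finset ℕ} {i j : ℕ} (hi : i ∉ S) (hj : j ∉ S) :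
    ysw i j '' XY S = XY S := by
  ext n
  constructor
  · rintro ⟨k, hk, rfl⟩
    rw [ysw_XY hi hj k hk]; exact hk
  · intro hn
    exact ⟨n, hn, ysw_XY hi hj n hn⟩

theorem image_XY_single {T : Finset ℕ} {i j : ℕ} (hT : T ⊆ {i}) :
    ysw i j '' XY T ⊆ XY {j} := by
  rintro n ⟨k, hk, rfl⟩
  rcases hk with ⟨l, rfl⟩ | ⟨l, hl, rfl⟩
  · rw [ysw_fix (yy_ne_xx i l) (yy_ne_xx j l)]
    exact Or.inl ⟨l, rfl⟩
  · have : l = i := Finset.mem_singleton.mp (hT hl)
    subst this
    refine Or.inr ⟨j, by simp, ?_⟩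
    exact (Equiv.swap_apply_left (yy l) (yy j)).symm

end PosProd

namespace Realisation

variable {L : TypeSystem} (R : Realisation L)

open PosProd

/-- the family of finsets inside `W` or inside `{j}` -/
private def fam (W : Finset ℕ) (j : ℕ) : Set (Finset ℕ) := {T | T ⊆ W} ∪ {T | T ⊆ {j}}

private theorem comap_fam (W : Finset ℕ) (i j : ℕ) (hi : i ∉ W) (hj : j ∉ W) :
    (R.H (fam W i)).comap (R.shift (ysw i j)) ≤ R.H (fam W j) := by
  unfold H
  simp only [MeasurableSpace.comap_iSup]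
  refine iSup_le fun T => iSup_le fun hT => ?_
  rw [R.comap_shift_G]
  rcases hT with hT | hT
  · have h1 : i ∉ T := fun h => hi (hT h)
    have h2 : j ∉ T := fun h => hj (hT h)
    rw [image_XY h1 h2]
    exact R.G_le_H (A := fam W j) (Or.inl hT)
  · refine (R.G_mono (image_XY_single hT)).trans ?_
    exact R.G_le_H (A := fam W j) (Or.inr (Finset.Subset.refl _))

/-- functions measurable for `G S` are invariant under shifts fixing `S` -/
private theorem comp_shift_fun {S : Set ℕ} {φ : ℕ ↪ ℕ} (h : ∀ n ∈ S, φ n = n) {f : R.Ω → ℝ}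
    (hf : StronglyMeasurable[R.G S] f) : f ∘ R.shift φ = f := by
  funext ω
  have hE : MeasurableSet[R.G S] (f ⁻¹' {f ω}) := hf.measurable (measurableSet_singleton _)
  have h1 := R.comp_shift_of_G h hE
  have h2 : ω ∈ R.shift φ ⁻¹' (f ⁻¹' {f ω}) := by rw [h1]; rfl
  exact h2

private theorem condExp_copy (W : Finset ℕ) (i j : ℕ) (hi : i ∉ W) (hj : j ∉ W) {f : R.Ω → ℝ}
    (hf : Integrable f R.P) :
    R.P[fun ω => f (R.shift (ysw i j) ω) | R.G (XY W)] =ᵐ[R.P] R.P[f | R.G (XY W)] := by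
  have h1 := condExp_comp_mp (R.shift_mp (ysw i j)) (R.G_le (XY W)) hf
  rw [R.comap_shift_G, image_XY hi hj,
    R.comp_shift_fun (ysw_XY hi hj) stronglyMeasurable_condExp] at h1
  exact h1

private theorem meas_copy (W : Finset ℕ) (i j : ℕ) (hi : i ∉ W) (hj : j ∉ W) {f : R.Ω → ℝ}
    (hf : StronglyMeasurable[R.H (fam W i)] f) :
    StronglyMeasurable[R.H (fam W j)] fun ω => f (R.shift (ysw i j) ω) := by
  have h1 : StronglyMeasurable[(R.H (fam W i)).comap (R.shift (ysw i j))]
      (f ∘ R.shift (ysw i j)) := hf.comp_measurable (comap_measurable _)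
  exact h1.mono (R.comap_fam W i j hi hj)

/-- the union of the families -/
private def famU (W : Finset ℕ) (J : Finset ℕ) : Set (Finset ℕ) :=
  {T | T ⊆ W} ∪ ⋃ j ∈ J, {T | T ⊆ {j}}

private theorem fam_finite (W : Finset ℕ) (j : ℕ) : (fam W j).Finite := by
  have h : fam W j = ((W.powerset ∪ ({j} : Finset ℕ).powerset : Finset (Finset ℕ)) :
      Set (Finset ℕ)) := by
    ext T
    rw [Finset.mem_coe, Finset.mem_union, Finset.mem_powerset, Finset.mem_powerset]
    rfl
  rw [h]
  exact Finset.finite_toSet _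

private theorem fam_lower (W : Finset ℕ) (j : ℕ) : IsLowerSet (fam W j) := by
  intro S T hTS hS
  rcases hS with hS | hS
  · exact Or.inl ((show T ⊆ S from hTS).trans hS)
  · exact Or.inr ((show T ⊆ S from hTS).trans hS)

private theorem famU_lower (W J : Finset ℕ) : IsLowerSet (famU W J) := by
  intro S T hTS hS
  rcases hS with hS | hS
  · exact Or.inl ((show T ⊆ S from hTS).trans hS)
  · rw [Set.mem_iUnion₂] at hS
    obtain ⟨j, hj, hS⟩ := hS
    exact Or.inr (Set.mem_iUnion₂.mpr ⟨j, hj, (show T ⊆ S from hTS).trans hS⟩)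

private theorem fam_inter (W J : Finset ℕ) (j : ℕ) (hj : j ∉ J) :
    fam W j ∩ famU W J = {T | T ⊆ W} := by
  ext T
  constructor
  · rintro ⟨h1 | h1, h2⟩
    · exact h1
    · rcases h2 with h2 | h2
      · exact h2
      · rw [Set.mem_iUnion₂] at h2
        obtain ⟨i, hi, h2⟩ := h2
        have h3 : T = ∅ := by
          rw [Finset.eq_empty_iff_forall_notMem]
          intro x hx
          have e1 := Finset.mem_singleton.mp (h1 hx)
          have e2 := Finset.mem_singleton.mp (h2 hx)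
          rw [← e1, e2] at hj
          exact hj hi
        rw [h3]
        exact Finset.empty_subset _
  · intro h
    exact ⟨Or.inl h, Or.inl h⟩

private theorem fam_le_famU (W J : Finset ℕ) {j : ℕ} (hj : j ∈ J) : fam W j ⊆ famU W J := by
  rintro T (hT | hT)
  · exact Or.inl hT
  · exact Or.inr (Set.mem_iUnion₂.mpr ⟨j, hj, hT⟩)

/-- product of copies: conditional expectation over the base -/
private theorem condExp_copies (W : Finset ℕ) (j₀ : ℕ) (hj₀ : j₀ ∉ W) {f : R.Ω → ℝ}
    (hf : StronglyMeasurable[R.H (fam W j₀)] f)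
    (h0 : ∀ ω, 0 ≤ f ω) (h1 : ∀ ω, f ω ≤ 1) (J : Finset ℕ) (hJ : Disjoint J W) :
    R.P[fun ω => ∏ j ∈ J, f (R.shift (ysw j₀ j) ω) | R.G (XY W)] =ᵐ[R.P]
      fun ω => (R.P[f | R.G (XY W)] ω) ^ J.card := by
  classical
  have hfm : Measurable f := (hf.mono (R.H_le _)).measurable
  have hbd : ∀ {g : R.Ω → ℝ}, Measurable g → (∀ ω, 0 ≤ g ω) → (∀ ω, g ω ≤ 1) →
      Integrable g R.P := fun hg a b =>
    Integrable.of_bound hg.aestronglyMeasurable 1 (Eventually.of_forall fun ω => by
      rw [Real.norm_eq_abs, abs_of_nonneg (a ω)]; exact b ω)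
  have hfi : Integrable f R.P := hbd hfm h0 h1
  induction J using Finset.induction_on with
  | empty =>
    simp only [Finset.prod_empty, Finset.card_empty, pow_zero]
    rw [condExp_const (R.G_le _)]
  | insert j J hj ih =>
    have hjW : j ∉ W := Finset.disjoint_left.mp hJ (Finset.mem_insert_self j J)
    have hJW : Disjoint J W := Finset.disjoint_of_subset_left (Finset.subset_insert j J) hJ
    have ih := ih hJW
    set fj : R.Ω → ℝ := fun ω => f (R.shift (ysw j₀ j) ω) with hfj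
    set g : R.Ω → ℝ := fun ω => ∏ i ∈ J, f (R.shift (ysw j₀ i) ω) with hg
    set v : R.Ω → ℝ := R.P[f | R.G (XY W)] with hv
    have m1 : StronglyMeasurable[R.H (fam W j)] fj := R.meas_copy W j₀ j hj₀ hjW hf
    have hfjm : Measurable fj := (m1.mono (R.H_le _)).measurable
    have m2 : StronglyMeasurable[R.H (famU W J)] g := by
      have : g = ∏ i ∈ J, fun ω => f (R.shift (ysw j₀ i) ω) := by
        funext ω
        rw [Finset.prod_apply]
      rw [this]
      refine Finset.stronglyMeasurable_prod _ fun i hi => ?_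
      have hiW : i ∉ W := Finset.disjoint_left.mp hJW hi
      exact (R.meas_copy W j₀ i hj₀ hiW hf).mono (R.H_mono (fam_le_famU W J hi))
    have hgm : Measurable g := (m2.mono (R.H_le _)).measurable
    have hg0 : ∀ ω, 0 ≤ g ω := fun ω => Finset.prod_nonneg fun i _ => h0 _
    have hg1 : ∀ ω, g ω ≤ 1 := fun ω => Finset.prod_le_one (fun i _ => h0 _) fun i _ => h1 _
    have hgi : Integrable g R.P := hbd hgm hg0 hg1
    have hfji : Integrable fj R.P := hbd hfjm (fun ω => h0 _) fun ω => h1 _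
    have hGB : R.G (XY W) ≤ R.H (famU W J) :=
      R.G_le_H (A := famU W J) (Or.inl (Finset.Subset.refl W))
    -- independence
    have k1 : R.P[fj | R.H (famU W J)] =ᵐ[R.P] v := by
      have e1 := R.condExp_H (fam W j) (famU W J) (fam_lower W j) (famU_lower W J)
        (fam_finite W j) ⟨Or.inl (Finset.empty_subset _), Or.inl (Finset.empty_subset _)⟩ m1
        (C := 1) (fun ω => by rw [abs_of_nonneg (h0 _)]; exact h1 _)
      rw [fam_inter W J j hj, R.H_powerset] at e1
      exact e1.trans (R.condExp_copy W j₀ j hj₀ hjW hfi)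
    have hpr : (fun ω => ∏ i ∈ insert j J, f (R.shift (ysw j₀ i) ω)) = g * fj := by
      funext ω
      rw [Finset.prod_insert hj]
      change fj ω * g ω = g ω * fj ω
      ring
    have hgfi : Integrable (g * fj) R.P :=
      hbd (hgm.mul hfjm) (fun ω => mul_nonneg (hg0 ω) (h0 _))
        fun ω => mul_le_one₀ (hg1 ω) (h0 _) (h1 _)
    have k2 : R.P[g * fj | R.H (famU W J)] =ᵐ[R.P] g * v :=
      (condExp_mul_of_stronglyMeasurable_left m2 hgfi hfji).trans (k1.mono fun ω hω => by
        change g ω * _ = g ω * _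
        rw [hω])
    have k3 : R.P[g * fj | R.G (XY W)] =ᵐ[R.P] R.P[g * v | R.G (XY W)] :=
      (condExp_condExp_of_le (f := g * fj) hGB (R.H_le _)).symm.trans (condExp_congr_ae k2)
    have hvm : StronglyMeasurable[R.G (XY W)] v := stronglyMeasurable_condExp
    have hgvi : Integrable (g * v) R.P :=
      (integrable_condExp (m := R.H (famU W J)) (f := g * fj)).congr k2
    have k4 : R.P[g * v | R.G (XY W)] =ᵐ[R.P] R.P[g | R.G (XY W)] * v :=
      condExp_mul_of_stronglyMeasurable_right hvm hgvi hgi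
    rw [hpr, Finset.card_insert_of_notMem hj]
    refine k3.trans (k4.trans ?_)
    filter_upwards [ih] with ω hω
    rw [Pi.mul_apply, hω, pow_succ]

/-- positivity of the integral of a product of copies -/
theorem prod_pos (W : Finset ℕ) (j₀ : ℕ) (hj₀ : j₀ ∉ W) (J : Finset ℕ) (hJ : Disjoint J W)
    {f : R.Ω → ℝ} (hf : StronglyMeasurable[R.H ({T | T ⊆ W} ∪ {T | T ⊆ {j₀}})] f)
    (h0 : ∀ ω, 0 ≤ f ω) (h1 : ∀ ω, f ω ≤ 1) (hpos : 0 < ∫ ω, f ω ∂(R.P)) :
    0 < ∫ ω, ∏ j ∈ J, f (R.shift (ysw j₀ j) ω) ∂(R.P) := by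
  have hfm : Measurable f := (hf.mono (R.H_le _)).measurable
  have hfi : Integrable f R.P :=
    Integrable.of_bound hfm.aestronglyMeasurable 1 (Eventually.of_forall fun ω => by
      rw [Real.norm_eq_abs, abs_of_nonneg (h0 ω)]; exact h1 ω)
  have hc := R.condExp_copies W j₀ hj₀ hf h0 h1 J hJ
  set v : R.Ω → ℝ := R.P[f | R.G (XY W)] with hv
  have e1 : ∫ ω, ∏ j ∈ J, f (R.shift (ysw j₀ j) ω) ∂(R.P) = ∫ ω, v ω ^ J.card ∂(R.P) := by
    rw [← integral_condExp (R.G_le (XY W)), integral_congr_ae hc]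
  have v0 : 0 ≤ᵐ[R.P] v := condExp_nonneg (Eventually.of_forall h0)
  have hvi : Integrable (fun ω => v ω ^ J.card) R.P :=
    (integrable_condExp (m := R.G (XY W))).congr hc
  have p0 : 0 ≤ᵐ[R.P] fun ω => v ω ^ J.card := v0.mono fun ω hω => pow_nonneg hω _
  rw [e1, integral_pos_iff_support_of_nonneg_ae p0 hvi]
  by_contra hcon
  have h2 : R.P (support fun ω => v ω ^ J.card) = 0 := by
    simpa using hcon
  have h3 : v =ᵐ[R.P] 0 := by
    rw [Filter.EventuallyEq, ae_iff]
    refine measure_mono_null (fun ω hω => ?_) h2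
    exact pow_ne_zero _ hω
  have h4 : ∫ ω, v ω ∂(R.P) = 0 := by
    rw [integral_congr_ae h3]; simp
  rw [hv, integral_condExp (R.G_le (XY W))] at h4
  exact hpos.ne' h4

end Realisation

end MSch
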