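import Pool.Agent.Lib.MP_369ee2_lc.ProdFam
import Pool.Agent.Lib.MP_369ee2_lc.PosProd
import Pool.Agent.Lib.MP_369ee2_lc.ShiftH
import Pool.Agent.Lib.MP_369ee2_lc.CondExpMP

/-!
# Few values (module E2)
-/

namespace MSch
open Function MeasureTheory Filter

namespace FewValues

/-- the growth contradiction -/
theorem growth {K N : ℕ} {B : ℝ} (hB : 1 ≤ B) (hK : B ^ 2 < K + 1)
    (h : ∀ s : ℕ, 1 ≤ s → ((K : ℝ) + 1) ^ (s * s) ≤ B ^ ((N + 2 * s).choose 2)) : False := by
  have hB0 : (0 : ℝ) < B := by linarith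
  set r : ℝ := (K + 1) / B ^ 2 with hr
  have hr1 : 1 < r := by
    rw [hr, lt_div_iff₀ (by positivity)]
    linarith
  have hKr : (K : ℝ) + 1 = r * B ^ 2 := by
    rw [hr]; field_simp
  have hchoose : ∀ s : ℕ, 1 ≤ s → (N + 2 * s).choose 2 ≤ 2 * (s * s) + s * (2 * N + N * N) := by
    intro s hs
    rw [Nat.choose_two_right]
    apply Nat.div_le_of_le_mul
    have h1 : (N + 2 * s) * (N + 2 * s - 1) ≤ (N + 2 * s) * (N + 2 * s) :=
      Nat.mul_le_mul_left _ (Nat.sub_le _ _)
    refine h1.trans ?_
    nlinarith [Nat.zero_le N, Nat.zero_le s, mul_le_mul_right (Nat.mul_le_mul hs (le_refl (N * N))) 1]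
  have h2 : ∀ s : ℕ, 1 ≤ s → r ^ s ≤ B ^ (2 * N + N * N) := by
    intro s hs
    have h3 := h s hs
    have h4 : B ^ ((N + 2 * s).choose 2) ≤ B ^ (2 * (s * s) + s * (2 * N + N * N)) :=
      pow_le_pow_right₀ hB (hchoose s hs)
    have h5 : r ^ (s * s) * B ^ (2 * (s * s)) ≤ B ^ (2 * (s * s)) * B ^ (s * (2 * N + N * N)) := by
      rw [← pow_add]
      refine le_trans (le_of_eq ?_) (h3.trans h4)
      rw [hKr, mul_pow, ← pow_mul]
    have h6 : r ^ (s * s) ≤ B ^ (s * (2 * N + N * N)) := by
      have h7 : (0 : ℝ) < B ^ (2 * (s * s)) := by positivity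
      rw [mul_comm] at h5
      exact le_of_mul_le_mul_left h5 h7
    have h8 : (r ^ s) ^ s ≤ (B ^ (2 * N + N * N)) ^ s := by
      rw [← pow_mul, ← pow_mul, mul_comm (2 * N + N * N) s]
      exact h6
    exact le_of_pow_le_pow_left₀ (by omega) (by positivity) h8
  obtain ⟨s, hs⟩ := pow_unbounded_of_one_lt (B ^ (2 * N + N * N)) hr1
  have h9 := h2 (s + 1) (by omega)
  have h10 : r ^ s ≤ r ^ (s + 1) := pow_le_pow_right₀ hr1.le (Nat.le_succ s)
  linarith

/-- at least `K + 1` of the values are positive -/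
def Many {T : Type} (K : ℕ) (q : T → ℝ) : Prop := ∃ A : Finset T, K + 1 ≤ A.card ∧ ∀ a ∈ A, 0 < q a

theorem not_many {T : Type} [Finite T] {K : ℕ} {q : T → ℝ} (h : ¬ Many K q) :
    Nat.card {a : T // 0 < q a} ≤ K := by
  classical
  cases nonempty_fintype T
  by_contra hcon
  apply h
  refine ⟨Finset.univ.filter (fun a => 0 < q a), ?_, fun a ha => (Finset.mem_filter.1 ha).2⟩
  rw [Nat.card_eq_fintype_card, Fintype.card_subtype] at hcon
  omega

theorem measurableSet_many {Ω T : Type} [Finite T] {m : MeasurableSpace Ω} {K : ℕ}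
    {q : T → Ω → ℝ} (hq : ∀ a, Measurable (q a)) :
    MeasurableSet {ω | Many K (fun a => q a ω)} := by
  classical
  cases nonempty_fintype T
  have h1 : {ω | Many K (fun a => q a ω)} =
      ⋃ A ∈ (Finset.univ.filter (fun A : Finset T => K + 1 ≤ A.card)),
        ⋂ a ∈ A, {ω | 0 < q a ω} := by
    ext ω
    simp only [Many, Set.mem_ofPred_eq, Finset.mem_filter, Finset.mem_univ, true_and,
      Set.mem_iUnion, Set.mem_iInter, exists_prop]
  rw [h1]
  refine Finset.measurableSet_biUnion _ fun A _ => Finset.measurableSet_biInter _ fun a _ => ?_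
  exact measurableSet_lt measurable_const (hq a)

end FewValues

namespace Realisation

open FewValues

variable {L : TypeSystem} (R : Realisation L)

/-- the conditional probabilities given the 1-types over the base -/
noncomputable def qq (N : ℕ) (b : Fin 2 ↪ ℕ) (a : L.T (N + 2)) : R.Ω → ℝ :=
  R.P[R.ind (xy N b) a | R.H (cardLe 1)]

theorem qq_comp_shift (N : ℕ) (b : Fin 2 ↪ ℕ) (a : L.T (N + 2)) (i j : ℕ) :
    R.qq N b a ∘ R.shift (ysw i j) =ᵐ[R.P] R.qq N (b.trans (Equiv.swap i j).toEmbedding) a := by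
  have h := condExp_comp_mp (R.shift_mp (ysw i j)) (R.H_le (cardLe 1)) (R.integrable_ind (xy N b) a)
  rw [R.comap_shift_cardLe, R.ind_comp_shift, xy_trans_ysw] at h
  exact h.symm

/-- counting: the values of positive probability on a complete bipartite pattern -/
theorem card_lower (K N s : ℕ) (u v : Fin s → ℕ) (hu : Injective u) (hv : Injective v)
    (huv : ∀ i j, u i ≠ v j)
    (b : Fin s × Fin s → Fin 2 ↪ ℕ) (hb0 : ∀ p, b p 0 = u p.1) (hb1 : ∀ p, b p 1 = v p.2)
    (hpos : ¬ ∀ᵐ ω ∂(R.P), ∃ p, ¬ Many K (fun a => R.qq N (b p) a ω)) :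
    (K + 1) ^ (s * s) ≤ Fintype.card (L.T (N + 2 * s)) := by
  classical
  -- the joint tuple
  have hc : ∃ c : Fin (2 * s) ↪ ℕ, ∀ p, Set.range (b p) ⊆ Set.range c := by
    let c' : Fin s ⊕ Fin s → ℕ := Sum.elim u v
    have hc' : Injective c' := by
      intro x y
      rcases x with x | x <;> rcases y with y | y
      · intro h; exact congrArg _ (hu h)
      · intro h; exact absurd h (huv _ _)
      · intro h; exact absurd h.symm (huv _ _)
      · intro h; exact congrArg _ (hv h)
    let e : Fin (2 * s) ≃ Fin s ⊕ Fin s := (finCongr (by ring)).trans finSumFinEquiv.symm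
    refine ⟨e.toEmbedding.trans ⟨c', hc'⟩, ?_⟩
    rintro p _ ⟨i, rfl⟩
    fin_cases i
    · refine ⟨e.symm (Sum.inl p.1), ?_⟩
      change c' (e (e.symm (Sum.inl p.1))) = b p 0
      rw [Equiv.apply_symm_apply, hb0]
      rfl
    · refine ⟨e.symm (Sum.inr p.2), ?_⟩
      change c' (e (e.symm (Sum.inr p.2))) = b p 1
      rw [Equiv.apply_symm_apply, hb1]
      rfl
  obtain ⟨c, hc⟩ := hc
  have hι : ∀ p, ∃ ι : Fin (N + 2) ↪ Fin (N + 2 * s), ι.trans (xy N c) = xy N (b p) := by
    intro p
    apply exists_trans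
    rw [range_xy, range_xy]
    exact Set.union_subset_union_right _ (Set.image_mono (hc p))
  choose ι hι using hι
  let Ψ : L.T (N + 2 * s) → (Fin s × Fin s → L.T (N + 2)) := fun υ p => L.res (ι p) υ
  -- the pair sets
  let Sp : Fin s × Fin s → Finset ℕ := fun p => Finset.univ.map (b p)
  have hSp : Injective Sp := by
    intro p q hpq
    have h1 : u p.1 ∈ Sp q := by
      rw [← hpq]
      exact Finset.mem_map.2 ⟨0, Finset.mem_univ _, hb0 p⟩
    have h2 : v p.2 ∈ Sp q := by
      rw [← hpq]
      exact Finset.mem_map.2 ⟨1, Finset.mem_univ _, hb1 p⟩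
    obtain ⟨i, _, hi⟩ := Finset.mem_map.1 h1
    obtain ⟨j, _, hj⟩ := Finset.mem_map.1 h2
    have e1 : p.1 = q.1 := by
      fin_cases i
      · have : b q 0 = u p.1 := hi
        rw [hb0] at this
        exact (hu this).symm
      · have : b q 1 = u p.1 := hi
        rw [hb1] at this
        exact absurd this.symm (huv _ _)
    have e2 : p.2 = q.2 := by
      fin_cases j
      · have : b q 0 = v p.2 := hj
        rw [hb0] at this
        exact absurd this (huv _ _)
      · have : b q 1 = v p.2 := hj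
        rw [hb1] at this
        exact (hv this).symm
    exact Prod.ext e1 e2
  -- the almost sure statements
  have hprod : ∀ᵐ ω ∂(R.P), ∀ w : Fin s × Fin s → L.T (N + 2),
      (R.P[∏ p, R.ind (xy N (b p)) (w p) | R.H (cardLe 1)]) ω = ∏ p, R.qq N (b p) (w p) ω := by
    refine ae_all_iff.2 fun w => ?_
    have h1 := R.condExp_prod_fam (k := 2) (by norm_num) Finset.univ Sp hSp.injOn
      (fun p _ => by simp [Sp]) (fun p => R.ind (xy N (b p)) (w p))
      (fun p _ => R.stronglyMeasurable_ind _ _ (range_xy_subset_XY N (b p))) (C := 1)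
      (fun p _ ω => R.abs_ind_le _ _ ω)
    filter_upwards [h1] with ω hω
    have h2 : (2 - 1 : ℕ) = 1 := rfl
    rw [h2] at hω
    rw [hω, Finset.prod_apply]
    rfl
  have hgood : ∃ ω, (∀ w : Fin s × Fin s → L.T (N + 2),
      (R.P[∏ p, R.ind (xy N (b p)) (w p) | R.H (cardLe 1)]) ω = ∏ p, R.qq N (b p) (w p) ω) ∧
      ∀ p, Many K (fun a => R.qq N (b p) a ω) := by
    by_contra hcon
    push Not at hcon
    apply hpos
    filter_upwards [hprod] with ω hω
    obtain ⟨p, hp⟩ := hcon ω hω
    exact ⟨p, hp⟩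
  obtain ⟨ω, hω1, hω2⟩ := hgood
  choose A hA1 hA2 using hω2
  have hsub : Fintype.piFinset A ⊆ Finset.univ.image Ψ := by
    intro w hw
    rw [Fintype.mem_piFinset] at hw
    have hpos : 0 < ∏ p, R.qq N (b p) (w p) ω := Finset.prod_pos fun p _ => hA2 p _ (hw p)
    rw [← hω1 w] at hpos
    have hne : ∃ ω', ∀ p, R.t (xy N (b p)) ω' = w p := by
      by_contra hcon
      push Not at hcon
      have hz : (∏ p, R.ind (xy N (b p)) (w p)) = (0 : R.Ω → ℝ) := by
        funext ω'
        obtain ⟨p, hp⟩ := hcon ω'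
        rw [Finset.prod_apply]
        apply Finset.prod_eq_zero (Finset.mem_univ p)
        simp [ind, hp]
      rw [hz, condExp_zero] at hpos
      exact lt_irrefl _ hpos
    obtain ⟨ω', hω'⟩ := hne
    refine Finset.mem_image.2 ⟨R.t (xy N c) ω', Finset.mem_univ _, ?_⟩
    funext p
    change L.res (ι p) (R.t (xy N c) ω') = w p
    rw [← R.comp, hι, hω']
  calc (K + 1) ^ (s * s) = ∏ _p : Fin s × Fin s, (K + 1) := by simp
    _ ≤ ∏ p, (A p).card := Finset.prod_le_prod' fun p _ => hA1 p
    _ = (Fintype.piFinset A).card := (Fintype.card_piFinset A).symm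
    _ ≤ (Finset.univ.image Ψ).card := Finset.card_le_card hsub
    _ ≤ Fintype.card (L.T (N + 2 * s)) := by
        refine Finset.card_image_le.trans ?_
        simp

theorem few_values (K : ℕ) (hK : L.B ^ 2 < K + 1) (N : ℕ) (b : Fin 2 ↪ ℕ) :
    ∀ᵐ ω ∂(R.P), Nat.card {a : L.T (N + 2) // 0 < (R.P[R.ind (xy N b) a | R.H (cardLe 1)]) ω} ≤ K := by
  classical
  -- index bookkeeping
  let i₀ := b 0
  let j₀ := b 1
  have hij : i₀ ≠ j₀ := fun h => absurd (b.injective h) (by decide)
  let 𝒟 : Set (Finset ℕ) := {T | T ⊆ {j₀}} ∪ {T | T ⊆ {i₀}}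
  -- the version measurable for `𝒟`
  let p : L.T (N + 2) → R.Ω → ℝ := fun a => R.P[R.ind (xy N b) a | R.H 𝒟]
  have hpq : ∀ a, p a =ᵐ[R.P] R.qq N b a := by
    intro a
    have hmap : Finset.univ.map b = {i₀, j₀} := by
      ext x
      simp only [Finset.mem_map, Finset.mem_univ, true_and, Finset.mem_insert,
        Finset.mem_singleton, Fin.exists_fin_two]
      exact ⟨fun h => h.imp Eq.symm Eq.symm, fun h => h.imp Eq.symm Eq.symm⟩
    have h1 := R.condExp_H {T | T ⊆ ({i₀, j₀} : Finset ℕ)} (cardLe 1)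
      (fun S T hTS hS => Finset.Subset.trans hTS hS)
      (fun S T hTS hS => (Finset.card_le_card hTS).trans hS)
      (by
        have : {T | T ⊆ ({i₀, j₀} : Finset ℕ)} = (({i₀, j₀} : Finset ℕ).powerset : Set (Finset ℕ)) := by
          ext T
          exact Finset.mem_powerset.symm
        rw [this]; exact Finset.finite_toSet _)
      ⟨Finset.empty_subset _, by simp [cardLe]⟩
      (f := R.ind (xy N b) a) (by
        rw [R.H_powerset]
        refine R.stronglyMeasurable_ind _ _ ?_
        rw [← hmap]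
        exact range_xy_subset_XY N b) (C := 1) (fun ω => R.abs_ind_le _ _ ω)
    have h2 : {T | T ⊆ ({i₀, j₀} : Finset ℕ)} ∩ cardLe 1 = 𝒟 := by
      ext T
      simp only [Set.mem_inter_iff, Set.mem_ofPred_eq, cardLe, 𝒟, Set.mem_union]
      constructor
      · rintro ⟨h3, h4⟩
        rcases Nat.lt_or_ge T.card 1 with h5 | h5
        · have : T = ∅ := Finset.card_eq_zero.1 (by omega)
          subst this
          exact Or.inl (Finset.empty_subset _)
        · obtain ⟨x, rfl⟩ := Finset.card_eq_one.1 (le_antisymm h4 h5)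
          have h6 := h3 (Finset.mem_singleton_self x)
          simp only [Finset.mem_insert, Finset.mem_singleton] at h6
          rcases h6 with rfl | rfl
          · exact Or.inr (Finset.Subset.refl _)
          · exact Or.inl (Finset.Subset.refl _)
      · rintro (h3 | h3)
        · refine ⟨h3.trans (by simp), (Finset.card_le_card h3).trans (by simp)⟩
        · refine ⟨h3.trans (by simp), (Finset.card_le_card h3).trans (by simp)⟩
    rw [h2] at h1
    exact h1.symm
  -- the indicator of `Many`
  let E : Set R.Ω := {ω | Many K (fun a => p a ω)}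
  let f : R.Ω → ℝ := Set.indicator E (fun _ => 1)
  have hE : MeasurableSet[R.H 𝒟] E :=
    measurableSet_many (m := R.H 𝒟) (fun a => stronglyMeasurable_condExp.measurable)
  have hf : StronglyMeasurable[R.H 𝒟] f :=
    (stronglyMeasurable_const).indicator hE
  have hf0 : ∀ ω, 0 ≤ f ω := fun ω => Set.indicator_nonneg (fun _ _ => zero_le_one) ω
  have hf1 : ∀ ω, f ω ≤ 1 := fun ω => by
    by_cases h : ω ∈ E
    · simp [f, h]
    · simp [f, h]
  have hfE : ∀ ω, f ω ≠ 0 → Many K (fun a => p a ω) := by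
    intro ω hω
    by_contra hcon
    have h9 : ω ∉ E := hcon
    exact hω (Set.indicator_of_notMem h9 _)
  by_contra hmain
  -- positivity of the integral of `f`
  have hpos : 0 < ∫ ω, f ω ∂(R.P) := by
    have hfi : Integrable f R.P := R.integrable_of_bdd ((hf.mono (R.H_le 𝒟)).measurable) (C := 1)
      (fun ω => by rw [abs_of_nonneg (hf0 ω)]; exact hf1 ω)
    rcases (integral_nonneg (μ := R.P) (f := f) hf0).lt_or_eq with h | h
    · exact h
    · exfalso
      apply hmain
      have h0 : f =ᵐ[R.P] 0 := (integral_eq_zero_iff_of_nonneg hf0 hfi).1 h.symm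
      filter_upwards [h0, ae_all_iff.2 hpq] with ω hω hω2
      apply not_many
      intro hM
      have h3 : ω ∈ E := by
        change Many K (fun a => p a ω)
        obtain ⟨A, hA, hA2⟩ := hM
        exact ⟨A, hA, fun a ha => by
          change 0 < p a ω
          rw [hω2 a]; exact hA2 a ha⟩
      have h4 : f ω = 1 := Set.indicator_of_mem h3 _
      rw [h4] at hω
      exact one_ne_zero hω
  have hB1 : 1 ≤ L.B := by
    have h1 := L.card_le 2
    have h2 : 0 < Fintype.card (L.T 2) := by
      rw [Fintype.card_pos_iff]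
      by_contra hcon
      rw [not_nonempty_iff] at hcon
      have := L.D_sum 2
      rw [Finset.univ_eq_empty, Finset.sum_empty] at this
      exact zero_ne_one this
    have h3 : (1 : ℝ) ≤ Fintype.card (L.T 2) := by exact_mod_cast h2
    have h4 : L.B ^ (Nat.choose 2 2) = L.B := by simp
    rw [h4] at h1
    linarith
  refine FewValues.growth (K := K) (N := N) hB1 hK fun s hs => ?_
  refine le_trans ?_ (L.card_le (N + 2 * s))
  have key : (K + 1) ^ (s * s) ≤ Fintype.card (L.T (N + 2 * s)) := by
    let m := max i₀ j₀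
    let u : Fin s → ℕ := fun l => m + 1 + l
    let v : Fin s → ℕ := fun l => m + 1 + s + l
    have hu : Injective u := fun x y h => Fin.ext (by simp only [u] at h; omega)
    have hv : Injective v := fun x y h => Fin.ext (by simp only [v] at h; omega)
    have huv : ∀ i j, u i ≠ v j := fun i j h => by
      simp only [u, v] at h
      have := i.2
      omega
    have hi0 : i₀ ≤ m := le_max_left _ _
    have hj0 : j₀ ≤ m := le_max_right _ _
    let bb : Fin s × Fin s → Fin 2 ↪ ℕ := fun q =>
      (b.trans (Equiv.swap i₀ (u q.1)).toEmbedding).trans (Equiv.swap j₀ (v q.2)).toEmbedding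
    have hbb0 : ∀ q, bb q 0 = u q.1 := by
      intro q
      change Equiv.swap j₀ (v q.2) (Equiv.swap i₀ (u q.1) (b 0)) = u q.1
      have h1 : Equiv.swap i₀ (u q.1) (b 0) = u q.1 := Equiv.swap_apply_left _ _
      rw [h1]
      refine Equiv.swap_apply_of_ne_of_ne ?_ (huv _ _)
      simp only [u]
      omega
    have hbb1 : ∀ q, bb q 1 = v q.2 := by
      intro q
      change Equiv.swap j₀ (v q.2) (Equiv.swap i₀ (u q.1) (b 1)) = v q.2
      have h1 : Equiv.swap i₀ (u q.1) (b 1) = j₀ := by
        refine Equiv.swap_apply_of_ne_of_ne hij.symm ?_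
        change j₀ ≠ _
        simp only [u]
        omega
      rw [h1]
      exact Equiv.swap_apply_left _ _
    refine R.card_lower K N s u v hu hv huv bb hbb0 hbb1 ?_
    intro hnull
    -- first application of `prod_pos`
    let I : Finset ℕ := Finset.univ.image u
    let J : Finset ℕ := Finset.univ.image v
    have hIj : Disjoint I {j₀} := by
      rw [Finset.disjoint_singleton_right]
      intro h
      obtain ⟨l, _, hl⟩ := Finset.mem_image.1 h
      simp only [u] at hl
      omega
    have hJI : Disjoint J I := by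
      rw [Finset.disjoint_left]
      intro x hx hx'
      obtain ⟨l, _, hl⟩ := Finset.mem_image.1 hx
      obtain ⟨l', _, hl'⟩ := Finset.mem_image.1 hx'
      exact huv l' l (hl'.trans hl.symm)
    have hj0I : j₀ ∉ I := by
      intro h
      exact (Finset.disjoint_singleton_right.1 hIj) h
    have h1 := R.prod_pos {j₀} i₀ (by simpa using hij) I hIj hf hf0 hf1 hpos
    let f₂ : R.Ω → ℝ := fun ω => ∏ i ∈ I, f (R.shift (ysw i₀ i) ω)
    have hf2 : StronglyMeasurable[R.H ({T | T ⊆ I} ∪ {T | T ⊆ {j₀}})] f₂ := by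
      refine Finset.stronglyMeasurable_fun_prod _ fun i hi => ?_
      have h2 : StronglyMeasurable[(R.H 𝒟).comap (R.shift (ysw i₀ i))]
          (f ∘ R.shift (ysw i₀ i)) :=
        hf.comp_measurable (comap_measurable (R.shift (ysw i₀ i)))
      refine StronglyMeasurable.mono h2 ?_
      rw [R.comap_shift_H]
      apply R.H_mono
      rintro _ ⟨T, hT, rfl⟩
      obtain ⟨l, _, hl⟩ := Finset.mem_image.1 hi
      have hne : j₀ ≠ i := by
        rw [← hl]
        simp only [u]
        omega
      rcases hT with hT | hT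
      · right
        intro x hx
        obtain ⟨y, hy, rfl⟩ := Finset.mem_map.1 hx
        have h3 := hT hy
        rw [Finset.mem_singleton] at h3
        subst h3
        rw [Finset.mem_singleton]
        exact Equiv.swap_apply_of_ne_of_ne hij.symm hne
      · left
        intro x hx
        obtain ⟨y, hy, rfl⟩ := Finset.mem_map.1 hx
        have h3 := hT hy
        rw [Finset.mem_singleton] at h3
        subst h3
        have h4 : (Equiv.swap i₀ i).toEmbedding i₀ = i := Equiv.swap_apply_left _ _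
        rw [h4]
        exact hi
    have h2 := R.prod_pos I j₀ hj0I J hJI hf2 (fun ω => Finset.prod_nonneg fun i _ => hf0 _)
      (fun ω => Finset.prod_le_one (fun i _ => hf0 _) (fun i _ => hf1 _)) h1
    -- almost sure identification
    have h3 : ∀ᵐ ω ∂(R.P), ∀ q : Fin s × Fin s, ∀ a,
        p a (R.shift (ysw i₀ (u q.1)) (R.shift (ysw j₀ (v q.2)) ω)) = R.qq N (bb q) a ω := by
      refine ae_all_iff.2 fun q => ae_all_iff.2 fun a => ?_
      have e1 : p a ∘ R.shift (ysw i₀ (u q.1)) =ᵐ[R.P]
          R.qq N (b.trans (Equiv.swap i₀ (u q.1)).toEmbedding) a :=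
        ((R.shift_mp (ysw i₀ (u q.1))).quasiMeasurePreserving.ae_eq_comp (hpq a)).trans
          (R.qq_comp_shift N b a i₀ (u q.1))
      have e2 := ((R.shift_mp (ysw j₀ (v q.2))).quasiMeasurePreserving.ae_eq_comp e1).trans
        (R.qq_comp_shift N (b.trans (Equiv.swap i₀ (u q.1)).toEmbedding) a j₀ (v q.2))
      exact e2
    have h4 : (fun ω => ∏ j ∈ J, f₂ (R.shift (ysw j₀ j) ω)) =ᵐ[R.P] 0 := by
      filter_upwards [hnull, h3] with ω hω1 hω2
      obtain ⟨q, hq⟩ := hω1
      change ∏ j ∈ J, f₂ (R.shift (ysw j₀ j) ω) = 0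
      apply Finset.prod_eq_zero (i := v q.2) (Finset.mem_image_of_mem _ (Finset.mem_univ _))
      apply Finset.prod_eq_zero (i := u q.1) (Finset.mem_image_of_mem _ (Finset.mem_univ _))
      by_contra hne
      apply hq
      have h5 := hfE _ hne
      have h6 : (fun a => p a (R.shift (ysw i₀ (u q.1)) (R.shift (ysw j₀ (v q.2)) ω))) =
          fun a => R.qq N (bb q) a ω := funext fun a => hω2 q a
      rw [h6] at h5
      exact h5
    have h5 := integral_congr_ae h4
    rw [h5] at h2
    simp at h2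
  exact_mod_cast key

end Realisation

end MSch
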