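import Pool.Agent.Lib.MP_369ee2_lc.GenIndep

/-!
# Product formula (module PF)
-/

namespace MSch
open Function MeasureTheory Filter
namespace Realisation
variable {L : TypeSystem} (R : Realisation L)

theorem _root_.MSch.PF.powerset_finite (S : Finset ℕ) : {T : Finset ℕ | T ⊆ S}.Finite := by
  have : {T : Finset ℕ | T ⊆ S} = (S.powerset : Set (Finset ℕ)) := by
    ext T
    exact Finset.mem_powerset.symm
  rw [this]
  exact Finset.finite_toSet _

theorem condExp_single {k : ℕ} (hk : 1 ≤ k) (S : Finset ℕ) (hS : S.card = k)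
    {g : R.Ω → ℝ} (hg : StronglyMeasurable[R.G (XY S)] g) {C : ℝ} (hC : ∀ ω, |g ω| ≤ C) :
    R.P[g | R.H (cardLe (k - 1))] =ᵐ[R.P] R.P[g | R.H {T | T ⊂ S}] := by
  have h := R.condExp_H {T | T ⊆ S} (cardLe (k - 1))
    (fun _ _ h1 h2 => Finset.Subset.trans h1 h2)
    (fun _ _ h1 h2 => (Finset.card_le_card h1).trans h2) (PF.powerset_finite S)
    ⟨Finset.empty_subset _, by simp [cardLe]⟩ (f := g) (by rw [R.H_powerset]; exact hg) hC
  have h2 : {T | T ⊆ S} ∩ cardLe (k - 1) = {T | T ⊂ S} := by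
    ext T
    simp only [Set.mem_inter_iff, Set.mem_ofPred_eq, cardLe]
    constructor
    · rintro ⟨h3, h4⟩
      refine Finset.ssubset_iff_subset_ne.2 ⟨h3, ?_⟩
      rintro rfl
      omega
    · intro h3
      have := Finset.card_lt_card h3
      exact ⟨h3.1, by omega⟩
  rw [h2] at h
  exact h

theorem condExp_prod {k : ℕ} (hk : 1 ≤ k) (𝒮 : Finset (Finset ℕ)) (h𝒮 : ∀ S ∈ 𝒮, S.card = k)
    (g : Finset ℕ → R.Ω → ℝ) (hg : ∀ S ∈ 𝒮, StronglyMeasurable[R.G (XY S)] (g S))
    {C : ℝ} (hC : ∀ S ∈ 𝒮, ∀ ω, |g S ω| ≤ C) :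
    R.P[∏ S ∈ 𝒮, g S | R.H (cardLe (k - 1))] =ᵐ[R.P]
      ∏ S ∈ 𝒮, R.P[g S | R.H (cardLe (k - 1))] := by
  classical
  -- we may assume `0 ≤ C`
  wlog hC0 : 0 ≤ C with H
  · exact H R hk 𝒮 h𝒮 g hg (C := |C|) (fun S hS ω => (hC S hS ω).trans (le_abs_self C))
      (abs_nonneg C)
  have hle := R.H_le (cardLe (k - 1))
  induction 𝒮 using Finset.induction_on with
  | empty =>
    rw [Finset.prod_empty, Finset.prod_empty]
    have h1 := condExp_of_stronglyMeasurable (μ := R.P) hle
      (f := (1 : R.Ω → ℝ)) stronglyMeasurable_one (integrable_const 1)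
    rw [h1]
  | insert S₀ 𝒮 hS₀ ih =>
    have ih' := ih (fun S hS => h𝒮 S (Finset.mem_insert_of_mem hS))
      (fun S hS => hg S (Finset.mem_insert_of_mem hS))
      (fun S hS => hC S (Finset.mem_insert_of_mem hS))
    rw [Finset.prod_insert hS₀, Finset.prod_insert hS₀]
    have hcard := h𝒮 S₀ (Finset.mem_insert_self _ _)
    have hg0 := hg S₀ (Finset.mem_insert_self _ _)
    have hC1 := hC S₀ (Finset.mem_insert_self _ _)
    set F : R.Ω → ℝ := ∏ S ∈ 𝒮, g S with hF
    let B : Set (Finset ℕ) := {T | T.card ≤ k ∧ T ≠ S₀}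
    have hB : IsLowerSet B := by
      intro S T hTS hS
      refine ⟨(Finset.card_le_card hTS).trans hS.1, ?_⟩
      rintro rfl
      apply hS.2
      exact (Finset.eq_of_subset_of_card_le hTS (by rw [hcard]; exact hS.1)).symm
    have hBsub : cardLe (k - 1) ⊆ B := by
      intro T hT
      have hT' : T.card ≤ k - 1 := hT
      refine ⟨by omega, ?_⟩
      rintro rfl
      omega
    have hFm : StronglyMeasurable[R.H B] F := by
      refine Finset.stronglyMeasurable_prod _ fun S hS => ?_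
      refine StronglyMeasurable.mono (hg S (Finset.mem_insert_of_mem hS)) (R.G_le_H ?_)
      refine ⟨(h𝒮 S (Finset.mem_insert_of_mem hS)).le, ?_⟩
      rintro rfl
      exact hS₀ hS
    have hFb : ∀ ω, |F ω| ≤ C ^ 𝒮.card := by
      intro ω
      rw [hF, Finset.prod_apply, Finset.abs_prod]
      calc ∏ S ∈ 𝒮, |g S ω| ≤ ∏ _S ∈ 𝒮, C :=
            Finset.prod_le_prod (fun _ _ => abs_nonneg _)
              (fun S hS => hC S (Finset.mem_insert_of_mem hS) ω)
        _ = C ^ 𝒮.card := by simp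
    have hg0i : Integrable (g S₀) R.P := R.integrable_of_bdd
      ((hg0.mono (R.G_le _)).measurable) hC1
    have hFi : Integrable F R.P := R.integrable_of_bdd ((hFm.mono (R.H_le B)).measurable) hFb
    have hgF : Integrable (g S₀ * F) R.P := by
      refine R.integrable_of_bdd (C := C * C ^ 𝒮.card)
        (((hg0.mono (R.G_le _)).measurable).mul ((hFm.mono (R.H_le B)).measurable)) ?_
      intro ω
      rw [Pi.mul_apply, abs_mul]
      exact mul_le_mul (hC1 ω) (hFb ω) (abs_nonneg _) hC0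
    -- conditional expectation of `g S₀` given `H B`
    have e1 := R.condExp_H {T | T ⊆ S₀} B
      (fun _ _ h1 h2 => Finset.Subset.trans h1 h2) hB (PF.powerset_finite S₀)
      ⟨Finset.empty_subset _, hBsub (by simp [cardLe])⟩ (f := g S₀)
      (by rw [R.H_powerset]; exact hg0) hC1
    have h2 : {T | T ⊆ S₀} ∩ B = {T | T ⊂ S₀} := by
      ext T
      simp only [Set.mem_inter_iff, Set.mem_ofPred_eq, B]
      constructor
      · rintro ⟨h3, h4, h5⟩
        exact Finset.ssubset_iff_subset_ne.2 ⟨h3, h5⟩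
      · intro h3
        have := Finset.card_lt_card h3
        refine ⟨h3.1, by omega, ?_⟩
        rintro rfl
        exact (ssubset_irrefl _) h3
    rw [h2] at e1
    have e2 := e1.trans (R.condExp_single hk S₀ hcard hg0 hC1).symm
    set q : R.Ω → ℝ := R.P[g S₀ | R.H (cardLe (k - 1))] with hq
    have hqm : StronglyMeasurable[R.H (cardLe (k - 1))] q := stronglyMeasurable_condExp
    have hqb : ∀ᵐ ω ∂(R.P), ‖q ω‖ ≤ C := by
      have := MT.condExp_bdd (m := R.H (cardLe (k - 1))) (μ := R.P) (f := g S₀)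
        (Eventually.of_forall hC1)
      exact this
    -- E[g F | H B] = q F
    have e3 : R.P[g S₀ * F | R.H B] =ᵐ[R.P] q * F := by
      refine (condExp_mul_of_stronglyMeasurable_right hFm hgF hg0i).trans ?_
      filter_upwards [e2] with ω hω
      rw [Pi.mul_apply, Pi.mul_apply, hω]
    have e4 : R.P[R.P[g S₀ * F | R.H B] | R.H (cardLe (k - 1))] =ᵐ[R.P]
        R.P[g S₀ * F | R.H (cardLe (k - 1))] :=
      condExp_condExp_of_le (R.H_mono hBsub) (R.H_le B)
    refine e4.symm.trans ((condExp_congr_ae e3).trans ?_)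
    refine (condExp_stronglyMeasurable_mul_of_bound hle hqm hFi C hqb).trans ?_
    filter_upwards [ih'] with ω hω
    rw [Pi.mul_apply, Pi.mul_apply, hω]

end Realisation
end MSch
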