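import Pool.Agent.Lib.MP_369ee2_lc.TDefs
import Pool.Agent.Lib.MP_369ee2_lc.ProdFormula
import Pool.Agent.Lib.MP_369ee2_lc.CondExpMP
import Pool.Agent.Lib.MP_369ee2_lc.CondIndep

/-!
# Types of `k ≥ 3` points are determined by the types of fewer points (module D)
-/

namespace MSch

open Function MeasureTheory Filter
open scoped Topology BigOperators

namespace HighTypes

/-- permute the odd numbers -/
def yp (π : Equiv.Perm ℕ) : ℕ ↪ ℕ :=
  ⟨fun n => if n % 2 = 0 then n else 2 * π (n / 2) + 1, by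
    intro a b hab
    have hab' : (if a % 2 = 0 then a else 2 * π (a / 2) + 1) =
      (if b % 2 = 0 then b else 2 * π (b / 2) + 1) := hab
    split_ifs at hab' with h1 h2 h2
    · exact hab'
    · omega
    · omega
    · have h3 : π (a / 2) = π (b / 2) := by omega
      have h4 := π.injective h3
      omega⟩

theorem yp_xx (π : Equiv.Perm ℕ) (n : ℕ) : yp π (xx n) = xx n := by
  change (if (xx n) % 2 = 0 then xx n else _) = _
  rw [if_pos]
  rw [xx_apply]
  omega

theorem yp_yy (π : Equiv.Perm ℕ) (n : ℕ) : yp π (yy n) = yy (π n) := by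
  change (if (yy n) % 2 = 0 then yy n else 2 * π (yy n / 2) + 1) = _
  rw [if_neg, yy_apply, yy_apply]
  · have : (2 * n + 1) / 2 = n := by omega
    rw [this]
  · rw [yy_apply]
    omega

theorem yp_image_XY (π : Equiv.Perm ℕ) (S : Finset ℕ) :
    yp π '' XY S = XY (S.map π.toEmbedding) := by
  unfold XY
  rw [Set.image_union]
  congr 1
  · ext x
    constructor
    · rintro ⟨_, ⟨n, rfl⟩, rfl⟩
      exact ⟨n, (yp_xx π n).symm⟩
    · rintro ⟨n, rfl⟩
      exact ⟨xx n, ⟨n, rfl⟩, yp_xx π n⟩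
  · ext x
    constructor
    · rintro ⟨_, ⟨n, hn, rfl⟩, rfl⟩
      refine ⟨π n, ?_, (yp_yy π n).symm⟩
      simp only [Finset.coe_map, Equiv.coe_toEmbedding]
      exact ⟨n, hn, rfl⟩
    · rintro ⟨_, hn, rfl⟩
      simp only [Finset.coe_map, Equiv.coe_toEmbedding] at hn
      obtain ⟨n, hn, rfl⟩ := hn
      exact ⟨yy n, ⟨n, hn, rfl⟩, yp_yy π n⟩

theorem xy_trans_yp (N : ℕ) {k : ℕ} (b : Fin k ↪ ℕ) (π : Equiv.Perm ℕ) :
    (xy N b).trans (yp π) = xy N (b.trans π.toEmbedding) := by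
  ext l
  refine Fin.addCases (fun l => ?_) (fun l => ?_) l
  · change yp π (xy N b (Fin.castAdd k l)) = _
    rw [xy_left, xy_left, yp_xx]
  · change yp π (xy N b (Fin.natAdd N l)) = _
    rw [xy_right, xy_right, yp_yy]
    rfl

/-- two injective tuples are related by a permutation -/
theorem exists_perm {k : ℕ} (b b' : Fin k ↪ ℕ) :
    ∃ π : Equiv.Perm ℕ, b.trans π.toEmbedding = b' := by
  obtain ⟨π, hπ⟩ := Equiv.Perm.exists_extending_pair b b' b.injective b'.injective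
  refine ⟨π, ?_⟩
  ext i
  have := hπ
  simp_all

variable {L : TypeSystem} (R : Realisation L)

theorem comap_cardLe (π : Equiv.Perm ℕ) (k : ℕ) :
    (R.H (cardLe k)).comap (R.shift (yp π)) = R.H (cardLe k) := by
  have h1 : (R.H (cardLe k)).comap (R.shift (yp π)) =
      R.H ((fun S => S.map π.toEmbedding) '' cardLe k) := by
    unfold Realisation.H
    rw [iSup_image]
    simp only [MeasurableSpace.comap_iSup, R.comap_shift_G, yp_image_XY]
  rw [h1]
  congr 1
  ext S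
  constructor
  · rintro ⟨T, hT, rfl⟩
    simpa [cardLe] using hT
  · intro hS
    refine ⟨S.map π.symm.toEmbedding, ?_, ?_⟩
    · simpa [cardLe] using hS
    · simp only
      rw [Finset.map_map]
      convert Finset.map_refl
      ext x
      simp

/-- indicator of an event on the types -/
noncomputable def fE {N k : ℕ} (U : Set (L.T (N + k))) (b : Fin k ↪ ℕ) : R.Ω → ℝ :=
  Set.indicator (R.t (xy N b) ⁻¹' U) (fun _ => 1)

theorem fE_meas {N k : ℕ} (U : Set (L.T (N + k))) (b : Fin k ↪ ℕ) :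
    StronglyMeasurable[R.G (XY (Finset.univ.map b))] (fE R U b) := by
  refine Measurable.stronglyMeasurable ?_
  refine Measurable.indicator measurable_const ?_
  exact R.meas_G (xy N b) (range_xy_subset_XY N b) trivial

theorem fE_cases {N k : ℕ} (U : Set (L.T (N + k))) (b : Fin k ↪ ℕ) (ω : R.Ω) :
    (R.t (xy N b) ω ∈ U ∧ fE R U b ω = 1) ∨ (R.t (xy N b) ω ∉ U ∧ fE R U b ω = 0) := by
  by_cases h : R.t (xy N b) ω ∈ U
  · exact Or.inl ⟨h, Set.indicator_of_mem (by exact h) _⟩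
  · exact Or.inr ⟨h, Set.indicator_of_notMem (by exact h) _⟩

theorem fE_nonneg {N k : ℕ} (U : Set (L.T (N + k))) (b : Fin k ↪ ℕ) (ω : R.Ω) :
    0 ≤ fE R U b ω := by
  rcases fE_cases R U b ω with ⟨_, h⟩ | ⟨_, h⟩ <;> rw [h]
  exact zero_le_one

theorem fE_le_one {N k : ℕ} (U : Set (L.T (N + k))) (b : Fin k ↪ ℕ) (ω : R.Ω) :
    fE R U b ω ≤ 1 := by
  rcases fE_cases R U b ω with ⟨_, h⟩ | ⟨_, h⟩ <;> rw [h]
  exact zero_le_one

theorem fE_abs {N k : ℕ} (U : Set (L.T (N + k))) (b : Fin k ↪ ℕ) (ω : R.Ω) :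
    |fE R U b ω| ≤ 1 := by
  rw [abs_of_nonneg (fE_nonneg R U b ω)]
  exact fE_le_one R U b ω

theorem fE_measurable {N k : ℕ} (U : Set (L.T (N + k))) (b : Fin k ↪ ℕ) :
    Measurable (fE R U b) :=
  ((fE_meas R U b).mono (R.G_le _)).measurable

theorem fE_int {N k : ℕ} (U : Set (L.T (N + k))) (b : Fin k ↪ ℕ) :
    Integrable (fE R U b) R.P :=
  R.integrable_of_bdd (fE_measurable R U b) (fE_abs R U b)

theorem fE_shift {N k : ℕ} (U : Set (L.T (N + k))) (b : Fin k ↪ ℕ) (π : Equiv.Perm ℕ) :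
    fE R U b ∘ R.shift (yp π) = fE R U (b.trans π.toEmbedding) := by
  funext ω
  have h1 : R.t (xy N b) (R.shift (yp π) ω) = R.t (xy N (b.trans π.toEmbedding)) ω := by
    rw [R.t_shift, xy_trans_yp]
  simp only [Function.comp, fE]
  by_cases h : R.t (xy N b) (R.shift (yp π) ω) ∈ U
  · rw [Set.indicator_of_mem (by exact h), Set.indicator_of_mem]
    show R.t (xy N (b.trans π.toEmbedding)) ω ∈ U
    rw [← h1]
    exact h
  · rw [Set.indicator_of_notMem (by exact h), Set.indicator_of_notMem]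
    show R.t (xy N (b.trans π.toEmbedding)) ω ∉ U
    rw [← h1]
    exact h

/-- conditional probability given the lower types -/
noncomputable def Mc (m : ℕ) {N k : ℕ} (U : Set (L.T (N + k))) (b : Fin k ↪ ℕ) : R.Ω → ℝ :=
  R.P[fE R U b | R.H (cardLe m)]

theorem Mc_sm (m : ℕ) {N k : ℕ} (U : Set (L.T (N + k))) (b : Fin k ↪ ℕ) :
    StronglyMeasurable[R.H (cardLe m)] (Mc R m U b) := stronglyMeasurable_condExp

theorem Mc_meas (m : ℕ) {N k : ℕ} (U : Set (L.T (N + k))) (b : Fin k ↪ ℕ) :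
    Measurable (Mc R m U b) := ((Mc_sm R m U b).mono (R.H_le _)).measurable

theorem Mc_int (m : ℕ) {N k : ℕ} (U : Set (L.T (N + k))) (b : Fin k ↪ ℕ) :
    Integrable (Mc R m U b) R.P := integrable_condExp

theorem Mc_bd (m : ℕ) {N k : ℕ} (U : Set (L.T (N + k))) (b : Fin k ↪ ℕ) :
    ∀ᵐ ω ∂(R.P), 0 ≤ Mc R m U b ω ∧ Mc R m U b ω ≤ 1 := by
  have h1 : 0 ≤ᵐ[R.P] Mc R m U b :=
    condExp_nonneg (Eventually.of_forall fun ω => fE_nonneg R U b ω)
  have h2 : Mc R m U b ≤ᵐ[R.P] R.P[(fun _ => (1 : ℝ)) | R.H (cardLe m)] :=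
    condExp_mono (fE_int R U b) (integrable_const 1)
      (Eventually.of_forall fun ω => fE_le_one R U b ω)
  rw [condExp_const (R.H_le _)] at h2
  filter_upwards [h1, h2] with ω a b using ⟨a, b⟩

/-- the laws of all the conditional probabilities agree -/
theorem Mc_law (m : ℕ) {N k : ℕ} (U : Set (L.T (N + k))) (b b' : Fin k ↪ ℕ) {φ : ℝ → ℝ}
    (hφ : Measurable φ) :
    ∫ ω, φ (Mc R m U b' ω) ∂(R.P) = ∫ ω, φ (Mc R m U b ω) ∂(R.P) := by
  obtain ⟨π, rfl⟩ := exists_perm b b'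
  have h1 := condExp_comp_mp (R.shift_mp (yp π)) (R.H_le (cardLe m)) (fE_int R U b)
  rw [comap_cardLe, fE_shift] at h1
  have h2 : ∫ ω, φ (Mc R m U (b.trans π.toEmbedding) ω) ∂(R.P) =
      ∫ ω, φ (Mc R m U b (R.shift (yp π) ω)) ∂(R.P) := by
    refine integral_congr_ae ?_
    filter_upwards [h1] with ω hω
    exact congrArg φ hω
  rw [h2]
  have h3 : ∫ ω, φ (Mc R m U b ω) ∂(R.P.map (R.shift (yp π))) =
      ∫ ω, φ (Mc R m U b (R.shift (yp π) ω)) ∂(R.P) :=
    integral_map (R.shift_mp (yp π)).measurable.aemeasurable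
      (hφ.comp (Mc_meas R m U b)).aestronglyMeasurable
  rw [← h3, (R.shift_mp (yp π)).map_eq]

/-- enumeration of a finite set -/
noncomputable def en (k : ℕ) (S : Finset ℕ) : Fin k ↪ ℕ :=
  if h : S.card = k then (S.orderEmbOfFin h).toEmbedding else Fin.valEmbedding

theorem en_map {k : ℕ} {S : Finset ℕ} (h : S.card = k) : Finset.univ.map (en k S) = S := by
  unfold en
  rw [dif_pos h]
  ext x
  simp only [Finset.mem_map, Finset.mem_univ, true_and]
  have := Finset.range_orderEmbOfFin S h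
  constructor
  · rintro ⟨i, rfl⟩
    exact Finset.orderEmbOfFin_mem S h i
  · intro hx
    have h2 : x ∈ Set.range (S.orderEmbOfFin h) := by rw [this]; exact hx
    exact h2

/-- the basic inequality -/
theorem key {k : ℕ} (hk : 1 ≤ k) (N M : ℕ) (U : Set (L.T (N + k))) :
    ∀ᵐ ω ∂(R.P), 1 ≤ (Fintype.card (L.T (N + M)) : ℝ) *
      ∏ S ∈ (Finset.range M).powersetCard k,
        max (Mc R (k - 1) U (en k S) ω) (1 - Mc R (k - 1) U (en k S) ω) := by
  classical
  obtain ⟨𝒮, h𝒮⟩ : ∃ 𝒮 : Finset (Finset ℕ), 𝒮 = (Finset.range M).powersetCard k := ⟨_, rfl⟩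
  rw [← h𝒮]
  have hcard : ∀ S ∈ 𝒮, S.card = k := fun S hS => by
    rw [h𝒮] at hS
    exact (Finset.mem_powersetCard.mp hS).2
  have hι : ∀ S ∈ 𝒮, ∃ ι : Fin (N + k) ↪ Fin (N + M),
      ι.trans (xy N (Fin.valEmbedding : Fin M ↪ ℕ)) = xy N (en k S) := by
    intro S hS
    refine exists_trans _ _ ?_
    rw [range_xy, range_xy]
    refine Set.union_subset_union_right _ (Set.image_mono ?_)
    rintro _ ⟨i, rfl⟩
    have h2 : en k S i ∈ S := by
      have h4 := en_map (hcard S hS)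
      have h5 : en k S i ∈ Finset.univ.map (en k S) :=
        Finset.mem_map_of_mem _ (Finset.mem_univ i)
      rwa [h4] at h5
    rw [h𝒮] at hS
    have h3 := Finset.mem_range.mp ((Finset.mem_powersetCard.mp hS).1 h2)
    exact ⟨⟨en k S i, h3⟩, rfl⟩
  let p : L.T (N + M) → Finset ℕ → Prop := fun v S =>
    ∃ ω', R.t (xy N (Fin.valEmbedding : Fin M ↪ ℕ)) ω' = v ∧ R.t (xy N (en k S)) ω' ∈ U
  have hp : ∀ ω, ∀ S ∈ 𝒮, p (R.t (xy N (Fin.valEmbedding : Fin M ↪ ℕ)) ω) S →
      R.t (xy N (en k S)) ω ∈ U := by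
    rintro ω S hS ⟨ω', h1, h2⟩
    obtain ⟨ι, hι⟩ := hι S hS
    rw [← hι, R.comp] at h2 ⊢
    rwa [← h1]
  let g : L.T (N + M) → Finset ℕ → R.Ω → ℝ := fun v S =>
    if p v S then fE R U (en k S) else fun ω => 1 - fE R U (en k S) ω
  have hg0 : ∀ v S ω, 0 ≤ g v S ω := by
    intro v S ω
    show 0 ≤ (if p v S then fE R U (en k S) else fun ω => 1 - fE R U (en k S) ω) ω
    split_ifs
    · exact fE_nonneg R U _ ω
    · exact sub_nonneg.mpr (fE_le_one R U _ ω)
  have hg1 : ∀ v S ω, g v S ω ≤ 1 := by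
    intro v S ω
    show (if p v S then fE R U (en k S) else fun ω => 1 - fE R U (en k S) ω) ω ≤ 1
    split_ifs
    · exact fE_le_one R U _ ω
    · have := fE_nonneg R U (en k S) ω
      show 1 - fE R U (en k S) ω ≤ 1
      linarith
  have hgm : ∀ v, ∀ S ∈ 𝒮, StronglyMeasurable[R.G (XY S)] (g v S) := by
    intro v S hS
    have h1 : StronglyMeasurable[R.G (XY S)] (fE R U (en k S)) := by
      have := fE_meas R U (en k S)
      rwa [en_map (hcard S hS)] at this
    show StronglyMeasurable[R.G (XY S)]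
      (if p v S then fE R U (en k S) else fun ω => 1 - fE R U (en k S) ω)
    split_ifs
    · exact h1
    · exact stronglyMeasurable_const.sub h1
  have hgm' : ∀ v, ∀ S ∈ 𝒮, Measurable (g v S) := fun v S hS =>
    ((hgm v S hS).mono (R.G_le _)).measurable
  have habs : ∀ v S ω, |g v S ω| ≤ 1 := fun v S ω => by
    rw [abs_of_nonneg (hg0 v S ω)]; exact hg1 v S ω
  -- the product formula
  have hprod := fun v => R.condExp_prod hk 𝒮 hcard (g v) (hgm v) (C := 1)
    (fun S _ ω => habs v S ω)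
  have hpm : ∀ v, Measurable (∏ S ∈ 𝒮, g v S) := fun v => by
    have h1 := Finset.measurable_prod _ (hgm' v)
    have h2 : (∏ S ∈ 𝒮, g v S) = fun ω => ∏ S ∈ 𝒮, g v S ω := by
      funext ω
      rw [Finset.prod_apply]
    rw [h2]
    exact h1
  have hp0 : ∀ v ω, 0 ≤ (∏ S ∈ 𝒮, g v S) ω := fun v ω => by
    rw [Finset.prod_apply]
    exact Finset.prod_nonneg fun S _ => hg0 v S ω
  have hp1 : ∀ v ω, (∏ S ∈ 𝒮, g v S) ω ≤ 1 := fun v ω => by
    rw [Finset.prod_apply]
    exact Finset.prod_le_one (fun S _ => hg0 v S ω) (fun S _ => hg1 v S ω)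
  have hpi : ∀ v, Integrable (∏ S ∈ 𝒮, g v S) R.P := fun v =>
    R.integrable_of_bdd (hpm v) (C := 1) fun ω => by
      rw [abs_of_nonneg (hp0 v ω)]; exact hp1 v ω
  -- pointwise bound
  have hpt : ∀ ω, 1 ≤ (∑ v, ∏ S ∈ 𝒮, g v S) ω := by
    intro ω
    rw [Finset.sum_apply]
    refine le_trans ?_ (Finset.single_le_sum (f := fun v => (∏ S ∈ 𝒮, g v S) ω)
      (fun v _ => hp0 v ω)
      (Finset.mem_univ (R.t (xy N (Fin.valEmbedding : Fin M ↪ ℕ)) ω)))
    simp only [Finset.prod_apply]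
    refine le_of_eq (Finset.prod_eq_one fun S hS => ?_).symm
    show (if p (R.t (xy N (Fin.valEmbedding : Fin M ↪ ℕ)) ω) S then fE R U (en k S)
      else fun ω => 1 - fE R U (en k S) ω) ω = 1
    by_cases h : p (R.t (xy N (Fin.valEmbedding : Fin M ↪ ℕ)) ω) S
    · rw [if_pos h]
      exact Set.indicator_of_mem (show ω ∈ R.t (xy N (en k S)) ⁻¹' U from hp ω S hS h) _
    · rw [if_neg h]
      have h2 : R.t (xy N (en k S)) ω ∉ U := fun h3 => h ⟨ω, rfl, h3⟩
      have h4 : fE R U (en k S) ω = 0 := Set.indicator_of_notMem (by exact h2) _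
      show 1 - fE R U (en k S) ω = 1
      rw [h4, sub_zero]
  have hcs : R.P[∑ v, ∏ S ∈ 𝒮, g v S | R.H (cardLe (k - 1))] =ᵐ[R.P]
      ∑ v, R.P[∏ S ∈ 𝒮, g v S | R.H (cardLe (k - 1))] :=
    condExp_finsetSum (fun v _ => hpi v) _
  have hone : (fun _ => (1 : ℝ)) ≤ᵐ[R.P] R.P[∑ v, ∏ S ∈ 𝒮, g v S | R.H (cardLe (k - 1))] := by
    have h1 : R.P[(fun _ => (1 : ℝ)) | R.H (cardLe (k - 1))] ≤ᵐ[R.P]
        R.P[∑ v, ∏ S ∈ 𝒮, g v S | R.H (cardLe (k - 1))] :=
      condExp_mono (integrable_const 1) (integrable_finsetSum' _ fun v _ => hpi v)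
        (Eventually.of_forall hpt)
    rwa [condExp_const (R.H_le _)] at h1
  -- conditional expectations of the factors
  have hfac : ∀ v S, ∀ᵐ ω ∂(R.P), 0 ≤ (R.P[g v S | R.H (cardLe (k - 1))]) ω ∧
      (R.P[g v S | R.H (cardLe (k - 1))]) ω ≤
        max (Mc R (k - 1) U (en k S) ω) (1 - Mc R (k - 1) U (en k S) ω) := by
    intro v S
    have h0 : 0 ≤ᵐ[R.P] R.P[g v S | R.H (cardLe (k - 1))] :=
      condExp_nonneg (Eventually.of_forall fun ω => hg0 v S ω)
    by_cases h : p v S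
    · have h1 : g v S = fE R U (en k S) := if_pos h
      rw [h1] at h0 ⊢
      filter_upwards [h0] with ω hω
      exact ⟨hω, le_max_left _ _⟩
    · have h1 : g v S = (fun _ => (1 : ℝ)) - fE R U (en k S) := if_neg h
      rw [h1] at h0 ⊢
      have h2 : R.P[(fun _ => (1 : ℝ)) - fE R U (en k S) | R.H (cardLe (k - 1))] =ᵐ[R.P]
          R.P[(fun _ => (1 : ℝ)) | R.H (cardLe (k - 1))] -
            R.P[fE R U (en k S) | R.H (cardLe (k - 1))] :=
        condExp_sub (integrable_const 1) (fE_int R U _) _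
      rw [condExp_const (R.H_le _)] at h2
      filter_upwards [h0, h2] with ω hω h3
      refine ⟨hω, ?_⟩
      rw [h3]
      exact le_max_right _ _
  have hfac' : ∀ᵐ ω ∂(R.P), ∀ v, ∀ S ∈ 𝒮, 0 ≤ (R.P[g v S | R.H (cardLe (k - 1))]) ω ∧
      (R.P[g v S | R.H (cardLe (k - 1))]) ω ≤
        max (Mc R (k - 1) U (en k S) ω) (1 - Mc R (k - 1) U (en k S) ω) :=
    ae_all_iff.mpr fun v => (ae_ball_iff 𝒮.countable_toSet).mpr fun S _ => hfac v S
  have hprod' : ∀ᵐ ω ∂(R.P), ∀ v, (R.P[∏ S ∈ 𝒮, g v S | R.H (cardLe (k - 1))]) ω =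
      (∏ S ∈ 𝒮, R.P[g v S | R.H (cardLe (k - 1))]) ω := ae_all_iff.mpr hprod
  filter_upwards [hone, hcs, hfac', hprod'] with ω h1 h2 h3 h4
  rw [h2, Finset.sum_apply] at h1
  refine h1.trans ?_
  rw [← Finset.card_univ, ← nsmul_eq_mul]
  refine Finset.sum_le_card_nsmul _ _ _ fun v _ => ?_
  rw [h4 v, Finset.prod_apply]
  exact Finset.prod_le_prod (fun S hS => (h3 v S hS).1) (fun S hS => (h3 v S hS).2)

/-- entropy type function -/
noncomputable def hh (x : ℝ) : ℝ := -Real.log (max x (1 - x))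

theorem hh_meas : Measurable hh :=
  (Real.measurable_log.comp (measurable_id.max (measurable_const.sub measurable_id))).neg

theorem max_half (x : ℝ) : 1 / 2 ≤ max x (1 - x) := by
  rcases le_total x (1 / 2) with h | h
  · exact le_max_of_le_right (by linarith)
  · exact le_max_of_le_left h

theorem hh_nonneg {x : ℝ} (h0 : 0 ≤ x) (h1 : x ≤ 1) : 0 ≤ hh x := by
  unfold hh
  rw [neg_nonneg]
  refine Real.log_nonpos (le_trans (by norm_num) (max_half x)) (max_le h1 (by linarith))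

theorem hh_le {x : ℝ} : hh x ≤ Real.log 2 := by
  unfold hh
  rw [neg_le, ← Real.log_inv]
  exact Real.log_le_log (by norm_num) (by simpa using max_half x)

theorem hh_eq_zero {x : ℝ} (h0 : 0 ≤ x) (h1 : x ≤ 1) (h : hh x = 0) : x * (1 - x) = 0 := by
  unfold hh at h
  rw [neg_eq_zero] at h
  have h2 := max_half x
  have h3 : max x (1 - x) = 1 := Real.eq_one_of_pos_of_log_eq_zero (by linarith) h
  rcases max_choice x (1 - x) with h4 | h4
  · rw [h4] at h3
    rw [h3]; ring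
  · rw [h4] at h3
    rw [h3, mul_one]
    linarith

theorem one_le_B : 1 ≤ L.B := by
  have h1 : (1 : ℝ) ≤ Fintype.card (L.T 2) := by
    have hne : Nonempty (L.T 2) := by
      by_contra hcon
      rw [not_nonempty_iff] at hcon
      have := L.D_sum 2
      rw [Finset.univ_eq_empty, Finset.sum_empty] at this
      exact zero_ne_one this
    exact_mod_cast Fintype.card_pos
  have h2 := L.card_le 2
  simp at h2
  linarith

theorem card_log (s : ℕ) : Real.log (Fintype.card (L.T s)) ≤ (s.choose 2 : ℝ) * Real.log L.B := by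
  have h1 : (0 : ℝ) < Fintype.card (L.T s) := by
    have hne : Nonempty (L.T s) := by
      by_contra hcon
      rw [not_nonempty_iff] at hcon
      have := L.D_sum s
      rw [Finset.univ_eq_empty, Finset.sum_empty] at this
      exact zero_ne_one this
    exact_mod_cast Fintype.card_pos
  rw [← Real.log_pow]
  exact Real.log_le_log h1 (L.card_le s)

theorem hh_int {k : ℕ} (m N : ℕ) (U : Set (L.T (N + k))) (b : Fin k ↪ ℕ) :
    Integrable (fun ω => hh (Mc R m U b ω)) R.P := by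
  refine Integrable.of_bound (hh_meas.comp (Mc_meas R m U b)).aestronglyMeasurable (Real.log 2) ?_
  filter_upwards [Mc_bd R m U b] with ω hω
  rw [Real.norm_eq_abs, abs_of_nonneg (hh_nonneg hω.1 hω.2)]
  exact hh_le

/-- integrated form -/
theorem key2 {k : ℕ} (hk : 1 ≤ k) (N M : ℕ) (U : Set (L.T (N + k))) (b : Fin k ↪ ℕ) :
    (M.choose k : ℝ) * ∫ ω, hh (Mc R (k - 1) U b ω) ∂(R.P) ≤
      ((N + M).choose 2 : ℝ) * Real.log L.B := by
  have h1 : ∀ᵐ ω ∂(R.P), ∑ S ∈ (Finset.range M).powersetCard k,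
      hh (Mc R (k - 1) U (en k S) ω) ≤ ((N + M).choose 2 : ℝ) * Real.log L.B := by
    filter_upwards [key R hk N M U] with ω hω
    have h2 : 0 < ∏ S ∈ (Finset.range M).powersetCard k,
        max (Mc R (k - 1) U (en k S) ω) (1 - Mc R (k - 1) U (en k S) ω) :=
      Finset.prod_pos fun S _ => lt_of_lt_of_le (by norm_num) (max_half _)
    have h3 : (0 : ℝ) < Fintype.card (L.T (N + M)) := by
      by_contra hcon
      have h4 : (Fintype.card (L.T (N + M)) : ℝ) = 0 :=
        le_antisymm (not_lt.mp hcon) (Nat.cast_nonneg _)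
      rw [h4, zero_mul] at hω
      linarith
    have h5 := Real.log_le_log one_pos hω
    rw [Real.log_one, Real.log_mul h3.ne' h2.ne', Real.log_prod (fun S _ =>
      (lt_of_lt_of_le (by norm_num : (0 : ℝ) < 1 / 2) (max_half _)).ne')] at h5
    have h6 := card_log (L := L) (N + M)
    have h7 : ∑ S ∈ (Finset.range M).powersetCard k, hh (Mc R (k - 1) U (en k S) ω) =
        - ∑ S ∈ (Finset.range M).powersetCard k,
          Real.log (max (Mc R (k - 1) U (en k S) ω) (1 - Mc R (k - 1) U (en k S) ω)) := by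
      rw [← Finset.sum_neg_distrib]
      rfl
    rw [h7]
    linarith
  have h2 : ∫ ω, (∑ S ∈ (Finset.range M).powersetCard k,
      hh (Mc R (k - 1) U (en k S) ω)) ∂(R.P) ≤ ∫ _, ((N + M).choose 2 : ℝ) * Real.log L.B ∂(R.P) :=
    integral_mono_ae (integrable_finsetSum _ fun S _ => hh_int R _ _ U _) (integrable_const _) h1
  rw [integral_finsetSum _ fun S _ => hh_int R _ _ U _, integral_const] at h2
  simp only [probReal_univ, one_smul] at h2
  have h3 : ∀ S ∈ (Finset.range M).powersetCard k,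
      ∫ ω, hh (Mc R (k - 1) U (en k S) ω) ∂(R.P) = ∫ ω, hh (Mc R (k - 1) U b ω) ∂(R.P) :=
    fun S _ => Mc_law R (k - 1) U b (en k S) hh_meas
  rw [Finset.sum_congr rfl h3, Finset.sum_const, Finset.card_powersetCard, Finset.card_range,
    nsmul_eq_mul] at h2
  exact h2

/-- growth -/
theorem growth {k : ℕ} (hk : 3 ≤ k) (N : ℕ) {e c : ℝ} (hc : 0 ≤ c)
    (h : ∀ M : ℕ, (M.choose k : ℝ) * e ≤ ((N + M).choose 2 : ℝ) * c) : e ≤ 0 := by
  by_contra he
  push Not at he
  have h1 : ∀ j : ℕ, N + k ≤ j → (j : ℝ) * e ≤ 4 * (k.factorial : ℝ) * c := by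
    intro j hj
    have hj0 : 0 < j := by omega
    have h2 := h (k - 1 + j)
    have h3 : ((j : ℝ)) ^ k ≤ (k.factorial : ℝ) * ((k - 1 + j).choose k : ℝ) := by
      have := Nat.pow_le_choose k (k - 1 + j) (α := ℝ)
      have h4 : k - 1 + j + 1 - k = j := by omega
      rw [h4] at this
      have h5 : (0 : ℝ) < k.factorial := by exact_mod_cast Nat.factorial_pos k
      rw [div_le_iff₀ h5] at this
      linarith
    have h4 : ((N + (k - 1 + j)).choose 2 : ℝ) ≤ 4 * (j : ℝ) ^ 2 := by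
      have h5 : (N + (k - 1 + j)).choose 2 ≤ (N + (k - 1 + j)) ^ 2 := Nat.choose_le_pow _ _
      have h6 : N + (k - 1 + j) ≤ 2 * j := by omega
      have h7 : (N + (k - 1 + j)).choose 2 ≤ (2 * j) ^ 2 := h5.trans (Nat.pow_le_pow_left h6 2)
      have h8 : ((N + (k - 1 + j)).choose 2 : ℝ) ≤ ((2 * j : ℕ) : ℝ) ^ 2 := by exact_mod_cast h7
      push_cast at h8
      nlinarith
    have h5 : (0 : ℝ) < k.factorial := by exact_mod_cast Nat.factorial_pos k
    have h6 : (j : ℝ) ^ k * e ≤ 4 * (k.factorial : ℝ) * c * (j : ℝ) ^ 2 := by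
      calc (j : ℝ) ^ k * e ≤ (k.factorial : ℝ) * ((k - 1 + j).choose k : ℝ) * e :=
            mul_le_mul_of_nonneg_right h3 he.le
        _ = (k.factorial : ℝ) * (((k - 1 + j).choose k : ℝ) * e) := by ring
        _ ≤ (k.factorial : ℝ) * (((N + (k - 1 + j)).choose 2 : ℝ) * c) :=
            mul_le_mul_of_nonneg_left h2 h5.le
        _ ≤ (k.factorial : ℝ) * (4 * (j : ℝ) ^ 2 * c) :=
            mul_le_mul_of_nonneg_left (mul_le_mul_of_nonneg_right h4 hc) h5.le
        _ = _ := by ring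
    have hjr : (1 : ℝ) ≤ j := by exact_mod_cast hj0
    have h7 : (j : ℝ) ^ 3 ≤ (j : ℝ) ^ k := pow_le_pow_right₀ hjr hk
    have h8 : (j : ℝ) ^ 3 * e ≤ 4 * (k.factorial : ℝ) * c * (j : ℝ) ^ 2 :=
      (mul_le_mul_of_nonneg_right h7 he.le).trans h6
    have h9 : (j : ℝ) ^ 2 * ((j : ℝ) * e) ≤ (j : ℝ) ^ 2 * (4 * (k.factorial : ℝ) * c) := by
      nlinarith
    exact le_of_mul_le_mul_left h9 (by positivity)
  obtain ⟨j, hj⟩ := exists_nat_gt (4 * (k.factorial : ℝ) * c / e)
  rw [div_lt_iff₀ he] at hj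
  have h2 := h1 (j + (N + k)) (by omega)
  push_cast at h2
  nlinarith [mul_nonneg (by positivity : (0 : ℝ) ≤ (N : ℝ) + k) he.le]

/-- the conditional probabilities are trivial -/
theorem trivial_cond {k : ℕ} (hk : 3 ≤ k) (N : ℕ) (U : Set (L.T (N + k))) (b : Fin k ↪ ℕ) :
    ∀ᵐ ω ∂(R.P), Mc R (k - 1) U b ω * (1 - Mc R (k - 1) U b ω) = 0 := by
  have h1 : ∫ ω, hh (Mc R (k - 1) U b ω) ∂(R.P) ≤ 0 :=
    growth hk N (Real.log_nonneg (one_le_B (L := L))) (fun M => key2 R (by omega) N M U b)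
  have h2 : 0 ≤ᵐ[R.P] fun ω => hh (Mc R (k - 1) U b ω) := by
    filter_upwards [Mc_bd R (k - 1) U b] with ω hω
    exact hh_nonneg hω.1 hω.2
  have h3 : ∫ ω, hh (Mc R (k - 1) U b ω) ∂(R.P) = 0 := le_antisymm h1 (integral_nonneg_of_ae h2)
  have h4 := (integral_eq_zero_iff_of_nonneg_ae h2 (hh_int R _ _ U b)).mp h3
  filter_upwards [h4, Mc_bd R (k - 1) U b] with ω h5 h6
  exact hh_eq_zero h6.1 h6.2 h5

/-- the events are determined by the lower types -/
theorem determined {k : ℕ} (hk : 3 ≤ k) (N : ℕ) (U : Set (L.T (N + k))) (b : Fin k ↪ ℕ) :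
    Mc R (k - 1) U b =ᵐ[R.P] fE R U b := by
  have hMb : ∀ᵐ ω ∂(R.P), |Mc R (k - 1) U b ω| ≤ 1 := by
    filter_upwards [Mc_bd R (k - 1) U b] with ω hω
    rw [abs_of_nonneg hω.1]
    exact hω.2
  have hMM : Integrable (fun ω => Mc R (k - 1) U b ω * Mc R (k - 1) U b ω) R.P :=
    (Mc_int R _ U b).mul_bdd (Mc_meas R _ U b).aestronglyMeasurable (by
      filter_upwards [hMb] with ω hω
      rw [Real.norm_eq_abs]
      exact hω)
  have hfM : Integrable (fun ω => fE R U b ω * Mc R (k - 1) U b ω) R.P :=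
    (fE_int R U b).mul_bdd (Mc_meas R _ U b).aestronglyMeasurable (by
      filter_upwards [hMb] with ω hω
      rw [Real.norm_eq_abs]
      exact hω)
  have h1 : ∫ ω, Mc R (k - 1) U b ω * Mc R (k - 1) U b ω ∂(R.P) =
      ∫ ω, fE R U b ω * Mc R (k - 1) U b ω ∂(R.P) := by
    have h2 := MT.integral_condExp_mul (μ := R.P) (R.H_le (cardLe (k - 1))) (fE_int R U b)
      (Mc_meas R (k - 1) U b).aestronglyMeasurable hMb
    have h3 : R.P[Mc R (k - 1) U b | R.H (cardLe (k - 1))] = Mc R (k - 1) U b :=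
      condExp_of_stronglyMeasurable (R.H_le _) (Mc_sm R _ U b) (Mc_int R _ U b)
    rw [h3] at h2
    exact h2
  have h2 : ∫ ω, Mc R (k - 1) U b ω ∂(R.P) = ∫ ω, fE R U b ω ∂(R.P) := integral_condExp (R.H_le _)
  have h3 : ∫ ω, Mc R (k - 1) U b ω ∂(R.P) =
      ∫ ω, Mc R (k - 1) U b ω * Mc R (k - 1) U b ω ∂(R.P) := by
    refine integral_congr_ae ?_
    filter_upwards [trivial_cond R hk N U b] with ω hω
    linarith
  have h4 : ∫ ω, (fE R U b ω - Mc R (k - 1) U b ω) ^ 2 ∂(R.P) = 0 := by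
    have h5 : ∀ ω, (fE R U b ω - Mc R (k - 1) U b ω) ^ 2 =
        (fE R U b ω - fE R U b ω * Mc R (k - 1) U b ω) -
        (fE R U b ω * Mc R (k - 1) U b ω - Mc R (k - 1) U b ω * Mc R (k - 1) U b ω) := by
      intro ω
      rcases fE_cases R U b ω with ⟨_, h⟩ | ⟨_, h⟩ <;> rw [h] <;> ring
    simp only [h5]
    have i1 : Integrable (fun ω => fE R U b ω - fE R U b ω * Mc R (k - 1) U b ω) R.P :=
      (fE_int R U b).sub hfM
    have i2 : Integrable (fun ω => fE R U b ω * Mc R (k - 1) U b ω -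
        Mc R (k - 1) U b ω * Mc R (k - 1) U b ω) R.P := hfM.sub hMM
    rw [integral_sub i1 i2, integral_sub (fE_int R U b) hfM,
      integral_sub hfM hMM, ← h1, ← h3, h2]
    ring
  have h5 := (integral_eq_zero_iff_of_nonneg (fun ω => sq_nonneg (fE R U b ω -
    Mc R (k - 1) U b ω)) (by
      have h6 : ∀ ω, (fE R U b ω - Mc R (k - 1) U b ω) ^ 2 =
        (fE R U b ω - fE R U b ω * Mc R (k - 1) U b ω) -
        (fE R U b ω * Mc R (k - 1) U b ω - Mc R (k - 1) U b ω * Mc R (k - 1) U b ω) := by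
        intro ω
        rcases fE_cases R U b ω with ⟨_, h⟩ | ⟨_, h⟩ <;> rw [h] <;> ring
      simp only [h6]
      exact ((fE_int R U b).sub hfM).sub (hfM.sub hMM))).mp h4
  filter_upwards [h5] with ω hω
  have h6 : (fE R U b ω - Mc R (k - 1) U b ω) ^ 2 = 0 := hω
  have h7 := pow_eq_zero_iff (two_ne_zero) |>.mp h6
  linarith

end HighTypes

namespace Realisation

variable {L : TypeSystem} (R : Realisation L)

/-- Module D: the types of `k ≥ 3` points are determined by the types of fewer points. -/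
theorem high_types {k : ℕ} (hk : 3 ≤ k) (S : Finset ℕ) (hS : S.card = k)
    {g : R.Ω → ℝ} (hg : StronglyMeasurable[R.G (XY S)] g) {C : ℝ} (hC : ∀ ω, |g ω| ≤ C) :
    R.P[g | R.H {T | T ⊂ S}] =ᵐ[R.P] g := by
  have hmap : Finset.univ.map (HighTypes.en k S) = S := HighTypes.en_map hS
  have hle : R.H {T | T ⊂ S} ≤ R.G (XY S) := by
    rw [← R.H_powerset]
    exact R.H_mono fun T hT => hT.1
  have hgi : Integrable g R.P := R.integrable_of_bdd (hg.mono (R.G_le _)).measurable hC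
  have h1 := MT.condExp_eq_of_piSystem (μ := R.P) (m₀ := R.H {T | T ⊂ S}) (m₁ := R.G (XY S))
    (m₂ := R.G (XY S)) hle hle (R.G_le _) (R.G_le _)
    (⋃ N, {t | MeasurableSet[MeasurableSpace.comap (R.t (xy N (HighTypes.en k S))) ⊤] t})
    (isPiSystem_iUnion_of_monotone _ (fun N => (MeasurableSpace.comap
      (R.t (xy N (HighTypes.en k S))) ⊤).isPiSystem_measurableSet)
      (fun N M hNM t ht => R.mono_comap_xy (HighTypes.en k S) hNM t ht))
    (by
      conv_lhs => rw [← hmap, ← R.iSup_comap_xy]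
      exact (MeasurableSpace.generateFrom_iUnion_measurableSet _).symm)
    (by
      intro E hE
      obtain ⟨N, hN⟩ := Set.mem_iUnion.mp hE
      obtain ⟨U, _, rfl⟩ := hN
      have h2 : StronglyMeasurable[R.G (XY S)] (HighTypes.fE R U (HighTypes.en k S)) := by
        have := HighTypes.fE_meas R U (HighTypes.en k S)
        rwa [hmap] at this
      have h3 : R.P[HighTypes.fE R U (HighTypes.en k S) | R.G (XY S)] =
          HighTypes.fE R U (HighTypes.en k S) :=
        condExp_of_stronglyMeasurable (R.G_le _) h2 (HighTypes.fE_int R U _)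
      have h4 := R.condExp_single (by omega : 1 ≤ k) S hS h2 (HighTypes.fE_abs R U _)
      have h5 := HighTypes.determined R hk N U (HighTypes.en k S)
      show R.P[HighTypes.fE R U (HighTypes.en k S) | R.G (XY S)] =ᵐ[R.P]
        R.P[HighTypes.fE R U (HighTypes.en k S) | R.H {T | T ⊂ S}]
      rw [h3]
      exact h5.symm.trans h4)
    hg hgi
  rw [condExp_of_stronglyMeasurable (R.G_le _) hg hgi] at h1
  exact h1.symm

end Realisation

end MSch
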