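import Pool.Agent.Lib.MP_369ee2_lc.Defs

/-!
# Ultraproducts of approximate type systems
-/

namespace MSch

open Function Filter
open scoped Topology

namespace Limit

variable {B : ℝ}

/-- the ultrafilter -/
noncomputable abbrev U : Ultrafilter ℕ := hyperfilter ℕ

/-- the number of codes -/
noncomputable def K (B : ℝ) (s : ℕ) : ℕ := ⌊B ^ (s.choose 2)⌋₊

theorem D_pos (hB : 1 ≤ B) (P : PreTS B) {s : ℕ} (τ : P.T s) : 0 < P.D τ := by
  have h := P.D_lb τ
  have hb : 0 < B ^ (s.choose 2) := by positivity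
  by_contra hn
  have : B ^ (s.choose 2) * P.D τ ≤ 0 := mul_nonpos_of_nonneg_of_nonpos hb.le (not_lt.1 hn)
  linarith

theorem D_le_one (hB : 1 ≤ B) (P : PreTS B) {s : ℕ} (τ : P.T s) : P.D τ ≤ 1 := by
  refine le_trans ?_ (P.D_ub s)
  exact Finset.single_le_sum (f := fun x : P.T s => P.D x) (fun x _ => (D_pos hB P x).le)
    (Finset.mem_univ τ)

theorem card_le (hB : 1 ≤ B) (P : PreTS B) (s : ℕ) : Fintype.card (P.T s) ≤ K B s := by
  have hb : 0 < B ^ (s.choose 2) := by positivity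
  apply Nat.le_floor
  have h1 : ∑ _τ : P.T s, (1 : ℝ) ≤ ∑ τ : P.T s, B ^ (s.choose 2) * P.D τ :=
    Finset.sum_le_sum fun τ _ => P.D_lb τ
  rw [← Finset.mul_sum] at h1
  have h2 : B ^ (s.choose 2) * ∑ τ : P.T s, P.D τ ≤ B ^ (s.choose 2) * 1 :=
    mul_le_mul_of_nonneg_left (P.D_ub s) hb.le
  simp only [Finset.sum_const, Finset.card_univ, nsmul_eq_mul, mul_one] at h1 h2
  exact h1.trans h2

theorem exists_code (hB : 1 ≤ B) (P : PreTS B) (s : ℕ) : Nonempty (P.T s ↪ Fin (K B s)) := by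
  apply Function.Embedding.nonempty_of_card_le
  rw [Fintype.card_fin]
  exact card_le hB P s

/-- the codes -/
noncomputable def code (hB : 1 ≤ B) (P : PreTS B) (s : ℕ) : P.T s ↪ Fin (K B s) :=
  (exists_code hB P s).some

/-- the limit types -/
def TL (hB : 1 ≤ B) (A : ℕ → PreTS B) (s : ℕ) : Type :=
  {c : Fin (K B s) // ∀ᶠ i in (U : Filter ℕ), c ∈ Set.range (code hB (A i) s)}

noncomputable instance instFinTL (hB : 1 ≤ B) (A : ℕ → PreTS B) (s : ℕ) :
    Fintype (TL hB A s) := by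
  classical
  unfold TL
  exact Subtype.fintype _

noncomputable instance instDecTL (hB : 1 ≤ B) (A : ℕ → PreTS B) (s : ℕ) :
    DecidableEq (TL hB A s) := Classical.decEq _

/-- good indices -/
def Good (hB : 1 ≤ B) (A : ℕ → PreTS B) (i s : ℕ) : Prop :=
  ∀ c : Fin (K B s), (c ∈ Set.range (code hB (A i) s) ↔
    ∀ᶠ j in (U : Filter ℕ), c ∈ Set.range (code hB (A j) s))

theorem eventually_good (hB : 1 ≤ B) (A : ℕ → PreTS B) (s : ℕ) :
    ∀ᶠ i in (U : Filter ℕ), Good hB A i s := by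
  unfold Good
  rw [eventually_all]
  intro c
  by_cases h : ∀ᶠ j in (U : Filter ℕ), c ∈ Set.range (code hB (A j) s)
  · exact h.mono fun i hi => ⟨fun _ => h, fun _ => hi⟩
  · have h' : ∀ᶠ j in (U : Filter ℕ), ¬ c ∈ Set.range (code hB (A j) s) :=
      Ultrafilter.eventually_not.2 h
    exact h'.mono fun i hi => ⟨fun h2 => absurd h2 hi, fun h2 => absurd h2 h⟩

/-- limit types as types of a good index -/
noncomputable def E {hB : 1 ≤ B} {A : ℕ → PreTS B} {i s : ℕ} (h : Good hB A i s) :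
    TL hB A s ≃ (A i).T s :=
  (Equiv.subtypeEquivRight (fun c => (h c).symm)).trans
    (Equiv.ofInjective (code hB (A i) s) (code hB (A i) s).injective).symm

theorem exists_res (hB : 1 ≤ B) (A : ℕ → PreTS B) {s t : ℕ} (ι : Fin s ↪ Fin t)
    (c : TL hB A t) : ∃ d : TL hB A s, ∀ᶠ i in (U : Filter ℕ),
      ∀ (ht : Good hB A i t) (hs : Good hB A i s), E hs d = (A i).res ι (E ht c) := by
  rw [← Ultrafilter.eventually_exists_iff]
  filter_upwards [eventually_good hB A t, eventually_good hB A s] with i ht hs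
  refine ⟨(E hs).symm ((A i).res ι (E ht c)), fun _ _ => ?_⟩
  rw [Equiv.apply_symm_apply]

/-- restriction of limit types -/
noncomputable def resL (hB : 1 ≤ B) (A : ℕ → PreTS B) {s t : ℕ} (ι : Fin s ↪ Fin t)
    (c : TL hB A t) : TL hB A s := (exists_res hB A ι c).choose

theorem resL_spec (hB : 1 ≤ B) (A : ℕ → PreTS B) {s t : ℕ} (ι : Fin s ↪ Fin t) :
    ∀ᶠ i in (U : Filter ℕ), ∀ c : TL hB A t,
      ∀ (ht : Good hB A i t) (hs : Good hB A i s),
        E hs (resL hB A ι c) = (A i).res ι (E ht c) := by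
  rw [eventually_all]
  intro c
  exact (exists_res hB A ι c).choose_spec

theorem resL_refl (hB : 1 ≤ B) (A : ℕ → PreTS B) {s : ℕ} (τ : TL hB A s) :
    resL hB A (Embedding.refl (Fin s)) τ = τ := by
  obtain ⟨i, h1, h2⟩ := ((resL_spec hB A (Embedding.refl (Fin s))).and
    (eventually_good hB A s)).exists
  have h := h1 τ h2 h2
  rw [(A i).res_refl] at h
  exact (E h2).injective h

theorem resL_trans (hB : 1 ≤ B) (A : ℕ → PreTS B) {r s t : ℕ} (ι : Fin r ↪ Fin s)
    (κ : Fin s ↪ Fin t) (τ : TL hB A t) :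
    resL hB A (ι.trans κ) τ = resL hB A ι (resL hB A κ τ) := by
  obtain ⟨i, h1, h2, h3, h4, h5, h6⟩ := ((resL_spec hB A ι).and ((resL_spec hB A κ).and
    ((resL_spec hB A (ι.trans κ)).and ((eventually_good hB A r).and
      ((eventually_good hB A s).and (eventually_good hB A t)))))).exists
  apply (E h4).injective
  rw [h3 τ h6 h4, h1 _ h5 h4, h2 _ h6 h5, (A i).res_trans]

open Classical in
/-- the weight of a limit type at the index `i` -/
noncomputable def dd (hB : 1 ≤ B) (A : ℕ → PreTS B) (i : ℕ) {s : ℕ} (c : TL hB A s) : ℝ :=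
  if h : Good hB A i s then (A i).D (E h c) else 0

theorem dd_of_good {hB : 1 ≤ B} {A : ℕ → PreTS B} {i s : ℕ} (h : Good hB A i s)
    (c : TL hB A s) : dd hB A i c = (A i).D (E h c) := by
  rw [dd, dif_pos h]

theorem dd_mem (hB : 1 ≤ B) (A : ℕ → PreTS B) (i : ℕ) {s : ℕ} (c : TL hB A s) :
    dd hB A i c ∈ Set.Icc (0 : ℝ) 1 := by
  by_cases h : Good hB A i s
  · rw [dd_of_good h]
    exact ⟨(D_pos hB _ _).le, D_le_one hB _ _⟩
  · rw [dd, dif_neg h]
    exact ⟨le_refl _, zero_le_one⟩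

theorem exists_lim (hB : 1 ≤ B) (A : ℕ → PreTS B) {s : ℕ} (c : TL hB A s) :
    ∃ x : ℝ, Tendsto (fun i => dd hB A i c) (U : Filter ℕ) (𝓝 x) := by
  have hK : IsCompact (Set.Icc (0 : ℝ) 1) := isCompact_Icc
  obtain ⟨x, -, hx⟩ := isCompact_iff_ultrafilter_le_nhds.1 hK
    (Ultrafilter.map (fun i => dd hB A i c) U) (by
      rw [le_principal_iff, Ultrafilter.coe_map]
      exact Filter.mem_map.2 (Filter.univ_mem' (fun i => dd_mem hB A i c)))
  exact ⟨x, hx⟩

/-- the weight of a limit type -/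
noncomputable def DL (hB : 1 ≤ B) (A : ℕ → PreTS B) {s : ℕ} (c : TL hB A s) : ℝ :=
  (exists_lim hB A c).choose

theorem tendsto_dd (hB : 1 ≤ B) (A : ℕ → PreTS B) {s : ℕ} (c : TL hB A s) :
    Tendsto (fun i => dd hB A i c) (U : Filter ℕ) (𝓝 (DL hB A c)) :=
  (exists_lim hB A c).choose_spec

theorem DL_pos (hB : 1 ≤ B) (A : ℕ → PreTS B) {s : ℕ} (c : TL hB A s) : 0 < DL hB A c := by
  have h1 : Tendsto (fun i => B ^ (s.choose 2) * dd hB A i c) (U : Filter ℕ)
      (𝓝 (B ^ (s.choose 2) * DL hB A c)) := (tendsto_dd hB A c).const_mul _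
  have h2 : 1 ≤ B ^ (s.choose 2) * DL hB A c := by
    apply ge_of_tendsto h1
    filter_upwards [eventually_good hB A s] with i hi
    rw [dd_of_good hi]
    exact (A i).D_lb _
  have hb : 0 < B ^ (s.choose 2) := by positivity
  by_contra hn
  have : B ^ (s.choose 2) * DL hB A c ≤ 0 := mul_nonpos_of_nonneg_of_nonpos hb.le (not_lt.1 hn)
  linarith

theorem sum_dd {hB : 1 ≤ B} {A : ℕ → PreTS B} {i s : ℕ} (h : Good hB A i s)
    (p : TL hB A s → Prop) [DecidablePred p] (q : (A i).T s → Prop) [DecidablePred q]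
    (hpq : ∀ c, p c ↔ q (E h c)) :
    ∑ c : TL hB A s, (if p c then dd hB A i c else 0)
      = ∑ y : (A i).T s, (if q y then (A i).D y else 0) := by
  rw [← Equiv.sum_comp (E h)]
  refine Finset.sum_congr rfl fun c _ => ?_
  rw [dd_of_good h]
  by_cases hc : p c
  · rw [if_pos hc, if_pos ((hpq c).1 hc)]
  · rw [if_neg hc, if_neg (fun h' => hc ((hpq c).2 h'))]

theorem tendsto_sum_if (hB : 1 ≤ B) (A : ℕ → PreTS B) {s : ℕ} (p : TL hB A s → Prop)
    [DecidablePred p] :
    Tendsto (fun i => ∑ c : TL hB A s, (if p c then dd hB A i c else 0)) (U : Filter ℕ)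
      (𝓝 (∑ c : TL hB A s, (if p c then DL hB A c else 0))) := by
  refine tendsto_finsetSum _ fun c _ => ?_
  by_cases hc : p c
  · simp only [if_pos hc]; exact tendsto_dd hB A c
  · simp only [if_neg hc]; exact tendsto_const_nhds

theorem DL_sum (hB : 1 ≤ B) (A : ℕ → PreTS B)
    (herr : ∀ t : ℕ, Tendsto (fun i => (A i).err t) atTop (𝓝 0)) (s : ℕ) :
    ∑ c : TL hB A s, DL hB A c = 1 := by
  have h1 := tendsto_sum_if hB A (s := s) (fun _ => True)
  simp only [if_true] at h1
  have h0 : Tendsto (fun i => (A i).err s) (U : Filter ℕ) (𝓝 0) :=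
    (herr s).mono_left Nat.hyperfilter_le_atTop
  have h2 : Tendsto (fun i => ∑ c : TL hB A s, dd hB A i c) (U : Filter ℕ) (𝓝 1) := by
    have hl : Tendsto (fun i => 1 - (A i).err s) (U : Filter ℕ) (𝓝 1) := by
      simpa using (tendsto_const_nhds (x := (1 : ℝ))).sub h0
    refine tendsto_of_tendsto_of_tendsto_of_le_of_le' hl tendsto_const_nhds ?_ ?_
    · filter_upwards [eventually_good hB A s] with i hi
      have := sum_dd hi (fun _ => True) (fun _ => True) (fun _ => Iff.rfl)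
      simp only [if_true] at this
      rw [this]
      exact (A i).D_sum s
    · filter_upwards [eventually_good hB A s] with i hi
      have := sum_dd hi (fun _ => True) (fun _ => True) (fun _ => Iff.rfl)
      simp only [if_true] at this
      rw [this]
      exact (A i).D_ub s
  exact tendsto_nhds_unique h1 h2

theorem eq_zero_of_abs_le {f e : ℕ → ℝ} {x : ℝ} (hf : Tendsto f (U : Filter ℕ) (𝓝 x))
    (he : Tendsto e (U : Filter ℕ) (𝓝 0)) (h : ∀ᶠ i in (U : Filter ℕ), |f i| ≤ e i) : x = 0 := by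
  have h1 : Tendsto f (U : Filter ℕ) (𝓝 0) := squeeze_zero_norm' h he
  exact tendsto_nhds_unique hf h1

theorem DL_res (hB : 1 ≤ B) (A : ℕ → PreTS B)
    (herr : ∀ t : ℕ, Tendsto (fun i => (A i).err t) atTop (𝓝 0)) {s t : ℕ} (ι : Fin s ↪ Fin t)
    (τ : TL hB A s) :
    ∑ υ : TL hB A t, (if resL hB A ι υ = τ then DL hB A υ else 0) = DL hB A τ := by
  have h0 : Tendsto (fun i => (A i).err t) (U : Filter ℕ) (𝓝 0) :=
    (herr t).mono_left Nat.hyperfilter_le_atTop
  have h1 := (tendsto_sum_if hB A (s := t) (fun υ => resL hB A ι υ = τ)).sub (tendsto_dd hB A τ)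
  refine sub_eq_zero.1 (eq_zero_of_abs_le h1 h0 ?_)
  filter_upwards [eventually_good hB A s, eventually_good hB A t, resL_spec hB A ι]
    with i hs ht hr
  rw [sum_dd ht (fun υ => resL hB A ι υ = τ) (fun y => (A i).res ι y = E hs τ) (by
    intro c
    rw [← hr c ht hs]
    exact (E hs).injective.eq_iff.symm), dd_of_good hs]
  exact (A i).D_res ι (E hs τ)

theorem DL_ci (hB : 1 ≤ B) (A : ℕ → PreTS B)
    (herr : ∀ t : ℕ, Tendsto (fun i => (A i).err t) atTop (𝓝 0)) {a b c n : ℕ}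
    (α : Fin a ↪ Fin n) (β : Fin b ↪ Fin n) (γ : Fin c ↪ Fin a) (δ : Fin c ↪ Fin b)
    (h : γ.trans α = δ.trans β) (h2 : Set.range α ∩ Set.range β ⊆ Set.range (γ.trans α))
    (τ : TL hB A a) (ρ : TL hB A b) (hτρ : resL hB A γ τ = resL hB A δ ρ) :
    (∑ υ : TL hB A n, (if resL hB A α υ = τ ∧ resL hB A β υ = ρ then DL hB A υ else 0)) *
      DL hB A (resL hB A γ τ) = DL hB A τ * DL hB A ρ := by
  have h0 : Tendsto (fun i => (A i).err n) (U : Filter ℕ) (𝓝 0) :=
    (herr n).mono_left Nat.hyperfilter_le_atTop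
  have h1 := ((tendsto_sum_if hB A (s := n)
    (fun υ => resL hB A α υ = τ ∧ resL hB A β υ = ρ)).mul
      (tendsto_dd hB A (resL hB A γ τ))).sub ((tendsto_dd hB A τ).mul (tendsto_dd hB A ρ))
  refine sub_eq_zero.1 (eq_zero_of_abs_le h1 h0 ?_)
  filter_upwards [eventually_good hB A a, eventually_good hB A b, eventually_good hB A c,
    eventually_good hB A n, resL_spec hB A α, resL_spec hB A β, resL_spec hB A γ,
    resL_spec hB A δ] with i ha hb hc hn hα hβ hγ hδ
  rw [sum_dd hn (fun υ => resL hB A α υ = τ ∧ resL hB A β υ = ρ)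
    (fun y => (A i).res α y = E ha τ ∧ (A i).res β y = E hb ρ) (by
      intro c
      rw [← hα c hn ha, ← hβ c hn hb, (E ha).injective.eq_iff, (E hb).injective.eq_iff]),
    dd_of_good ha, dd_of_good hb, dd_of_good hc, hγ τ ha hc]
  refine (A i).ci α β γ δ h h2 (E ha τ) (E hb ρ) ?_
  rw [← hγ τ ha hc, ← hδ ρ hb hc, hτρ]

end Limit

open Limit in
theorem exists_typeSystem_of_seq (B : ℝ) (hB : 1 ≤ B) (A : ℕ → PreTS B)
    (herr : ∀ t : ℕ, Tendsto (fun i => (A i).err t) atTop (𝓝 0))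
    (hprim : ∀ᶠ i in atTop, (A i).Primitive) : Nonempty TypeSystem := by
  refine ⟨{
    T := TL hB A
    fin := fun s => inferInstance
    dec := fun s => inferInstance
    res := fun ι c => resL hB A ι c
    res_refl := fun τ => resL_refl hB A τ
    res_trans := fun ι κ τ => resL_trans hB A ι κ τ
    D := fun c => DL hB A c
    D_pos := fun c => DL_pos hB A c
    D_sum := fun s => DL_sum hB A herr s
    D_res := fun ι τ => DL_res hB A herr ι τ
    ci := fun α β γ δ h h2 τ ρ hτρ => DL_ci hB A herr α β γ δ h h2 τ ρ hτρ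
    one := ?_
    free := ?_
    B := B
    card_le := ?_
    prim := ?_ }⟩
  · refine ⟨fun a b => ?_⟩
    obtain ⟨i, hi⟩ := (eventually_good hB A 1).exists
    exact (E hi).injective (Subsingleton.elim _ _)
  · intro s σ τ h
    obtain ⟨i, hi, h2⟩ := ((eventually_good hB A s).and
      (resL_spec hB A σ.toEmbedding)).exists
    have h3 := h2 τ hi hi
    rw [h] at h3
    exact (A i).free σ _ h3.symm
  · intro s
    have h1 : Fintype.card (TL hB A s) ≤ K B s := by
      have := Fintype.card_le_of_injective (fun c : TL hB A s => c.1) Subtype.val_injective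
      rwa [Fintype.card_fin] at this
    have h2 : ((K B s : ℕ) : ℝ) ≤ B ^ (s.choose 2) := Nat.floor_le (by positivity)
    exact (Nat.cast_le.2 h1).trans h2
  · intro E₀ hne hsymm htrans
    obtain ⟨i, hp, h2, h3, r10, r01, r12, r02⟩ :=
      ((hprim.filter_mono Nat.hyperfilter_le_atTop).and ((eventually_good hB A 2).and
        ((eventually_good hB A 3).and ((resL_spec hB A (pr (n := 2) 1 0 (by decide))).and
          ((resL_spec hB A (pr (n := 3) 0 1 (by decide))).and
            ((resL_spec hB A (pr (n := 3) 1 2 (by decide))).and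
              (resL_spec hB A (pr (n := 3) 0 2 (by decide))))))))).exists
    have key : ∀ y : (A i).T 2, y ∈ (E h2) '' E₀ ↔ (E h2).symm y ∈ E₀ := by
      intro y
      constructor
      · rintro ⟨c, hc, rfl⟩
        rwa [Equiv.symm_apply_apply]
      · intro h
        exact ⟨_, h, Equiv.apply_symm_apply _ _⟩
    have hE : (E h2) '' E₀ = Set.univ := by
      refine hp _ (hne.image _) ?_ ?_
      · rintro _ ⟨c, hc, rfl⟩
        exact ⟨_, hsymm c hc, r10 c h2 h2⟩
      · intro τ ha hb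
        obtain ⟨c, rfl⟩ := (E h3).surjective τ
        rw [← r01 c h3 h2] at ha
        rw [← r12 c h3 h2] at hb
        rw [← r02 c h3 h2]
        rw [key, Equiv.symm_apply_apply] at ha hb ⊢
        exact htrans c ha hb
    refine Set.eq_univ_of_forall fun c => ?_
    have : E h2 c ∈ (E h2) '' E₀ := by rw [hE]; exact Set.mem_univ _
    rwa [key, Equiv.symm_apply_apply] at this

end MSch
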