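import Pool.Agent.Lib.MP_369ee2_lc.Defs

/-!
# Module Hp (MP_369ee2_lc): orbit sums
-/

namespace MSch

open Function

private theorem res_symm_res (L : TypeSystem) {s : ℕ} (σ : Equiv.Perm (Fin s)) (τ : L.T s) :
    L.res σ.toEmbedding (L.res σ.symm.toEmbedding τ) = τ := by
  rw [← L.res_trans]
  have : σ.toEmbedding.trans σ.symm.toEmbedding = Embedding.refl (Fin s) := by
    ext x
    simp
  rw [this, L.res_refl]

private theorem res_res_symm (L : TypeSystem) {s : ℕ} (σ : Equiv.Perm (Fin s)) (τ : L.T s) :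
    L.res σ.symm.toEmbedding (L.res σ.toEmbedding τ) = τ := by
  have := res_symm_res L σ.symm τ
  rwa [Equiv.symm_symm] at this

private theorem D_perm (L : TypeSystem) {s : ℕ} (σ : Equiv.Perm (Fin s)) (τ : L.T s) :
    L.D (L.res σ.toEmbedding τ) = L.D τ := by
  rw [← L.D_res σ.toEmbedding (L.res σ.toEmbedding τ)]
  rw [Finset.sum_eq_single τ]
  · simp
  · intro υ _ hυ
    rw [if_neg]
    intro h
    apply hυ
    have := congrArg (L.res σ.symm.toEmbedding) h
    rwa [res_res_symm, res_res_symm] at this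
  · simp

private theorem res_mul (L : TypeSystem) {s : ℕ} (σ ρ : Equiv.Perm (Fin s)) (τ : L.T s) :
    L.res σ.toEmbedding (L.res ρ.toEmbedding τ) = L.res (ρ * σ).toEmbedding τ := by
  rw [← L.res_trans]
  rfl

/-- the orbit relation on the types of `s`-tuples -/
private def orbSetoid (L : TypeSystem) (s : ℕ) : Setoid (L.T s) where
  r τ υ := ∃ σ : Equiv.Perm (Fin s), L.res σ.toEmbedding τ = υ
  iseqv := by
    refine ⟨fun τ => ⟨1, L.res_refl τ⟩, ?_, ?_⟩
    · rintro τ υ ⟨σ, rfl⟩
      exact ⟨σ.symm, res_res_symm L σ τ⟩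
    · rintro τ υ χ ⟨σ, rfl⟩ ⟨ρ, rfl⟩
      exact ⟨σ * ρ, (res_mul L ρ σ τ).symm⟩

/-- the total mass 1 is `s!` times an element of any ring containing the masses of the types -/
theorem orbit_sum (L : TypeSystem) {A : Subalgebra ℤ ℝ} (s : ℕ) (h : ∀ τ : L.T s, L.D τ ∈ A) :
    ∃ r ∈ A, (1 : ℝ) = (s.factorial : ℝ) * r := by
  classical
  let S := orbSetoid L s
  refine ⟨∑ q : Quotient S, L.D q.out, Subalgebra.sum_mem _ fun q _ => h _, ?_⟩
  rw [← L.D_sum s, ← Finset.sum_fiberwise Finset.univ (fun τ => (Quotient.mk S τ : Quotient S)),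
    Finset.mul_sum]
  refine Finset.sum_congr rfl fun q _ => ?_
  have h1 : (s.factorial : ℝ) * L.D q.out = ∑ σ : Equiv.Perm (Fin s), L.D q.out := by
    rw [Finset.sum_const, Finset.card_univ, Fintype.card_perm, Fintype.card_fin, nsmul_eq_mul]
  rw [h1]
  symm
  refine Finset.sum_bij (fun σ _ => L.res σ.toEmbedding q.out) ?_ ?_ ?_ ?_
  · intro σ _
    simp only [Finset.mem_filter, Finset.mem_univ, true_and]
    have : q = Quotient.mk S q.out := (Quotient.out_eq q).symm
    conv_rhs => rw [this]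
    exact Quotient.sound (s := S) ⟨σ.symm, res_res_symm L σ q.out⟩
  · intro σ _ ρ _ hσρ
    have h2 : L.res (σ * ρ.symm).toEmbedding q.out = q.out := by
      have := congrArg (L.res ρ.symm.toEmbedding) hσρ
      rw [res_res_symm, res_mul] at this
      exact this
    have h3 := L.free _ _ h2
    have h4 : σ * ρ⁻¹ = 1 := h3
    exact mul_inv_eq_one.mp h4
  · intro τ hτ
    simp only [Finset.mem_filter, Finset.mem_univ, true_and] at hτ
    have h5 : Quotient.mk S q.out = Quotient.mk S τ := by rw [Quotient.out_eq q, hτ]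
    obtain ⟨σ, hσ⟩ := Quotient.exact (s := S) h5
    exact ⟨σ, Finset.mem_univ _, hσ⟩
  · intro σ _
    exact (D_perm L σ q.out).symm

end MSch
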