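import Pool.Agent.Lib.MP_369ee2_lc.PairsSuffice
import Pool.Agent.Lib.MP_369ee2_lc.CondIndep

/-!
# Finite predictors (module G0b1)
-/

namespace MSch

open Function MeasureTheory Filter
open scoped Topology

namespace Predict

variable {L : TypeSystem} (R : Realisation L)

/-- the σ-algebra of the tables of depth `N` -/
@[instance_reducible] def FF {s : ℕ} (b : Fin s ↪ ℕ) (N : ℕ) : MeasurableSpace R.Ω :=
  ⨆ q : Pairs s, MeasurableSpace.comap (R.t (xy N (pairEmb b q))) ⊤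

theorem FF_le {s : ℕ} (b : Fin s ↪ ℕ) (N : ℕ) : FF R b N ≤ R.mΩ :=
  iSup_le fun _ => (R.meas _).comap_le

theorem FF_mono {s : ℕ} (b : Fin s ↪ ℕ) : Monotone (FF R b) := by
  intro N M h
  exact iSup_mono fun q => R.mono_comap_xy (pairEmb b q) h

/-- a set of at most two points of `b` is inside a pair -/
theorem exists_pair {s : ℕ} (hs : 2 ≤ s) (b : Fin s ↪ ℕ) {T : Finset ℕ}
    (hT : T ⊆ Finset.univ.map b) (hc : T.card ≤ 2) :
    ∃ q : Pairs s, T ⊆ Finset.univ.map (pairEmb b q) := by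
  classical
  obtain ⟨T', hT', rfl⟩ : ∃ T' : Finset (Fin s), T'.card ≤ 2 ∧ T'.map b = T := by
    refine ⟨Finset.univ.filter (fun i => b i ∈ T), ?_, ?_⟩
    · refine le_trans ?_ hc
      exact Finset.card_le_card_of_injOn b (fun i hi => (Finset.mem_filter.1 hi).2)
        (fun i _ j _ h => b.injective h)
    · ext n
      simp only [Finset.mem_map, Finset.mem_filter, Finset.mem_univ, true_and]
      constructor
      · rintro ⟨i, hi, rfl⟩
        exact hi
      · intro hn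
        obtain ⟨i, -, rfl⟩ := Finset.mem_map.1 (hT hn)
        exact ⟨i, hn, rfl⟩
  obtain ⟨T2, hsub, hcard⟩ := Finset.exists_superset_card_eq hT'
    (by rw [Fintype.card_fin]; exact hs)
  obtain ⟨i, j, hij, rfl⟩ := Finset.card_eq_two.1 hcard
  have key : ∀ i j : Fin s, i < j → T' ⊆ {i, j} →
      ∃ q : Pairs s, T'.map b ⊆ Finset.univ.map (pairEmb b q) := by
    intro i j h hsub
    refine ⟨⟨(i, j), h⟩, fun n hn => ?_⟩
    obtain ⟨k, hk, rfl⟩ := Finset.mem_map.1 hn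
    have := hsub hk
    rw [Finset.mem_insert, Finset.mem_singleton] at this
    rcases this with rfl | rfl
    · exact Finset.mem_map.2 ⟨0, Finset.mem_univ _, rfl⟩
    · exact Finset.mem_map.2 ⟨1, Finset.mem_univ _, rfl⟩
  rcases lt_or_gt_of_ne hij with h | h
  · exact key i j h hsub
  · exact key j i h (by rwa [Finset.pair_comm])

theorem H_le_FF {s : ℕ} (hs : 2 ≤ s) (b : Fin s ↪ ℕ) :
    R.H ({T | T ⊆ Finset.univ.map b} ∩ cardLe 2) ≤ ⨆ N, FF R b N := by
  refine iSup_le fun T => iSup_le fun hT => ?_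
  obtain ⟨q, hq⟩ := exists_pair hs b hT.1 hT.2
  refine (R.G_mono (XY_mono hq)).trans ?_
  rw [← R.iSup_comap_xy]
  refine iSup_mono fun N => ?_
  exact le_iSup (fun q : Pairs s => MeasurableSpace.comap (R.t (xy N (pairEmb b q))) ⊤) q

/-- convergence in measure of the conditional probabilities -/
theorem tendsto_bad {s : ℕ} (hs : 2 ≤ s) (b : Fin s ↪ ℕ) (τ : L.T s) :
    Tendsto (fun N => R.P.real {ω | (1 / 2 : ℝ) ≤
      ‖(R.P[R.ind (b.trans yy) τ | FF R b N]) ω - R.ind (b.trans yy) τ ω‖}) atTop (𝓝 0) := by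
  let ℱ : Filtration ℕ R.mΩ := ⟨FF R b, FF_mono R b, FF_le R b⟩
  have hint : Integrable (R.ind (b.trans yy) τ) R.P := R.integrable_ind _ _
  have h1 : ∀ᵐ ω ∂(R.P), Tendsto (fun n => (R.P[R.ind (b.trans yy) τ | ℱ n]) ω) atTop
      (𝓝 ((R.P[R.ind (b.trans yy) τ | ⨆ n, ℱ n]) ω)) := tendsto_ae_condExp _
  have h2 : R.P[R.ind (b.trans yy) τ | ⨆ n, ℱ n] =ᵐ[R.P] R.ind (b.trans yy) τ := by
    have hps := R.pairs_suffice b τ
    set g := R.P[R.ind (b.trans yy) τ | R.H ({T | T ⊆ Finset.univ.map b} ∩ cardLe 2)] with hg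
    have hle : (⨆ n, (ℱ n : MeasurableSpace R.Ω)) ≤ R.mΩ := iSup_le (FF_le R b)
    have hgm : StronglyMeasurable[⨆ n, (ℱ n : MeasurableSpace R.Ω)] g :=
      stronglyMeasurable_condExp.mono (H_le_FF R hs b)
    have h3 : R.P[R.ind (b.trans yy) τ | ⨆ n, ℱ n] =ᵐ[R.P] R.P[g | ⨆ n, ℱ n] :=
      condExp_congr_ae hps.symm
    have h4 : R.P[g | ⨆ n, (ℱ n : MeasurableSpace R.Ω)] = g :=
      condExp_of_stronglyMeasurable hle hgm integrable_condExp
    rw [h4] at h3
    exact h3.trans hps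
  have h3 : TendstoInMeasure R.P (fun n => R.P[R.ind (b.trans yy) τ | FF R b n]) atTop
      (R.ind (b.trans yy) τ) := by
    refine tendstoInMeasure_of_tendsto_ae (fun n => ?_) ?_
    · exact (stronglyMeasurable_condExp.mono (FF_le R b n)).aestronglyMeasurable
    · filter_upwards [h1, h2] with ω hω hω2
      rwa [hω2] at hω
  exact (tendstoInMeasure_iff_measureReal_norm.1 h3) (1 / 2) (by norm_num)

/-- sets of `FF` are preimages under the table -/
theorem exists_preimage {s : ℕ} (b : Fin s ↪ ℕ) (N : ℕ) {E : Set R.Ω}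
    (hE : MeasurableSet[FF R b N] E) :
    ∃ V : Set (Pairs s → L.T (N + 2)),
      (fun (ω : R.Ω) (q : Pairs s) => R.t (xy N (pairEmb b q)) ω) ⁻¹' V = E := by
  have hle : FF R b N ≤ MeasurableSpace.comap
      (fun (ω : R.Ω) (q : Pairs s) => R.t (xy N (pairEmb b q)) ω) ⊤ := by
    refine iSup_le fun q => ?_
    rintro _ ⟨U, _, rfl⟩
    exact ⟨{v | v q ∈ U}, trivial, rfl⟩
  obtain ⟨V, -, hV⟩ := hle E hE
  exact ⟨V, hV⟩

end Predict

open Predict in
theorem Realisation.predictor {L : TypeSystem} (R : Realisation L) {s : ℕ} (hs : 2 ≤ s)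
    (b : Fin s ↪ ℕ) {ε : ℝ} (hε : 0 < ε) :
    ∃ N₀ : ℕ, ∀ N, N₀ ≤ N → ∃ F : (Pairs s → L.T (N + 2)) → L.T s,
      R.P.real {ω | F (fun q => R.t (xy N (pairEmb b q)) ω) ≠ R.t (b.trans yy) ω} ≤ ε := by
  classical
  have hsum : Tendsto (fun N => ∑ τ : L.T s, R.P.real {ω | (1 / 2 : ℝ) ≤
      ‖(R.P[R.ind (b.trans yy) τ | FF R b N]) ω - R.ind (b.trans yy) τ ω‖}) atTop (𝓝 0) := by
    have := tendsto_finsetSum (Finset.univ : Finset (L.T s))
      (fun τ _ => tendsto_bad R hs b τ)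
    simpa using this
  obtain ⟨N₀, hN₀⟩ := eventually_atTop.1 (hsum.eventually (ge_mem_nhds hε))
  obtain ⟨ω₀⟩ : Nonempty R.Ω := by
    by_contra h
    rw [not_nonempty_iff] at h
    have h1 : R.P Set.univ = 1 := measure_univ
    rw [Set.univ_eq_empty_iff.2 h, measure_empty] at h1
    exact zero_ne_one h1
  refine ⟨N₀, fun N hN => ?_⟩
  have hV : ∀ τ : L.T s, ∃ V : Set (Pairs s → L.T (N + 2)),
      (fun (ω : R.Ω) (q : Pairs s) => R.t (xy N (pairEmb b q)) ω) ⁻¹' V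
        = {ω | (1 / 2 : ℝ) < (R.P[R.ind (b.trans yy) τ | FF R b N]) ω} := fun τ =>
    exists_preimage R b N
      ((stronglyMeasurable_condExp.measurable measurableSet_Ioi :
        MeasurableSet[FF R b N] ((R.P[R.ind (b.trans yy) τ | FF R b N]) ⁻¹' Set.Ioi (1 / 2))))
  choose V hV using hV
  refine ⟨fun v => if h : ∃ τ, v ∈ V τ then h.choose else R.t (b.trans yy) ω₀, ?_⟩
  refine le_trans ?_ (hN₀ N hN)
  refine le_trans (measureReal_mono (s₂ := ⋃ τ : L.T s, {ω | (1 / 2 : ℝ) ≤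
      ‖(R.P[R.ind (b.trans yy) τ | FF R b N]) ω - R.ind (b.trans yy) τ ω‖}) ?_)
    (measureReal_iUnion_fintype_le _)
  intro ω hω
  by_contra hbad
  simp only [Set.mem_iUnion, not_exists, Set.mem_ofPred_eq, not_le] at hbad
  apply hω
  have hmem : ∀ τ, (fun (q : Pairs s) => R.t (xy N (pairEmb b q)) ω) ∈ V τ ↔
      (1 / 2 : ℝ) < (R.P[R.ind (b.trans yy) τ | FF R b N]) ω := by
    intro τ
    have := Set.ext_iff.1 (hV τ) ω
    exact this
  have hiff : ∀ τ, (fun (q : Pairs s) => R.t (xy N (pairEmb b q)) ω) ∈ V τ ↔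
      R.t (b.trans yy) ω = τ := by
    intro τ
    rw [hmem]
    have h1 := hbad τ
    rw [Real.norm_eq_abs, abs_lt] at h1
    unfold Realisation.ind at h1 ⊢
    by_cases h : R.t (b.trans yy) ω = τ
    · rw [if_pos h] at h1
      exact ⟨fun _ => h, fun _ => by linarith⟩
    · rw [if_neg h] at h1
      exact ⟨fun h2 => by linarith, fun h2 => absurd h2 h⟩
  have hex : ∃ τ, (fun (q : Pairs s) => R.t (xy N (pairEmb b q)) ω) ∈ V τ :=
    ⟨_, (hiff _).2 rfl⟩
  show (if h : ∃ τ, (fun (q : Pairs s) => R.t (xy N (pairEmb b q)) ω) ∈ V τ then h.choose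
    else R.t (b.trans yy) ω₀) = _
  rw [dif_pos hex]
  exact ((hiff _).1 hex.choose_spec).symm

end MSch
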