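import Pool.Agent.Lib.MP_369ee2_lc.ProdFormula
import Pool.Agent.Lib.MP_369ee2_lc.CThree
import Pool.Agent.Lib.MP_369ee2_lc.FewValues
import Pool.Agent.Lib.MP_369ee2_lc.Predict

/-!
# Selection of a good point (module G0b2)
-/

namespace MSch

open Function MeasureTheory Filter
open scoped Topology BigOperators

namespace Select

variable {L : TypeSystem} (R : Realisation L)

/-- the two-element index set of a pair -/
def pset {s : ℕ} (b : Fin s ↪ ℕ) (q : Pairs s) : Finset ℕ := Finset.univ.map (pairEmb b q)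

theorem pset_card {s : ℕ} (b : Fin s ↪ ℕ) (q : Pairs s) : (pset b q).card = 2 := by
  simp [pset]

theorem pairEmb_zero {s : ℕ} (b : Fin s ↪ ℕ) (q : Pairs s) : pairEmb b q 0 = b q.1.1 := rfl

theorem pairEmb_one {s : ℕ} (b : Fin s ↪ ℕ) (q : Pairs s) : pairEmb b q 1 = b q.1.2 := rfl

theorem mem_pset {s : ℕ} (b : Fin s ↪ ℕ) (q : Pairs s) (x : ℕ) :
    x ∈ pset b q ↔ x = b q.1.1 ∨ x = b q.1.2 := by
  unfold pset
  rw [Finset.mem_map]
  constructor
  · rintro ⟨i, _, rfl⟩
    fin_cases i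
    · exact Or.inl rfl
    · exact Or.inr rfl
  · rintro (rfl | rfl)
    · exact ⟨0, Finset.mem_univ _, rfl⟩
    · exact ⟨1, Finset.mem_univ _, rfl⟩

theorem pset_inj {s : ℕ} (b : Fin s ↪ ℕ) : Injective (pset b) := by
  rintro ⟨⟨i, j⟩, hij⟩ ⟨⟨i', j'⟩, hij'⟩ h
  have h1 := (mem_pset b ⟨⟨i', j'⟩, hij'⟩ (b i)).1 (h ▸ (mem_pset b ⟨⟨i, j⟩, hij⟩ _).2 (Or.inl rfl))
  have h2 := (mem_pset b ⟨⟨i', j'⟩, hij'⟩ (b j)).1 (h ▸ (mem_pset b ⟨⟨i, j⟩, hij⟩ _).2 (Or.inr rfl))
  simp only [EmbeddingLike.apply_eq_iff_eq] at h1 h2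
  have hij1 : i < j := hij
  have hij2 : i' < j' := hij'
  rcases h1 with rfl | rfl <;> rcases h2 with rfl | rfl
  · exact absurd hij1 (lt_irrefl _)
  · rfl
  · exact absurd (hij1.trans hij2) (lt_irrefl _)
  · exact absurd hij1 (lt_irrefl _)

/-- conditional expectation of the product of the pair indicators -/
theorem condExp_pairs {s : ℕ} (b : Fin s ↪ ℕ) (N : ℕ) (v : Pairs s → L.T (N + 2)) :
    R.P[∏ q : Pairs s, R.ind (xy N (pairEmb b q)) (v q) | R.H (cardLe 1)] =ᵐ[R.P]
      ∏ q : Pairs s, R.P[R.ind (xy N (pairEmb b q)) (v q) | R.H (cardLe 1)] := by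
  classical
  set g : Finset ℕ → R.Ω → ℝ := fun S =>
    if h : ∃ q, pset b q = S then R.ind (xy N (pairEmb b h.choose)) (v h.choose) else 0 with hg
  have hgq : ∀ q, g (pset b q) = R.ind (xy N (pairEmb b q)) (v q) := by
    intro q
    have h : ∃ q', pset b q' = pset b q := ⟨q, rfl⟩
    have hc : h.choose = q := pset_inj b h.choose_spec
    simp only [hg]
    rw [dif_pos h, hc]
  have h1 := R.condExp_prod (k := 2) (by norm_num) (Finset.univ.image (pset b)) (by
    intro S hS
    obtain ⟨q, _, rfl⟩ := Finset.mem_image.1 hS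
    exact pset_card b q) g (by
    intro S hS
    obtain ⟨q, _, rfl⟩ := Finset.mem_image.1 hS
    rw [hgq, R.ind_eq_indicator]
    refine StronglyMeasurable.indicator stronglyMeasurable_const ?_
    have h3 := R.meas_G (xy N (pairEmb b q)) (range_xy_subset_XY N _)
    exact h3 (t := {v q}) trivial) (C := 1) (by
    intro S hS ω
    obtain ⟨q, _, rfl⟩ := Finset.mem_image.1 hS
    rw [hgq, abs_of_nonneg (R.ind_nonneg _ _ _)]
    exact R.ind_le_one _ _ _)
  rw [Finset.prod_image (fun x _ y _ h => pset_inj b h),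
    Finset.prod_image (fun x _ y _ h => pset_inj b h)] at h1
  simp only [hgq] at h1
  exact h1

/-- the error event -/
def bad {s : ℕ} (b : Fin s ↪ ℕ) (N : ℕ) (F : (Pairs s → L.T (N + 2)) → L.T s) : Set R.Ω :=
  {ω | F (fun q => R.t (xy N (pairEmb b q)) ω) ≠ R.t (b.trans yy) ω}

theorem measurable_Z {s : ℕ} (b : Fin s ↪ ℕ) (N : ℕ) (F : (Pairs s → L.T (N + 2)) → L.T s) :
    Measurable (fun ω => F (fun q => R.t (xy N (pairEmb b q)) ω)) := by
  have h1 : Measurable (fun ω => fun q => R.t (xy N (pairEmb b q)) ω) :=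
    measurable_pi_lambda _ fun q => R.meas _
  exact (measurable_of_countable F).comp h1

theorem measurableSet_bad {s : ℕ} (b : Fin s ↪ ℕ) (N : ℕ) (F : (Pairs s → L.T (N + 2)) → L.T s) :
    MeasurableSet (bad R b N F) := by
  have h1 := measurable_Z R b N F
  have h2 := R.meas (b.trans yy)
  have h3 : MeasurableSet {p : L.T s × L.T s | p.1 ≠ p.2} := Set.Countable.measurableSet
    (Set.to_countable _)
  exact (h1.prodMk h2) h3

theorem main {s : ℕ} (b : Fin s ↪ ℕ) (N : ℕ) (F : (Pairs s → L.T (N + 2)) → L.T s)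
    (τ : L.T s) : ∀ᵐ ω ∂(R.P),
    |(∑ v : Pairs s → L.T (N + 2), if F v = τ then
        ∏ q : Pairs s, (R.P[R.ind (xy N (pairEmb b q)) (v q) | R.H (cardLe 1)]) ω else 0) - L.D τ|
      ≤ (R.P[(bad R b N F).indicator (fun _ => (1 : ℝ)) | R.H (cardLe 1)]) ω := by
  classical
  set Z : R.Ω → Pairs s → L.T (N + 2) := fun ω q => R.t (xy N (pairEmb b q)) ω with hZ
  set G : R.Ω → ℝ := fun ω => if F (Z ω) = τ then 1 else 0 with hG
  set h : (Pairs s → L.T (N + 2)) → R.Ω → ℝ := fun v => if F v = τ then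
    ∏ q : Pairs s, R.ind (xy N (pairEmb b q)) (v q) else 0 with hh
  have hprod : ∀ v ω, (∏ q : Pairs s, R.ind (xy N (pairEmb b q)) (v q)) ω
      = if v = Z ω then 1 else 0 := by
    intro v ω
    rw [Finset.prod_apply]
    split_ifs with hv
    · refine Finset.prod_eq_one fun q _ => ?_
      unfold Realisation.ind
      rw [if_pos]
      rw [hv]
    · obtain ⟨q, hq⟩ := Function.ne_iff.1 hv
      refine Finset.prod_eq_zero (Finset.mem_univ q) ?_
      unfold Realisation.ind
      rw [if_neg]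
      exact fun h => hq h.symm
  have hGs : G = ∑ v, h v := by
    funext ω
    rw [Finset.sum_apply, Finset.sum_eq_single (Z ω)]
    · simp only [hG, hh]
      split_ifs
      · rw [hprod, if_pos rfl]
      · rfl
    · intro v _ hv
      simp only [hh]
      split_ifs
      · rw [hprod, if_neg hv]
      · rfl
    · intro h; exact absurd (Finset.mem_univ _) h
  have hpm : ∀ v : Pairs s → L.T (N + 2),
      Measurable (∏ q : Pairs s, R.ind (xy N (pairEmb b q)) (v q)) := by
    intro v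
    have e : (∏ q : Pairs s, R.ind (xy N (pairEmb b q)) (v q))
        = fun ω => ∏ q : Pairs s, R.ind (xy N (pairEmb b q)) (v q) ω :=
      funext fun ω => Finset.prod_apply _ _ _
    rw [e]
    exact Finset.measurable_fun_prod _ fun q _ => R.measurable_ind _ _
  have hhm : ∀ v, Measurable (h v) := by
    intro v
    simp only [hh]
    split_ifs
    · exact hpm v
    · exact measurable_const
  have hhb : ∀ v ω, |h v ω| ≤ 1 := by
    intro v ω
    simp only [hh]
    split_ifs
    · rw [hprod]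
      split_ifs <;> norm_num
    · norm_num
  have hhi : ∀ v, Integrable (h v) R.P := fun v => R.integrable_of_bdd (hhm v) (hhb v)
  have hGi : Integrable G R.P := by
    rw [hGs]
    exact integrable_finsetSum' _ fun v _ => hhi v
  have hBi : Integrable ((bad R b N F).indicator (fun _ => (1 : ℝ))) R.P :=
    (integrable_const 1).indicator (measurableSet_bad R b N F)
  have hIi := R.integrable_ind (b.trans yy) τ
  have e1 : R.P[G | R.H (cardLe 1)] =ᵐ[R.P] ∑ v, R.P[h v | R.H (cardLe 1)] := by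
    rw [hGs]
    exact condExp_finsetSum (fun v _ => hhi v) _
  have e2 : ∀ v, R.P[h v | R.H (cardLe 1)] =ᵐ[R.P] fun ω => if F v = τ then
      ∏ q : Pairs s, (R.P[R.ind (xy N (pairEmb b q)) (v q) | R.H (cardLe 1)]) ω else 0 := by
    intro v
    by_cases hv : F v = τ
    · have := condExp_pairs R b N v
      simp only [hh, if_pos hv]
      filter_upwards [this] with ω hω
      rw [hω, Finset.prod_apply]
    · simp only [hh, if_neg hv]
      rw [condExp_zero]
      rfl
  have e3 := ae_all_iff.2 e2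
  have e4 := R.types_indep b τ
  have e5 : R.P[G - R.ind (b.trans yy) τ | R.H (cardLe 1)] ≤ᵐ[R.P]
      R.P[(bad R b N F).indicator (fun _ => (1 : ℝ)) | R.H (cardLe 1)] := by
    refine condExp_mono (hGi.sub hIi) hBi (Eventually.of_forall fun ω => ?_)
    simp only [Pi.sub_apply, hG, Realisation.ind, Set.indicator, bad, Set.mem_ofPred_eq]
    by_cases hω : F (Z ω) = R.t (b.trans yy) ω
    · rw [hω, sub_self]
      split_ifs <;> norm_num
    · rw [if_pos hω]
      split_ifs <;> norm_num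
  have e6 : R.P[R.ind (b.trans yy) τ - G | R.H (cardLe 1)] ≤ᵐ[R.P]
      R.P[(bad R b N F).indicator (fun _ => (1 : ℝ)) | R.H (cardLe 1)] := by
    refine condExp_mono (hIi.sub hGi) hBi (Eventually.of_forall fun ω => ?_)
    simp only [Pi.sub_apply, hG, Realisation.ind, Set.indicator, bad, Set.mem_ofPred_eq]
    by_cases hω : F (Z ω) = R.t (b.trans yy) ω
    · rw [hω, sub_self]
      split_ifs <;> norm_num
    · rw [if_pos hω]
      split_ifs <;> norm_num
  have e7 := condExp_sub hGi hIi (R.H (cardLe 1))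
  have e8 := condExp_sub hIi hGi (R.H (cardLe 1))
  filter_upwards [e1, e3, e4, e5, e6, e7, e8] with ω h1 h3 h4 h5 h6 h7 h8
  have hsum : (∑ v : Pairs s → L.T (N + 2), if F v = τ then
        ∏ q : Pairs s, (R.P[R.ind (xy N (pairEmb b q)) (v q) | R.H (cardLe 1)]) ω else 0) = (R.P[G | R.H (cardLe 1)]) ω := by
    rw [h1, Finset.sum_apply]
    exact Finset.sum_congr rfl fun v _ => (h3 v).symm
  rw [hsum, abs_le]
  rw [h7, Pi.sub_apply, h4] at h5
  rw [h8, Pi.sub_apply, h4] at h6
  constructor <;> linarith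

theorem condExp_ind_mem (a : Fin 2 ↪ ℕ) (N : ℕ) (w : L.T (N + 2)) : ∀ᵐ ω ∂(R.P),
    0 ≤ (R.P[R.ind (xy N a) w | R.H (cardLe 1)]) ω ∧
      (R.P[R.ind (xy N a) w | R.H (cardLe 1)]) ω ≤ 1 := by
  have h0 : (0 : R.Ω → ℝ) ≤ᵐ[R.P] R.P[R.ind (xy N a) w | R.H (cardLe 1)] :=
    condExp_nonneg (Eventually.of_forall fun ω => R.ind_nonneg _ _ _)
  have h1 : R.P[R.ind (xy N a) w | R.H (cardLe 1)] ≤ᵐ[R.P]
      R.P[(fun _ => (1 : ℝ)) | R.H (cardLe 1)] :=
    condExp_mono (R.integrable_ind _ _) (integrable_const 1)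
      (Eventually.of_forall fun ω => R.ind_le_one _ _ _)
  rw [condExp_const (R.H_le _)] at h1
  filter_upwards [h0, h1] with ω a1 a2
  exact ⟨a1, a2⟩

/-- the pair of points `i < j < M` -/
def pe {M : ℕ} (i j : Fin M) (h : i < j) : Fin 2 ↪ ℕ := (pr i j (ne_of_lt h)).trans Fin.valEmbedding

theorem pe_eq {M s : ℕ} (b : Fin s ↪o Fin M) (q : Pairs s) :
    pe (b q.1.1) (b q.1.2) (b.strictMono q.2) =
      pairEmb (b.toEmbedding.trans Fin.valEmbedding) q := by
  ext i
  fin_cases i <;> rfl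

end Select

open Select in
theorem approx_array' (L : TypeSystem) (R : Realisation L) (K : ℕ) (hK : L.B ^ 2 < K + 1)
    (M : ℕ) {ε : ℝ} (hε : 0 < ε) :
    ∃ (N : ℕ) (p : Fin M → Fin M → L.T (N + 2) → ℝ), (∀ i j w, 0 ≤ p i j w ∧ p i j w ≤ 1) ∧
      (∀ i j, i < j → Nat.card {w // 0 < p i j w} ≤ K) ∧
      ∀ (s : ℕ) (b : Fin s ↪o Fin M), ∃ F : (Pairs s → L.T (N + 2)) → L.T s, ∀ τ,
        |(∑ v : Pairs s → L.T (N + 2),
          if F v = τ then ∏ q : Pairs s, p (b q.1.1) (b q.1.2) (v q) else 0) - L.D τ| ≤ ε := by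
  classical
  -- the finitely many pairs `(s, b)`
  let I : Type := Σ s : Fin (M + 1), (Fin (s : ℕ) ↪o Fin M)
  have hIfin : Finite I := inferInstance
  have := Fintype.ofFinite I
  set c : ℝ := (Fintype.card I : ℝ) + 1 with hc
  have hc0 : 0 < c := by positivity
  have hδ : 0 < ε / c := by positivity
  let emb : ∀ i : I, Fin (i.1 : ℕ) ↪ ℕ := fun i => i.2.toEmbedding.trans Fin.valEmbedding
  have hpred : ∀ i : I, ∃ N₀ : ℕ, ∀ N, N₀ ≤ N → ∃ F : (Pairs i.1 → L.T (N + 2)) → L.T i.1,
      2 ≤ (i.1 : ℕ) → R.P.real (bad R (emb i) N F) ≤ ε / c := by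
    intro i
    have hne : Nonempty (L.T i.1) := by
      by_contra hcon
      rw [not_nonempty_iff] at hcon
      have := L.D_sum i.1
      rw [Finset.univ_eq_empty, Finset.sum_empty] at this
      exact zero_ne_one this
    by_cases h2 : 2 ≤ (i.1 : ℕ)
    · obtain ⟨N₀, hN₀⟩ := R.predictor h2 (emb i) hδ
      exact ⟨N₀, fun N hN => by
        obtain ⟨F, hF⟩ := hN₀ N hN
        exact ⟨F, fun _ => hF⟩⟩
    · exact ⟨0, fun N _ => ⟨fun _ => hne.some, fun h => absurd h h2⟩⟩
  choose N₀ hN₀ using hpred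
  set N : ℕ := Finset.univ.sup N₀ with hN
  have hN' : ∀ i, N₀ i ≤ N := fun i => Finset.le_sup (Finset.mem_univ i)
  choose F hF using fun i => hN₀ i N (hN' i)
  -- the error functions
  set e : I → R.Ω → ℝ := fun i => if 2 ≤ (i.1 : ℕ) then
    R.P[(bad R (emb i) N (F i)).indicator (fun _ => (1 : ℝ)) | R.H (cardLe 1)] else 0 with he
  have heint : ∀ i, Integrable (e i) R.P := by
    intro i
    simp only [he]
    split_ifs
    · exact integrable_condExp
    · exact integrable_zero _ _ _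
  have heI : ∀ i, ∫ ω, e i ω ∂(R.P) ≤ ε / c := by
    intro i
    simp only [he]
    split_ifs with h2
    · rw [integral_condExp (R.H_le _), integral_indicator (measurableSet_bad R _ _ _),
        setIntegral_const, smul_eq_mul, mul_one]
      exact hF i h2
    · simp only [Pi.zero_apply, integral_zero]
      exact hδ.le
  have hsumI : ∫ ω, ∑ i, e i ω ∂(R.P) < ε := by
    rw [integral_finsetSum _ fun i _ => heint i]
    calc ∑ i, ∫ ω, e i ω ∂(R.P) ≤ ∑ _i : I, ε / c := Finset.sum_le_sum fun i _ => heI i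
      _ = (c - 1) * (ε / c) := by
        rw [Finset.sum_const, Finset.card_univ, nsmul_eq_mul, hc]; ring
      _ < c * (ε / c) := by
        apply mul_lt_mul_of_pos_right _ hδ
        linarith
      _ = ε := by field_simp
  -- almost sure properties
  have hA1 : ∀ᵐ ω ∂(R.P), ∀ (i j : Fin M) (h : i < j),
      Nat.card {a : L.T (N + 2) // 0 < (R.P[R.ind (xy N (pe i j h)) a | R.H (cardLe 1)]) ω} ≤ K := by
    rw [ae_all_iff]; intro i
    rw [ae_all_iff]; intro j
    rw [ae_all_iff]; intro h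
    exact R.few_values K hK N (pe i j h)
  have hA2 : ∀ᵐ ω ∂(R.P), ∀ (i j : Fin M) (h : i < j) (w : L.T (N + 2)),
      0 ≤ (R.P[R.ind (xy N (pe i j h)) w | R.H (cardLe 1)]) ω ∧
        (R.P[R.ind (xy N (pe i j h)) w | R.H (cardLe 1)]) ω ≤ 1 := by
    rw [ae_all_iff]; intro i
    rw [ae_all_iff]; intro j
    rw [ae_all_iff]; intro h
    rw [ae_all_iff]; intro w
    exact condExp_ind_mem R (pe i j h) N w
  have hA3 : ∀ᵐ ω ∂(R.P), ∀ (i : I) (τ : L.T i.1),
      |(∑ v : Pairs i.1 → L.T (N + 2), if F i v = τ then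
        ∏ q : Pairs i.1, (R.P[R.ind (xy N (pairEmb (emb i) q)) (v q) | R.H (cardLe 1)]) ω else 0)
          - L.D τ| ≤ (R.P[(bad R (emb i) N (F i)).indicator (fun _ => (1 : ℝ)) |
            R.H (cardLe 1)]) ω := by
    rw [ae_all_iff]; intro i
    rw [ae_all_iff]; intro τ
    exact main R (emb i) N (F i) τ
  have hA4 : ∀ᵐ ω ∂(R.P), ∀ i : I, 0 ≤ e i ω := by
    rw [ae_all_iff]; intro i
    simp only [he]
    split_ifs
    · have h0 : (0 : R.Ω → ℝ) ≤ᵐ[R.P]
          R.P[(bad R (emb i) N (F i)).indicator (fun _ => (1 : ℝ)) | R.H (cardLe 1)] :=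
        condExp_nonneg (Eventually.of_forall fun ω => by
          simp only [Pi.zero_apply, Set.indicator]; split_ifs <;> norm_num)
      exact h0
    · exact Eventually.of_forall fun ω => le_rfl
  -- a good point
  have hgood : ∃ ω, (∑ i, e i ω < ε) ∧ (∀ (i j : Fin M) (h : i < j),
      Nat.card {a : L.T (N + 2) // 0 < (R.P[R.ind (xy N (pe i j h)) a | R.H (cardLe 1)]) ω} ≤ K) ∧
      (∀ (i j : Fin M) (h : i < j) (w : L.T (N + 2)),
      0 ≤ (R.P[R.ind (xy N (pe i j h)) w | R.H (cardLe 1)]) ω ∧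
        (R.P[R.ind (xy N (pe i j h)) w | R.H (cardLe 1)]) ω ≤ 1) ∧
      (∀ (i : I) (τ : L.T i.1),
      |(∑ v : Pairs i.1 → L.T (N + 2), if F i v = τ then
        ∏ q : Pairs i.1, (R.P[R.ind (xy N (pairEmb (emb i) q)) (v q) | R.H (cardLe 1)]) ω else 0)
          - L.D τ| ≤ (R.P[(bad R (emb i) N (F i)).indicator (fun _ => (1 : ℝ)) |
            R.H (cardLe 1)]) ω) ∧ ∀ i : I, 0 ≤ e i ω := by
    by_contra hcon
    have h1 : ∀ᵐ ω ∂(R.P), ε ≤ ∑ i, e i ω := by
      filter_upwards [hA1, hA2, hA3, hA4] with ω b1 b2 b3 b4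
      by_contra hlt
      exact hcon ⟨ω, not_le.1 hlt, b1, b2, b3, b4⟩
    have h2 : ε ≤ ∫ ω, ∑ i, e i ω ∂(R.P) := by
      calc ε = ∫ _ω, ε ∂(R.P) := by simp
        _ ≤ _ := integral_mono_ae (integrable_const ε)
            (integrable_finsetSum _ fun i _ => heint i) h1
    linarith
  obtain ⟨ω, g0, g1, g2, g3, g4⟩ := hgood
  refine ⟨N, fun i j w => if h : i < j then
    (R.P[R.ind (xy N (pe i j h)) w | R.H (cardLe 1)]) ω else 0, ?_, ?_, ?_⟩
  · intro i j w
    simp only
    split_ifs with h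
    · exact g2 i j h w
    · norm_num
  · intro i j h
    simp only [dif_pos h]
    exact g1 i j h
  · intro s b
    have hsM : s ≤ M := by
      simpa using Fintype.card_le_of_injective b b.injective
    set i : I := ⟨⟨s, Nat.lt_succ_of_le hsM⟩, b⟩ with hi
    refine ⟨F i, fun τ => ?_⟩
    by_cases h2 : 2 ≤ s
    · have h3 := g3 i τ
      have h4 : e i ω ≤ ∑ i, e i ω := Finset.single_le_sum (fun j _ => g4 j) (Finset.mem_univ i)
      have h5 : e i ω = (R.P[(bad R (emb i) N (F i)).indicator (fun _ => (1 : ℝ)) |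
            R.H (cardLe 1)]) ω := by
        simp only [he]
        rw [if_pos (show 2 ≤ (i.1 : ℕ) from h2)]
      have h6 : (∑ v : Pairs s → L.T (N + 2), if F i v = τ then
          ∏ q : Pairs s, (if h : b q.1.1 < b q.1.2 then
            (R.P[R.ind (xy N (pe (b q.1.1) (b q.1.2) h)) (v q) | R.H (cardLe 1)]) ω else 0) else 0)
          = (∑ v : Pairs s → L.T (N + 2), if F i v = τ then
        ∏ q : Pairs s, (R.P[R.ind (xy N (pairEmb (emb i) q)) (v q) | R.H (cardLe 1)]) ω else 0) := by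
        refine Finset.sum_congr rfl fun v _ => ?_
        congr 1
        refine Finset.prod_congr rfl fun q _ => ?_
        rw [dif_pos (b.strictMono q.2), pe_eq]
      rw [h6]
      refine h3.trans ?_
      rw [← h5]
      linarith
    · have hsub : Subsingleton (L.T s) := by
        have : s = 0 ∨ s = 1 := by omega
        rcases this with rfl | rfl
        · have := L.card_le 0
          rw [Nat.choose_eq_zero_of_lt (by norm_num), pow_zero] at this
          rw [← Fintype.card_le_one_iff_subsingleton]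
          exact_mod_cast this
        · exact L.one
      have hemp : IsEmpty (Pairs s) := by
        constructor
        rintro ⟨⟨x, y⟩, hxy⟩
        have := x.2
        have := y.2
        have hxy' : (x : ℕ) < y := hxy
        omega
      have hD : L.D τ = 1 := by
        rw [← L.D_sum s]
        rw [Fintype.sum_eq_single τ]
        intro τ' hτ'
        exact absurd (Subsingleton.elim _ _) hτ'
      have hone : (∑ v : Pairs s → L.T (N + 2), if F i v = τ then
          ∏ q : Pairs s, (if h : b q.1.1 < b q.1.2 then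
            (R.P[R.ind (xy N (pe (b q.1.1) (b q.1.2) h)) (v q) | R.H (cardLe 1)]) ω else 0) else 0)
          = 1 := by
        rw [Fintype.sum_eq_single (fun q => (hemp.false q).elim)]
        · rw [if_pos (Subsingleton.elim _ _), Fintype.prod_empty]
        · intro v hv
          exact absurd (funext fun q => (hemp.false q).elim) hv
      rw [hone, hD, sub_self, abs_zero]
      exact hε.le

end MSch
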