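import Pool.Agent.Lib.MP_369ee2_lc.TDefs

/-!
# Module G0a (MP_369ee2_lc): coding lemma for tables
-/

namespace MSch

open Function

/-- a nonnegative weight with at most `K` atoms is the image of a weight on `Fin K` -/
private theorem code_one {W : Type} [Fintype W] [DecidableEq W] [Nonempty W] (K : ℕ)
    (p : W → ℝ) (hp : ∀ w, 0 ≤ p w ∧ p w ≤ 1) (hs : Nat.card {w // 0 < p w} ≤ K) :
    ∃ (d : Fin K → W) (m : Fin K → ℝ), (∀ c, 0 ≤ m c ∧ m c ≤ 1) ∧
      ∀ w, ∑ c ∈ Finset.univ.filter (fun c => d c = w), m c = p w := by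
  classical
  have hs' : Fintype.card {w // 0 < p w} ≤ Fintype.card (Fin K) := by
    rw [Fintype.card_fin, ← Nat.card_eq_fintype_card]
    exact hs
  obtain ⟨e⟩ := Embedding.nonempty_of_card_le hs'
  let d : Fin K → W := fun c =>
    if h : ∃ w : {w // 0 < p w}, e w = c then (Classical.choose h).1 else Classical.arbitrary W
  have hd : ∀ w : {w // 0 < p w}, d (e w) = w.1 := by
    intro w
    have h : ∃ w' : {w // 0 < p w}, e w' = e w := ⟨w, rfl⟩
    have h2 := e.injective (Classical.choose_spec h)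
    change (if h : ∃ w' : {w // 0 < p w}, e w' = e w then (Classical.choose h).1
      else Classical.arbitrary W) = w.1
    rw [dif_pos h, h2]
  refine ⟨d, fun c => if ∃ w : {w // 0 < p w}, e w = c then p (d c) else 0, ?_, ?_⟩
  · intro c
    dsimp only
    split_ifs
    · exact hp _
    · exact ⟨le_rfl, zero_le_one⟩
  · intro w
    by_cases hw : 0 < p w
    · rw [Finset.sum_eq_single (e ⟨w, hw⟩)]
      · rw [if_pos ⟨⟨w, hw⟩, rfl⟩, hd]
      · intro c hc hne
        rw [Finset.mem_filter] at hc
        rw [if_neg]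
        rintro ⟨w', rfl⟩
        apply hne
        rw [hd] at hc
        congr 1
        exact Subtype.ext hc.2
      · intro hnot
        exfalso
        apply hnot
        rw [Finset.mem_filter]
        exact ⟨Finset.mem_univ _, hd ⟨w, hw⟩⟩
    · have h0 : p w = 0 := le_antisymm (not_lt.mp hw) (hp w).1
      rw [h0]
      refine Finset.sum_eq_zero fun c hc => ?_
      rw [Finset.mem_filter] at hc
      split_ifs
      · rw [hc.2, h0]
      · rfl

/-- coding lemma: tables over an arbitrary finite set with at most `K` values of positive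
probability for every pair are tables over `Fin K` -/
theorem tab_code {W : Type} [Fintype W] [DecidableEq W] [Nonempty W] (K M : ℕ)
    (p : Fin M → Fin M → W → ℝ) (hp : ∀ i j w, 0 ≤ p i j w ∧ p i j w ≤ 1)
    (hs : ∀ i j, i < j → Nat.card {w // 0 < p i j w} ≤ K) :
    ∃ μ : Fin M → Fin M → Fin K → ℝ, (∀ i j c, 0 ≤ μ i j c ∧ μ i j c ≤ 1) ∧
      ∀ (s : ℕ) (b : Fin s ↪o Fin M) (T : Type) [DecidableEq T] (F : (Pairs s → W) → T),
        ∃ F' : (Pairs s → Fin K) → T, ∀ τ,
        tabProb (fun q c => μ (b q.1.1) (b q.1.2) c) F' τ =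
          ∑ v : Pairs s → W, if F v = τ then ∏ q : Pairs s, p (b q.1.1) (b q.1.2) (v q) else 0 := by
  classical
  have key : ∀ i j, ∃ (d : Fin K → W) (m : Fin K → ℝ), (∀ c, 0 ≤ m c ∧ m c ≤ 1) ∧
      (i < j → ∀ w, ∑ c ∈ Finset.univ.filter (fun c => d c = w), m c = p i j w) := by
    intro i j
    by_cases hij : i < j
    · obtain ⟨d, m, h1, h2⟩ := code_one K (p i j) (hp i j) (hs i j hij)
      exact ⟨d, m, h1, fun _ => h2⟩
    · exact ⟨fun _ => Classical.arbitrary W, fun _ => 0, fun _ => ⟨le_rfl, zero_le_one⟩,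
        fun h => absurd h hij⟩
  choose d m hm hsum using key
  refine ⟨m, hm, ?_⟩
  intro s b T _ F
  let D : (Pairs s → Fin K) → (Pairs s → W) := fun a q => d (b q.1.1) (b q.1.2) (a q)
  refine ⟨fun a => F (D a), fun τ => ?_⟩
  unfold tabProb
  rw [← Finset.sum_fiberwise Finset.univ D]
  refine Finset.sum_congr rfl fun v _ => ?_
  have h1 : ∑ a ∈ Finset.univ.filter (fun a => D a = v),
      (if F (D a) = τ then ∏ q : Pairs s, m (b q.1.1) (b q.1.2) (a q) else 0) =
      if F v = τ then ∑ a ∈ Finset.univ.filter (fun a => D a = v),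
        ∏ q : Pairs s, m (b q.1.1) (b q.1.2) (a q) else 0 := by
    split_ifs with hF
    · refine Finset.sum_congr rfl fun a ha => ?_
      rw [Finset.mem_filter] at ha
      rw [ha.2, if_pos hF]
    · refine Finset.sum_eq_zero fun a ha => ?_
      rw [Finset.mem_filter] at ha
      rw [ha.2, if_neg hF]
  rw [h1]
  congr 1
  have h2 : Finset.univ.filter (fun a => D a = v) =
      Fintype.piFinset (fun q : Pairs s =>
        Finset.univ.filter (fun c => d (b q.1.1) (b q.1.2) c = v q)) := by
    ext a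
    simp only [Finset.mem_filter, Finset.mem_univ, true_and, Fintype.mem_piFinset]
    exact ⟨fun h q => congrFun h q, fun h => funext h⟩
  rw [h2, ← Finset.prod_univ_sum]
  refine Finset.prod_congr rfl fun q _ => ?_
  exact hsum _ _ (b.lt_iff_lt.mpr q.2) _

end MSch
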