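import Pool.Agent.Lib.MP_369ee2_lc.RExist
import Pool.Agent.Lib.MP_369ee2_lc.ExactArray
import Pool.Agent.Lib.MP_369ee2_lc.TabCode
import Pool.Agent.Lib.MP_369ee2_lc.Select
import Pool.Agent.Lib.MP_369ee2_lc.ArithH
import Pool.Agent.Lib.MP_369ee2_lc.OrbitSum

/-!
# Part II: there is no type system
-/

namespace MSch

open Function MeasureTheory

theorem approx_array (L : TypeSystem) (R : Realisation L) (K : ℕ) (hK : L.B ^ 2 < K + 1)
    (M : ℕ) {ε : ℝ} (hε : 0 < ε) :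
    ∃ μ : Fin M → Fin M → Fin K → ℝ, (∀ i j c, 0 ≤ μ i j c ∧ μ i j c ≤ 1) ∧
      ∀ (s : ℕ) (b : Fin s ↪o Fin M), ∃ F : (Pairs s → Fin K) → L.T s, ∀ τ : L.T s,
        |tabProb (fun p c => μ (b p.1.1) (b p.1.2) c) F τ - L.D τ| ≤ ε := by
  obtain ⟨N, p, hp, hs, hF⟩ := approx_array' L R K hK M hε
  have hne : Nonempty (L.T (N + 2)) := by
    by_contra hcon
    rw [not_nonempty_iff] at hcon
    have := L.D_sum (N + 2)
    rw [Finset.univ_eq_empty, Finset.sum_empty] at this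
    exact zero_ne_one this
  obtain ⟨μ, hμ, hcode⟩ := tab_code K M p hp hs
  refine ⟨μ, hμ, fun s b => ?_⟩
  obtain ⟨F, hF1⟩ := hF s b
  obtain ⟨F', hF'⟩ := hcode s b (L.T s) F
  exact ⟨F', fun τ => by rw [hF' τ]; exact hF1 τ⟩

theorem no_typeSystem (L : TypeSystem) : False := by
  obtain ⟨R⟩ := exists_realisation L
  obtain ⟨K, hK⟩ := exists_nat_gt (L.B ^ 2)
  have hK' : L.B ^ 2 < K + 1 := by linarith
  obtain ⟨μ, hμ⟩ := exact_array L K (fun M ε hε => approx_array L R K hK' M hε)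
  refine no_unit_factorials μ (fun s => orbit_sum L s (fun τ => ?_))
  obtain ⟨F, hF⟩ := hμ s
  rw [← hF τ]
  unfold tabProb
  refine Subalgebra.sum_mem _ (fun a _ => ?_)
  split_ifs
  · exact Subalgebra.prod_mem _ (fun p _ => Algebra.subset_adjoin ⟨a p, rfl⟩)
  · exact Subalgebra.zero_mem _

end MSch
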