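import Pool.Agent.Lib.MP_369ee2_lc.HighTypes

/-!
# Pairs determine everything (module D')
-/

namespace MSch

open Function MeasureTheory Filter

namespace Realisation

variable {L : TypeSystem} (R : Realisation L)

namespace PairsSuffice

/-- the lower sets `A_j` -/
def low (S : Finset ℕ) (j : ℕ) : Set (Finset ℕ) := {T | T ⊆ S} ∩ cardLe j

theorem ev_H (S : Finset ℕ) (j : ℕ) : R.H (low S (j + 2)) ≤
    eventuallyMeasurableSpace (R.H (low S 2)) (ae R.P) := by
  induction j with
  | zero => exact le_eventuallyMeasurableSpace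
  | succ j ih =>
    refine iSup_le fun T => iSup_le fun hT => ?_
    by_cases hc : T.card ≤ j + 2
    · exact (R.G_le_H (A := low S (j + 2)) (S := T) ⟨hT.1, hc⟩).trans ih
    · have hcard : T.card = j + 3 := by
        have h1 : T.card ≤ j + 1 + 2 := hT.2
        omega
      intro E hE
      have hsub : {U : Finset ℕ | U ⊂ T} ⊆ low S (j + 2) := by
        intro U hU
        refine ⟨hU.1.trans hT.1, ?_⟩
        have h1 : U.card < T.card := Finset.card_lt_card hU
        change U.card ≤ j + 2
        omega
      have hm : StronglyMeasurable[R.G (XY T)] (E.indicator (fun _ => (1 : ℝ))) :=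
        (measurable_const.indicator hE).stronglyMeasurable
      have hb : ∀ ω, |E.indicator (fun _ => (1 : ℝ)) ω| ≤ 1 := by
        intro ω
        by_cases hω : ω ∈ E
        · rw [Set.indicator_of_mem hω]; simp
        · rw [Set.indicator_of_notMem hω]; simp
      have key := R.high_types (k := j + 3) (by omega) T hcard hm hb
      set h : R.Ω → ℝ := R.P[E.indicator (fun _ => (1 : ℝ)) | R.H {U | U ⊂ T}] with hh
      have hhm : Measurable[R.H (low S (j + 2))] h := by
        have h1 : StronglyMeasurable[R.H {U | U ⊂ T}] h := stronglyMeasurable_condExp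
        exact h1.measurable.mono (R.H_mono hsub) le_rfl
      have hF : MeasurableSet[R.H (low S (j + 2))] (h ⁻¹' {1}) :=
        hhm (measurableSet_singleton 1)
      refine EventuallyMeasurableSet.congr (m := R.H (low S 2)) (ih _ hF) ?_
      filter_upwards [key] with ω hω
      apply propext
      change ω ∈ E ↔ h ω = 1
      rw [hω]
      by_cases hωE : ω ∈ E
      · rw [Set.indicator_of_mem hωE]; simp [hωE]
      · rw [Set.indicator_of_notMem hωE]; simp [hωE]

end PairsSuffice

theorem pairs_suffice {s : ℕ} (b : Fin s ↪ ℕ) (τ : L.T s) :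
    R.P[R.ind (b.trans yy) τ | R.H ({T | T ⊆ Finset.univ.map b} ∩ cardLe 2)] =ᵐ[R.P]
      R.ind (b.trans yy) τ := by
  have h1 : MeasurableSet[R.H (PairsSuffice.low (Finset.univ.map b) (s + 2))]
      {ω | R.t (b.trans yy) ω = τ} := by
    have h2 : R.G (XY (Finset.univ.map b)) ≤
        R.H (PairsSuffice.low (Finset.univ.map b) (s + 2)) := by
      refine R.G_le_H ⟨Finset.Subset.refl _, ?_⟩
      change (Finset.univ.map b).card ≤ s + 2
      rw [Finset.card_map, Finset.card_univ, Fintype.card_fin]
      omega
    refine h2 _ ?_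
    refine R.meas_G (b.trans yy) ?_ (t := {τ}) trivial
    rintro _ ⟨i, rfl⟩
    right
    exact ⟨b i, by simp, rfl⟩
  obtain ⟨F, hF, hEF⟩ := PairsSuffice.ev_H R (Finset.univ.map b) s _ h1
  have h3 : R.ind (b.trans yy) τ =ᵐ[R.P] F.indicator (fun _ => (1 : ℝ)) := by
    rw [R.ind_eq_indicator]
    exact indicator_ae_eq_of_ae_eq_set hEF
  have h4 : StronglyMeasurable[R.H ({T | T ⊆ Finset.univ.map b} ∩ cardLe 2)]
      (F.indicator (fun _ => (1 : ℝ))) :=
    (measurable_const.indicator hF).stronglyMeasurable
  have h5 : Integrable (F.indicator (fun _ => (1 : ℝ))) R.P :=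
    (R.integrable_ind (b.trans yy) τ).congr h3
  refine (condExp_congr_ae h3).trans ?_
  rw [condExp_of_stronglyMeasurable (R.H_le _) h4 h5]
  exact h3.symm

end Realisation

end MSch
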