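import Pool.Agent.Lib.MP_369ee2_lc.ProdFormula

/-!
# The product formula for indexed families
-/

namespace MSch
open Function MeasureTheory Filter
namespace Realisation
variable {L : TypeSystem} (R : Realisation L)

theorem condExp_prod_fam {k : ℕ} (hk : 1 ≤ k) {ι : Type} (s : Finset ι) (S : ι → Finset ℕ)
    (hinj : Set.InjOn S s) (hcard : ∀ i ∈ s, (S i).card = k) (g : ι → R.Ω → ℝ)
    (hg : ∀ i ∈ s, StronglyMeasurable[R.G (XY (S i))] (g i)) {C : ℝ}
    (hC : ∀ i ∈ s, ∀ ω, |g i ω| ≤ C) :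
    R.P[∏ i ∈ s, g i | R.H (cardLe (k - 1))] =ᵐ[R.P]
      ∏ i ∈ s, R.P[g i | R.H (cardLe (k - 1))] := by
  classical
  let g' : Finset ℕ → R.Ω → ℝ := fun T =>
    if h : ∃ i ∈ s, S i = T then g h.choose else 0
  have hg' : ∀ i ∈ s, g' (S i) = g i := by
    intro i hi
    have h : ∃ i' ∈ s, S i' = S i := ⟨i, hi, rfl⟩
    change (if h : ∃ i' ∈ s, S i' = S i then g h.choose else 0) = g i
    rw [dif_pos h]
    congr 1
    exact hinj h.choose_spec.1 hi h.choose_spec.2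
  have h1 : ∏ i ∈ s, g i = ∏ T ∈ s.image S, g' T := by
    rw [Finset.prod_image hinj]
    exact Finset.prod_congr rfl fun i hi => (hg' i hi).symm
  have h2 : ∏ i ∈ s, R.P[g i | R.H (cardLe (k - 1))] =
      ∏ T ∈ s.image S, R.P[g' T | R.H (cardLe (k - 1))] := by
    rw [Finset.prod_image hinj]
    exact Finset.prod_congr rfl fun i hi => by rw [hg' i hi]
  rw [h1, h2]
  refine R.condExp_prod hk _ ?_ g' ?_ (C := C) ?_
  · intro T hT
    obtain ⟨i, hi, rfl⟩ := Finset.mem_image.1 hT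
    exact hcard i hi
  · intro T hT
    obtain ⟨i, hi, rfl⟩ := Finset.mem_image.1 hT
    rw [hg' i hi]
    exact hg i hi
  · intro T hT ω
    obtain ⟨i, hi, rfl⟩ := Finset.mem_image.1 hT
    rw [hg' i hi]
    exact hC i hi ω

theorem stronglyMeasurable_ind {k : ℕ} (a : Fin k ↪ ℕ) (τ : L.T k) {S : Set ℕ}
    (h : Set.range a ⊆ S) : StronglyMeasurable[R.G S] (R.ind a τ) := by
  have h1 : R.ind a τ = (fun υ => if υ = τ then (1 : ℝ) else 0) ∘ R.t a := rfl
  rw [h1]
  exact ((measurable_from_top (f := fun υ : L.T k => if υ = τ then (1 : ℝ) else 0)).comp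
    (R.meas_G a h)).stronglyMeasurable

theorem abs_ind_le {k : ℕ} (a : Fin k ↪ ℕ) (τ : L.T k) (ω : R.Ω) : |R.ind a τ ω| ≤ 1 := by
  rw [abs_of_nonneg (R.ind_nonneg a τ ω)]; exact R.ind_le_one a τ ω

end Realisation
end MSch
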