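import Pool.Agent.Lib.MP_369ee2_lc.Defs

/-!
# Realisation of a type system as an exchangeable random structure on `ℕ`
-/

namespace MSch

open Function MeasureTheory

instance instMeasT (L : TypeSystem) (k : ℕ) : MeasurableSpace (L.T k) := ⊤

/-- A random structure on `ℕ` realising the type system `L`: `t a` is the type of the injective
tuple `a`; every injection of `ℕ` into `ℕ` acts by a measure preserving map. -/
structure Realisation (L : TypeSystem) where
  Ω : Type
  mΩ : MeasurableSpace Ω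
  P : Measure Ω
  prob : IsProbabilityMeasure P
  t : ∀ {k : ℕ}, (Fin k ↪ ℕ) → Ω → L.T k
  meas : ∀ {k : ℕ} (a : Fin k ↪ ℕ), Measurable (t a)
  comp : ∀ {j k : ℕ} (ι : Fin j ↪ Fin k) (a : Fin k ↪ ℕ) (ω : Ω), t (ι.trans a) ω = L.res ι (t a ω)
  law : ∀ {k : ℕ} (a : Fin k ↪ ℕ) (τ : L.T k), P.real {ω | t a ω = τ} = L.D τ
  shift : (ℕ ↪ ℕ) → Ω → Ω
  shift_mp : ∀ φ : ℕ ↪ ℕ, MeasurePreserving (shift φ) P P
  t_shift : ∀ (φ : ℕ ↪ ℕ) {k : ℕ} (a : Fin k ↪ ℕ) (ω : Ω), t a (shift φ ω) = t (a.trans φ) ω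

attribute [instance] Realisation.mΩ Realisation.prob

namespace Realisation

variable {L : TypeSystem} (R : Realisation L)

/-- the σ-algebra generated by the types of all tuples inside `S` -/
@[instance_reducible] def G (S : Set ℕ) : MeasurableSpace R.Ω :=
  ⨆ (k : ℕ) (a : Fin k ↪ ℕ) (_ : Set.range a ⊆ S), MeasurableSpace.comap (R.t a) ⊤

end Realisation

/-- base points: the even numbers -/
def xx : ℕ ↪ ℕ := ⟨fun i => 2 * i, fun _ _ h => by simpa using h⟩

/-- further points: the odd numbers -/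
def yy : ℕ ↪ ℕ := ⟨fun i => 2 * i + 1, fun _ _ h => by simpa using h⟩

/-- the tuple `(x_0, …, x_{N-1}, y_{b 0}, …, y_{b (k-1)})` -/
def xy (N : ℕ) {k : ℕ} (b : Fin k ↪ ℕ) : Fin (N + k) ↪ ℕ :=
  ⟨Fin.append (fun i : Fin N => xx i) (fun j : Fin k => yy (b j)), by
    intro i j
    refine Fin.addCases (fun i => ?_) (fun i => ?_) i <;>
      refine Fin.addCases (fun j => ?_) (fun j => ?_) j
    · simp only [Fin.append_left]
      intro h
      exact congrArg _ (Fin.ext (xx.injective h))
    · simp only [Fin.append_left, Fin.append_right]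
      intro h
      change 2 * (i : ℕ) = 2 * (b j) + 1 at h
      omega
    · simp only [Fin.append_left, Fin.append_right]
      intro h
      change 2 * (b i) + 1 = 2 * (j : ℕ) at h
      omega
    · simp only [Fin.append_right]
      intro h
      exact congrArg _ (b.injective (yy.injective h))⟩

/-- the set `X ∪ y_S` -/
def XY (S : Finset ℕ) : Set ℕ := Set.range xx ∪ yy '' (S : Set ℕ)

/-- the injection of `ℕ` which swaps `y_i` and `y_j` -/
def ysw (i j : ℕ) : ℕ ↪ ℕ := (Equiv.swap (yy i) (yy j)).toEmbedding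

namespace Realisation

variable {L : TypeSystem} (R : Realisation L)

/-- `H A = ⨆_{S ∈ A} G (X ∪ y_S)` -/
@[instance_reducible] def H (A : Set (Finset ℕ)) : MeasurableSpace R.Ω := ⨆ S ∈ A, R.G (XY S)

/-- indicator (as a real function) of the event `t a = τ` -/
noncomputable def ind {k : ℕ} (a : Fin k ↪ ℕ) (τ : L.T k) : R.Ω → ℝ :=
  fun ω => if R.t a ω = τ then 1 else 0

end Realisation

/-- finsets with at most `k` elements -/
def cardLe (k : ℕ) : Set (Finset ℕ) := {S | S.card ≤ k}

end MSch
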