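import Pool.Agent.Lib.MP_369ee2_lc.RSeq

/-!
# Existence of a realisation of a type system
-/

namespace MSch

open Function MeasureTheory

namespace RExist

variable (L : TypeSystem)

/-- compatible sequences of types -/
def Om : Type := {s : ∀ n, L.T n // ∀ n, L.res Fin.castSuccEmb (s (n + 1)) = s n}

/-- the generating sets -/
def cyl (n : ℕ) (τ : L.T n) : Set (Om L) := {s | s.1 n = τ}

/-- the family of generating sets -/
def Cyl : Set (Set (Om L)) := {A | ∃ (n : ℕ) (τ : L.T n), A = cyl L n τ}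

instance : MeasurableSpace (Om L) := MeasurableSpace.generateFrom (Cyl L)

theorem meas_cyl (n : ℕ) (τ : L.T n) : MeasurableSet (cyl L n τ) :=
  MeasurableSpace.measurableSet_generateFrom ⟨n, τ, rfl⟩

theorem meas_coord (n : ℕ) : Measurable fun s : Om L => s.1 n :=
  measurable_to_countable' fun τ => meas_cyl L n τ

variable {L}

theorem meas_om {Ω : Type} [MeasurableSpace Ω] {f : Ω → Om L}
    (h : ∀ n, Measurable fun ω => (f ω).1 n) : Measurable f := by
  refine measurable_generateFrom ?_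
  rintro A ⟨n, τ, rfl⟩
  exact h n (MeasurableSpace.measurableSet_top (s := {τ}))

/-- a tuple with values below `N` -/
def low {k : ℕ} (a : Fin k ↪ ℕ) (N : ℕ) (h : ∀ i, a i < N) : Fin k ↪ Fin N :=
  ⟨fun i => ⟨a i, h i⟩, fun i j hij => a.injective (by simpa using congrArg Fin.val hij)⟩

/-- a bound of a tuple -/
def bd {k : ℕ} (a : Fin k ↪ ℕ) : ℕ := (Finset.univ.sup fun i => a i) + 1

theorem lt_bd {k : ℕ} (a : Fin k ↪ ℕ) (i : Fin k) : a i < bd a :=
  Nat.lt_succ_of_le (Finset.le_sup (f := fun i => a i) (Finset.mem_univ i))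

theorem res_castLE (s : Om L) {N M : ℕ} (h : N ≤ M) :
    L.res (Fin.castLEEmb h) (s.1 M) = s.1 N := by
  induction M, h using Nat.le_induction with
  | base =>
    have : Fin.castLEEmb (le_refl N) = Embedding.refl (Fin N) := by ext i; rfl
    rw [this, L.res_refl]
  | succ M h ih =>
    have : Fin.castLEEmb (Nat.le_succ_of_le h) =
        (Fin.castLEEmb h).trans (Fin.castSuccEmb : Fin M ↪ Fin (M + 1)) := by ext i; rfl
    rw [this, L.res_trans, s.2 M, ih]

/-- type of a tuple -/
def ty {k : ℕ} (a : Fin k ↪ ℕ) (s : Om L) : L.T k := L.res (low a (bd a) (lt_bd a)) (s.1 (bd a))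

theorem low_eq (s : Om L) {k : ℕ} (a : Fin k ↪ ℕ) {N M : ℕ} (h : N ≤ M) (hN : ∀ i, a i < N) :
    L.res (low a N hN) (s.1 N) = L.res (low a M fun i => (hN i).trans_le h) (s.1 M) := by
  rw [← res_castLE s h, ← L.res_trans]
  congr 1

theorem ty_eq (s : Om L) {k : ℕ} (a : Fin k ↪ ℕ) {N : ℕ} (hN : ∀ i, a i < N) :
    ty a s = L.res (low a N hN) (s.1 N) := by
  rw [low_eq s a (le_max_right (bd a) N) hN, ty, low_eq s a (le_max_left (bd a) N) (lt_bd a)]

theorem ty_comp {j k : ℕ} (ι : Fin j ↪ Fin k) (a : Fin k ↪ ℕ) (s : Om L) :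
    ty (ι.trans a) s = L.res ι (ty a s) := by
  rw [ty_eq s (ι.trans a) (N := bd a) fun i => lt_bd a (ι i), ty, ← L.res_trans]
  congr 1

theorem meas_ty {k : ℕ} (a : Fin k ↪ ℕ) : Measurable (ty (L := L) a) := by
  have h1 : Measurable fun τ : L.T (bd a) => L.res (low a (bd a) (lt_bd a)) τ :=
    fun _ _ => MeasurableSpace.measurableSet_top
  exact h1.comp (meas_coord L (bd a))

/-- the initial tuple -/
def ini (n : ℕ) : Fin n ↪ ℕ := Fin.valEmbedding

theorem ty_ini (n : ℕ) (s : Om L) : ty (ini n) s = s.1 n := by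
  rw [ty_eq s (ini n) (N := n) fun i => i.2]
  have : low (ini n) n (fun i => i.2) = Embedding.refl (Fin n) := by ext i; rfl
  rw [this, L.res_refl]

/-- the shift by an injection -/
def sh (φ : ℕ ↪ ℕ) (s : Om L) : Om L :=
  ⟨fun n => ty ((ini n).trans φ) s, fun n => by
    rw [← ty_comp]
    congr 1⟩

theorem ty_sh (φ : ℕ ↪ ℕ) {k : ℕ} (a : Fin k ↪ ℕ) (s : Om L) :
    ty a (sh φ s) = ty (a.trans φ) s := by
  show L.res (low a (bd a) (lt_bd a)) (ty ((ini (bd a)).trans φ) s) = _
  rw [← ty_comp]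
  congr 1

theorem meas_sh (φ : ℕ ↪ ℕ) : Measurable (sh (L := L) φ) :=
  meas_om fun n => meas_ty _

theorem isPi : IsPiSystem (Cyl L) := by
  have key : ∀ (n : ℕ) (τ : L.T n) (m : ℕ) (υ : L.T m), n ≤ m →
      (cyl L n τ ∩ cyl L m υ).Nonempty → cyl L n τ ∩ cyl L m υ = cyl L m υ := by
    rintro n τ m υ h ⟨s, hs1, hs2⟩
    refine Set.inter_eq_right.2 fun s' hs' => ?_
    have h1 : s.1 n = τ := hs1
    have h2 : s.1 m = υ := hs2
    have h3 : s'.1 m = υ := hs'
    show s'.1 n = τ
    rw [← res_castLE s' h, h3, ← h2, res_castLE s h, h1]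
  rintro A ⟨n, τ, rfl⟩ B ⟨m, υ, rfl⟩ hne
  rcases le_total n m with h | h
  · exact ⟨m, υ, key n τ m υ h hne⟩
  · rw [Set.inter_comm] at hne ⊢
    exact ⟨n, τ, key m υ n τ h hne⟩

end RExist

open RExist in
theorem exists_realisation (L : TypeSystem) : Nonempty (Realisation L) := by
  obtain ⟨Ω₀, mΩ₀, P₀, hP₀, s, hs, hcomp, hlaw⟩ := exists_seq_types L
  set f : Ω₀ → Om L := fun ω => ⟨fun n => s n ω, fun n => hcomp n ω⟩ with hf
  have hfm : Measurable f := meas_om fun n => hs n
  set P : Measure (Om L) := P₀.map f with hP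
  haveI : IsProbabilityMeasure P := Measure.isProbabilityMeasure_map hfm.aemeasurable
  have law : ∀ {k : ℕ} (a : Fin k ↪ ℕ) (τ : L.T k), P.real {ω | ty a ω = τ} = L.D τ := by
    intro k a τ
    have hm : MeasurableSet {ω : Om L | ty a ω = τ} :=
      meas_ty a (MeasurableSpace.measurableSet_top (s := {τ}))
    rw [hP, map_measureReal_apply hfm hm]
    have e : f ⁻¹' {ω | ty a ω = τ} =
        ⋃ υ ∈ (Finset.univ.filter fun υ : L.T (bd a) => L.res (low a (bd a) (lt_bd a)) υ = τ),
          {ω | s (bd a) ω = υ} := by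
      ext ω
      simp only [Set.mem_preimage, Set.mem_setOf_eq, Finset.mem_filter, Finset.mem_univ, true_and,
        Set.mem_iUnion, exists_prop, exists_eq_right']
      rfl
    rw [e, measureReal_biUnion_finset]
    · rw [← L.D_res (low a (bd a) (lt_bd a)) τ, Finset.sum_filter]
      refine Finset.sum_congr rfl fun υ _ => ?_
      rw [hlaw]
    · intro υ _ υ' _ hne
      refine Set.disjoint_left.2 fun ω h1 h2 => hne ?_
      have h1' : s (bd a) ω = υ := h1
      have h2' : s (bd a) ω = υ' := h2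
      rw [← h1', ← h2']
    · intro υ _
      exact hs (bd a) (MeasurableSpace.measurableSet_top (s := {υ}))
  have hmp : ∀ φ : ℕ ↪ ℕ, MeasurePreserving (sh (L := L) φ) P P := by
    intro φ
    refine ⟨meas_sh φ, ?_⟩
    haveI : IsProbabilityMeasure (P.map (sh (L := L) φ)) :=
      Measure.isProbabilityMeasure_map (meas_sh φ).aemeasurable
    refine ext_of_generate_finite (Cyl L) rfl isPi ?_ (by simp)
    rintro A ⟨n, τ, rfl⟩
    have h1 : (P.map (sh (L := L) φ)).real (cyl L n τ) = P.real (cyl L n τ) := by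
      rw [map_measureReal_apply (meas_sh φ) (meas_cyl L n τ)]
      have e1 : sh φ ⁻¹' cyl L n τ = {ω | ty ((ini n).trans φ) ω = τ} := rfl
      have e2 : cyl L n τ = {ω | ty (ini n) ω = τ} := by
        ext ω
        show ω.1 n = τ ↔ ty (ini n) ω = τ
        rw [ty_ini]
      rw [e1, e2, law, law]
    exact (measureReal_eq_measureReal_iff).1 h1
  exact ⟨{ Ω := Om L
           mΩ := inferInstance
           P := P
           prob := inferInstance
           t := fun a => ty a
           meas := fun a => meas_ty a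
           comp := fun ι a ω => ty_comp ι a ω
           law := law
           shift := fun φ => sh φ
           shift_mp := hmp
           t_shift := fun φ _ a ω => ty_sh φ a ω }⟩

end MSch
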