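import Mathlib
import Pool.Agent.Lib.MP_369ee2_lc.RDefs

/-!
# A sequence of nested random types (module R1)
-/

namespace MSch

open Function MeasureTheory ProbabilityTheory

namespace RSeq

variable (L : TypeSystem)

/-- the types of `n + 1` points extending a given type of the first `n` points -/
def F (p : Σ n, L.T n) : Type := {υ : L.T (p.1 + 1) // L.res Fin.castSuccEmb υ = p.2}

noncomputable instance (p : Σ n, L.T n) : Fintype (F L p) :=
  inferInstanceAs (Fintype {υ : L.T (p.1 + 1) // L.res Fin.castSuccEmb υ = p.2})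

instance (p : Σ n, L.T n) : DecidableEq (F L p) :=
  inferInstanceAs (DecidableEq {υ : L.T (p.1 + 1) // L.res Fin.castSuccEmb υ = p.2})

instance (p : Σ n, L.T n) : MeasurableSpace (F L p) := ⊤

instance (p : Σ n, L.T n) : DiscreteMeasurableSpace (F L p) := ⟨fun _ => trivial⟩

theorem sum_F (p : Σ n, L.T n) : ∑ υ : F L p, L.D υ.1 = L.D p.2 := by
  rw [← L.D_res Fin.castSuccEmb p.2, ← Finset.sum_filter]
  exact (Finset.sum_subtype _ (by simp) _).symm

/-- the law of the next type -/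
noncomputable def mu (p : Σ n, L.T n) : Measure (F L p) :=
  ∑ υ : F L p, ENNReal.ofReal (L.D υ.1 / L.D p.2) • Measure.dirac υ

theorem mu_singleton (p : Σ n, L.T n) (υ : F L p) :
    mu L p {υ} = ENNReal.ofReal (L.D υ.1 / L.D p.2) := by
  classical
  rw [mu, Measure.finsetSum_apply, Finset.sum_eq_single υ]
  · simp
  · intro υ' _ h
    simp [Measure.dirac_apply' _ (MeasurableSet.singleton υ), h]
  · simp

instance (p : Σ n, L.T n) : IsProbabilityMeasure (mu L p) := by
  constructor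
  rw [mu, Measure.finsetSum_apply]
  have h : ∀ υ : F L p, (ENNReal.ofReal (L.D υ.1 / L.D p.2) • Measure.dirac υ) Set.univ =
      ENNReal.ofReal (L.D υ.1 / L.D p.2) := by
    intro υ
    simp
  rw [Finset.sum_congr rfl fun υ _ => h υ, ← ENNReal.ofReal_sum_of_nonneg
    (fun υ _ => div_nonneg (L.D_pos _).le (L.D_pos _).le), ← Finset.sum_div, sum_F,
    div_self (L.D_pos _).ne', ENNReal.ofReal_one]

/-- the probability space -/
abbrev Om : Type := ∀ p : Σ n, L.T n, F L p

/-- the product measure -/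
noncomputable abbrev Pr : Measure (Om L) := Measure.infinitePi (mu L)

theorem sub0 : Subsingleton (L.T 0) := by
  constructor
  have h : ∀ τ : L.T 0, ∃ υ : L.T 1, L.res (Fin.castSuccEmb : Fin 0 ↪ Fin 1) υ = τ := by
    intro τ
    by_contra hcon
    push Not at hcon
    have h1 := L.D_res (Fin.castSuccEmb : Fin 0 ↪ Fin 1) τ
    rw [Finset.sum_eq_zero fun υ _ => if_neg (hcon υ)] at h1
    exact (L.D_pos τ).ne h1
  intro τ τ'
  obtain ⟨υ, hυ⟩ := h τ
  obtain ⟨υ', hυ'⟩ := h τ'
  rw [← hυ, ← hυ', Subsingleton.elim υ υ']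

theorem non0 : Nonempty (L.T 0) := by
  by_contra hcon
  rw [not_nonempty_iff] at hcon
  have h := L.D_sum 0
  rw [Finset.univ_eq_empty, Finset.sum_empty] at h
  exact zero_ne_one h

/-- the nested random types -/
noncomputable def s : ∀ n, Om L → L.T n
  | 0, _ => (non0 L).some
  | n + 1, ω => (ω ⟨n, s n ω⟩).1

theorem s_succ (n : ℕ) (ω : Om L) : s L (n + 1) ω = (ω ⟨n, s L n ω⟩).1 := rfl

theorem res_s (n : ℕ) (ω : Om L) : L.res Fin.castSuccEmb (s L (n + 1) ω) = s L n ω :=
  (ω ⟨n, s L n ω⟩).2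

/-- the σ-algebra of the coordinate `p` -/
@[instance_reducible] def m (p : Σ n, L.T n) : MeasurableSpace (Om L) :=
  MeasurableSpace.comap (fun ω => ω p) inferInstance

theorem m_le (p : Σ n, L.T n) : m L p ≤ MeasurableSpace.pi :=
  (measurable_pi_apply p).comap_le

theorem indep_m : iIndep (m L) (Pr L) := by
  have h := iIndepFun_infinitePi (P := mu L) (X := fun p (υ : F L p) => υ)
    (fun p => measurable_id)
  exact (iIndepFun_iff_iIndep _ _ _).mp h

/-- the σ-algebra of the first coordinates -/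
@[instance_reducible] def lt (n : ℕ) : MeasurableSpace (Om L) :=
  ⨆ p ∈ {p : Σ n, L.T n | p.1 < n}, m L p

theorem m_le_lt {n : ℕ} (p : Σ n, L.T n) (hp : p.1 < n) : m L p ≤ lt L n :=
  le_iSup₂_of_le (f := fun (p : Σ n, L.T n) (_ : p ∈ {p : Σ n, L.T n | p.1 < n}) => m L p) p hp
    le_rfl

theorem lt_mono {n k : ℕ} (h : n ≤ k) : lt L n ≤ lt L k :=
  iSup₂_le fun p hp => m_le_lt L p (lt_of_lt_of_le hp h)

theorem lt_le (n : ℕ) : lt L n ≤ MeasurableSpace.pi := iSup₂_le fun p _ => m_le L p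

theorem meas_coord (p : Σ n, L.T n) (υ : L.T (p.1 + 1)) :
    MeasurableSet[m L p] {ω : Om L | (ω p).1 = υ} :=
  ⟨{x | x.1 = υ}, trivial, rfl⟩

theorem split (n : ℕ) (υ : L.T (n + 1)) : {ω : Om L | s L (n + 1) ω = υ} =
    {ω | s L n ω = L.res Fin.castSuccEmb υ} ∩
      {ω | (ω ⟨n, L.res Fin.castSuccEmb υ⟩).1 = υ} := by
  ext ω
  constructor
  · intro h
    have h1 : s L n ω = L.res Fin.castSuccEmb υ := by
      rw [← res_s]
      exact congrArg _ h
    refine ⟨h1, ?_⟩
    have h2 : s L (n + 1) ω = υ := h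
    rw [s_succ, h1] at h2
    exact h2
  · rintro ⟨h1, h2⟩
    have h1' : s L n ω = L.res Fin.castSuccEmb υ := h1
    show s L (n + 1) ω = υ
    rw [s_succ, h1']
    exact h2

theorem meas_s (n : ℕ) (τ : L.T n) : MeasurableSet[lt L n] {ω : Om L | s L n ω = τ} := by
  induction n with
  | zero =>
    have := sub0 L
    have h : {ω : Om L | s L 0 ω = τ} = Set.univ := by
      ext ω
      simp only [Set.mem_ofPred_eq, Set.mem_univ, iff_true]
      exact Subsingleton.elim _ _
    rw [h]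
    exact MeasurableSet.univ
  | succ n ih =>
    rw [split]
    refine MeasurableSet.inter (lt_mono L (Nat.le_succ n) _ (ih _)) ?_
    exact m_le_lt L ⟨n, L.res Fin.castSuccEmb τ⟩ (Nat.lt_succ_self n) _
      (meas_coord L ⟨n, L.res Fin.castSuccEmb τ⟩ τ)

theorem law (n : ℕ) (τ : L.T n) : (Pr L).real {ω | s L n ω = τ} = L.D τ := by
  induction n with
  | zero =>
    have := sub0 L
    have h : {ω : Om L | s L 0 ω = τ} = Set.univ := by
      ext ω
      simp only [Set.mem_ofPred_eq, Set.mem_univ, iff_true]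
      exact Subsingleton.elim _ _
    rw [h, probReal_univ, ← L.D_sum 0, Fintype.sum_subsingleton _ τ]
  | succ n ih =>
    rw [split]
    have hind : Indep (⨆ p ∈ {p : Σ n, L.T n | p.1 < n}, m L p)
        (⨆ p ∈ {p : Σ n, L.T n | p = ⟨n, L.res Fin.castSuccEmb τ⟩}, m L p) (Pr L) := by
      refine indep_iSup_of_disjoint (m_le L) (indep_m L) ?_
      rw [Set.disjoint_left]
      rintro p hp rfl
      exact absurd (show n < n from hp) (lt_irrefl n)
    have h1 := (Indep_iff _ _ _).mp hind _ _ (meas_s L n (L.res Fin.castSuccEmb τ))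
      (le_iSup₂_of_le (f := fun (p : Σ n, L.T n)
        (_ : p ∈ {p : Σ n, L.T n | p = ⟨n, L.res Fin.castSuccEmb τ⟩}) => m L p)
        ⟨n, L.res Fin.castSuccEmb τ⟩ rfl le_rfl _
        (meas_coord L ⟨n, L.res Fin.castSuccEmb τ⟩ τ))
    have h2 : Pr L {ω : Om L | (ω ⟨n, L.res Fin.castSuccEmb τ⟩).1 = τ} =
        ENNReal.ofReal (L.D τ / L.D (L.res Fin.castSuccEmb τ)) := by
      have h3 := (measurePreserving_eval_infinitePi (mu L)
        ⟨n, L.res Fin.castSuccEmb τ⟩).measure_preimage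
        (s := {(⟨τ, rfl⟩ : F L ⟨n, L.res Fin.castSuccEmb τ⟩)}) (MeasurableSet.singleton _).nullMeasurableSet
      have h4 := mu_singleton L ⟨n, L.res Fin.castSuccEmb τ⟩ ⟨τ, rfl⟩
      refine Eq.trans ?_ (h3.trans h4)
      congr 1
      ext ω
      constructor
      · intro h
        exact Subtype.ext h
      · intro h
        exact congrArg Subtype.val h
    rw [measureReal_def, h1, h2, ENNReal.toReal_mul, ENNReal.toReal_ofReal
      (div_nonneg (L.D_pos _).le (L.D_pos _).le), ← measureReal_def, ih,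
      mul_div_cancel₀ _ (L.D_pos _).ne']

end RSeq

/-- module R1 -/
theorem exists_seq_types (L : TypeSystem) : ∃ (Ω₀ : Type) (_ : MeasurableSpace Ω₀)
    (P₀ : Measure Ω₀) (_ : IsProbabilityMeasure P₀) (s : ∀ n, Ω₀ → L.T n),
    (∀ n, Measurable (s n)) ∧ (∀ n ω, L.res Fin.castSuccEmb (s (n + 1) ω) = s n ω) ∧
      ∀ n (τ : L.T n), P₀.real {ω | s n ω = τ} = L.D τ := by
  refine ⟨RSeq.Om L, inferInstance, RSeq.Pr L, inferInstance, RSeq.s L, fun n => ?_,
    RSeq.res_s L, RSeq.law L⟩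
  intro A _
  have h : RSeq.s L n ⁻¹' A = ⋃ τ ∈ A, {ω | RSeq.s L n ω = τ} := by
    ext ω
    simp
  rw [h]
  exact MeasurableSet.biUnion (Set.to_countable A) fun τ _ => RSeq.lt_le L n _ (RSeq.meas_s L n τ)

end MSch
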