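import Pool.Agent.Lib.MP_369ee2_lc.RDefs

/-!
# The σ-algebras `G S` and `H A` (module S1)
-/

namespace MSch

open Function MeasureTheory

namespace Realisation

variable {L : TypeSystem} (R : Realisation L)

theorem G_le (S : Set ℕ) : R.G S ≤ R.mΩ := by
  refine iSup_le fun k => iSup_le fun a => iSup_le fun _ => ?_
  exact (R.meas a).comap_le

theorem G_mono {S S' : Set ℕ} (h : S ⊆ S') : R.G S ≤ R.G S' := by
  refine iSup_le fun k => iSup_le fun a => iSup_le fun ha => ?_
  exact le_iSup_of_le k (le_iSup_of_le a (le_iSup_of_le (ha.trans h) le_rfl))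

theorem meas_G {S : Set ℕ} {k : ℕ} (a : Fin k ↪ ℕ) (h : Set.range a ⊆ S) :
    Measurable[R.G S] (R.t a) := by
  refine Measurable.mono (comap_measurable (R.t a)) ?_ le_rfl
  exact le_iSup_of_le k (le_iSup_of_le a (le_iSup_of_le h le_rfl))

theorem H_le (A : Set (Finset ℕ)) : R.H A ≤ R.mΩ :=
  iSup_le fun S => iSup_le fun _ => R.G_le _

theorem H_mono {A A' : Set (Finset ℕ)} (h : A ⊆ A') : R.H A ≤ R.H A' :=
  iSup_le fun S => iSup_le fun hS => le_iSup_of_le S (le_iSup_of_le (h hS) le_rfl)

theorem G_le_H {A : Set (Finset ℕ)} {S : Finset ℕ} (h : S ∈ A) : R.G (XY S) ≤ R.H A :=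
  le_iSup_of_le S (le_iSup_of_le h le_rfl)

theorem _root_.MSch.XY_mono {S T : Finset ℕ} (h : S ⊆ T) : XY S ⊆ XY T :=
  Set.union_subset_union_right _ (Set.image_mono (by exact_mod_cast h))

theorem H_powerset (S : Finset ℕ) : R.H {T | T ⊆ S} = R.G (XY S) := by
  apply le_antisymm
  · exact iSup_le fun T => iSup_le fun hT => R.G_mono (XY_mono hT)
  · exact R.G_le_H (A := {T | T ⊆ S}) (Finset.Subset.refl S)

theorem comap_shift_G (φ : ℕ ↪ ℕ) (S : Set ℕ) :
    (R.G S).comap (R.shift φ) = R.G (φ '' S) := by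
  unfold G
  apply le_antisymm
  · simp only [MeasurableSpace.comap_iSup, MeasurableSpace.comap_comp]
    refine iSup_le fun k => iSup_le fun a => iSup_le fun ha => ?_
    have hrange : Set.range (a.trans φ) ⊆ φ '' S := by
      rintro _ ⟨i, rfl⟩
      exact ⟨a i, ha ⟨i, rfl⟩, rfl⟩
    have heq : R.t a ∘ R.shift φ = R.t (a.trans φ) := funext fun ω => R.t_shift φ a ω
    rw [heq]
    exact le_iSup_of_le k (le_iSup_of_le (a.trans φ) (le_iSup_of_le hrange le_rfl))
  · refine iSup_le fun k => iSup_le fun a => iSup_le fun ha => ?_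
    have hex : ∀ i, ∃ n ∈ S, φ n = a i := fun i => ha ⟨i, rfl⟩
    choose b hb hb' using hex
    let b' : Fin k ↪ ℕ := ⟨b, fun i j hij => by
      have h1 := hb' i
      rw [hij, hb' j] at h1
      exact (a.injective h1).symm⟩
    have hbt : b'.trans φ = a := by
      ext i
      exact hb' i
    have hrange : Set.range b' ⊆ S := by
      rintro _ ⟨i, rfl⟩
      exact hb i
    simp only [MeasurableSpace.comap_iSup, MeasurableSpace.comap_comp]
    have heq : R.t b' ∘ R.shift φ = R.t a := by
      funext ω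
      simp only [Function.comp]
      rw [R.t_shift, hbt]
    rw [← heq]
    exact le_iSup_of_le k (le_iSup_of_le b' (le_iSup_of_le hrange le_rfl))

/-- a `G S`-measurable set is invariant under shifts fixing `S` -/
theorem comp_shift_of_G {S : Set ℕ} {φ : ℕ ↪ ℕ} (h : ∀ n ∈ S, φ n = n) {E : Set R.Ω}
    (hE : MeasurableSet[R.G S] E) : R.shift φ ⁻¹' E = E := by
  let inv : MeasurableSpace R.Ω :=
    { MeasurableSet' := fun E => R.shift φ ⁻¹' E = E
      measurableSet_empty := rfl
      measurableSet_compl := fun E hE => by rw [Set.preimage_compl, hE]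
      measurableSet_iUnion := fun f hf => by
        rw [Set.preimage_iUnion]
        exact Set.iUnion_congr hf }
  have hle : R.G S ≤ inv := by
    refine iSup_le fun k => iSup_le fun a => iSup_le fun ha => ?_
    rintro _ ⟨U, _, rfl⟩
    change R.shift φ ⁻¹' (R.t a ⁻¹' U) = R.t a ⁻¹' U
    ext ω
    have hat : a.trans φ = a := by
      ext i
      exact h _ (ha ⟨i, rfl⟩)
    simp only [Set.mem_preimage]
    rw [R.t_shift, hat]
  exact hle E hE

end Realisation

end MSch
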