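import Pool.Agent.Lib.MP_369ee2_lc.SigmaAPI

/-!
# The σ-algebras generated by `t (xy N b)` (module S2)
-/

namespace MSch

open Function MeasureTheory

theorem xx_apply (i : ℕ) : xx i = 2 * i := rfl
theorem yy_apply (i : ℕ) : yy i = 2 * i + 1 := rfl

theorem xy_left (N : ℕ) {k : ℕ} (b : Fin k ↪ ℕ) (i : Fin N) :
    xy N b (Fin.castAdd k i) = xx i := by
  change Fin.append (fun i : Fin N => xx i) (fun j : Fin k => yy (b j)) (Fin.castAdd k i) = _
  rw [Fin.append_left]

theorem xy_right (N : ℕ) {k : ℕ} (b : Fin k ↪ ℕ) (j : Fin k) :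
    xy N b (Fin.natAdd N j) = yy (b j) := by
  change Fin.append (fun i : Fin N => xx i) (fun j : Fin k => yy (b j)) (Fin.natAdd N j) = _
  rw [Fin.append_right]

theorem range_xy (N : ℕ) {k : ℕ} (b : Fin k ↪ ℕ) :
    Set.range (xy N b) = xx '' {i | i < N} ∪ yy '' Set.range b := by
  ext n
  constructor
  · rintro ⟨i, rfl⟩
    refine Fin.addCases (fun i => ?_) (fun j => ?_) i
    · left
      rw [xy_left]
      exact ⟨i, i.2, rfl⟩
    · right
      rw [xy_right]
      exact ⟨b j, ⟨j, rfl⟩, rfl⟩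
  · rintro (⟨i, hi, rfl⟩ | ⟨_, ⟨j, rfl⟩, rfl⟩)
    · exact ⟨Fin.castAdd k ⟨i, hi⟩, xy_left N b ⟨i, hi⟩⟩
    · exact ⟨Fin.natAdd N j, xy_right N b j⟩

/-- any injective tuple inside the range of another one factors through it -/
theorem exists_trans {k n : ℕ} (a : Fin k ↪ ℕ) (c : Fin n ↪ ℕ)
    (h : Set.range a ⊆ Set.range c) : ∃ ι : Fin k ↪ Fin n, ι.trans c = a := by
  have h1 : ∀ i, ∃ j, c j = a i := fun i => h ⟨i, rfl⟩
  choose f hf using h1
  refine ⟨⟨f, fun i j hij => ?_⟩, ?_⟩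
  · have h2 := hf i
    rw [hij, hf j] at h2
    exact (a.injective h2).symm
  · ext i
    exact hf i

theorem range_xy_subset_XY (N : ℕ) {k : ℕ} (b : Fin k ↪ ℕ) :
    Set.range (xy N b) ⊆ XY (Finset.univ.map b) := by
  rw [range_xy]
  unfold XY
  refine Set.union_subset_union (Set.image_subset_range _ _) ?_
  simp

namespace Realisation

variable {L : TypeSystem} (R : Realisation L)

theorem comap_le_of_range {k n : ℕ} (a : Fin k ↪ ℕ) (c : Fin n ↪ ℕ)
    (h : Set.range a ⊆ Set.range c) :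
    MeasurableSpace.comap (R.t a) ⊤ ≤ MeasurableSpace.comap (R.t c) ⊤ := by
  obtain ⟨ι, rfl⟩ := exists_trans a c h
  rintro _ ⟨U, _, rfl⟩
  refine ⟨L.res ι ⁻¹' U, trivial, ?_⟩
  ext ω
  simp only [Set.mem_preimage]
  rw [R.comp]

theorem comap_le_G {S : Set ℕ} {k : ℕ} (a : Fin k ↪ ℕ) (h : Set.range a ⊆ S) :
    MeasurableSpace.comap (R.t a) ⊤ ≤ R.G S :=
  le_iSup_of_le k (le_iSup_of_le a (le_iSup_of_le h le_rfl))

theorem mono_comap_xy {k : ℕ} (b : Fin k ↪ ℕ) :
    Monotone (fun N => MeasurableSpace.comap (R.t (xy N b)) ⊤) := by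
  intro N M hNM
  apply R.comap_le_of_range
  rw [range_xy, range_xy]
  refine Set.union_subset_union_left _ (Set.image_mono ?_)
  intro i (hi : i < N)
  exact lt_of_lt_of_le hi hNM

theorem iSup_comap_xy {k : ℕ} (b : Fin k ↪ ℕ) :
    ⨆ N, MeasurableSpace.comap (R.t (xy N b)) ⊤ = R.G (XY (Finset.univ.map b)) := by
  apply le_antisymm
  · exact iSup_le fun N => R.comap_le_G _ (range_xy_subset_XY N b)
  · refine iSup_le fun n => iSup_le fun a => iSup_le fun ha => ?_
    -- choose N large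
    let N := (∑ i, a i) + 1
    refine le_iSup_of_le N (R.comap_le_of_range a (xy N b) ?_)
    rintro _ ⟨i, rfl⟩
    rw [range_xy]
    rcases ha ⟨i, rfl⟩ with ⟨m, hm⟩ | ⟨m, hm, hm'⟩
    · left
      refine ⟨m, ?_, hm⟩
      have h1 : a i ≤ ∑ i, a i := Finset.single_le_sum (fun _ _ => Nat.zero_le _) (Finset.mem_univ i)
      rw [← hm, xx_apply] at h1
      change m < (∑ i, a i) + 1
      omega
    · right
      refine ⟨m, ?_, hm'⟩
      simpa using hm

end Realisation

end MSch
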