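import Pool.Agent.Lib.MP_369ee2_lc.SizeLower

/-!
# Few singleton fibres (module I3)
-/

namespace MSch

open Function Filter
open scoped Topology BigOperators

namespace Singletons

section basic
variable {V : Type}

theorem mem_range_ext {j : ℕ} (x : Fin j ↪ V) (a : V) (ha : a ∉ Set.range x) (v : V) :
    v ∈ Set.range (ext x a ha) ↔ v ∈ Set.range x ∨ v = a := by
  constructor
  · rintro ⟨k, hk⟩
    revert hk
    refine Fin.lastCases ?_ (fun k => ?_) k
    · intro hk
      right
      simpa [ext] using hk.symm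
    · intro hk
      left
      exact ⟨k, by simpa [ext] using hk⟩
  · rintro (⟨k, hk⟩ | h)
    · exact ⟨Fin.castSucc k, by simpa [ext] using hk⟩
    · exact ⟨Fin.last j, by simp [ext, h]⟩

theorem ext_congr {j : ℕ} {x x' : Fin j ↪ V} {v v' : V} (hx : x = x') (hv : v = v')
    (h : v ∉ Set.range x) (h' : v' ∉ Set.range x') : ext x v h = ext x' v' h' := by
  subst hx
  subst hv
  rfl

theorem castSucc_ext {j : ℕ} (x : Fin j ↪ V) (v : V) (hv : v ∉ Set.range x) :
    Fin.castSuccEmb.trans (ext x v hv) = x := by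
  ext k
  simp [ext]

theorem del_last_ext {j : ℕ} (x : Fin j ↪ V) (v : V) (hv : v ∉ Set.range x) :
    del (Fin.last j) (ext x v hv) = x := by
  ext k
  simp [del, ext]

theorem notMem_del {j : ℕ} (x : Fin (j + 1) ↪ V) (i : Fin (j + 1)) {v : V}
    (hv : v ∉ Set.range x) : v ∉ Set.range (del i x) := by
  rintro ⟨k, hk⟩
  exact hv ⟨_, hk⟩

theorem del_castSucc_ext {j : ℕ} (x : Fin (j + 1) ↪ V) (i : Fin (j + 1)) (v : V)
    (hv : v ∉ Set.range x) :
    del (Fin.castSucc i) (ext x v hv) = ext (del i x) v (notMem_del x i hv) := by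
  ext k
  refine Fin.lastCases ?_ (fun k => ?_) k
  · have : (Fin.castSucc i).succAbove (Fin.last j) = Fin.last (j + 1) := by
      rw [Fin.succAbove_castSucc_of_le _ _ (Fin.le_last i), Fin.succ_last]
    simp [del, ext, this]
  · simp only [del, ext, Embedding.trans_apply, Fin.succAboveEmb_apply, Embedding.coeFn_mk,
      Fin.snoc_castSucc]
    rw [Fin.castSucc_succAbove_castSucc, Fin.snoc_castSucc]

/-- swapping the last two coordinates -/
theorem swap_ext {j : ℕ} (x : Fin j ↪ V) (a b : V) (ha : a ∉ Set.range x)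
    (hb : b ∉ Set.range (ext x a ha)) (hb' : b ∉ Set.range x) (ha' : a ∉ Set.range (ext x b hb')) :
    (Equiv.swap (Fin.last (j + 1)) (Fin.castSucc (Fin.last j))).toEmbedding.trans
      (ext (ext x a ha) b hb) = ext (ext x b hb') a ha' := by
  ext k
  refine Fin.lastCases ?_ (fun k => ?_) k
  · simp [ext]
  · refine Fin.lastCases ?_ (fun k => ?_) k
    · simp [ext]
    · have h1 : (Fin.castSucc (Fin.castSucc k)) ≠ Fin.last (j + 1) :=
        (Fin.castSucc_lt_last _).ne
      have h2 : (Fin.castSucc (Fin.castSucc k)) ≠ Fin.castSucc (Fin.last j) := by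
        intro h
        exact (Fin.castSucc_lt_last k).ne (Fin.castSucc_injective _ h)
      simp [ext, Equiv.swap_apply_of_ne_of_ne h1 h2]

end basic

variable {V : Type} [Fintype V] {m : ℕ} (Q : MScheme V m)

theorem size_congr {s : ℕ} {x y : Fin s ↪ V} (h : (Q.P s).r x y) : Q.size x = Q.size y := by
  unfold MScheme.size
  exact Nat.card_congr (Equiv.subtypeEquivRight (fun u =>
    ⟨fun hu => (Q.P s).trans' hu h, fun hu => (Q.P s).trans' hu ((Q.P s).symm' h)⟩))

theorem size_perm {s : ℕ} (hs : s ≤ m) (σ : Equiv.Perm (Fin s)) (x : Fin s ↪ V) :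
    Q.size (σ.toEmbedding.trans x) = Q.size x := by
  unfold MScheme.size
  refine (Nat.card_congr (Equiv.subtypeEquiv (RelAPI.reidx σ) (fun u => ?_))).symm
  constructor
  · intro h
    exact Q.inv s hs σ _ _ h
  · intro h
    have h1 := Q.inv s hs σ.symm _ _ h
    have h2 : ∀ y : Fin s ↪ V, σ.symm.toEmbedding.trans (σ.toEmbedding.trans y) = y := by
      intro y
      ext k
      simp
    rw [h2] at h1
    have h3 : σ.symm.toEmbedding.trans (RelAPI.reidx σ u) = u := h2 u
    rw [h3] at h1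
    exact h1

theorem size_pos {s : ℕ} (x : Fin s ↪ V) : 0 < Q.size x := by
  unfold MScheme.size
  haveI : Nonempty {y : Fin s ↪ V // (Q.P s).r y x} := ⟨⟨x, (Q.P s).refl' x⟩⟩
  exact Nat.card_pos

theorem mem_cls_self {j : ℕ} (x : Fin j ↪ V) {v : V} (hv : v ∉ Set.range x) : v ∈ Q.cls x v :=
  ⟨hv, hv, (Q.P _).refl' _⟩

theorem cls_pos {j : ℕ} (x : Fin j ↪ V) {v : V} (hv : v ∉ Set.range x) :
    1 ≤ (Q.cls x v).ncard := by
  rw [Nat.one_le_iff_ne_zero]
  intro h
  rw [Set.ncard_eq_zero (Set.toFinite _)] at h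
  have := mem_cls_self Q x hv
  rw [h] at this
  exact this

theorem eq_of_cls_one {j : ℕ} {x : Fin j ↪ V} {v w : V} (h : (Q.cls x v).ncard = 1)
    (hv : v ∉ Set.range x) (hw : w ∈ Q.cls x v) : w = v := by
  obtain ⟨a, ha⟩ := Set.ncard_eq_one.1 h
  have h1 := mem_cls_self Q x hv
  rw [ha] at hw h1
  rw [Set.mem_singleton_iff] at hw h1
  rw [hw, h1]

theorem cls_symm {j : ℕ} {x : Fin j ↪ V} {v w : V} (h : w ∈ Q.cls x v) : v ∈ Q.cls x w := by
  obtain ⟨h1, h2, h3⟩ := h
  exact ⟨h2, h1, (Q.P _).symm' h3⟩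

theorem cls_trans {j : ℕ} {x : Fin j ↪ V} {u v w : V} (h : u ∈ Q.cls x v)
    (h' : v ∈ Q.cls x w) : u ∈ Q.cls x w := by
  obtain ⟨h1, h2, h3⟩ := h
  obtain ⟨h1', h2', h3'⟩ := h'
  exact ⟨h1, h2', (Q.P _).trans' h3 h3'⟩

/-- a singleton fibre whose last two deletions are related gives a matching -/
theorem matching_of {j : ℕ} (hj1 : 1 ≤ j) (hj : j + 1 ≤ m) (y : Fin j ↪ V) (v : V)
    (hv : v ∉ Set.range y) (h1 : (Q.cls y v).ncard = 1) (i : Fin (j + 1)) (hi : i < Fin.last j)
    (hr : (Q.P j).r (del i (ext y v hv)) y) : Q.HasMatching := by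
  refine ⟨j, hj1, hj, ext y v hv, i, Fin.last j, hi, ?_, ?_⟩
  · rw [del_last_ext]
    exact hr
  · have h2 := size_ext Q hj y v hv
    rw [h1, mul_one] at h2
    have h3 := size_congr Q hr
    unfold MScheme.size at h2 h3
    rw [h2, ← h3]

/-- extension by one point -/
theorem extend_last {k : ℕ} (hk : k + 1 ≤ m) (z : Fin (k + 1) ↪ V) (u : Fin k ↪ V)
    (h : (Q.P k).r u (Fin.castSuccEmb.trans z)) :
    ∃ (w : V) (hw : w ∉ Set.range u), (Q.P (k + 1)).r (ext u w hw) z := by
  have hk1 : Fintype.card (Fin (k + 1)) ≤ m := by simpa using hk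
  have hk0 : Fintype.card (Fin k) ≤ m := by
    rw [Fintype.card_fin]
    omega
  have h' : Q.rel u (Fin.castSuccEmb.trans z) := by
    rw [rel_iff Q hk0 (Equiv.refl (Fin k))]
    exact h
  obtain ⟨x, hx, hxu⟩ := rel_extend Q hk1 Fin.castSuccEmb z h'
  rw [rel_iff Q hk1 (Equiv.refl (Fin (k + 1)))] at hx
  subst hxu
  refine ⟨x (Fin.last k), SizeLower.last_notMem x, ?_⟩
  rw [SizeLower.ext_castSucc]
  exact hx

end Singletons

open Singletons

section I3
/-! ## Module I3 : few singleton fibres -/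
theorem no_singletons_one {B : ℝ} {V : Type} [Fintype V] {m : ℕ} (hm : 2 ≤ m) (g : Good B V m)
    (x : Fin 1 ↪ V) (v : V) (hv : v ∉ Set.range x) : 2 ≤ (g.Q.cls x v).ncard := by
  have h1 := cls_pos g.Q x hv
  by_contra hcon
  have h2 : (g.Q.cls x v).ncard = 1 := by omega
  exact g.nomat (matching_of g.Q le_rfl hm x v hv h2 0 (by decide) (g.hom _ _))

theorem Singletons.cls_zero {B : ℝ} {V : Type} [Fintype V] {m : ℕ} (g : Good B V m)
    (x : Fin 0 ↪ V) (v : V) : (g.Q.cls x v).ncard = Fintype.card V := by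
  have h : g.Q.cls x v = Set.univ := by
    ext w
    simp only [Set.mem_univ, iff_true]
    have h0 : ∀ w : V, w ∉ Set.range x := by
      rintro w ⟨k, _⟩
      exact k.elim0
    exact ⟨h0 w, h0 v, g.hom _ _⟩
  rw [h, Set.ncard_univ, Nat.card_eq_fintype_card]

/-- the fibre of `w₀` over `(x', z)` is a singleton -/
theorem Singletons.fibre_one {B : ℝ} (hB : 1 ≤ B) {V : Type} [Fintype V] {m : ℕ} (g : Good B V m)
    {j : ℕ} (hj : j + 1 < m) (hn : B ^ (2 * (j + 1)) < Fintype.card V) (x' : Fin j ↪ V)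
    (w₀ : V) (hw₀ : w₀ ∉ Set.range x') (z : V) (hz : z ∉ Set.range (ext x' w₀ hw₀))
    (hs : (g.Q.cls (ext x' w₀ hw₀) z).ncard = 1)
    (hz' : z ∉ Set.range x') (h2 : (g.Q.cls x' z).ncard ≠ 1)
    (hw : w₀ ∉ Set.range (ext x' z hz')) : (g.Q.cls (ext x' z hz') w₀).ncard = 1 := by
  have hsz1 := size_ext g.Q hj (ext x' z hz') w₀ hw
  rw [size_ext g.Q (by omega) x' z hz'] at hsz1
  have hsz2 := size_ext g.Q hj (ext x' w₀ hw₀) z hz
  rw [size_ext g.Q (by omega) x' w₀ hw₀, hs, mul_one] at hsz2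
  have hsw := size_perm g.Q (s := j + 2) hj
    (Equiv.swap (Fin.last (j + 1)) (Fin.castSucc (Fin.last j)))
    (ext (ext x' z hz') w₀ hw)
  rw [swap_ext x' z w₀ hz' hw hw₀ hz] at hsw
  rw [hsw, hsz1, mul_assoc] at hsz2
  have hprod := Nat.eq_of_mul_eq_mul_left (size_pos g.Q x') hsz2
  rcases g.rich (j + 1) hj (ext x' z hz') w₀ hw with h | h
  · exact h
  · exfalso
    rcases g.rich j (by omega) x' z hz' with h3 | h3
    · exact h2 h3
    have hcard : ((g.Q.cls x' w₀).ncard : ℝ) ≤ Fintype.card V := by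
      exact_mod_cast SizeLower.ncard_le g.Q x' w₀
    have hn0 : (0 : ℝ) < Fintype.card V := by
      have : (0 : ℝ) < B ^ (2 * (j + 1)) := by positivity
      linarith
    have hprod' : ((g.Q.cls x' z).ncard : ℝ) * (g.Q.cls (ext x' z hz') w₀).ncard =
        (g.Q.cls x' w₀).ncard := by exact_mod_cast hprod
    have hB0 : (0 : ℝ) < B := by linarith
    have h4 : (Fintype.card V : ℝ) * Fintype.card V ≤
        B ^ (2 * j + 1) * Fintype.card V := by
      calc (Fintype.card V : ℝ) * Fintype.card V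
          ≤ (B ^ j * (g.Q.cls x' z).ncard) *
              (B ^ (j + 1) * (g.Q.cls (ext x' z hz') w₀).ncard) := by
            refine mul_le_mul h3 h hn0.le ?_
            positivity
        _ = B ^ (2 * j + 1) * (((g.Q.cls x' z).ncard : ℝ) *
              (g.Q.cls (ext x' z hz') w₀).ncard) := by ring
        _ = B ^ (2 * j + 1) * (g.Q.cls x' w₀).ncard := by rw [hprod']
        _ ≤ B ^ (2 * j + 1) * Fintype.card V := by gcongr
    have h5 : (Fintype.card V : ℝ) ≤ B ^ (2 * j + 1) := le_of_mul_le_mul_right h4 hn0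
    have h6 : B ^ (2 * j + 1) ≤ B ^ (2 * (j + 1)) := pow_le_pow_right₀ hB (by omega)
    linarith

/-- two singletons over `x = (x', w₀)` in the same big fibre over `x'` give a matching -/
theorem Singletons.at_most_one {B : ℝ} {V : Type} [Fintype V] {m : ℕ}
    (g : Good B V m) {j : ℕ} (hj : j + 3 ≤ m) (x' : Fin j ↪ V)
    (w₀ : V) (hw₀ : w₀ ∉ Set.range x') (z z₂ : V)
    (hz₂ : z₂ ∉ Set.range (ext x' w₀ hw₀))
    (hs₂ : (g.Q.cls (ext x' w₀ hw₀) z₂).ncard = 1)
    (hz' : z ∉ Set.range x')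
    (hw : w₀ ∉ Set.range (ext x' z hz')) (he : (g.Q.cls (ext x' z hz') w₀).ncard = 1)
    (hne : z₂ ≠ z) (hmem : z₂ ∈ g.Q.cls x' z) : False := by
  have hz₂' : z₂ ∉ Set.range x' := fun h => hz₂ ((mem_range_ext _ _ _ _).2 (Or.inl h))
  have hz₂y : z₂ ∉ Set.range (ext x' z hz') := by
    rw [mem_range_ext]
    rintro (h | h)
    · exact hz₂' h
    · exact hne h
  have hwz₂ : w₀ ≠ z₂ := fun h => hz₂ ((mem_range_ext _ _ _ _).2 (Or.inr h.symm))
  -- the fibre of z₂ over (x', z) is a singleton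
  have hone : (g.Q.cls (ext x' z hz') z₂).ncard = 1 := by
    rw [Set.ncard_eq_one]
    refine ⟨z₂, ?_⟩
    ext c
    rw [Set.mem_singleton_iff]
    constructor
    · rintro ⟨hc, hc2, hr⟩
      have hwy : w₀ ∉ Set.range (ext (ext x' z hz') z₂ hz₂y) := by
        rw [mem_range_ext]
        rintro (h | h)
        · exact hw h
        · exact hwz₂ h
      obtain ⟨w, hw1, hr2⟩ := extend_last g.Q hj (ext (ext (ext x' z hz') z₂ hz₂y) w₀ hwy)
        (ext (ext x' z hz') c hc) (by
          rw [castSucc_ext]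
          exact hr)
      -- (a)
      have ha := g.Q.compat (j + 2) hj (Fin.castSucc (Fin.last (j + 1))) _ _ hr2
      rw [del_castSucc_ext, del_castSucc_ext] at ha
      have hw3 : w ∉ Set.range (ext x' z hz') := fun h =>
        hw1 ((mem_range_ext _ _ _ _).2 (Or.inl h))
      rw [ext_congr (del_last_ext _ _ _) rfl _ hw3, ext_congr (del_last_ext _ _ _) rfl _ hw] at ha
      have hww : w = w₀ := eq_of_cls_one g.Q he hw ⟨hw3, hw, ha⟩
      subst hww
      -- (b)
      have hb := g.Q.compat (j + 2) hj (Fin.castSucc (Fin.castSucc (Fin.last j))) _ _ hr2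
      have hc' : c ∉ Set.range x' := fun h => hc ((mem_range_ext _ _ _ _).2 (Or.inl h))
      have hwc : w ≠ c := fun h => hw1 ((mem_range_ext _ _ _ _).2 (Or.inr h))
      have hwc' : w ∉ Set.range (ext x' c hc') := by
        rw [mem_range_ext]
        rintro (h | h)
        · exact hw₀ h
        · exact hwc h
      have hwz' : w ∉ Set.range (ext x' z₂ hz₂') := by
        rw [mem_range_ext]
        rintro (h | h)
        · exact hw₀ h
        · exact hwz₂ h
      have e1 : del (Fin.castSucc (Fin.last j)) (ext (ext x' z hz') c hc) = ext x' c hc' := by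
        rw [del_castSucc_ext]
        exact ext_congr (del_last_ext _ _ _) rfl _ _
      have e2 : del (Fin.castSucc (Fin.last j)) (ext (ext x' z hz') z₂ hz₂y) =
          ext x' z₂ hz₂' := by
        rw [del_castSucc_ext]
        exact ext_congr (del_last_ext _ _ _) rfl _ _
      have e3 : del (Fin.castSucc (Fin.castSucc (Fin.last j)))
          (ext (ext (ext x' z hz') c hc) w hw1) = ext (ext x' c hc') w hwc' := by
        rw [del_castSucc_ext]
        exact ext_congr e1 rfl _ _
      have e4 : del (Fin.castSucc (Fin.castSucc (Fin.last j)))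
          (ext (ext (ext x' z hz') z₂ hz₂y) w hwy) = ext (ext x' z₂ hz₂') w hwz' := by
        rw [del_castSucc_ext]
        exact ext_congr e2 rfl _ _
      rw [e3, e4] at hb
      have hb2 := g.Q.inv (j + 2) (by omega)
        (Equiv.swap (Fin.last (j + 1)) (Fin.castSucc (Fin.last j))) _ _ hb
      have hcx : c ∉ Set.range (ext x' w hw₀) := by
        rw [mem_range_ext]
        rintro (h | h)
        · exact hc' h
        · exact hwc h.symm
      rw [swap_ext x' c w hc' hwc' hw₀ hcx, swap_ext x' z₂ w hz₂' hwz' hw₀ hz₂] at hb2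
      exact eq_of_cls_one g.Q hs₂ hz₂ ⟨hcx, hz₂, hb2⟩
    · intro h
      subst h
      exact mem_cls_self g.Q _ hz₂y
  refine g.nomat (matching_of g.Q (by omega) (by omega) (ext x' z hz') z₂ hz₂y hone
    (Fin.castSucc (Fin.last j)) (Fin.castSucc_lt_last _) ?_)
  have e2 : del (Fin.castSucc (Fin.last j)) (ext (ext x' z hz') z₂ hz₂y) =
      ext x' z₂ hz₂' := by
    rw [del_castSucc_ext]
    exact ext_congr (del_last_ext _ _ _) rfl _ _
  rw [e2]
  obtain ⟨_, _, h3⟩ := hmem
  exact h3

theorem few_singletons {B : ℝ} (hB : 1 ≤ B) {V : Type} [Fintype V] {m : ℕ} (g : Good B V m)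
    {j : ℕ} (hj : j + 2 ≤ m) (hn : B ^ (2 * j) < Fintype.card V) (x : Fin j ↪ V) :
    ({v | v ∉ Set.range x ∧ (g.Q.cls x v).ncard = 1}.ncard : ℝ) ≤ j * B ^ j := by
  classical
  induction j with
  | zero =>
    have h : {v | v ∉ Set.range x ∧ (g.Q.cls x v).ncard = 1} = ∅ := by
      ext v
      simp only [Set.mem_setOf_eq, Set.mem_empty_iff_false, iff_false, not_and]
      intro _
      rw [cls_zero g x v]
      have := g.big
      omega
    rw [h]
    simp
  | succ j ih =>
    have hB0 : (0 : ℝ) < B := by linarith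
    have hx := SizeLower.ext_castSucc x
    have hw₀ := SizeLower.last_notMem x
    set x' : Fin j ↪ V := Fin.castSuccEmb.trans x with hx'
    set w₀ := x (Fin.last j) with hw₀def
    have hn' : B ^ (2 * j) < Fintype.card V :=
      lt_of_le_of_lt (pow_le_pow_right₀ hB (by omega)) hn
    have ih' := ih (by omega) hn' x'
    have hn0 : (0 : ℝ) < Fintype.card V := by
      have : (0 : ℝ) < B ^ (2 * (j + 1)) := by positivity
      linarith
    -- the second part
    set S2 : Set V := {v | v ∉ Set.range x ∧ (g.Q.cls x v).ncard = 1 ∧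
      (g.Q.cls x' v).ncard ≠ 1} with hS2
    have hsub : {v | v ∉ Set.range x ∧ (g.Q.cls x v).ncard = 1} ⊆
        {v | v ∉ Set.range x' ∧ (g.Q.cls x' v).ncard = 1} ∪ S2 := by
      rintro v ⟨h1, h2⟩
      by_cases h3 : (g.Q.cls x' v).ncard = 1
      · left
        refine ⟨fun h => h1 ?_, h3⟩
        obtain ⟨k, hk⟩ := h
        exact ⟨_, hk⟩
      · right
        exact ⟨h1, h2, h3⟩
    have hS2card : (S2.ncard : ℝ) ≤ B ^ j := by
      have hfin : S2.Finite := Set.toFinite _
      have hdisj : ∀ z ∈ S2, ∀ z₂ ∈ S2, z₂ ∈ g.Q.cls x' z → z₂ = z := by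
        rintro z ⟨hz1, hz2, hz3⟩ z₂ ⟨hy1, hy2, hy3⟩ hmem
        by_contra hne
        rw [← hx] at hz1 hz2 hy1 hy2
        have hz' : z ∉ Set.range x' := fun h => hz1 ((mem_range_ext _ _ _ _).2 (Or.inl h))
        have hwz : w₀ ∉ Set.range (ext x' z hz') := by
          rw [mem_range_ext]
          rintro (h | h)
          · exact hw₀ h
          · exact hz1 ((mem_range_ext _ _ _ _).2 (Or.inr h.symm))
        have he := fibre_one hB g (by omega) hn x' w₀ hw₀ z hz1 hz2 hz' hz3 hwz
        exact at_most_one g (by omega) x' w₀ hw₀ z z₂ hy1 hy2 hz' hwz he hne hmem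
      have hsum : ∑ z ∈ hfin.toFinset, (g.Q.cls x' z).ncard ≤ Fintype.card V := by
        have h1 : ∀ z, (g.Q.cls x' z).ncard = (g.Q.cls x' z).toFinset.card := by
          intro z
          rw [Set.ncard_eq_toFinset_card']
        rw [Finset.sum_congr rfl (fun z _ => h1 z), ← Finset.card_biUnion]
        · exact Finset.card_le_univ _
        · intro z hz z₂ hz₂ hne
          show Disjoint (g.Q.cls x' z).toFinset (g.Q.cls x' z₂).toFinset
          rw [Finset.disjoint_left]
          intro c hc hc2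
          rw [Set.mem_toFinset] at hc hc2
          apply hne
          have h3 : z₂ ∈ g.Q.cls x' z := cls_trans g.Q (cls_symm g.Q hc2) hc
          exact (hdisj z (hfin.mem_toFinset.1 hz) z₂ (hfin.mem_toFinset.1 hz₂) h3).symm
      have hlow : ∀ z ∈ hfin.toFinset, (Fintype.card V : ℝ) ≤ B ^ j * (g.Q.cls x' z).ncard := by
        intro z hz
        obtain ⟨hz1, hz2, hz3⟩ := hfin.mem_toFinset.1 hz
        have hz' : z ∉ Set.range x' := by
          rintro ⟨k, hk⟩
          exact hz1 ⟨_, hk⟩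
        rcases g.rich j (by omega) x' z hz' with h | h
        · exact absurd h hz3
        · exact h
      have h5 : (S2.ncard : ℝ) * Fintype.card V ≤ B ^ j * Fintype.card V := by
        rw [Set.ncard_eq_toFinset_card S2 hfin]
        calc ((hfin.toFinset.card : ℕ) : ℝ) * Fintype.card V
            = ∑ z ∈ hfin.toFinset, (Fintype.card V : ℝ) := by
              rw [Finset.sum_const, nsmul_eq_mul]
          _ ≤ ∑ z ∈ hfin.toFinset, B ^ j * ((g.Q.cls x' z).ncard : ℝ) :=
              Finset.sum_le_sum hlow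
          _ = B ^ j * ((∑ z ∈ hfin.toFinset, (g.Q.cls x' z).ncard : ℕ) : ℝ) := by
              rw [← Finset.mul_sum]
              push_cast
              rfl
          _ ≤ B ^ j * Fintype.card V := by
              have : ((∑ z ∈ hfin.toFinset, (g.Q.cls x' z).ncard : ℕ) : ℝ) ≤ Fintype.card V := by
                exact_mod_cast hsum
              gcongr
      exact le_of_mul_le_mul_right h5 hn0
    have h6 : ({v | v ∉ Set.range x ∧ (g.Q.cls x v).ncard = 1}.ncard : ℝ) ≤
        ({v | v ∉ Set.range x' ∧ (g.Q.cls x' v).ncard = 1}.ncard : ℝ) + S2.ncard := by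
      have h7 := (Set.ncard_le_ncard hsub (Set.toFinite _)).trans (Set.ncard_union_le _ _)
      exact_mod_cast h7
    have h8 : B ^ j ≤ B ^ (j + 1) := pow_le_pow_right₀ hB (by omega)
    calc ({v | v ∉ Set.range x ∧ (g.Q.cls x v).ncard = 1}.ncard : ℝ)
        ≤ j * B ^ j + B ^ j := by linarith
      _ = (j + 1) * B ^ j := by ring
      _ ≤ (j + 1) * B ^ (j + 1) := by gcongr
      _ = ((j + 1 : ℕ) : ℝ) * B ^ (j + 1) := by push_cast; ring
end I3

end MSch
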