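import Pool.Agent.Lib.MP_369ee2_lc.RelAPI

/-!
# Big colours are really big (module I4a)
-/

namespace MSch

open Function Filter
open scoped Topology BigOperators

namespace SizeLower

variable {V : Type} [Fintype V] {m : ℕ}

theorem ncard_le (Q : MScheme V m) {j : ℕ} (x : Fin j ↪ V) (v : V) :
    (Q.cls x v).ncard ≤ Fintype.card V := by
  refine (Set.ncard_le_ncard (Set.subset_univ _) (Set.toFinite _)).trans ?_
  rw [Set.ncard_univ, Nat.card_eq_fintype_card]

theorem size_le (Q : MScheme V m) {s : ℕ} (x : Fin s ↪ V) :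
    Q.size x ≤ Fintype.card V ^ s := by
  classical
  unfold MScheme.size
  have h1 : Nat.card {y : Fin s ↪ V // (Q.P s).r y x} ≤ Nat.card (Fin s → V) := by
    refine Nat.card_le_card_of_injective (fun y => (y.1 : Fin s → V)) ?_
    intro a b hab
    exact Subtype.ext (DFunLike.coe_injective hab)
  refine h1.trans (le_of_eq ?_)
  rw [Nat.card_eq_fintype_card, Fintype.card_fun, Fintype.card_fin]

theorem last_notMem {s : ℕ} (x : Fin (s + 1) ↪ V) :
    x (Fin.last s) ∉ Set.range (Fin.castSuccEmb.trans x : Fin s ↪ V) := by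
  rintro ⟨k, hk⟩
  simp only [Embedding.trans_apply, Fin.castSuccEmb_apply] at hk
  exact absurd (x.injective hk) (Fin.castSucc_lt_last k).ne

theorem ext_castSucc {s : ℕ} (x : Fin (s + 1) ↪ V) :
    ext (Fin.castSuccEmb.trans x : Fin s ↪ V) (x (Fin.last s)) (last_notMem x) = x := by
  ext k
  refine Fin.lastCases ?_ (fun k => ?_) k
  · simp [ext]
  · simp [ext]

theorem size_zero (Q : MScheme V m) (x : Fin 0 ↪ V) : Q.size x = 1 := by
  unfold MScheme.size
  refine Nat.card_eq_one_iff_unique.2 ⟨⟨fun a b => ?_⟩, ⟨⟨x, (Q.P 0).refl' _⟩⟩⟩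
  refine Subtype.ext ?_
  ext k
  exact k.elim0

theorem dich {B : ℝ} (hB : 1 ≤ B) (g : Good B V m) : ∀ (s : ℕ) (_ : s ≤ m) (x : Fin s ↪ V),
    Fintype.card V * g.Q.size x ≤ Fintype.card V ^ s ∨
      ((Fintype.card V : ℝ)) ^ s ≤ B ^ (s.choose 2) * g.Q.size x := by
  intro s
  induction s with
  | zero =>
    intro _ x
    right
    simp [size_zero]
  | succ s ih =>
    intro hs x
    have hx := ext_castSucc x
    set x' : Fin s ↪ V := Fin.castSuccEmb.trans x with hx'
    set v := x (Fin.last s) with hv
    have hsz : g.Q.size x = g.Q.size x' * (g.Q.cls x' v).ncard := by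
      rw [← size_ext g.Q (by omega) x' v (last_notMem x), hx]
    have hc := ncard_le g.Q x' v
    rcases ih (by omega) x' with h | h
    · left
      rw [hsz, pow_succ, ← mul_assoc]
      exact Nat.mul_le_mul h hc
    · rcases g.rich s (by omega) x' v (last_notMem x) with h1 | h1
      · left
        rw [hsz, h1, mul_one, pow_succ, mul_comm]
        exact Nat.mul_le_mul_right _ (size_le g.Q x')
      · right
        rw [hsz, pow_succ, Nat.choose_succ_succ' s 1, Nat.choose_one_right, pow_add]
        push_cast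
        have hB0 : (0 : ℝ) ≤ B := by linarith
        calc (Fintype.card V : ℝ) ^ s * Fintype.card V
            ≤ (B ^ (s.choose 2) * g.Q.size x') * (B ^ s * (g.Q.cls x' v).ncard) := by
              refine mul_le_mul h h1 (Nat.cast_nonneg _) ?_
              positivity
          _ = B ^ s * B ^ (s.choose 2) * (g.Q.size x' * (g.Q.cls x' v).ncard) := by ring

end SizeLower

/-! ## Module I4a : big colours are really big -/
theorem size_lower {B : ℝ} (hB : 1 ≤ B) {V : Type} [Fintype V] {m : ℕ} (g : Good B V m)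
    {s : ℕ} (hs : s ≤ m) (x : Fin s ↪ V)
    (hx : (Fintype.card V) ^ s < Fintype.card V * g.Q.size x) :
    ((Fintype.card V : ℝ)) ^ s ≤ B ^ (s.choose 2) * g.Q.size x := by
  rcases SizeLower.dich hB g s hs x with h | h
  · exact absurd hx (not_lt.2 h)
  · exact h

end MSch
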