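import Pool.Agent.Lib.MP_369ee2_lc.RDefs

/-!
# Tables
-/

namespace MSch

open Function

/-- increasing pairs of indices -/
abbrev Pairs (s : ℕ) : Type := {p : Fin s × Fin s // p.1 < p.2}

/-- the probability of the value `τ` for a table `F` evaluated at independent pair variables
with laws `μ p` -/
noncomputable def tabProb {s K : ℕ} {T : Type} [DecidableEq T] (μ : Pairs s → Fin K → ℝ)
    (F : (Pairs s → Fin K) → T) (τ : T) : ℝ :=
  ∑ a : Pairs s → Fin K, if F a = τ then ∏ p : Pairs s, μ p (a p) else 0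

/-- the pair of points `b q.1, b q.2` -/
def pairEmb {s : ℕ} (b : Fin s ↪ ℕ) (q : Pairs s) : Fin 2 ↪ ℕ :=
  (pr q.1.1 q.1.2 (ne_of_lt q.2)).trans b

end MSch
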